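import Pool.Agent.H229.Eval

/-!
Construction of normalised trees of tensors from spaces of functions of bits.
-/

namespace Pool.Agent.H229

open Tr Module

variable {K : Type*} [Field K]

/-- evaluations span the dual of a finite dimensional space of functions -/
lemma exists_eval {X : Type*} (U : Submodule K (X → K)) [FiniteDimensional K U]
    (ℓ : Dual K U) : ∃ c : X →₀ K, ∀ u : U, ℓ u = c.sum fun x a => a * u.1 x := by
  classical
  set Φ : (X →₀ K) →ₗ[K] Dual K U := Finsupp.lsum K fun x =>
    (LinearMap.toSpanSingleton K (Dual K U) ((LinearMap.proj x).comp U.subtype)) with hΦ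
  have hΦ' : ∀ (c : X →₀ K) (u : U), Φ c u = c.sum fun x a => a * u.1 x := by
    intro c u
    simp [hΦ, Finsupp.sum, LinearMap.sum_apply]
  have hW : (LinearMap.range Φ).dualCoannihilator = ⊥ := by
    rw [eq_bot_iff]
    intro u hu
    rw [Submodule.mem_dualCoannihilator] at hu
    rw [Submodule.mem_bot]
    apply Subtype.ext
    funext x
    have := hu (Φ (Finsupp.single x 1)) ⟨_, rfl⟩
    rw [hΦ'] at this
    simpa using this
  have hT : LinearMap.range Φ = ⊤ := by
    have h1 : (LinearMap.range Φ : Submodule K (Dual K U)).dualCoannihilator.dualAnnihilator =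
        LinearMap.range Φ := Subspace.dualCoannihilator_dualAnnihilator_eq
    rw [hW] at h1
    rw [← h1, Submodule.dualAnnihilator_bot]
  obtain ⟨c, hc⟩ : ℓ ∈ LinearMap.range Φ := by rw [hT]; trivial
  exact ⟨c, fun u => by rw [← hc, hΦ']⟩

/-- linear coefficients with respect to a spanning family -/
lemma exists_coeff {V : Type*} [AddCommGroup V] [Module K V] {R : ℕ} (U : Submodule K V)
    (v : Fin R → V) (hv : Submodule.span K (Set.range v) = U) :
    ∃ s : Fin R → Dual K U, ∀ u : U, u.1 = ∑ i, s i u • v i := by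
  classical
  set Ψ : (Fin R → K) →ₗ[K] U :=
    (Fintype.linearCombination K fun i => (⟨v i, hv ▸ Submodule.subset_span ⟨i, rfl⟩⟩ : U)) with hΨ
  have hsurj : Function.Surjective Ψ := by
    intro u
    have h1 : u.1 ∈ Submodule.span K (Set.range v) := by rw [hv]; exact u.2
    rw [Submodule.mem_span_range_iff_exists_fun] at h1
    obtain ⟨c, hc⟩ := h1
    refine ⟨c, ?_⟩
    apply Subtype.ext
    rw [← hc, hΨ, Fintype.linearCombination_apply]
    simp
  obtain ⟨g, hg⟩ := Ψ.exists_rightInverse_of_surjective (LinearMap.range_eq_top.2 hsurj)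
  refine ⟨fun i => (LinearMap.proj i).comp g, fun u => ?_⟩
  have h1 : Ψ (g u) = u := LinearMap.congr_fun hg u
  conv_lhs => rw [← h1]
  rw [hΨ, Fintype.linearCombination_apply]
  simp

/-- a function of two arguments lying in two given spaces of functions is a tensor -/
lemma exists_tensor {X Y : Type*} {R : ℕ} (U : Submodule K (X → K)) (W : Submodule K (Y → K))
    [FiniteDimensional K U] (v : Fin R → X → K) (w : Fin R → Y → K)
    (hv : Submodule.span K (Set.range v) = U) (hw : Submodule.span K (Set.range w) = W)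
    (g : X → Y → K) (h1 : ∀ y, (fun x => g x y) ∈ U) (h2 : ∀ x, g x ∈ W) :
    ∃ M : Fin R → Fin R → K, ∀ x y, g x y = ∑ i, ∑ j, M i j * v i x * w j y := by
  classical
  obtain ⟨s, hs⟩ := exists_coeff U v hv
  choose c hc using fun i => exists_eval U (s i)
  have h3 : ∀ i, (fun y => s i ⟨_, h1 y⟩) ∈ W := by
    intro i
    have e : (fun y => s i ⟨_, h1 y⟩) = (c i).sum fun x a => a • g x := by
      funext y
      rw [hc i]
      simp [Finsupp.sum, Finset.sum_apply]
    rw [e]
    exact Submodule.sum_mem _ fun x _ => Submodule.smul_mem _ _ (h2 x)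
  obtain ⟨s', hs'⟩ := exists_coeff W w hw
  refine ⟨fun i j => s' j ⟨_, h3 i⟩, fun x y => ?_⟩
  have e1 := congrFun (hs ⟨_, h1 y⟩) x
  simp only [Finset.sum_apply, Pi.smul_apply, smul_eq_mul] at e1
  rw [e1]
  refine Finset.sum_congr rfl fun i _ => ?_
  have e2 := congrFun (hs' ⟨_, h3 i⟩) y
  simp only [Finset.sum_apply, Pi.smul_apply, smul_eq_mul] at e2
  rw [e2, Finset.sum_mul]
  refine Finset.sum_congr rfl fun j _ => ?_
  ring

/-- every space of small dimension has a spanning family -/
lemma exists_span {V : Type*} [AddCommGroup V] [Module K V] {R : ℕ} (U : Submodule K V)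
    [FiniteDimensional K U] (h : finrank K U ≤ R) :
    ∃ v : Fin R → V, Submodule.span K (Set.range v) = U := by
  classical
  set b := finBasis K U
  refine ⟨fun i => if hi : i.1 < finrank K U then (b ⟨i.1, hi⟩ : V) else 0, ?_⟩
  apply le_antisymm
  · rw [Submodule.span_le]
    rintro _ ⟨i, rfl⟩
    simp only
    split_ifs with hi
    · exact (b ⟨i.1, hi⟩).2
    · exact U.zero_mem
  · intro u hu
    have h1 : u = ∑ i, b.repr ⟨u, hu⟩ i • (b i : V) := by
      have := b.sum_repr ⟨u, hu⟩
      have h2 := congrArg (fun x : U => (x : V)) this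
      simp only [AddSubmonoidClass.coe_finsetSum, SetLike.val_smul] at h2
      exact h2.symm
    rw [h1]
    refine Submodule.sum_mem _ fun i _ => Submodule.smul_mem _ _ (Submodule.subset_span ?_)
    refine ⟨⟨i.1, lt_of_lt_of_le i.2 h⟩, ?_⟩
    simp

/-- functions of bits -/
abbrev Fn (K : Type*) : Type _ := (ℕ → Bool) → K

/-- joining two sequences of bits -/
def join (l : ℕ) (b b' : ℕ → Bool) : ℕ → Bool := fun n => if n < l then b n else b' (n - l)

lemma join_self (l : ℕ) (b : ℕ → Bool) : join l b (fun n => b (n + l)) = b := by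
  funext n
  unfold join
  split_ifs with h
  · rfl
  · simp only
    congr 1
    omega

/-- restriction to a slice -/
def slice (K : Type*) [Field K] (π : List (Option Bool)) : Fn K →ₗ[K] Fn K :=
  LinearMap.funLeft K K (fill π)

@[simp] lemma slice_apply (π : List (Option Bool)) (u : Fn K) (b : ℕ → Bool) :
    slice K π u b = u (fill π b) := rfl

/-- `SubAt T f o`: the tree `f` is a subtree of `T` and its leaves begin after `o` leaves of `T` -/
inductive SubAt {L : Type*} : Tr L → Tr L → ℕ → Prop
  | refl (T : Tr L) : SubAt T T 0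
  | left {h : ℕ} {a : L} {l r f : Tr L} {o : ℕ} (hs : SubAt l f o) :
      SubAt (Tr.node h a l r) f o
  | right {h : ℕ} {a : L} {l r f : Tr L} {o : ℕ} (hs : SubAt r f o) :
      SubAt (Tr.node h a l r) f (l.leaves + o)

/-- exposed subtrees: all subtrees strictly above are higher -/
inductive Exp {L : Type*} : Tr L → Tr L → ℕ → Prop
  | left₀ {h : ℕ} {a : L} {l r : Tr L} (hl : l.ht < h) : Exp (Tr.node h a l r) l 0
  | right₀ {h : ℕ} {a : L} {l r : Tr L} (hl : r.ht < h) : Exp (Tr.node h a l r) r l.leaves
  | left {h : ℕ} {a : L} {l r f : Tr L} {o : ℕ} (hl : f.ht < h) (he : Exp l f o) :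
      Exp (Tr.node h a l r) f o
  | right {h : ℕ} {a : L} {l r f : Tr L} {o : ℕ} (hl : f.ht < h) (he : Exp r f o) :
      Exp (Tr.node h a l r) f (l.leaves + o)

lemma Exp.subAt {L : Type*} {T f : Tr L} {o : ℕ} (h : Exp T f o) : SubAt T f o := by
  induction h with
  | left₀ _ => exact .left (.refl _)
  | right₀ _ => exact .right (.refl _)
  | left _ _ ih => exact .left ih
  | right _ _ ih => exact .right ih

lemma Exp.ht_lt {L : Type*} {T f : Tr L} {o : ℕ} (h : Exp T f o) : f.ht < T.ht := by
  cases h with
  | left₀ h => exact h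
  | right₀ h => exact h
  | left h _ => exact h
  | right h _ => exact h

/-- `DescAt s T f o`: the tree `f` is a subtree of `T`, its leaves begin after `o` leaves of `T`,
and all subtrees on the way, both ends included, have height at least `s` -/
inductive DescAt {L : Type*} (s : ℕ) : Tr L → Tr L → ℕ → Prop
  | refl (T : Tr L) (h : s ≤ T.ht) : DescAt s T T 0
  | left {h : ℕ} {a : L} {l r f : Tr L} {o : ℕ} (hs : s ≤ h) (hd : DescAt s l f o) :
      DescAt s (Tr.node h a l r) f o
  | right {h : ℕ} {a : L} {l r f : Tr L} {o : ℕ} (hs : s ≤ h) (hd : DescAt s r f o) :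
      DescAt s (Tr.node h a l r) f (l.leaves + o)

lemma Exp.descAt {L : Type*} {T f : Tr L} {o : ℕ} (h : Exp T f o) : DescAt f.ht T f o := by
  induction h with
  | left₀ h => exact .left h.le (.refl _ le_rfl)
  | right₀ h => exact .right h.le (.refl _ le_rfl)
  | left h _ ih => exact .left h.le ih
  | right h _ ih => exact .right h.le ih

lemma Exp.desc {L : Type*} {T f : Tr L} {o : ℕ} (h : Exp T f o) : Desc f.ht f T := by
  induction h with
  | left₀ h => exact .left h.le (.refl _ le_rfl)
  | right₀ h => exact .right h.le (.refl _ le_rfl)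
  | left h _ ih => exact .left h.le ih
  | right h _ ih => exact .right h.le ih

/-- the first subtree of height `s` on the way down -/
lemma Desc.exists_exp {L : Type*} {s : ℕ} {f T : Tr L} (h : Desc s f T) (hf : f.ht = s) :
    T.ht = s ∨ ∃ g o, Exp T g o ∧ g.ht = s ∧ Desc s f g := by
  induction h with
  | refl _ => exact Or.inl hf
  | @left h a l r hs hd ih =>
    rcases eq_or_lt_of_le hs with h1 | h1
    · exact Or.inl h1.symm
    · right
      rcases ih with h2 | ⟨g, o, h3, h4, h5⟩
      · exact ⟨l, 0, .left₀ (by omega), h2, hd⟩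
      · exact ⟨g, o, .left (by omega) h3, h4, h5⟩
  | @right h a l r hs hd ih =>
    rcases eq_or_lt_of_le hs with h1 | h1
    · exact Or.inl h1.symm
    · right
      rcases ih with h2 | ⟨g, o, h3, h4, h5⟩
      · exact ⟨r, _, .right₀ (by omega), h2, hd⟩
      · exact ⟨g, _, .right (by omega) h3, h4, h5⟩

/-- the trivial pattern -/
lemma exists_trivial (n : ℕ) : ∃ π : List (Option Bool), π.length = n ∧ free π = n ∧
    ∀ b : ℕ → Bool, ∀ m < n, fill π b m = b m := by
  induction n with
  | zero => exact ⟨[], rfl, rfl, fun b m hm => by omega⟩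
  | succ n ih =>
    obtain ⟨π, h1, h2, h3⟩ := ih
    refine ⟨none :: π, by simp [h1], by simp [free, h2], fun b m hm => ?_⟩
    cases m with
    | zero => rfl
    | succ m => simp only [fill]; exact h3 _ m (by omega)

theorem build {R : ℕ} (U : ℕ → ℕ → Submodule K (Fn K))
    (hfd : ∀ o l, FiniteDimensional K (U o l))
    (hdep : ∀ o l, ∀ u ∈ U o l, ∀ b b' : ℕ → Bool, (∀ n < l, b n = b' n) → u b = u b')
    (hsplit : ∀ o l₁ l₂, ∀ u ∈ U o (l₁ + l₂), ∀ b : ℕ → Bool,
      (fun b₁ => u (join l₁ b₁ b)) ∈ U o l₁ ∧ (fun b₂ => u (join l₁ b b₂)) ∈ U (o + l₁) l₂)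
    (T : Tr Unit) :
    ∀ (o : ℕ), (∀ f o', SubAt T f o' → finrank K (U (o + o') f.leaves) ≤ R) →
      (∀ g o₁, SubAt T g o₁ → ∀ f o₂, DescAt g.ht g f o₂ → f.ht = g.ht →
        ∃ π : List (Option Bool), π.length = g.leaves ∧ free π = f.leaves ∧
          (U (o + o₁) g.leaves).map (slice K π) = U (o + o₁ + o₂) f.leaves) →
      ∀ v : Fin R → Fn K, Submodule.span K (Set.range v) = U o T.leaves →
      ∀ Req : Tr Unit → ℕ → (Fin R → Fn K) → Prop,
        (∀ f o', Exp T f o' → ∃ w : Fin R → Fn K,
          Submodule.span K (Set.range w) = U (o + o') f.leaves ∧ Req f o' w) →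
      ∃ t : Tr (Fin (cR R) → K), t.shape = T ∧ (∀ b a, evalT t b a = v a b) ∧ Normal t ∧
        ∀ f o', Exp t f o' → Req f.shape o' (fun a b => evalT f b a) := by
  have hshl : ∀ t : Tr (Fin (cR R) → K), t.shape.leaves = t.leaves := fun t => leaves_map _ _
  have hshh : ∀ t : Tr (Fin (cR R) → K), t.shape.ht = t.ht := by
    intro t; cases t <;> rfl
  have hshd : ∀ (s : ℕ) (f t : Tr (Fin (cR R) → K)), Desc s f t → Desc s f.shape t.shape := by
    intro s f t h
    induction h with
    | refl h => exact .refl _ (by rw [hshh]; exact h)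
    | left h _ ih => exact .left h ih
    | right h _ ih => exact .right h ih
  induction T with
  | leaf h x =>
    intro o _ _ v hv Req _
    have hleaf : (Tr.leaf h x).leaves = 1 := rfl
    refine ⟨Tr.leaf h (fun q => Sum.elim (fun p => v p.1 (fun _ => p.2)) (fun _ => 0)
      ((enc R).symm q)), rfl, ?_, ?_, ?_⟩
    · intro b a
      simp only [evalT, Equiv.symm_apply_apply, Sum.elim_inl]
      refine hdep o 1 (v a) ?_ _ _ ?_
      · rw [← hleaf, ← hv]; exact Submodule.subset_span ⟨a, rfl⟩
      · intro n hn
        have : n = 0 := by omega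
        rw [this]
    · intro f hd hf
      cases hd with
      | refl _ =>
        obtain ⟨π, h1, h2, h3⟩ := exists_trivial 1
        refine ⟨π, h1, h2, fun b a => evalT_congr _ (fun n hn => ?_) a⟩
        exact (h3 b n hn).symm
    · intro f o' he; cases he
  | node h x l r ihl ihr =>
    intro o hdim hlink v hv Req hReq
    set T : Tr Unit := Tr.node h x l r with hT
    have hTl : T.leaves = l.leaves + r.leaves := rfl
    -- patterns from the root
    have hroot : ∀ f o', DescAt h T f o' → f.ht = h →
        ∃ π : List (Option Bool), π.length = T.leaves ∧ free π = f.leaves ∧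
          Submodule.span K (Set.range fun a => slice K π (v a)) = U (o + o') f.leaves := by
      intro f o' hd hf
      obtain ⟨π, h1, h2, h3⟩ := hlink T 0 (.refl _) f o' hd hf
      refine ⟨π, h1, h2, ?_⟩
      simp only [add_zero] at h3
      rw [← h3, ← hv, Submodule.map_span, ← Set.range_comp]
      rfl
    have hany : ∀ f o', SubAt T f o' → ∃ w : Fin R → Fn K,
        Submodule.span K (Set.range w) = U (o + o') f.leaves := by
      intro f o' hs
      have := hfd (o + o') f.leaves
      exact exists_span _ (hdim f o' hs)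
    -- the left child
    obtain ⟨vl, hvl, hvl1, hvl2⟩ : ∃ w : Fin R → Fn K,
        Submodule.span K (Set.range w) = U o l.leaves ∧ (l.ht < h → Req l 0 w) ∧
        (l.ht = h → ∃ π : List (Option Bool), π.length = T.leaves ∧ free π = l.leaves ∧
          w = fun a => slice K π (v a)) := by
      rcases lt_trichotomy l.ht h with h1 | h1 | h1
      · obtain ⟨w, hw1, hw2⟩ := hReq l 0 (.left₀ h1)
        exact ⟨w, hw1, fun _ => hw2, fun h2 => by omega⟩
      · obtain ⟨π, h2, h3, h4⟩ := hroot l 0 (.left le_rfl (.refl _ h1.ge)) h1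
        exact ⟨_, h4, fun h5 => by omega, fun _ => ⟨π, h2, h3, rfl⟩⟩
      · obtain ⟨w, hw⟩ := hany l 0 (.left (.refl _))
        exact ⟨w, hw, fun h2 => by omega, fun h2 => by omega⟩
    obtain ⟨tl, htl1, htl2, htl3, htl4⟩ := ihl o (fun f o' hs => hdim f o' (.left hs))
      (fun g o₁ hs f o₂ hd hf => hlink g o₁ (.left hs) f o₂ hd hf) vl hvl
      (fun f o' w => (f.ht < h → Req f o' w) ∧ (f.ht = h → ∃ π : List (Option Bool),
        π.length = T.leaves ∧ free π = f.leaves ∧ w = fun a => slice K π (v a)))
      (by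
        intro f o' he
        rcases lt_trichotomy f.ht h with h1 | h1 | h1
        · obtain ⟨w, hw1, hw2⟩ := hReq f o' (.left h1 he)
          exact ⟨w, hw1, fun _ => hw2, fun h2 => by omega⟩
        · obtain ⟨π, h2, h3, h4⟩ := hroot f o' (.left le_rfl (h1 ▸ he.descAt)) h1
          exact ⟨_, h4, fun h5 => by omega, fun _ => ⟨π, h2, h3, rfl⟩⟩
        · obtain ⟨w, hw⟩ := hany f o' (.left he.subAt)
          exact ⟨w, hw, fun h2 => by omega, fun h2 => by omega⟩)
    -- the right child
    obtain ⟨vr, hvr, hvr1, hvr2⟩ : ∃ w : Fin R → Fn K,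
        Submodule.span K (Set.range w) = U (o + l.leaves) r.leaves ∧
        (r.ht < h → Req r l.leaves w) ∧
        (r.ht = h → ∃ π : List (Option Bool), π.length = T.leaves ∧ free π = r.leaves ∧
          w = fun a => slice K π (v a)) := by
      rcases lt_trichotomy r.ht h with h1 | h1 | h1
      · obtain ⟨w, hw1, hw2⟩ := hReq r _ (.right₀ h1)
        exact ⟨w, hw1, fun _ => hw2, fun h2 => by omega⟩
      · obtain ⟨π, h2, h3, h4⟩ := hroot r _ (.right le_rfl (.refl _ h1.ge)) h1
        exact ⟨_, h4, fun h5 => by omega, fun _ => ⟨π, h2, h3, rfl⟩⟩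
      · obtain ⟨w, hw⟩ := hany r _ (.right (.refl _))
        exact ⟨w, hw, fun h2 => by omega, fun h2 => by omega⟩
    obtain ⟨tr, htr1, htr2, htr3, htr4⟩ := ihr (o + l.leaves)
      (fun f o' hs => by
        have := hdim f _ (.right hs)
        rwa [← add_assoc] at this)
      (fun g o₁ hs f o₂ hd hf => by
        have := hlink g _ (.right hs) f o₂ hd hf
        rwa [← add_assoc] at this) vr hvr
      (fun f o' w => (f.ht < h → Req f (l.leaves + o') w) ∧
        (f.ht = h → ∃ π : List (Option Bool),
        π.length = T.leaves ∧ free π = f.leaves ∧ w = fun a => slice K π (v a)))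
      (by
        intro f o' he
        rcases lt_trichotomy f.ht h with h1 | h1 | h1
        · obtain ⟨w, hw1, hw2⟩ := hReq f _ (.right h1 he)
          exact ⟨w, by rw [hw1, add_assoc], fun _ => hw2, fun h2 => by omega⟩
        · obtain ⟨π, h2, h3, h4⟩ := hroot f _ (.right le_rfl (h1 ▸ he.descAt)) h1
          exact ⟨_, by rw [h4, add_assoc], fun h5 => by omega, fun _ => ⟨π, h2, h3, rfl⟩⟩
        · obtain ⟨w, hw⟩ := hany f _ (.right he.subAt)
          exact ⟨w, by rw [hw, add_assoc], fun h2 => by omega, fun h2 => by omega⟩)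
    -- the tensor at the root
    have := hfd o l.leaves
    have hM : ∀ a : Fin R, ∃ M : Fin R → Fin R → K, ∀ b₁ b₂,
        v a (join l.leaves b₁ b₂) = ∑ i, ∑ j, M i j * vl i b₁ * vr j b₂ := by
      intro a
      have hva : v a ∈ U o (l.leaves + r.leaves) := by
        rw [← hTl, ← hv]; exact Submodule.subset_span ⟨a, rfl⟩
      exact exists_tensor _ _ vl vr hvl hvr (fun b₁ b₂ => v a (join l.leaves b₁ b₂))
        (fun b₂ => (hsplit o _ _ _ hva b₂).1) (fun b₁ => (hsplit o _ _ _ hva b₁).2)
    choose M hM using hM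
    have htll : tl.leaves = l.leaves := by rw [← hshl, htl1]
    have htrl : tr.leaves = r.leaves := by rw [← hshl, htr1]
    have htlh : tl.ht = l.ht := by rw [← hshh, htl1]
    have htrh : tr.ht = r.ht := by rw [← hshh, htr1]
    set t : Tr (Fin (cR R) → K) := Tr.node h (fun q => Sum.elim (fun _ => 0)
      (fun p => M p.1 p.2.1 p.2.2) ((enc R).symm q)) tl tr with ht
    have hev : ∀ b a, evalT t b a = v a b := by
      intro b a
      rw [ht]
      simp only [evalT, Equiv.symm_apply_apply, Sum.elim_inr, htl2, htr2, htll]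
      rw [← hM]
      rw [join_self]
    refine ⟨t, by rw [ht, hT, ← htl1, ← htr1]; rfl, hev, ⟨?_, htl3, htr3⟩, ?_⟩
    · -- normality at the root
      have hslice : ∀ (g : Tr (Fin (cR R) → K)) (π : List (Option Bool)),
          (fun a b => evalT g b a) = (fun a => slice K π (v a)) →
          ∀ b a, evalT g b a = evalT t (fill π b) a := by
        intro g π hg b a
        rw [hev]
        exact congrFun (congrFun hg a) b
      have hTt : t.leaves = T.leaves := by rw [ht, hTl, ← htll, ← htrl]; rfl
      -- it suffices to treat the first subtree of the same height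
      have hfirst : ∀ (g f : Tr (Fin (cR R) → K)), Normal g → g.ht = h → Desc h f g → f.ht = h →
          (∃ π : List (Option Bool), π.length = T.leaves ∧ free π = g.leaves ∧
            (fun a b => evalT g b a) = (fun a => slice K π (v a))) →
          ∃ π : List (Option Bool), π.length = t.leaves ∧
            free π = f.leaves ∧ ∀ b a, evalT f b a = evalT t (fill π b) a := by
        rintro g f hg hgh hd hf ⟨π, h1, h2, h3⟩
        obtain ⟨ρ, h4, h5, h6⟩ := hg.at f (hgh ▸ hd) (by rw [hf, hgh])
        refine ⟨pcomp π ρ, by rw [pcomp_length, h1, hTt], by rw [pcomp_free _ _ (by omega), h5],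
          fun b a => ?_⟩
        rw [h6, hslice g π h3, fill_pcomp _ _ (by omega)]
      intro f hd hf
      have hth : t.ht = h := rfl
      rw [hth] at hd hf
      cases hd with
      | refl _ =>
        obtain ⟨π, h1, h2, h3⟩ := exists_trivial t.leaves
        exact ⟨π, h1, h2, fun b a => evalT_congr _ (fun n hn => (h3 b n hn).symm) a⟩
      | left _ hd =>
        rcases hd.exists_exp hf with h1 | ⟨g, o', h1, h2, h3⟩
        · refine hfirst tl f htl3 h1 hd hf ?_
          obtain ⟨π, h2, h3, h4⟩ := hvl2 (by rw [← htlh, h1])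
          refine ⟨π, h2, by rw [h3, htll], ?_⟩
          rw [← h4]
          funext a b
          exact htl2 b a
        · refine hfirst g f (htl3.desc h1.desc) h2 h3 hf ?_
          obtain ⟨π, h4, h5, h6⟩ := (htl4 g o' h1).2 (by rw [hshh, h2])
          exact ⟨π, h4, by rw [h5, hshl], h6⟩
      | right _ hd =>
        rcases hd.exists_exp hf with h1 | ⟨g, o', h1, h2, h3⟩
        · refine hfirst tr f htr3 h1 hd hf ?_
          obtain ⟨π, h2, h3, h4⟩ := hvr2 (by rw [← htrh, h1])
          refine ⟨π, h2, by rw [h3, htrl], ?_⟩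
          rw [← h4]
          funext a b
          exact htr2 b a
        · refine hfirst g f (htr3.desc h1.desc) h2 h3 hf ?_
          obtain ⟨π, h4, h5, h6⟩ := (htr4 g o' h1).2 (by rw [hshh, h2])
          exact ⟨π, h4, by rw [h5, hshl], h6⟩
    · intro f o' he
      rw [ht] at he
      cases he with
      | left₀ h1 =>
        have := hvl1 (by rw [← htlh]; exact h1)
        rw [htl1]
        have e : (fun a b => evalT tl b a) = vl := by
          funext a b; exact htl2 b a
        rw [e]; exact this
      | right₀ h1 =>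
        have := hvr1 (by rw [← htrh]; exact h1)
        rw [htr1, htll]
        have e : (fun a b => evalT tr b a) = vr := by
          funext a b; exact htr2 b a
        rw [e]; exact this
      | left h1 he => exact (htl4 f o' he).1 (by rw [hshh]; exact h1)
      | @right _ _ _ _ _ o'' h1 he =>
        rw [htll]
        exact (htr4 f o'' he).1 (by rw [hshh]; exact h1)

end Pool.Agent.H229
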