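import Pool.Agent.H229.Point

/-!
The main comparison of points of bounded branch-width, and the chain argument.
-/

namespace Pool.Agent.H229

open MvPolynomial Module

universe u

variable {k : Type u} [Field k]

lemma sel_length_congr {α β : Type*} (L : List α) (M : List β) (h : L.length = M.length)
    (b : ℕ → Bool) : (sel L b).length = (sel M b).length := by
  induction L generalizing M b with
  | nil =>
    have : M = [] := List.length_eq_zero_iff.1 (by simpa using h.symm)
    subst this; rfl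
  | cons a L ih =>
    cases M with
    | nil => simp at h
    | cons c M =>
      have := ih M (by simpa using h) (fun n => b (n + 1))
      simp only [sel_cons]
      cases b 0
      · simpa using this
      · simpa using this

lemma aeval_coord (P : PrimeSpectrum (MvPolynomial Idx k)) (f : MvPolynomial Idx k) :
    aeval (coord P) f = algebraMap (MvPolynomial Idx k) P.asIdeal.ResidueField f := by
  have h : aeval (coord P) =
      (IsScalarTower.toAlgHom k (MvPolynomial Idx k) P.asIdeal.ResidueField) := by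
    apply algHom_ext
    intro s
    rw [aeval_X]
    rfl
  rw [h]
  rfl

lemma mem_iff_aeval (P : PrimeSpectrum (MvPolynomial Idx k)) (f : MvPolynomial Idx k) :
    f ∈ P.asIdeal ↔ aeval (coord P) f = 0 := by
  rw [aeval_coord, Ideal.algebraMap_residueField_eq_zero]

lemma exists_common_level (S : Finset Idx) : ∃ M, 1 ≤ M ∧ ∀ s ∈ S, AtLevel M M s := by
  classical
  induction S using Finset.induction_on with
  | empty => exact ⟨1, le_rfl, fun s hs => by simp at hs⟩
  | insert s S _ ih =>
    obtain ⟨M, h1, h2⟩ := ih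
    obtain ⟨M', h3⟩ := exists_level s
    refine ⟨M + M', by omega, fun t ht => ?_⟩
    rcases Finset.mem_insert.1 ht with rfl | ht
    · exact h3.mono (by omega)
    · exact (h2 t ht).mono (by omega)

/-- the comparison when all points have a nonvanishing coordinate -/
theorem core_aux {w : ℕ} (P : ℕ → PrimeSpectrum (MvPolynomial Idx k))
    (hP : ∀ i, P i ∈ GrW k w) (f : ℕ → MvPolynomial Idx k) (hf : ∀ i, f i ∉ (P i).asIdeal)
    (h0 : ∀ i, ∃ s, X s ∉ (P i).asIdeal) :
    ∃ i j, i < j ∧ ∃ Γ : MvPolynomial Idx k →ₐ[k] MvPolynomial Idx k, Gen k Γ ∧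
      Γ (f i) ∉ (P j).asIdeal := by
  classical
  choose s₀ hs₀ using h0
  choose M hM1 hM2 using fun i => exists_common_level (insert (s₀ i) (f i).vars)
  set N : ℕ → ℕ := fun i => ∑ l ∈ Finset.range (i + 1), M l with hN
  have hMN : ∀ i, M i ≤ N i := fun i =>
    Finset.single_le_sum (f := M) (fun _ _ => Nat.zero_le _) (Finset.mem_range.2 (by omega))
  have hNmono : ∀ i j, i < j → N i ≤ N j := fun i j hij =>
    Finset.sum_le_sum_of_subset (Finset.range_subset_range.2 (by omega))
  have hN1 : ∀ i, 1 ≤ N i := fun i => (hM1 i).trans (hMN i)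
  have hs₀l : ∀ i, AtLevel (N i) (N i) (s₀ i) := fun i =>
    (hM2 i _ (Finset.mem_insert_self _ _)).mono (hMN i)
  have hfl : ∀ i, ∀ s ∈ (f i).vars, AtLevel (N i) (N i) s := fun i s hs =>
    (hM2 i _ (Finset.mem_insert_of_mem hs)).mono (hMN i)
  set a₀ : Fin (2 ^ w) := ⟨0, by positivity⟩
  choose x ℓ hnd hmem hx T hT1 hT2 hT3 hT4 using fun i =>
    point_tree a₀ (hP i) (hN1 i) (hs₀l i) (hs₀ i)
  choose b₀ ε₀ hb₀ hε₀ using fun i =>
    transfer_one (ℓ i) (hnd i) (fun a ha => (hmem i a).2 ha) (hs₀l i)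
  choose g hg using fun i =>
    transfer (ℓ i) (hnd i) (fun a ha => (hmem i a).2 ha) (f i) (hfl i)
  obtain ⟨i, j, hij, π, hπ1, hπ2, hne⟩ := tree_noeth (w + 1)
    (fun i => (P i).asIdeal.ResidueField) T hT3 hT2 a₀ (fun i => g i * X (b₀ i)) (by
      intro i
      simp only [map_mul, aeval_X]
      have h1 := hg i _ _ (x i) (vol _ (N i)) (fun _ => 1) (coord (P i)) (by
        intro s hs
        rw [hx i s hs]
        simp) (fun b => evalT (T i) b a₀) (by
        intro b _
        rw [hT4]
        simp)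
      rw [h1]
      refine mul_ne_zero (fun h => hf i ((mem_iff_aeval _ _).2 h)) ?_
      have h2 := hε₀ i _ _ (x i) (vol _ (N i)) (fun _ => 1)
      have h3 := coord_ne_zero.2 (hs₀ i)
      rw [hx i _ (hs₀l i)] at h3
      simp only [List.map_const', List.prod_replicate, one_pow, one_smul] at h2
      rw [h2] at h3
      rw [hT4]
      intro h4
      rw [h4, smul_zero] at h3
      exact h3 rfl)
  refine ⟨i, j, hij, ?_⟩
  simp only [map_mul, aeval_X] at hne
  obtain ⟨hne1, hne2⟩ := mul_ne_zero_iff.1 hne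
  -- the labels
  have hlenj : π.length = (ℓ j).length := by rw [hπ1, hT1]
  set Fr := frL (ℓ j) π with hFr
  set Cn := cnL (ℓ j) π with hCn
  have hFrl : Fr.length = (ℓ i).length := by rw [hFr, frL_length _ _ hlenj, hπ2, hT1]
  obtain ⟨η, hη⟩ := sort_cn (K := (P j).asIdeal.ResidueField) (x j) (ℓ j) π hlenj
  rw [← hFr, ← hCn] at hη
  have hF : ∀ b, evalT (T j) (fill π b) a₀ = sgnb η Fr.length b •
      vol _ (N j) (prodL _ ((sel Fr b ++ Cn).map (x j))) := by
    intro b
    rw [hT4, hη, Units.smul_def, map_zsmul, ← Units.smul_def]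
  have hCnl : N i + Cn.length = N j := by
    rw [hF] at hne2
    have h1 : vol _ (N j) (prodL _ ((sel Fr (b₀ i) ++ Cn).map (x j))) ≠ 0 := by
      intro h; rw [h, smul_zero] at hne2; exact hne2 rfl
    have h2 : ((sel Fr (b₀ i) ++ Cn).map (x j)).length = N j := by
      by_contra h
      exact h1 (vol_ne _ h)
    rw [List.length_map, List.length_append, sel_length_congr Fr (ℓ i) hFrl, hb₀] at h2
    exact h2
  have hnm : N i ≤ N j := hNmono i j hij
  -- the signed injection
  set δ : ℤ → ℤˣ := fun a => if a ∈ ℓ i then η ((ℓ i).idxOf a) else 1 with hδ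
  have hgap : ∀ a ∈ gap (N i) (N j), a ∉ ℓ i := by
    intro a ha h
    rw [mem_gap] at ha
    rw [hmem, mem_lab] at h
    omega
  obtain ⟨τ, Γ, hΓ, hrep, hmap⟩ := Rep.all (k := k) (N := N j) (ℓ i ++ gap (N i) (N j)) (Fr ++ Cn)
    (by
      rw [List.nodup_append]
      refine ⟨hnd i, gap_nodup _ _, ?_⟩
      rintro a ha b hb rfl
      exact hgap a hb ha)
    (fr_cn_nodup _ _ (hnd j))
    (by rw [List.length_append, List.length_append, hFrl, gap_length]; omega)
    (by
      intro a ha
      rcases List.mem_append.1 ha with ha | ha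
      · exact lab_mono hnm ((hmem i a).1 ha)
      · rw [mem_gap] at ha
        rw [mem_lab]
        omega)
    (by
      intro b hb
      rcases List.mem_append.1 hb with hb | hb
      · exact (hmem j b).1 ((frL_sublist _ _).subset hb)
      · exact (hmem j b).1 ((cnL_sublist _ _).subset hb)) δ
  rw [List.map_append] at hmap
  obtain ⟨hmap1, hmap2⟩ := List.append_inj hmap (by rw [List.length_map, hFrl])
  refine ⟨Γ, hΓ, ?_⟩
  -- the transferred polynomial
  set φ' : ExteriorAlgebra (P j).asIdeal.ResidueField (Fin (N j) → (P j).asIdeal.ResidueField)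
      →ₗ[(P j).asIdeal.ResidueField] (P j).asIdeal.ResidueField :=
    vol _ (N j) ∘ₗ LinearMap.mulRight _ (prodL _ (Cn.map (x j))) with hφ'
  have hφ'' : ∀ z, φ' z = vol _ (N j) (z * prodL _ (Cn.map (x j))) := fun z => rfl
  set ω : Idx → (P j).asIdeal.ResidueField := fun s => aeval (coord (P j)) (Γ (X s)) with hω
  have h1 := hg i _ _ (fun a => x j (τ a)) φ' δ ω (by
    intro s hs
    have hsm := hs.mono hnm
    obtain ⟨s', hs', he⟩ := Rep.exists_mid hrep.maps hrep.inj hsm
    have hprod : ((toL (N j) s).map δ).prod = ((toL (N i) s).map δ).prod := by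
      rw [hs.toL_mono hnm, List.map_append, List.prod_append]
      have : (gap (N i) (N j)).map δ = (gap (N i) (N j)).map fun _ => 1 := by
        refine List.map_congr_left fun a ha => ?_
        rw [hδ]
        simp only
        rw [if_neg (hgap a ha)]
      rw [this]
      simp
    simp only [hω]
    rw [hrep.act s s' hsm hs' he, Units.smul_def, map_zsmul, ← Units.smul_def, aeval_X, hprod,
      hx j s' hs', he, hs.toL_mono hnm, List.map_append, hmap2, List.map_append, prodL_append,
      List.map_map, hφ'']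
    rfl) (fun b => evalT (T j) (fill π b) a₀) (by
    intro b _
    rw [hF, List.map_append, prodL_append, hφ'', hFrl, ← hmap1, sel_map', List.map_map,
      ← prod_sel_idxOf (ℓ i) (hnd i) η b]
    congr 2
    refine List.map_congr_left fun a ha => ?_
    rw [hδ]
    simp only
    rw [if_pos (mem_sel_iff ha)])
  rw [h1] at hne1
  rw [mem_iff_aeval]
  intro h2
  apply hne1
  rw [← h2]
  have h3 : aeval ω = (aeval (coord (P j))).comp Γ := by
    apply algHom_ext
    intro s
    rw [aeval_X, AlgHom.comp_apply]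
  rw [h3, AlgHom.comp_apply]

/-- **The comparison of points of bounded branch-width.** -/
theorem core {w : ℕ} (P : ℕ → PrimeSpectrum (MvPolynomial Idx k))
    (hP : ∀ i, P i ∈ GrW k w) (f : ℕ → MvPolynomial Idx k) (hf : ∀ i, f i ∉ (P i).asIdeal) :
    ∃ i j, i < j ∧ ∃ Γ : MvPolynomial Idx k →ₐ[k] MvPolynomial Idx k, Gen k Γ ∧
      Γ (f i) ∉ (P j).asIdeal := by
  have horig : ∀ i, (∀ s, X s ∈ (P i).asIdeal) → ∀ h : MvPolynomial Idx k,
      h ∉ (P i).asIdeal ↔ constantCoeff h ≠ 0 := by
    intro i hi h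
    have e : coord (P i) = 0 := by
      funext s
      have := hi s
      rw [mem_iff_aeval, aeval_X] at this
      exact this
    rw [mem_iff_aeval, e, aeval_zero]
    simp
  by_cases h1 : ∃ i j, i < j ∧ (∀ s, X s ∈ (P i).asIdeal) ∧ ∀ s, X s ∈ (P j).asIdeal
  · obtain ⟨i, j, hij, hi, hj⟩ := h1
    refine ⟨i, j, hij, AlgHom.id k _, .id, ?_⟩
    rw [AlgHom.id_apply, horig j hj, ← horig i hi]
    exact hf i
  · obtain ⟨i₀, hi₀⟩ : ∃ i₀, ∀ i, ∃ s, X s ∉ (P (i₀ + i)).asIdeal := by
      by_cases h2 : ∃ i₁, ∀ s, X s ∈ (P i₁).asIdeal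
      · obtain ⟨i₁, h2⟩ := h2
        refine ⟨i₁ + 1, fun i => ?_⟩
        by_contra h3
        push Not at h3
        exact h1 ⟨i₁, i₁ + 1 + i, by omega, h2, h3⟩
      · push Not at h2
        exact ⟨0, fun i => h2 _⟩
    obtain ⟨i, j, hij, Γ, hΓ, h3⟩ := core_aux (w := w) (fun i => P (i₀ + i)) (fun i => hP _)
      (fun i => f (i₀ + i)) (fun i => hf _) hi₀
    exact ⟨i₀ + i, i₀ + j, by omega, Γ, hΓ, h3⟩

/-- the chain argument -/
theorem chain {w : ℕ} (C : ℕ → Set (PrimeSpectrum (MvPolynomial Idx k)))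
    (hC : ∀ i, ∃ D : Set (PrimeSpectrum (MvPolynomial Idx k)), IsClosed D ∧ C i = D ∩ GrW k w)
    (hanti : Antitone C)
    (hst : ∀ i, ∀ a b : ℤ, ∀ (ha : a ≠ 0) (hb : b ≠ 0), a ≠ b → ∀ P ∈ C i,
      PrimeSpectrum.comap (act k a b ha hb).toRingHom P ∈ C i) :
    ∃ i, ∀ j, i ≤ j → C j = C i := by
  by_contra hcon
  push Not at hcon
  choose nx hnx1 hnx2 using hcon
  choose D hD1 hD2 using hC
  -- the strictly decreasing subsequence
  set ν : ℕ → ℕ := fun m => Nat.rec 0 (fun _ i => nx i) m with hν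
  have hν1 : ∀ m, ν (m + 1) = nx (ν m) := fun m => rfl
  have hνm : Monotone ν := monotone_nat_of_le_succ fun m => by rw [hν1]; exact hnx1 _
  have hex : ∀ m, ∃ P ∈ C (ν m), P ∉ C (ν (m + 1)) := by
    intro m
    by_contra h
    push Not at h
    exact hnx2 (ν m) (subset_antisymm (hanti (hnx1 _)) h)
  choose P hP1 hP2 using hex
  have hPW : ∀ m, P m ∈ GrW k w := by
    intro m
    have := hP1 m
    rw [hD2] at this
    exact this.2
  have hfex : ∀ m, ∃ f : MvPolynomial Idx k, f ∉ (P m).asIdeal ∧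
      ∀ Q ∈ D (ν (m + 1)), f ∈ Q.asIdeal := by
    intro m
    have h1 : P m ∉ D (ν (m + 1)) := by
      intro h
      apply hP2 m
      rw [hD2]
      exact ⟨h, hPW m⟩
    obtain ⟨S, hS⟩ := (PrimeSpectrum.isClosed_iff_zeroLocus _).1 (hD1 (ν (m + 1)))
    rw [hS, PrimeSpectrum.mem_zeroLocus, Set.not_subset] at h1
    obtain ⟨f, hf1, hf2⟩ := h1
    refine ⟨f, hf2, fun Q hQ => ?_⟩
    rw [hS, PrimeSpectrum.mem_zeroLocus] at hQ
    exact hQ hf1
  choose f hf1 hf2 using hfex
  obtain ⟨i, j, hij, Γ, hΓ, h⟩ := core P hPW f hf1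
  apply h
  have hle : i + 1 ≤ j := hij
  have h1 : P j ∈ C (ν (i + 1)) := hanti (hνm hle) (hP1 j)
  have h2 := hΓ.mem (hst (ν (i + 1))) _ h1
  rw [hD2] at h2
  exact hf2 i _ h2.1

end Pool.Agent.H229
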