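import Pool.Agent.H229.Noeth

/-!
Functions of bits computed by trees of tensors, slices of such functions, and the
Noetherianity theorem for normalised trees.
-/

namespace Pool.Agent.H229

open Tr MvPolynomial

/-- fill in the free positions of a pattern -/
def fill : List (Option Bool) → (ℕ → Bool) → ℕ → Bool
  | [], _, _ => false
  | none :: _, b, 0 => b 0
  | none :: π, b, n + 1 => fill π (fun m => b (m + 1)) n
  | some c :: _, _, 0 => c
  | some _ :: π, b, n + 1 => fill π b n

/-- the number of free positions of a pattern -/
def free : List (Option Bool) → ℕ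
  | [] => 0
  | none :: π => free π + 1
  | some _ :: π => free π

lemma free_append (π ρ : List (Option Bool)) : free (π ++ ρ) = free π + free ρ := by
  induction π with
  | nil => simp [free]
  | cons x π ih => cases x <;> simp [free, ih] <;> omega

lemma fill_append_left (π ρ : List (Option Bool)) (b : ℕ → Bool) {n : ℕ} (hn : n < π.length) :
    fill (π ++ ρ) b n = fill π b n := by
  induction π generalizing b n with
  | nil => simp at hn
  | cons x π ih =>
    cases x with
    | none =>
      cases n with
      | zero => rfl
      | succ n => simp only [List.cons_append, fill]; exact ih _ (by simpa using hn)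
    | some c =>
      cases n with
      | zero => rfl
      | succ n => simp only [List.cons_append, fill]; exact ih _ (by simpa using hn)

lemma fill_append_right (π ρ : List (Option Bool)) (b : ℕ → Bool) (n : ℕ) :
    fill (π ++ ρ) b (n + π.length) = fill ρ (fun m => b (m + free π)) n := by
  induction π generalizing b with
  | nil => simp [free]
  | cons x π ih =>
    cases x with
    | none =>
      simp only [List.cons_append, List.length_cons, ← add_assoc, fill, free]
      rw [ih]
    | some c =>
      simp only [List.cons_append, List.length_cons, ← add_assoc, fill, free]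
      rw [ih]

/-- composition of patterns -/
def pcomp : List (Option Bool) → List (Option Bool) → List (Option Bool)
  | [], _ => []
  | none :: π, [] => none :: pcomp π []
  | none :: π, x :: ρ => x :: pcomp π ρ
  | some c :: π, ρ => some c :: pcomp π ρ

lemma pcomp_length (π ρ : List (Option Bool)) : (pcomp π ρ).length = π.length := by
  induction π generalizing ρ with
  | nil => rfl
  | cons x π ih =>
    cases x with
    | none => cases ρ <;> simp [pcomp, ih]
    | some c => simp [pcomp, ih]

lemma pcomp_free (π ρ : List (Option Bool)) (h : free π = ρ.length) :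
    free (pcomp π ρ) = free ρ := by
  induction π generalizing ρ with
  | nil =>
    have : ρ = [] := List.length_eq_zero_iff.1 (by simpa [free] using h.symm)
    subst this; rfl
  | cons x π ih =>
    cases x with
    | none =>
      cases ρ with
      | nil => simp [free] at h
      | cons y ρ =>
        simp only [free, List.length_cons, Nat.add_right_cancel_iff] at h
        cases y <;> simp [pcomp, free, ih _ h]
    | some c => simp [pcomp, free, ih ρ (by simpa [free] using h)]

lemma fill_pcomp (π ρ : List (Option Bool)) (h : free π = ρ.length) (b : ℕ → Bool) :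
    fill (pcomp π ρ) b = fill π (fill ρ b) := by
  funext n
  induction π generalizing ρ n b with
  | nil => simp [pcomp, fill]
  | cons x π ih =>
    cases x with
    | none =>
      cases ρ with
      | nil => simp [free] at h
      | cons y ρ =>
        simp only [free, List.length_cons, Nat.add_right_cancel_iff] at h
        cases y with
        | none =>
          cases n with
          | zero => simp [pcomp, fill]
          | succ n =>
            simp only [pcomp, fill]
            rw [ih ρ h]
        | some c =>
          cases n with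
          | zero => simp [pcomp, fill]
          | succ n =>
            simp only [pcomp, fill]
            rw [ih ρ h]
    | some c =>
      simp only [free] at h
      cases n with
      | zero => simp [pcomp, fill]
      | succ n =>
        simp only [pcomp, fill]
        rw [ih ρ h]

/-- coordinates of the tensors at the nodes -/
abbrev Q (R : ℕ) : Type := (Fin R × Bool) ⊕ (Fin R × Fin R × Fin R)

/-- the number of coordinates -/
abbrev cR (R : ℕ) : ℕ := Fintype.card (Q R)

/-- numbering of the coordinates -/
noncomputable def enc (R : ℕ) : Q R ≃ Fin (cR R) := Fintype.equivFin _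

/-- the vector of functions of bits computed by a tree of tensors -/
noncomputable def evalT {R : ℕ} {A : Type*} [CommSemiring A] :
    Tr (Fin (cR R) → A) → (ℕ → Bool) → Fin R → A
  | .leaf _ M, b, a => M (enc R (Sum.inl (a, b 0)))
  | .node _ M l r, b, a => ∑ i, ∑ j, M (enc R (Sum.inr (a, i, j))) * evalT l b i *
      evalT r (fun n => b (n + l.leaves)) j

variable {R : ℕ}

lemma evalT_congr {A : Type*} [CommSemiring A] (t : Tr (Fin (cR R) → A)) {b b' : ℕ → Bool}
    (h : ∀ n < t.leaves, b n = b' n) (a : Fin R) : evalT t b a = evalT t b' a := by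
  induction t generalizing b b' a with
  | leaf k M => simp [evalT, h 0 (by simp [Tr.leaves])]
  | node k M l r ihl ihr =>
    simp only [Tr.leaves] at h
    simp only [evalT]
    refine Finset.sum_congr rfl fun i _ => Finset.sum_congr rfl fun j _ => ?_
    rw [ihl (b := b) (b' := b') (fun n hn => h n (by omega)),
      ihr (b := fun n => b (n + l.leaves)) (b' := fun n => b' (n + l.leaves))
        (fun n hn => h _ (by omega))]

lemma leaves_map {L L' : Type*} (f : L → L') (t : Tr L) : (t.map f).leaves = t.leaves := by
  induction t with
  | leaf h a => rfl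
  | node h a l r ihl ihr => simp [Tr.map, Tr.leaves, ihl, ihr]

lemma evalT_map {A B : Type*} [CommSemiring A] [CommSemiring B] (φ : A →+* B)
    (t : Tr (Fin (cR R) → A)) (b : ℕ → Bool) (a : Fin R) :
    evalT (t.map fun M q => φ (M q)) b a = φ (evalT t b a) := by
  induction t generalizing b a with
  | leaf k M => rfl
  | node k M l r ihl ihr =>
    simp only [Tr.map, evalT, leaves_map, ihl, ihr, map_sum, map_mul]

/-- the condition at the root for normalised trees -/
def NormalAt {A : Type*} [CommSemiring A] (t : Tr (Fin (cR R) → A)) : Prop :=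
  ∀ f, Desc t.ht f t → f.ht = t.ht → ∃ π : List (Option Bool), π.length = t.leaves ∧
    free π = f.leaves ∧ ∀ b a, evalT f b a = evalT t (fill π b) a

/-- normalised trees -/
def Normal {A : Type*} [CommSemiring A] : Tr (Fin (cR R) → A) → Prop
  | .leaf h M => NormalAt (Tr.leaf h M : Tr (Fin (cR R) → A))
  | .node h M l r => NormalAt (Tr.node h M l r) ∧ Normal l ∧ Normal r

lemma Normal.at {A : Type*} [CommSemiring A] {t : Tr (Fin (cR R) → A)} (h : Normal t) :
    NormalAt t := by
  cases t with
  | leaf _ _ => exact h
  | node _ _ _ _ => exact h.1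

lemma Normal.desc {A : Type*} [CommSemiring A] {t f : Tr (Fin (cR R) → A)} (h : Normal t)
    {s : ℕ} (hd : Desc s f t) : Normal f := by
  induction hd with
  | refl _ => exact h
  | left _ _ ih => exact ih h.2.1
  | right _ _ ih => exact ih h.2.2

lemma Emb.slice {A : Type*} [CommSemiring A] {s t : Tr (Fin (cR R) → A)} (h : Emb Eq s t)
    (ht : Normal t) : ∃ π : List (Option Bool), π.length = t.leaves ∧ free π = s.leaves ∧
      ∀ b a, evalT s b a = evalT t (fill π b) a := by
  induction h with
  | @leaf k M M' hM =>
    subst hM
    exact ⟨[none], rfl, rfl, fun b a => rfl⟩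
  | @node k M M' l₁ r₁ l₂ r₂ hM hl hr ihl ihr =>
    subst hM
    obtain ⟨π, h1, h2, h3⟩ := ihl ht.2.1
    obtain ⟨ρ, h4, h5, h6⟩ := ihr ht.2.2
    refine ⟨π ++ ρ, by simp [Tr.leaves, h1, h4], by simp [Tr.leaves, free_append, h2, h5], ?_⟩
    intro b a
    simp only [evalT]
    refine Finset.sum_congr rfl fun i _ => Finset.sum_congr rfl fun j _ => ?_
    have e1 : evalT l₁ b i = evalT l₂ (fill (π ++ ρ) b) i := by
      rw [h3]
      exact evalT_congr _ (fun n hn => (fill_append_left _ _ _ (by omega)).symm) _
    have e2 : evalT r₁ (fun n => b (n + l₁.leaves)) j =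
        evalT r₂ (fun n => fill (π ++ ρ) b (n + l₂.leaves)) j := by
      rw [h6]
      refine evalT_congr _ (fun n hn => ?_) _
      rw [← h1, fill_append_right, h2]
    rw [e1, e2]
  | @cut s f t hd hh he ih =>
    obtain ⟨π, h1, h2, h3⟩ := ht.at f hd hh
    obtain ⟨ρ, h4, h5, h6⟩ := ih (ht.desc hd)
    refine ⟨pcomp π ρ, by rw [pcomp_length, h1], by rw [pcomp_free _ _ (by omega), h5], ?_⟩
    intro b a
    rw [h6, h3, fill_pcomp _ _ (by omega)]

lemma exists_reLab {L : Type*} (t : Tr L) : ∃ ω : ℕ → L, reLab t.shape ω = t := by
  have hsz : ∀ u : Tr L, u.shape.size = u.size := by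
    intro u
    induction u with
    | leaf h a => rfl
    | node h a l r ihl ihr =>
      simp only [Tr.shape, Tr.map, Tr.size] at *
      rw [ihl, ihr]
  induction t with
  | leaf h a => exact ⟨fun _ => a, rfl⟩
  | node h a l r ihl ihr =>
    obtain ⟨ω₁, h1⟩ := ihl
    obtain ⟨ω₂, h2⟩ := ihr
    refine ⟨fun n => if n = 0 then a else if n < 1 + l.size then ω₁ (n - 1)
      else ω₂ (n - (1 + l.size)), ?_⟩
    have e1 : (Tr.node h a l r).shape = Tr.node h () l.shape r.shape := rfl
    rw [e1]
    simp only [reLab, if_true, Tr.node.injEq, true_and]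
    constructor
    · refine Eq.trans (reLab_congr _ fun n hn => ?_) h1
      rw [hsz] at hn
      rw [if_neg (by omega), if_pos (by omega), Nat.add_sub_cancel]
    · refine Eq.trans (reLab_congr _ fun n hn => ?_) h2
      rw [hsz]
      rw [if_neg (by omega), if_neg (by omega)]
      congr 1
      omega

/-- The Noetherianity theorem for normalised trees of tensors. -/
theorem tree_noeth {k : Type*} [Field k] (N : ℕ) (K : ℕ → Type*) [∀ i, Field (K i)]
    [∀ i, Algebra k (K i)] (t : ∀ i, Tr (Fin (cR R) → K i)) (hN : ∀ i, Normal (t i))
    (hb : ∀ i, (t i).Bdd N) (a₀ : Fin R) (f : ℕ → MvPolynomial (ℕ → Bool) k)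
    (h0 : ∀ i, aeval (fun b => evalT (t i) b a₀) (f i) ≠ 0) :
    ∃ i j, i < j ∧ ∃ π : List (Option Bool), π.length = (t j).leaves ∧
      free π = (t i).leaves ∧ aeval (fun b => evalT (t j) (fill π b) a₀) (f i) ≠ 0 := by
  choose ω hω using fun i => exists_reLab (t i)
  set S : ℕ → Tr Unit := fun i => (t i).shape with hS
  have hSl : ∀ i, (S i).leaves = (t i).leaves := fun i => leaves_map _ _
  -- the generic tree
  set g : Tr Unit → Tr (Fin (cR R) → MvPolynomial (Vr (cR R)) k) := fun S =>
    reLab S (fun n q => X (Vr.mk n q)) with hg
  set F : ℕ → MvPolynomial (Vr (cR R)) k := fun i =>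
    aeval (fun b => evalT (g (S i)) b a₀) (f i) with hF
  have hsupp : ∀ (n₀ : ℕ) (u : Tr Unit) (ν : ℕ → ℕ), (∀ n < u.size, ν n < n₀) →
      ∀ (b : ℕ → Bool) (a : Fin R),
      evalT (reLab u (fun n q => (X (Vr.mk (ν n) q) : MvPolynomial (Vr (cR R)) k))) b a ∈
        MvPolynomial.supported k {v : Vr (cR R) | v.pos < n₀} := by
    intro n₀ u
    induction u with
    | leaf h x =>
      intro ν hν b a
      simp only [reLab, evalT]
      exact (X_mem_supported (R := k)).2 (hν 0 (by simp))
    | node h x l r ihl ihr =>
      intro ν hν b a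
      simp only [size_node] at hν
      simp only [reLab, evalT]
      refine Subalgebra.sum_mem _ fun i _ => Subalgebra.sum_mem _ fun j _ => ?_
      refine Subalgebra.mul_mem _ (Subalgebra.mul_mem _ ?_ ?_) ?_
      · exact (X_mem_supported (R := k)).2 (hν 0 (by omega))
      · exact ihl (fun n => ν (n + 1)) (fun n hn => hν _ (by omega)) _ _
      · exact ihr (fun n => ν (n + 1 + l.size)) (fun n hn => hν _ (by omega)) _ _
  have hFs : ∀ i, F i ∈ MvPolynomial.supported k {v : Vr (cR R) | v.pos < (S i).size} := by
    intro i
    have h1 : ∀ p : MvPolynomial (ℕ → Bool) k, aeval (fun b => evalT (g (S i)) b a₀) p ∈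
        MvPolynomial.supported k {v : Vr (cR R) | v.pos < (S i).size} := by
      intro p
      induction p using MvPolynomial.induction_on with
      | C x => rw [aeval_C]; exact Subalgebra.algebraMap_mem _ _
      | add p q hp hq => rw [map_add]; exact Subalgebra.add_mem _ hp hq
      | mul_X p n hp =>
        rw [map_mul, aeval_X]
        exact Subalgebra.mul_mem _ hp (hsupp _ (S i) id (fun n hn => hn) _ _)
    exact h1 _
  have hev : ∀ (i j : ℕ) (ν : ℕ → Fin (cR R) → K j),
      aeval (fun v : Vr (cR R) => ν v.pos v.crd) (F i) =
        aeval (fun b => evalT (reLab (S i) ν) b a₀) (f i) := by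
    intro i j ν
    rw [hF]
    simp only
    rw [comp_aeval_apply]
    congr 2
    funext b
    have := evalT_map (aeval (R := k) (fun v : Vr (cR R) => ν v.pos v.crd)).toRingHom
      (g (S i)) b a₀
    simp only [AlgHom.toRingHom_eq_coe, RingHom.coe_coe] at this
    rw [← this, hg]
    simp only
    rw [reLab_map]
    simp
  obtain ⟨i, j, hij, σ, hcut, hne⟩ := noeth (cR R) N K S (fun i => by
      have := hb i
      rw [← hω i] at this
      exact (reLab_bdd _ _ _).1 this) ω F hFs (fun i => by
      rw [hev i i (ω i), hω i]; exact h0 i)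
  refine ⟨i, j, hij, ?_⟩
  have hE := hcut.emb (ω j)
  rw [hω j] at hE
  obtain ⟨π, h1, h2, h3⟩ := hE.slice (hN j)
  refine ⟨π, h1, ?_, ?_⟩
  · rw [h2, reLab_leaves]; exact hSl i
  · rw [hev i j (fun n => ω j (σ n))] at hne
    have : (fun b => evalT (reLab (S i) fun n => ω j (σ n)) b a₀) =
        (fun b => evalT (t j) (fill π b) a₀) := by
      funext b; exact h3 b a₀
    rwa [this] at hne

end Pool.Agent.H229
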