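import Pool.Agent.H229.Titanic

/-!
The bound on excluded minors for branch-width (Geelen, Gerards, Robertson, Whittle).
-/

namespace Pool.Agent.H229

open BT

variable {α : Type*} [DecidableEq α]

/-- the function `(6 ^ m - 1) / 5` -/
def gg : ℕ → ℕ
  | 0 => 0
  | m + 1 => 6 * gg m + 1

lemma gg_succ (m : ℕ) : gg (m + 1) = 6 * gg m + 1 := rfl

lemma gg_mono : Monotone gg := monotone_nat_of_le_succ fun m => by rw [gg_succ]; omega

lemma balanced (t : BT α) (ht : t.Part) (N : ℕ) (hN : 2 ≤ N) (h : 2 * N < 3 * t.fs.card) :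
    ∃ Y ∈ t.nodes, N ≤ 3 * Y.card ∧ 3 * Y.card ≤ 2 * N := by
  induction t with
  | leaf a => rw [fs_leaf, Finset.card_singleton] at h; omega
  | node l r ihl ihr =>
    rw [fs_node, Finset.card_union_of_disjoint ht.1] at h
    have hl : ∀ Y ∈ l.nodes, Y ∈ (node l r).nodes := fun Y h => by
      simp only [nodes, Finset.mem_insert, Finset.mem_union]; exact Or.inr (Or.inl h)
    have hr : ∀ Y ∈ r.nodes, Y ∈ (node l r).nodes := fun Y h => by
      simp only [nodes, Finset.mem_insert, Finset.mem_union]; exact Or.inr (Or.inr h)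
    by_cases h1 : 2 * N < 3 * l.fs.card
    · obtain ⟨Y, h2, h3⟩ := ihl ht.2.1 h1
      exact ⟨Y, hl Y h2, h3⟩
    · by_cases h2 : 2 * N < 3 * r.fs.card
      · obtain ⟨Y, h3, h4⟩ := ihr ht.2.2 h2
        exact ⟨Y, hr Y h3, h4⟩
      · rcases le_total r.fs.card l.fs.card with h3 | h3
        · exact ⟨l.fs, hl _ l.fs_mem_nodes, by omega, by omega⟩
        · exact ⟨r.fs, hr _ r.fs_mem_nodes, by omega, by omega⟩

lemma Val.mono {lam lam' : Finset α → ℕ} {w : ℕ} {S : Finset α} (h : Val lam w S)
    (hl : ∀ Y ⊆ S, lam' Y ≤ lam Y) : Val lam' w S := by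
  rcases h with rfl | ⟨t, h1, h2, h3⟩
  · exact Or.inl rfl
  · exact Or.inr ⟨t, h1, h2, fun Y hY =>
      (hl Y (h2 ▸ subset_of_mem_nodes hY)).trans (h3 Y hY)⟩

lemma side {f : Finset α → ℕ} (hf : IsRk f) {E : Finset α} {w m : ℕ} (hm : m ≤ w)
    (hC : Cnd gg m f E) (hdel : ∀ e ∈ E, Val (cn f (E.erase e)) w (E.erase e))
    (hcon : ∀ e ∈ E, Val (cn (ct f {e}) (E.erase e)) w (E.erase e)) {A : Finset α} (hA : A ⊆ E)
    (hAm : cn f E A = m) (hA1 : gg m < A.card) (hA2 : gg m < (E \ A).card) :
    Val (cn f E) w (E \ A) := by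
  obtain ⟨e, heA⟩ : A.Nonempty := Finset.card_pos.1 (by omega)
  have heE := hA heA
  set E' := E.erase e with hE'
  have hE'E : E' ⊆ E := Finset.erase_subset _ _
  have hAE' : A ∩ E' = A.erase e := by
    ext x; simp only [hE', Finset.mem_inter, Finset.mem_erase]
    constructor
    · rintro ⟨h1, h2, _⟩; exact ⟨h2, h1⟩
    · rintro ⟨h1, h2⟩; exact ⟨h2, h1, hA h2⟩
  have hA'E' : A.erase e ⊆ E' := Finset.erase_subset_erase _ hA
  have hB : E' \ A.erase e = E \ A := by
    ext x; simp only [hE', Finset.mem_sdiff, Finset.mem_erase]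
    constructor
    · rintro ⟨⟨h1, h2⟩, h3⟩; exact ⟨h2, fun h4 => h3 ⟨h1, h4⟩⟩
    · rintro ⟨h1, h2⟩
      refine ⟨⟨?_, h1⟩, fun h3 => h2 h3.2⟩
      rintro rfl; exact h2 heA
  have hA'c : (A.erase e).card = A.card - 1 := Finset.card_erase_of_mem heA
  -- the common argument
  have main : ∀ f' : Finset α → ℕ, IsRk f' → Cnd (fun l => 2 * gg l) m f' E' →
      Val (cn f' E') w E' → cn f' E' (A.erase e) ≤ m →
      (m ≤ cn f' E' (A.erase e) → ∀ Y ⊆ E \ A, cn f E Y ≤ cn f' E' Y) →
      Val (cn f E) w (E \ A) := by
    intro f' hf' hC' hV hle hlift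
    have hsm : ∀ c, c < m → 6 * gg c + 1 ≤ gg m := by
      intro c hc
      rw [← gg_succ]
      exact gg_mono hc
    have hge : m ≤ cn f' E' (A.erase e) := by
      by_contra hcon'
      push Not at hcon'
      have h1 := hC' _ hA'E' hcon'
      have h2 := hsm _ hcon'
      rw [hB, hA'c] at h1
      simp only at h1
      rcases h1 with h1 | h1 <;> omega
    have hEq : cn f' E' (A.erase e) = m := le_antisymm hle hge
    rcases hV with hV | ⟨t, t1, t2, t3⟩
    · rw [← hB, hV] at hA2
      simp at hA2
    have h1 := titanic hf' t1 t2 t3 hA'E' (by rw [hEq]; exact hm) (by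
      intro A₁ A₂ A₃ hu _ _ _
      by_contra hcon'
      rw [not_or, not_or, not_le, not_le, not_le, hEq] at hcon'
      obtain ⟨c1, c2, c3⟩ := hcon'
      have hsmall : ∀ X, X ⊆ A.erase e → cn f' E' X < m → 3 * X.card + 1 ≤ gg m := by
        intro X hX hXm
        have h2 := hC' X (hX.trans hA'E') hXm
        have h3 := hsm _ hXm
        have h4 : E \ A ⊆ E' \ X := by
          rw [← hB]
          exact Finset.sdiff_subset_sdiff subset_rfl hX
        have h5 := Finset.card_le_card h4
        simp only at h2
        rcases h2 with h2 | h2 <;> omega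
      have d1 := hsmall A₁ (by rw [← hu]; intro x hx; simp [hx]) c1
      have d2 := hsmall A₂ (by rw [← hu]; intro x hx; simp [hx]) c2
      have d3 := hsmall A₃ (by rw [← hu]; intro x hx; simp [hx]) c3
      have d4 : (A.erase e).card ≤ A₁.card + A₂.card + A₃.card := by
        rw [← hu]
        exact (Finset.card_union_le _ _).trans
          (Nat.add_le_add_right (Finset.card_union_le _ _) _)
      omega)
    rw [hB] at h1
    exact h1.mono (hlift hge)
  have hcnA := cn_add hf hA
  rcases hC.half gg_mono hf heE with hC' | hC'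
  · refine main f hf hC' (hdel e heE) ?_ ?_
    · have h1 := cn_minor hf (E := E) (E' := E') (C := ∅) (A := A) hE'E (by simp) (by simp) hA
      have e1 : ct f ∅ = f := by funext X; rw [ct_apply, Finset.union_empty]
      rw [e1, hAE', hAm] at h1
      exact h1
    · intro hge Y hY
      have hYE : Y ⊆ E := hY.trans Finset.sdiff_subset
      have hYE' : Y ⊆ E' := by rw [← hB] at hY; exact hY.trans Finset.sdiff_subset
      have hYA : ∀ x ∈ Y, x ∉ A := fun x hx => (Finset.mem_sdiff.1 (hY hx)).2
      have h1 := cn_add hf hYE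
      have h2 := cn_add hf hYE'
      have h3 := cn_add hf hA'E'
      rw [hB] at h3
      have s1 := hf.submod A (E' \ Y)
      have e1 : A ∪ E' \ Y = E \ Y := by
        ext x
        simp only [hE', Finset.mem_union, Finset.mem_sdiff, Finset.mem_erase]
        by_cases hx : x = e
        · subst hx
          have : x ∉ Y := fun h => hYA x h heA
          simp [heA, heE, this]
        · have h5 := @hA x
          have h6 := hYA x
          simp only [hx, ne_eq, not_false_eq_true, true_and]
          tauto
      have e2 : A ∩ (E' \ Y) = A.erase e := by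
        ext x
        simp only [hE', Finset.mem_inter, Finset.mem_sdiff, Finset.mem_erase]
        constructor
        · rintro ⟨h4, ⟨h5, _⟩, _⟩; exact ⟨h5, h4⟩
        · rintro ⟨h4, h5⟩; exact ⟨h5, ⟨h4, hA h5⟩, fun h6 => hYA x h6 h5⟩
      rw [e1, e2] at s1
      rw [hAm] at hcnA
      omega
  · refine main (ct f {e}) (ct_isRk hf _) hC' (hcon e heE) ?_ ?_
    · have h1 := cn_minor hf (E := E) (E' := E') (C := {e}) (A := A) hE'E (by simpa using heE)
        (by simp [hE']) hA
      rw [hAE', hAm] at h1
      exact h1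
    · intro hge Y hY
      have hYE : Y ⊆ E := hY.trans Finset.sdiff_subset
      have hYE' : Y ⊆ E' := by rw [← hB] at hY; exact hY.trans Finset.sdiff_subset
      have hYA : ∀ x ∈ Y, x ∉ A := fun x hx => (Finset.mem_sdiff.1 (hY hx)).2
      have h1 := cn_add hf hYE
      have h2 := cn_add (ct_isRk hf {e}) hYE'
      have h3 := cn_add (ct_isRk hf {e}) hA'E'
      rw [hB] at h3
      simp only [ct_apply, Finset.empty_union] at h2 h3
      have s1 := hf.submod (E \ A) (Y ∪ {e})
      have e1 : (E \ A) ∪ (Y ∪ {e}) = E \ A ∪ {e} := by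
        ext x
        simp only [Finset.mem_union, Finset.mem_singleton]
        constructor
        · rintro (h | h | h)
          · exact Or.inl h
          · exact Or.inl (hY h)
          · exact Or.inr h
        · rintro (h | h)
          · exact Or.inl h
          · exact Or.inr (Or.inr h)
      have e2 : (E \ A) ∩ (Y ∪ {e}) = Y := by
        ext x
        simp only [Finset.mem_inter, Finset.mem_union, Finset.mem_singleton]
        constructor
        · rintro ⟨h4, h5 | rfl⟩
          · exact h5
          · exact absurd heA (Finset.mem_sdiff.1 h4).2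
        · intro h4; exact ⟨hY h4, Or.inl h4⟩
      have e3 : E' ∪ {e} = E := by
        ext x
        simp only [hE', Finset.mem_union, Finset.mem_singleton, Finset.mem_erase]
        by_cases hx : x = e
        · subst hx; simp [heE]
        · simp [hx]
      have e4 : E' \ Y ∪ {e} = E \ Y := by
        ext x
        simp only [hE', Finset.mem_union, Finset.mem_singleton, Finset.mem_sdiff,
          Finset.mem_erase]
        by_cases hx : x = e
        · subst hx
          have : x ∉ Y := fun h => hYA x h heA
          simp [heE, this]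
        · simp [hx]
      have e5 : A.erase e ∪ {e} = A := by
        ext x
        simp only [Finset.mem_union, Finset.mem_singleton, Finset.mem_erase]
        by_cases hx : x = e
        · subst hx; simp [heA]
        · simp [hx]
      rw [e1, e2] at s1
      rw [e3, e4] at h2
      rw [e3, e5] at h3
      rw [hAm] at hcnA
      omega

/-- Excluded minors are small. -/
lemma excl {f : Finset α → ℕ} (hf : IsRk f) {E : Finset α} {w : ℕ}
    (hdel : ∀ e ∈ E, Val (cn f (E.erase e)) w (E.erase e))
    (hcon : ∀ e ∈ E, Val (cn (ct f {e}) (E.erase e)) w (E.erase e))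
    (hE : ¬ Val (cn f E) w E) : E.card ≤ 6 * gg w + 2 := by
  have hCnd : ∀ m ≤ w + 1, Cnd gg m f E := by
    intro m
    induction m with
    | zero => intro _ X _ h; omega
    | succ m ih =>
      intro hm X hX hXm
      have hC := ih (by omega)
      by_cases h1 : cn f E X < m
      · exact hC X hX h1
      · have h2 : cn f E X = m := by omega
        by_contra hcon'
        rw [not_or, not_le, not_le, h2] at hcon'
        obtain ⟨h3, h4⟩ := hcon'
        apply hE
        have v1 := side hf (by omega : m ≤ w) hC hdel hcon hX h2 h3 h4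
        have v2 := side hf (by omega : m ≤ w) hC hdel hcon (Finset.sdiff_subset : E \ X ⊆ E)
          (by rw [cn_symm hX, h2]) h4 (by rw [Finset.sdiff_sdiff_eq_self hX]; exact h3)
        rw [Finset.sdiff_sdiff_eq_self hX] at v2
        have e1 : X ∪ E \ X = E := Finset.union_sdiff_of_subset hX
        have v3 := v2.join v1 Finset.disjoint_sdiff (by
          rw [e1]
          have : cn f E E = 0 := by
            unfold cn
            rw [Finset.sdiff_self]
            omega
          omega)
        rwa [e1] at v3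
  have hC := hCnd (w + 1) le_rfl
  by_contra hbig
  push Not at hbig
  obtain ⟨e, heE⟩ : E.Nonempty := Finset.card_pos.1 (by omega)
  have hcard : (E.erase e).card = E.card - 1 := Finset.card_erase_of_mem heE
  have main : ∀ f' : Finset α → ℕ, Cnd (fun l => 2 * gg l) (w + 1) f' (E.erase e) →
      Val (cn f' (E.erase e)) w (E.erase e) → False := by
    intro f' hC' hV
    rcases hV with hV | ⟨t, t1, t2, t3⟩
    · rw [hV] at hcard
      simp at hcard
      omega
    · obtain ⟨Y, y1, y2, y3⟩ := balanced t t1 (E.erase e).card (by omega) (by rw [t2]; omega)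
      have hYE : Y ⊆ E.erase e := t2 ▸ subset_of_mem_nodes y1
      have h1 := t3 Y y1
      have h2 := hC' Y hYE (by omega)
      have h3 : gg (cn f' (E.erase e) Y) ≤ gg w := gg_mono h1
      have h4 := Finset.card_sdiff_add_card_eq_card hYE
      simp only at h2
      rcases h2 with h2 | h2 <;> omega
  rcases hC.half gg_mono hf heE with hC' | hC'
  · exact main f hC' (hdel e heE)
  · exact main _ hC' (hcon e heE)

/-- **Every matroid of large branch-width has a small minor of large branch-width.** -/
theorem exmin (w : ℕ) : ∀ (n : ℕ) (f : Finset α → ℕ), IsRk f → ∀ E : Finset α, E.card = n →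
    ¬ Val (cn f E) w E → ∃ C E' : Finset α, C ⊆ E ∧ E' ⊆ E ∧ Disjoint C E' ∧
      E'.card ≤ 6 * gg w + 2 ∧ ¬ Val (cn (ct f C) E') w E' := by
  intro n
  induction n with
  | zero =>
    intro f _ E hE h
    exact absurd (Or.inl (Finset.card_eq_zero.1 hE)) h
  | succ n ih =>
    intro f hf E hE h
    by_cases hsm : E.card ≤ 6 * gg w + 2
    · refine ⟨∅, E, by simp, subset_rfl, by simp, hsm, ?_⟩
      have e1 : ct f ∅ = f := by funext X; rw [ct_apply, Finset.union_empty]
      rwa [e1]
    · have h1 : (∃ e ∈ E, ¬ Val (cn f (E.erase e)) w (E.erase e)) ∨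
          (∃ e ∈ E, ¬ Val (cn (ct f {e}) (E.erase e)) w (E.erase e)) := by
        by_contra hcon
        rw [not_or] at hcon
        obtain ⟨h2, h3⟩ := hcon
        push Not at h2 h3
        exact hsm (excl hf h2 h3 h)
      rcases h1 with ⟨e, he, h2⟩ | ⟨e, he, h2⟩
      · obtain ⟨C, E', c1, c2, c3, c4, c5⟩ := ih f hf (E.erase e)
          (by rw [Finset.card_erase_of_mem he, hE]; rfl) h2
        exact ⟨C, E', c1.trans (Finset.erase_subset _ _), c2.trans (Finset.erase_subset _ _),
          c3, c4, c5⟩
      · obtain ⟨C, E', c1, c2, c3, c4, c5⟩ := ih (ct f {e}) (ct_isRk hf _) (E.erase e)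
          (by rw [Finset.card_erase_of_mem he, hE]; rfl) h2
        refine ⟨C ∪ {e}, E', ?_, c2.trans (Finset.erase_subset _ _), ?_, c4, ?_⟩
        · exact Finset.union_subset (c1.trans (Finset.erase_subset _ _)) (by simpa using he)
        · rw [Finset.disjoint_union_left]
          refine ⟨c3, ?_⟩
          rw [Finset.disjoint_singleton_left]
          intro h3
          exact (Finset.mem_erase.1 (c2 h3)).1 rfl
        · have e1 : ct (ct f {e}) C = ct f (C ∪ {e}) := by
            funext X
            rw [ct_apply, ct_apply, ct_apply, Finset.union_assoc]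
          rwa [e1] at c5

end Pool.Agent.H229
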