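import Pool.Agent.H229.Model

/-!
Linked branch decompositions of symmetric submodular functions.
-/

namespace Pool.Agent.H229

namespace BT

variable {α : Type*} [DecidableEq α]

@[simp] lemma fs_leaf (a : α) : (leaf a).fs = {a} := rfl
@[simp] lemma fs_node (l r : BT α) : (node l r).fs = l.fs ∪ r.fs := rfl

lemma fs_nonempty (t : BT α) : t.fs.Nonempty := by
  induction t with
  | leaf a => simp
  | node l r ihl ihr => rw [fs_node]; exact ihl.mono Finset.subset_union_left

lemma fs_mem_nodes (t : BT α) : t.fs ∈ t.nodes := by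
  cases t with
  | leaf a => simp [nodes]
  | node l r => simp [nodes]

lemma subset_of_mem_nodes {t : BT α} {Y : Finset α} (h : Y ∈ t.nodes) : Y ⊆ t.fs := by
  induction t with
  | leaf a => simp only [nodes, Finset.mem_singleton] at h; subst h; simp
  | node l r ihl ihr =>
    simp only [nodes, Finset.mem_insert, Finset.mem_union] at h
    rcases h with rfl | h | h
    · exact subset_rfl
    · exact (ihl h).trans Finset.subset_union_left
    · exact (ihr h).trans Finset.subset_union_right

lemma nonempty_of_mem_nodes {t : BT α} {Y : Finset α} (h : Y ∈ t.nodes) : Y.Nonempty := by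
  induction t with
  | leaf a => simp only [nodes, Finset.mem_singleton] at h; subst h; simp
  | node l r ihl ihr =>
    simp only [nodes, Finset.mem_insert, Finset.mem_union] at h
    rcases h with rfl | h | h
    · exact (node l r).fs_nonempty
    · exact ihl h
    · exact ihr h

/-- subtrees -/
inductive Sub : BT α → BT α → Prop
  | refl (t : BT α) : Sub t t
  | left {f l : BT α} (r : BT α) (h : Sub f l) : Sub f (node l r)
  | right {f r : BT α} (l : BT α) (h : Sub f r) : Sub f (node l r)

omit [DecidableEq α] in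
lemma Sub.trans {f g t : BT α} (h1 : Sub f g) (h2 : Sub g t) : Sub f t := by
  induction h2 with
  | refl => exact h1
  | left r _ ih => exact .left r ih
  | right l _ ih => exact .right l ih

lemma Sub.nodes_subset {f t : BT α} (h : Sub f t) : f.nodes ⊆ t.nodes := by
  induction h with
  | refl => exact subset_rfl
  | left r _ ih =>
    intro Y hY
    simp only [nodes, Finset.mem_insert, Finset.mem_union]
    exact Or.inr (Or.inl (ih hY))
  | right l _ ih =>
    intro Y hY
    simp only [nodes, Finset.mem_insert, Finset.mem_union]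
    exact Or.inr (Or.inr (ih hY))

lemma Sub.fs_subset {f t : BT α} (h : Sub f t) : f.fs ⊆ t.fs :=
  subset_of_mem_nodes (h.nodes_subset f.fs_mem_nodes)

lemma Sub.part {f t : BT α} (h : Sub f t) (ht : t.Part) : f.Part := by
  induction h with
  | refl => exact ht
  | left r _ ih => exact ih ht.2.1
  | right l _ ih => exact ih ht.2.2

lemma laminar {t : BT α} (ht : t.Part) {Y Z : Finset α} (hY : Y ∈ t.nodes) (hZ : Z ∈ t.nodes) :
    Y ⊆ Z ∨ Z ⊆ Y ∨ Disjoint Y Z := by
  induction t with
  | leaf a =>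
    simp only [nodes, Finset.mem_singleton] at hY hZ
    subst hY hZ
    exact Or.inl subset_rfl
  | node l r ihl ihr =>
    have h1 := subset_of_mem_nodes hY
    have h2 := subset_of_mem_nodes hZ
    simp only [nodes, Finset.mem_insert, Finset.mem_union] at hY hZ
    rcases hY with rfl | hY | hY
    · exact Or.inr (Or.inl h2)
    · rcases hZ with rfl | hZ | hZ
      · exact Or.inl h1
      · exact ihl ht.2.1 hY hZ
      · exact Or.inr (Or.inr ((ht.1.mono_left (subset_of_mem_nodes hY)).mono_right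
          (subset_of_mem_nodes hZ)))
    · rcases hZ with rfl | hZ | hZ
      · exact Or.inl h1
      · exact Or.inr (Or.inr ((ht.1.symm.mono_left (subset_of_mem_nodes hY)).mono_right
          (subset_of_mem_nodes hZ)))
      · exact ihr ht.2.2 hY hZ

/-- crossing sets -/
def Crosses (Y X : Finset α) : Prop := (Y ∩ X).Nonempty ∧ (Y \ X).Nonempty ∧ (X \ Y).Nonempty

instance (Y X : Finset α) : Decidable (Crosses Y X) := by unfold Crosses; infer_instance

/-- the number of crossing nodes -/
def cr (t : BT α) (X : Finset α) : ℕ := (t.nodes.filter fun Y => Crosses Y X).card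

lemma cr_lt {t : BT α} (ht : t.Part) {Y X X' : Finset α} (hY : Y ∈ t.nodes) (hc : Crosses Y X)
    (hX' : X' = X ∩ Y ∨ X' = X ∪ Y ∨ X' = X \ Y) : cr t X' < cr t X := by
  apply Finset.card_lt_card
  rw [Finset.ssubset_iff_subset_ne]
  have hYc : ¬ Crosses Y X' := by
    rintro ⟨⟨a, ha⟩, ⟨b, hb⟩, ⟨c, hc⟩⟩
    simp only [Finset.mem_inter, Finset.mem_sdiff] at ha hb hc
    rcases hX' with rfl | rfl | rfl
    · simp only [Finset.mem_inter] at ha hb hc; tauto
    · simp only [Finset.mem_union] at ha hb hc; tauto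
    · simp only [Finset.mem_sdiff] at ha hb hc; tauto
  constructor
  · intro Z hZ
    rw [Finset.mem_filter] at hZ ⊢
    refine ⟨hZ.1, ?_⟩
    obtain ⟨⟨a, ha⟩, ⟨b, hb⟩, ⟨c, hc'⟩⟩ := hZ.2
    obtain ⟨⟨d, hd⟩, ⟨e, he⟩, ⟨g, hg⟩⟩ := hc
    simp only [Finset.mem_inter, Finset.mem_sdiff] at ha hb hc' hd he hg
    rcases laminar ht hY hZ.1 with h | h | h
    · -- `Y ⊆ Z`
      rcases hX' with rfl | rfl | rfl
      · simp only [Finset.mem_inter] at hc'
        exact absurd (h hc'.1.2) hc'.2
      · simp only [Finset.mem_union] at ha hb hc'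
        refine ⟨⟨d, Finset.mem_inter.2 ⟨h hd.1, hd.2⟩⟩, ⟨e, Finset.mem_sdiff.2 ⟨h he.1, he.2⟩⟩,
          ⟨c, Finset.mem_sdiff.2 ⟨?_, hc'.2⟩⟩⟩
        rcases hc'.1 with h1 | h1
        · exact h1
        · exact absurd (h h1) hc'.2
      · simp only [Finset.mem_sdiff] at ha hb hc'
        exact ⟨⟨d, Finset.mem_inter.2 ⟨h hd.1, hd.2⟩⟩, ⟨e, Finset.mem_sdiff.2 ⟨h he.1, he.2⟩⟩,
          ⟨c, Finset.mem_sdiff.2 ⟨hc'.1.1, hc'.2⟩⟩⟩
    · -- `Z ⊆ Y`
      rcases hX' with rfl | rfl | rfl
      · simp only [Finset.mem_inter] at ha hb hc'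
        refine ⟨⟨a, Finset.mem_inter.2 ⟨ha.1, ha.2.1⟩⟩, ⟨b, Finset.mem_sdiff.2 ⟨hb.1, ?_⟩⟩,
          ⟨c, Finset.mem_sdiff.2 ⟨hc'.1.1, hc'.2⟩⟩⟩
        intro h1; exact hb.2 ⟨h1, h hb.1⟩
      · simp only [Finset.mem_union, not_or] at hb
        exact absurd (h hb.1) hb.2.2
      · simp only [Finset.mem_sdiff] at ha
        exact absurd (h ha.1) ha.2.2
    · -- disjoint
      rw [Finset.disjoint_left] at h
      rcases hX' with rfl | rfl | rfl
      · simp only [Finset.mem_inter] at ha
        exact absurd ha.1 (h ha.2.2)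
      · simp only [Finset.mem_union, not_or] at ha hb hc'
        refine ⟨⟨a, Finset.mem_inter.2 ⟨ha.1, ?_⟩⟩, ⟨b, Finset.mem_sdiff.2 ⟨hb.1, hb.2.1⟩⟩,
          ⟨d, Finset.mem_sdiff.2 ⟨hd.2, h hd.1⟩⟩⟩
        rcases ha.2 with h1 | h1
        · exact h1
        · exact absurd ha.1 (h h1)
      · simp only [Finset.mem_sdiff] at ha hb hc'
        refine ⟨⟨a, Finset.mem_inter.2 ⟨ha.1, ha.2.1⟩⟩, ⟨b, Finset.mem_sdiff.2 ⟨hb.1, ?_⟩⟩,
          ⟨d, Finset.mem_sdiff.2 ⟨hd.2, h hd.1⟩⟩⟩
        intro h1; exact hb.2 ⟨h1, fun h2 => h h2 hb.1⟩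
  · intro h
    have : Y ∈ t.nodes.filter fun Y => Crosses Y X := Finset.mem_filter.2 ⟨hY, hc⟩
    rw [← h, Finset.mem_filter] at this
    exact hYc this.2

/-- joining two optional trees -/
def jn : Option (BT α) → Option (BT α) → Option (BT α)
  | none, b => b
  | some a, none => some a
  | some a, some b => some (node a b)

/-- restriction of a tree to a set of labels -/
def restr : BT α → Finset α → Option (BT α)
  | leaf a, X => if a ∈ X then some (leaf a) else none
  | node l r, X => jn (restr l X) (restr r X)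

lemma restr_none {t : BT α} {X : Finset α} : restr t X = none ↔ t.fs ∩ X = ∅ := by
  induction t with
  | leaf a =>
    simp only [restr, fs_leaf]
    by_cases h : a ∈ X
    · simp [h]
    · simp [h]
  | node l r ihl ihr =>
    simp only [restr, fs_node, Finset.union_inter_distrib_right, Finset.union_eq_empty, ← ihl,
      ← ihr]
    cases h1 : restr l X <;> cases h2 : restr r X <;> simp [jn]

lemma restr_some {t : BT α} {X : Finset α} : ∀ {s : BT α}, restr t X = some s →
    s.fs = t.fs ∩ X ∧ (t.Part → s.Part) ∧ ∀ Z ∈ s.nodes, ∃ Y ∈ t.nodes, Z = Y ∩ X := by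
  induction t with
  | leaf a =>
    intro s h
    simp only [restr] at h
    split_ifs at h with ha
    cases h
    have e : ({a} : Finset α) ∩ X = {a} := by simp [ha]
    refine ⟨by rw [fs_leaf, e], fun _ => trivial, fun Z hZ => ?_⟩
    simp only [nodes, Finset.mem_singleton] at hZ
    subst hZ
    exact ⟨{a}, by simp [nodes], e.symm⟩
  | node l r ihl ihr =>
    intro s h
    simp only [restr] at h
    cases h1 : restr l X with
    | none =>
      rw [h1] at h
      obtain ⟨e1, e2, e3⟩ := ihr h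
      rw [restr_none] at h1
      refine ⟨by rw [fs_node, Finset.union_inter_distrib_right, h1, Finset.empty_union, e1],
        fun hp => e2 hp.2.2, fun Z hZ => ?_⟩
      obtain ⟨Y, hY, hY'⟩ := e3 Z hZ
      exact ⟨Y, by simp only [nodes, Finset.mem_insert, Finset.mem_union]; exact Or.inr (Or.inr hY),
        hY'⟩
    | some l' =>
      rw [h1] at h
      obtain ⟨d1, d2, d3⟩ := ihl h1
      cases h2 : restr r X with
      | none =>
        rw [h2] at h
        simp only [jn, Option.some.injEq] at h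
        subst h
        rw [restr_none] at h2
        refine ⟨by rw [fs_node, Finset.union_inter_distrib_right, h2, Finset.union_empty, d1],
          fun hp => d2 hp.2.1, fun Z hZ => ?_⟩
        obtain ⟨Y, hY, hY'⟩ := d3 Z hZ
        exact ⟨Y, by
          simp only [nodes, Finset.mem_insert, Finset.mem_union]; exact Or.inr (Or.inl hY), hY'⟩
      | some r' =>
        rw [h2] at h
        obtain ⟨e1, e2, e3⟩ := ihr h2
        simp only [jn, Option.some.injEq] at h
        subst h
        refine ⟨by rw [fs_node, fs_node, Finset.union_inter_distrib_right, d1, e1],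
          fun hp => ⟨?_, d2 hp.2.1, e2 hp.2.2⟩, fun Z hZ => ?_⟩
        · rw [d1, e1]
          exact (hp.1.mono_left Finset.inter_subset_left).mono_right Finset.inter_subset_left
        · simp only [nodes, Finset.mem_insert, Finset.mem_union] at hZ
          rcases hZ with rfl | hZ | hZ
          · exact ⟨l.fs ∪ r.fs, by simp [nodes], by
              rw [d1, e1, Finset.union_inter_distrib_right]⟩
          · obtain ⟨Y, hY, hY'⟩ := d3 Z hZ
            exact ⟨Y, by
              simp only [nodes, Finset.mem_insert, Finset.mem_union]; exact Or.inr (Or.inl hY), hY'⟩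
          · obtain ⟨Y, hY, hY'⟩ := e3 Z hZ
            exact ⟨Y, by
              simp only [nodes, Finset.mem_insert, Finset.mem_union]; exact Or.inr (Or.inr hY), hY'⟩

lemma restr_eq_self {t : BT α} {X : Finset α} (h : t.fs ⊆ X) : restr t X = some t := by
  induction t with
  | leaf a => simp only [restr]; rw [if_pos (h (by simp))]
  | node l r ihl ihr =>
    simp only [restr]
    rw [ihl (Finset.subset_union_left.trans h), ihr (Finset.subset_union_right.trans h)]
    rfl

variable (lam : Finset α → ℕ)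

/-- the potential of a tree -/
def pot : BT α → ℕ
  | leaf a => 8 * 64 ^ lam {a}
  | node l r => 8 * 64 ^ lam (l.fs ∪ r.fs) + 64 ^ min (lam (l.fs ∪ r.fs)) (lam l.fs) +
      64 ^ min (lam (l.fs ∪ r.fs)) (lam r.fs) + pot l + pot r

/-- the potential of an optional tree -/
def opot : Option (BT α) → ℕ
  | none => 0
  | some t => pot lam t

@[simp] lemma opot_none : opot lam (none : Option (BT α)) = 0 := rfl
@[simp] lemma opot_some (t : BT α) : opot lam (some t) = pot lam t := rfl

lemma pw_le {a b : ℕ} (h : a ≤ b) : 64 ^ a ≤ 64 ^ b := Nat.pow_le_pow_right (by norm_num) h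

lemma pw_lt {a b : ℕ} (h : a < b) : 64 * 64 ^ a ≤ 64 ^ b := by
  rw [← pow_succ']; exact Nat.pow_le_pow_right (by norm_num) h

lemma opot_jn (a b : Option (BT α)) (μ : ℕ) (h : ∀ s, jn a b = some s → lam s.fs ≤ μ) :
    opot lam (jn a b) ≤ opot lam a + opot lam b + 10 * 64 ^ μ := by
  cases a with
  | none => simp [jn]
  | some a =>
    cases b with
    | none => simp [jn]
    | some b =>
      have h1 := h _ rfl
      simp only [jn, opot_some, pot]
      rw [fs_node] at h1
      have h2 := pw_le h1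
      have h3 : 64 ^ min (lam (a.fs ∪ b.fs)) (lam a.fs) ≤ 64 ^ μ :=
        pw_le ((min_le_left _ _).trans h1)
      have h4 : 64 ^ min (lam (a.fs ∪ b.fs)) (lam b.fs) ≤ 64 ^ μ :=
        pw_le ((min_le_left _ _).trans h1)
      omega

end BT

/-- symmetric submodular functions -/
structure IsConn {α : Type*} [Fintype α] [DecidableEq α] (lam : Finset α → ℕ) : Prop where
  symm : ∀ X, lam Xᶜ = lam X
  submod : ∀ X Y, lam (X ∪ Y) + lam (X ∩ Y) ≤ lam X + lam Y

open BT

variable {α : Type*} [Fintype α] [DecidableEq α] {lam : Finset α → ℕ}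

lemma inter_compl_eq (Y X : Finset α) : Y ∩ Xᶜ = Y \ X := by
  ext x; simp

/-- potentials of the two parts of a split side tree -/
lemma side_pot {X : Finset α} {s : BT α}
    (hY : ∀ Y ∈ s.nodes, (Y ∩ X).Nonempty → (Y \ X).Nonempty →
      lam (Y ∩ X) < lam Y ∧ lam (Y \ X) < lam Y) :
    ((s.fs ∩ X).Nonempty → (s.fs \ X).Nonempty →
      opot lam (restr s X) + opot lam (restr s Xᶜ) + 2 * 64 ^ lam s.fs ≤ pot lam s) ∧
    (s.fs ∩ X = ∅ → restr s X = none ∧ restr s Xᶜ = some s) ∧
    (s.fs \ X = ∅ → restr s X = some s ∧ restr s Xᶜ = none) := by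
  refine ⟨?_, ?_, ?_⟩
  rotate_left
  · intro h
    refine ⟨restr_none.2 h, restr_eq_self ?_⟩
    intro x hx
    simp only [Finset.mem_compl]
    intro hx'
    have : x ∈ s.fs ∩ X := Finset.mem_inter.2 ⟨hx, hx'⟩
    rw [h] at this; simp at this
  · intro h
    refine ⟨restr_eq_self (Finset.sdiff_eq_empty_iff_subset.1 h), restr_none.2 ?_⟩
    rw [inter_compl_eq, h]
  induction s with
  | leaf a =>
    rintro ⟨x, hx⟩ ⟨y, hy⟩
    simp only [fs_leaf, Finset.mem_inter, Finset.mem_sdiff, Finset.mem_singleton] at hx hy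
    exact absurd (hy.1 ▸ hx.1 ▸ hx.2) hy.2
  | node l r ihl ihr =>
    intro h1 h2
    have hl : ∀ Y ∈ l.nodes, Y ∈ (node l r).nodes := fun Y h => by
      simp only [nodes, Finset.mem_insert, Finset.mem_union]; exact Or.inr (Or.inl h)
    have hr : ∀ Y ∈ r.nodes, Y ∈ (node l r).nodes := fun Y h => by
      simp only [nodes, Finset.mem_insert, Finset.mem_union]; exact Or.inr (Or.inr h)
    have ihl' := ihl fun Y h => hY Y (hl Y h)
    have ihr' := ihr fun Y h => hY Y (hr Y h)
    have hc : ∀ c : BT α, ((c.fs ∩ X).Nonempty → (c.fs \ X).Nonempty →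
        opot lam (restr c X) + opot lam (restr c Xᶜ) + 2 * 64 ^ lam c.fs ≤ pot lam c) →
        opot lam (restr c X) + opot lam (restr c Xᶜ) ≤ pot lam c := by
      intro c hc
      by_cases e1 : (c.fs ∩ X).Nonempty
      · by_cases e2 : (c.fs \ X).Nonempty
        · have := hc e1 e2
          omega
        · rw [Finset.not_nonempty_iff_eq_empty] at e2
          have e3 : restr c Xᶜ = none := restr_none.2 (by rw [inter_compl_eq, e2])
          rw [restr_eq_self (Finset.sdiff_eq_empty_iff_subset.1 e2), e3]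
          simp
      · rw [Finset.not_nonempty_iff_eq_empty] at e1
        rw [restr_none.2 e1, restr_eq_self (X := Xᶜ)]
        · simp
        · intro x hx
          simp only [Finset.mem_compl]
          intro hx'
          have : x ∈ c.fs ∩ X := Finset.mem_inter.2 ⟨hx, hx'⟩
          rw [e1] at this; simp at this
    have il := hc l ihl'
    have ir := hc r ihr'
    obtain ⟨g1, g2⟩ := hY _ (node l r).fs_mem_nodes h1 h2
    have j1 := opot_jn lam (restr l X) (restr r X) (lam ((node l r).fs ∩ X)) (by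
      intro s hs
      rw [(restr_some (t := node l r) hs).1])
    have j2 := opot_jn lam (restr l Xᶜ) (restr r Xᶜ) (lam ((node l r).fs \ X)) (by
      intro s hs
      rw [(restr_some (t := node l r) hs).1, inter_compl_eq])
    have p1 := pw_lt g1
    have p2 := pw_lt g2
    have p3 := Nat.zero_le (64 ^ min (lam (l.fs ∪ r.fs)) (lam l.fs))
    have p4 := Nat.zero_le (64 ^ min (lam (l.fs ∪ r.fs)) (lam r.fs))
    simp only [restr, pot]
    simp only [fs_node] at j1 j2 p1 p2 ⊢
    omega

omit [Fintype α] in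
lemma set_aux1 (A S X : Finset α) : A ∪ X ∪ S \ X = A ∪ S ∪ X := by
  ext x; simp only [Finset.mem_union, Finset.mem_sdiff]; tauto

/-- the statement propagated along the path -/
def PQ (lam : Finset α → ℕ) (w : ℕ) (X A : Finset α) (inn tot : ℕ) : Prop :=
  ∃ (O : BT α → BT α) (out : ℕ), (∀ u : BT α, u.fs = X → (O u).fs = A ∪ X ∧
      pot lam (O u) = pot lam u + out ∧ (u.Part → (O u).Part) ∧
      ∀ Y ∈ (O u).nodes, Y ∈ u.nodes ∨ lam Y ≤ w) ∧
    (A ⊆ X → inn + out ≤ tot) ∧
    (¬ A ⊆ X → ¬ X ⊆ A → inn + out + (9 * 64 ^ lam X + 1) ≤ tot) ∧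
    (X ⊆ A → inn + out + 1 ≤ tot)

/-- conditions on the path -/
structure OnPath (lam : Finset α → ℕ) (X A : Finset α) : Prop where
  ha : lam X ≤ lam (A ∩ X)
  hb : lam X ≤ lam (A ∪ X)
  hab : lam (A ∩ X) + lam (A ∪ X) ≤ lam A + lam X
  hlt : lam X < lam A
  ha' : ¬ X ⊆ A → lam X < lam (A ∩ X)
  hb' : ¬ A ⊆ X → lam X < lam (A ∪ X)

lemma path_step {w : ℕ} {X : Finset α} {g S : BT α} (hp : (node g S).Part)
    (hg : OnPath lam X g.fs) (hg' : OnPath lam X (g.fs ∪ S.fs)) (hne : (g.fs ∩ X).Nonempty)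
    (hS : ∀ Y ∈ S.nodes, (Y ∩ X).Nonempty → (Y \ X).Nonempty →
      lam (Y ∩ X) < lam Y ∧ lam (Y \ X) < lam Y)
    (hS' : ∀ Y ∈ S.nodes, lam (Y \ X) ≤ w) (hw : lam (g.fs ∪ S.fs ∪ X) ≤ w)
    (h : PQ lam w X g.fs (opot lam (restr g X)) (pot lam g)) :
    PQ lam w X (g.fs ∪ S.fs) (opot lam (restr (node g S) X)) (pot lam (node g S)) := by
  obtain ⟨O, out, hO, n1, n2, n3⟩ := h
  obtain ⟨s1, s2, s3⟩ := side_pot hS
  obtain ⟨gi, hgi⟩ : ∃ gi, restr g X = some gi := by
    cases hr : restr g X with
    | none => rw [restr_none] at hr; rw [hr] at hne; simp at hne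
    | some gi => exact ⟨gi, rfl⟩
  have hgi1 := (restr_some hgi).1
  obtain ⟨ha, hb, hab, hlt, ha', hb'⟩ := hg
  obtain ⟨pa, pb, pab, plt, pa', pb'⟩ := hg'
  have z1 := Nat.zero_le (64 ^ min (lam (g.fs ∪ S.fs)) (lam g.fs))
  have z2 := Nat.zero_le (64 ^ min (lam (g.fs ∪ S.fs)) (lam S.fs))
  by_cases c1 : (S.fs \ X).Nonempty
  · -- a part of the side tree is outside
    obtain ⟨So, hSo⟩ : ∃ So, restr S Xᶜ = some So := by
      cases hr : restr S Xᶜ with
      | none =>
        rw [restr_none, inter_compl_eq] at hr; rw [hr] at c1; simp at c1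
      | some So => exact ⟨So, rfl⟩
    obtain ⟨So1, So2, So3⟩ := restr_some hSo
    rw [inter_compl_eq] at So1
    have hAX : ¬ (g.fs ∪ S.fs ⊆ X) := by
      intro h
      obtain ⟨x, hx⟩ := c1
      rw [Finset.mem_sdiff] at hx
      exact hx.2 (h (Finset.mem_union_right _ hx.1))
    have hout : ∀ u : BT α, u.fs = X → (O u).fs ∪ So.fs = g.fs ∪ S.fs ∪ X := by
      intro u hu
      rw [(hO u hu).1, So1, set_aux1]
    refine ⟨fun u => node (O u) So, out + (8 * 64 ^ lam (g.fs ∪ S.fs ∪ X) +
      64 ^ min (lam (g.fs ∪ S.fs ∪ X)) (lam (g.fs ∪ X)) +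
      64 ^ min (lam (g.fs ∪ S.fs ∪ X)) (lam (S.fs \ X)) + pot lam So), ?_, ?_⟩
    · intro u hu
      obtain ⟨o1, o2, o3, o4⟩ := hO u hu
      refine ⟨by rw [fs_node, hout u hu], ?_, ?_, ?_⟩
      · simp only [pot]
        rw [hout u hu, o2, o1, So1]
        ring
      · intro hup
        refine ⟨?_, o3 hup, So2 hp.2.2⟩
        rw [o1, So1, Finset.disjoint_left]
        intro x hx hx'
        simp only [Finset.mem_union, Finset.mem_sdiff] at hx hx'
        rcases hx with hx | hx
        · exact Finset.disjoint_left.1 hp.1 hx hx'.1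
        · exact hx'.2 hx
      · intro Y hY
        simp only [nodes, Finset.mem_insert, Finset.mem_union] at hY
        rcases hY with rfl | hY | hY
        · right; rw [hout u hu]; exact hw
        · exact o4 Y hY
        · right
          obtain ⟨Z, hZ, rfl⟩ := So3 Y hY
          rw [inter_compl_eq]; exact hS' Z hZ
    · refine ⟨fun h => absurd h hAX, ?_⟩
      by_cases c2 : (S.fs ∩ X).Nonempty
      · -- split
        have t1 := s1 c2 c1
        obtain ⟨q1, q2⟩ := hS _ S.fs_mem_nodes c2 c1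
        obtain ⟨Si, hSi⟩ : ∃ Si, restr S X = some Si := by
          cases hr : restr S X with
          | none => rw [restr_none] at hr; rw [hr] at c2; simp at c2
          | some Si => exact ⟨Si, rfl⟩
        have hSi1 := (restr_some hSi).1
        have hXg : ¬ X ⊆ g.fs := by
          intro h
          obtain ⟨x, hx⟩ := c2
          rw [Finset.mem_inter] at hx
          exact Finset.disjoint_left.1 hp.1 (h hx.2) hx.1
        have e1 : gi.fs ∪ Si.fs = (g.fs ∪ S.fs) ∩ X := by
          rw [hgi1, hSi1, Finset.union_inter_distrib_right]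
        simp only [restr, hgi, hSi, jn, opot_some, pot]
        rw [hSi, hSo] at t1
        simp only [opot_some] at t1
        rw [hgi] at n1 n2 n3
        simp only [opot_some] at n1 n2 n3
        rw [e1, hgi1, hSi1]
        have b1 : 64 ^ min (lam ((g.fs ∪ S.fs) ∩ X)) (lam (g.fs ∩ X)) ≤
            64 ^ lam ((g.fs ∪ S.fs) ∩ X) := pw_le (min_le_left _ _)
        have b2 : 64 * 64 ^ min (lam ((g.fs ∪ S.fs) ∩ X)) (lam (S.fs ∩ X)) ≤ 64 ^ lam S.fs :=
          pw_lt ((min_le_right _ _).trans_lt q1)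
        have b3 : 64 * 64 ^ min (lam (g.fs ∪ S.fs ∪ X)) (lam (S.fs \ X)) ≤ 64 ^ lam S.fs :=
          pw_lt ((min_le_right _ _).trans_lt q2)
        have b4 : 64 ^ min (lam (g.fs ∪ S.fs ∪ X)) (lam (g.fs ∪ X)) ≤
            64 ^ lam (g.fs ∪ S.fs ∪ X) := pw_le (min_le_left _ _)
        have b5 := pw_le (a := lam X) (b := lam ((g.fs ∪ S.fs) ∩ X)) pa
        have hpos : 1 ≤ 64 ^ lam X := Nat.one_le_pow _ _ (by norm_num)
        have k1 := pb' hAX
        constructor
        · intro _ h2
          have k2 := pa' h2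
          have b6 := pw_lt (a := lam ((g.fs ∪ S.fs) ∩ X)) (b := lam (g.fs ∪ S.fs)) (by omega)
          have b7 := pw_lt (a := lam (g.fs ∪ S.fs ∪ X)) (b := lam (g.fs ∪ S.fs)) (by omega)
          have b8 : pot lam gi + out ≤ pot lam g := by
            by_cases c3 : g.fs ⊆ X
            · exact n1 c3
            · have := n2 c3 hXg
              omega
          omega
        · intro h2
          have e2 : (g.fs ∪ S.fs) ∩ X = X := Finset.inter_eq_right.2 h2
          rw [e2] at b1 b2 b5 pab ⊢
          have b6 := pw_lt plt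
          have b7 := pw_le (a := lam (g.fs ∪ S.fs ∪ X)) (b := lam (g.fs ∪ S.fs)) (by omega)
          by_cases c3 : g.fs ⊆ X
          · have b8 := n1 c3
            have e3 : g.fs ∪ X = X := Finset.union_eq_right.2 c3
            rw [e3]
            have b9 : 64 * 64 ^ lam X ≤ 64 ^ min (lam (g.fs ∪ S.fs)) (lam g.fs) :=
              pw_lt (lt_min plt hlt)
            have b10 : 64 ^ min (lam (g.fs ∪ S.fs ∪ X)) (lam X) ≤ 64 ^ lam X :=
              pw_le (min_le_right _ _)
            omega
          · have b8 := n2 c3 hXg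
            have b9 : 64 ^ min (lam (g.fs ∪ S.fs ∪ X)) (lam (g.fs ∪ X)) ≤
              64 ^ min (lam (g.fs ∪ S.fs)) (lam g.fs) := by
              apply pw_le
              apply le_min
              · exact (min_le_left _ _).trans (by omega)
              · exact (min_le_right _ _).trans (by omega)
            omega
      · -- the side tree is outside
        rw [Finset.not_nonempty_iff_eq_empty] at c2
        obtain ⟨r1, r2⟩ := s2 c2
        have e0 : So = S := by rw [r2] at hSo; exact (Option.some.inj hSo).symm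
        subst e0
        have e1 : (g.fs ∪ So.fs) ∩ X = g.fs ∩ X := by
          rw [Finset.union_inter_distrib_right, c2, Finset.union_empty]
        rw [e1] at pab pa pa'
        simp only [restr, hgi, r1, jn, opot_some, pot]
        rw [hgi] at n1 n2 n3
        simp only [opot_some] at n1 n2 n3
        rw [← So1]
        have b1 : 64 ^ min (lam (g.fs ∪ So.fs ∪ X)) (lam (g.fs ∪ X)) ≤
            64 ^ min (lam (g.fs ∪ So.fs)) (lam g.fs) := by
          apply pw_le
          apply le_min
          · exact (min_le_left _ _).trans (by omega)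
          · exact (min_le_right _ _).trans (by omega)
        have b2 : 64 ^ min (lam (g.fs ∪ So.fs ∪ X)) (lam So.fs) ≤
            64 ^ min (lam (g.fs ∪ So.fs)) (lam So.fs) := by
          apply pw_le
          apply le_min
          · exact (min_le_left _ _).trans (by omega)
          · exact (min_le_right _ _)
        have b3 := pw_le (a := lam (g.fs ∪ So.fs ∪ X)) (b := lam (g.fs ∪ So.fs)) (by omega)
        constructor
        · intro h1 h2
          have hXg : ¬ X ⊆ g.fs := fun h => h2 (h.trans Finset.subset_union_left)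
          by_cases c3 : g.fs ⊆ X
          · have b4 := n1 c3
            have k1 := pa' h2
            have k2 := pb' h1
            have b5 := pw_lt (a := lam (g.fs ∪ So.fs ∪ X)) (b := lam (g.fs ∪ So.fs)) (by omega)
            have b6 := pw_lt k2
            have hpos : 1 ≤ 64 ^ lam X := Nat.one_le_pow _ _ (by norm_num)
            omega
          · have b4 := n2 c3 hXg
            omega
        · intro h1
          have hXg : X ⊆ g.fs := by
            intro x hx
            rcases Finset.mem_union.1 (h1 hx) with h | h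
            · exact h
            · have : x ∈ So.fs ∩ X := Finset.mem_inter.2 ⟨h, hx⟩
              rw [c2] at this; simp at this
          have b4 := n3 hXg
          omega
  · -- the side tree is inside
    rw [Finset.not_nonempty_iff_eq_empty] at c1
    obtain ⟨r1, r2⟩ := s3 c1
    have hSX := Finset.sdiff_eq_empty_iff_subset.1 c1
    have e1 : g.fs ∪ S.fs ∪ X = g.fs ∪ X := by
      rw [Finset.union_assoc, Finset.union_eq_right.2 hSX]
    have hSn := S.fs_nonempty
    have hXg : ¬ X ⊆ g.fs := by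
      intro h
      obtain ⟨x, hx⟩ := hSn
      exact Finset.disjoint_left.1 hp.1 (h (hSX hx)) hx
    refine ⟨O, out, fun u hu => ?_, ?_⟩
    · rw [e1]; exact hO u hu
    · have e2 : gi.fs ∪ S.fs = (g.fs ∪ S.fs) ∩ X := by
        rw [hgi1, Finset.union_inter_distrib_right, Finset.inter_eq_left.2 hSX]
      simp only [restr, hgi, r1, jn, opot_some, pot]
      rw [hgi] at n1 n2 n3
      simp only [opot_some] at n1 n2 n3
      rw [e2, hgi1]
      have b0 : lam ((g.fs ∪ S.fs) ∩ X) ≤ lam (g.fs ∪ S.fs) := by omega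
      have b0' : lam (g.fs ∩ X) ≤ lam g.fs := by omega
      have b1 : 64 ^ min (lam ((g.fs ∪ S.fs) ∩ X)) (lam (g.fs ∩ X)) ≤
          64 ^ min (lam (g.fs ∪ S.fs)) (lam g.fs) := pw_le (min_le_min b0 b0')
      have b2 : 64 ^ min (lam ((g.fs ∪ S.fs) ∩ X)) (lam S.fs) ≤
          64 ^ min (lam (g.fs ∪ S.fs)) (lam S.fs) := pw_le (min_le_min b0 le_rfl)
      have b3 := pw_le b0
      refine ⟨fun h1 => ?_, fun h1 h2 => ?_, fun h1 => ?_⟩
      · have := n1 (Finset.subset_union_left.trans h1)
        omega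
      · have := n2 (fun h => h1 (Finset.union_subset h hSX)) hXg
        omega
      · have b4 : pot lam gi + out ≤ pot lam g := by
          by_cases c3 : g.fs ⊆ X
          · exact n1 c3
          · have := n2 c3 hXg
            omega
        have e3 : (g.fs ∪ S.fs) ∩ X = X := Finset.inter_eq_right.2 h1
        rw [e3] at b1 b2 b3 ⊢
        have b5 := pw_lt plt
        have hpos : 1 ≤ 64 ^ lam X := Nat.one_le_pow _ _ (by norm_num)
        omega

omit [Fintype α] in
lemma pot_comm (l r : BT α) : pot lam (node l r) = pot lam (node r l) := by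
  simp only [pot]
  rw [Finset.union_comm]
  ring

omit [Fintype α] in
lemma opot_restr_comm (l r : BT α) (X : Finset α) :
    opot lam (restr (node l r) X) = opot lam (restr (node r l) X) := by
  simp only [restr]
  cases restr l X <;> cases restr r X <;> simp only [jn, opot_some, opot_none]
  exact pot_comm _ _

lemma path {w : ℕ} {X : Finset α} {f e : BT α} (he : e.Part) (hfX : f.fs ⊆ X)
    (hpath : ∀ g, Sub f g → Sub g e → OnPath lam X g.fs)
    (hS : ∀ Y ∈ e.nodes, Disjoint Y f.fs → (Y ∩ X).Nonempty → (Y \ X).Nonempty →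
      lam (Y ∩ X) < lam Y ∧ lam (Y \ X) < lam Y)
    (hS' : ∀ Y ∈ e.nodes, Disjoint Y f.fs → lam (Y \ X) ≤ w)
    (hw : ∀ Y ∈ e.nodes, lam Y ≤ w) {g : BT α} (hfg : Sub f g) (hge : Sub g e) :
    PQ lam w X g.fs (opot lam (restr g X)) (pot lam g) := by
  have hfne : ∀ g : BT α, Sub f g → (g.fs ∩ X).Nonempty := by
    intro g hg
    obtain ⟨x, hx⟩ := f.fs_nonempty
    exact ⟨x, Finset.mem_inter.2 ⟨hg.fs_subset hx, hfX hx⟩⟩
  have hwX : ∀ g, Sub f g → Sub g e → lam (g.fs ∪ X) ≤ w := by
    intro g h1 h2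
    have h3 := hpath g h1 h2
    have h4 := hw _ (h2.nodes_subset g.fs_mem_nodes)
    have := h3.hab
    have := h3.ha
    omega
  induction hfg with
  | refl =>
    refine ⟨id, 0, ?_, ?_, ?_, ?_⟩
    · intro u hu
      refine ⟨by rw [id, hu, Finset.union_eq_right.2 hfX], rfl, fun h => h, fun Y hY => Or.inl hY⟩
    · intro _
      rw [restr_eq_self hfX]; simp
    · intro h; exact absurd hfX h
    · intro h
      have e : f.fs = X := subset_antisymm hfX h
      have := (hpath f (.refl _) hge).hlt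
      rw [e] at this
      omega
  | @left l r h ih =>
    have hge' : Sub l e := (Sub.left r (.refl l)).trans hge
    have hSe : Sub r e := (Sub.right l (.refl r)).trans hge
    have hp := hge.part he
    have hdis : ∀ Y ∈ r.nodes, Disjoint Y f.fs := fun Y hY =>
      (hp.1.symm.mono_left (subset_of_mem_nodes hY)).mono_right h.fs_subset
    exact path_step hp (hpath l h hge') (hpath _ (.left r h) hge) (hfne l h)
      (fun Y hY => hS Y (hSe.nodes_subset hY) (hdis Y hY))
      (fun Y hY => hS' Y (hSe.nodes_subset hY) (hdis Y hY))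
      (hwX _ (.left r h) hge) (ih hge')
  | @right r l h ih =>
    have hge' : Sub r e := (Sub.right l (.refl r)).trans hge
    have hSe : Sub l e := (Sub.left r (.refl l)).trans hge
    have hp := hge.part he
    have hp' : (node r l).Part := ⟨hp.1.symm, hp.2.2, hp.2.1⟩
    have hdis : ∀ Y ∈ l.nodes, Disjoint Y f.fs := fun Y hY =>
      (hp.1.mono_left (subset_of_mem_nodes hY)).mono_right h.fs_subset
    have e1 : (node l r).fs = r.fs ∪ l.fs := by rw [fs_node, Finset.union_comm]
    rw [e1, opot_restr_comm, pot_comm]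
    exact path_step hp' (hpath r h hge') (e1 ▸ hpath _ (.right l h) hge) (hfne r h)
      (fun Y hY => hS Y (hSe.nodes_subset hY) (hdis Y hY))
      (fun Y hY => hS' Y (hSe.nodes_subset hY) (hdis Y hY))
      (e1 ▸ hwX _ (.right l h) hge) (ih hge')

/-- An unlinked tree can be improved. -/
lemma improve (hl : IsConn lam) {w : ℕ} {f e : BT α} (he : e.Part) (hfe : Sub f e)
    (hw : ∀ Y ∈ e.nodes, lam Y ≤ w) (X₀ : Finset α) (h1 : f.fs ⊆ X₀) (h2 : X₀ ⊆ e.fs)
    (h3 : ∀ g, Sub g e → Sub f g → lam X₀ < lam g.fs) :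
    ∃ e' : BT α, e'.fs = e.fs ∧ e'.Part ∧ pot lam e' < pot lam e ∧ ∀ Y ∈ e'.nodes, lam Y ≤ w := by
  classical
  -- choose an optimal set
  set F : Finset (Finset α) := Finset.univ.filter fun X => f.fs ⊆ X ∧ X ⊆ e.fs with hF
  have hmem : ∀ X, X ∈ F ↔ f.fs ⊆ X ∧ X ⊆ e.fs := by
    intro X; rw [hF, Finset.mem_filter]; simp
  obtain ⟨X, hX, hmin⟩ := Finset.exists_min_image F (fun X => toLex (lam X, cr e X))
    ⟨X₀, (hmem X₀).2 ⟨h1, h2⟩⟩
  obtain ⟨hfX, hXe⟩ := (hmem X).1 hX
  have hminl : ∀ X', f.fs ⊆ X' → X' ⊆ e.fs → lam X ≤ lam X' := by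
    intro X' h4 h5
    have := hmin X' ((hmem X').2 ⟨h4, h5⟩)
    rw [Prod.Lex.toLex_le_toLex] at this
    rcases this with h | h
    · exact h.le
    · exact h.1.le
  have hminc : ∀ X', f.fs ⊆ X' → X' ⊆ e.fs → cr e X' < cr e X → lam X < lam X' := by
    intro X' h4 h5 h6
    have := hmin X' ((hmem X').2 ⟨h4, h5⟩)
    rw [Prod.Lex.toLex_le_toLex] at this
    rcases this with h | h
    · exact h
    · simp only at h; omega
  obtain ⟨x₀, hx₀⟩ := f.fs_nonempty
  have hpath : ∀ g, Sub f g → Sub g e → OnPath lam X g.fs := by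
    intro g hfg hge
    have a1 : f.fs ⊆ g.fs ∩ X := Finset.subset_inter hfg.fs_subset hfX
    have a2 : g.fs ∩ X ⊆ e.fs := Finset.inter_subset_left.trans hge.fs_subset
    have a3 : f.fs ⊆ g.fs ∪ X := hfX.trans Finset.subset_union_right
    have a4 : g.fs ∪ X ⊆ e.fs := Finset.union_subset hge.fs_subset hXe
    have a5 : lam X < lam g.fs := lt_of_le_of_lt (hminl X₀ h1 h2) (h3 g hge hfg)
    have a6 : (g.fs ∩ X).Nonempty := ⟨x₀, a1 hx₀⟩
    have a7 := hge.nodes_subset g.fs_mem_nodes
    refine ⟨hminl _ a1 a2, hminl _ a3 a4, ?_, a5, ?_, ?_⟩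
    · have := hl.submod g.fs X; omega
    · intro h
      by_cases hc : (g.fs \ X).Nonempty
      · have hX' : (X \ g.fs).Nonempty := Finset.sdiff_nonempty.2 h
        refine hminc _ a1 a2 (cr_lt he a7 ⟨a6, hc, hX'⟩ (Or.inl (Finset.inter_comm _ _)))
      · rw [Finset.not_nonempty_iff_eq_empty, Finset.sdiff_eq_empty_iff_subset] at hc
        rw [Finset.inter_eq_left.2 hc]; exact a5
    · intro h
      by_cases hc : (X \ g.fs).Nonempty
      · have hX' : (g.fs \ X).Nonempty := Finset.sdiff_nonempty.2 h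
        refine hminc _ a3 a4 (cr_lt he a7 ⟨a6, hX', hc⟩ (Or.inr (Or.inl (Finset.union_comm _ _))))
      · rw [Finset.not_nonempty_iff_eq_empty, Finset.sdiff_eq_empty_iff_subset] at hc
        rw [Finset.union_eq_left.2 hc]; exact a5
  -- side sets
  have hside : ∀ Y ∈ e.nodes, Disjoint Y f.fs → lam (Y \ X) + lam (X \ Y) ≤ lam Y + lam X := by
    intro Y _ _
    have h4 := hl.submod Y Xᶜ
    have e1 : Y ∪ Xᶜ = (X \ Y)ᶜ := by
      ext x; simp only [Finset.mem_union, Finset.mem_compl, Finset.mem_sdiff]; tauto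
    rw [e1, hl.symm, hl.symm, inter_compl_eq] at h4
    omega
  have hfXY : ∀ Y : Finset α, Disjoint Y f.fs → f.fs ⊆ X \ Y := by
    intro Y hd x hx
    exact Finset.mem_sdiff.2 ⟨hfX hx, fun h => Finset.disjoint_left.1 hd h hx⟩
  have hS' : ∀ Y ∈ e.nodes, Disjoint Y f.fs → lam (Y \ X) ≤ w := by
    intro Y hY hd
    have h4 := hside Y hY hd
    have h5 := hminl (X \ Y) (hfXY Y hd) (Finset.sdiff_subset.trans hXe)
    have h6 := hw Y hY
    omega
  have hS : ∀ Y ∈ e.nodes, Disjoint Y f.fs → (Y ∩ X).Nonempty → (Y \ X).Nonempty →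
      lam (Y ∩ X) < lam Y ∧ lam (Y \ X) < lam Y := by
    intro Y hY hd h4 h5
    have hYe := subset_of_mem_nodes hY
    have h6 : (X \ Y).Nonempty := ⟨x₀, hfXY Y hd hx₀⟩
    have hc : Crosses Y X := ⟨h4, h5, h6⟩
    constructor
    · have h7 := hminc (Y ∪ X) (hfX.trans Finset.subset_union_right) (Finset.union_subset hYe hXe)
        (cr_lt he hY hc (Or.inr (Or.inl (Finset.union_comm _ _))))
      have := hl.submod Y X
      omega
    · have h7 := hminc (X \ Y) (hfXY Y hd) (Finset.sdiff_subset.trans hXe)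
        (cr_lt he hY hc (Or.inr (Or.inr rfl)))
      have := hside Y hY hd
      omega
  obtain ⟨O, out, hO, -, -, n3⟩ := path he hfX hpath hS hS' hw hfe (.refl e)
  have hne : (e.fs ∩ X).Nonempty := ⟨x₀, Finset.mem_inter.2 ⟨hfe.fs_subset hx₀, hfX hx₀⟩⟩
  obtain ⟨u, hu⟩ : ∃ u, restr e X = some u := by
    cases hr : restr e X with
    | none => rw [restr_none] at hr; rw [hr] at hne; simp at hne
    | some u => exact ⟨u, rfl⟩
  obtain ⟨u1, u2, u3⟩ := restr_some hu
  have u1' : u.fs = X := by rw [u1, Finset.inter_eq_right.2 hXe]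
  obtain ⟨o1, o2, o3, o4⟩ := hO u u1'
  have n3' := n3 hXe
  rw [hu, opot_some] at n3'
  refine ⟨O u, by rw [o1, Finset.union_eq_left.2 hXe], o3 (u2 he), by omega, ?_⟩
  intro Y hY
  rcases o4 Y hY with h | h
  · obtain ⟨Z, hZ, rfl⟩ := u3 Y h
    have h4 := hl.submod Z X
    have h5 := hminl (Z ∪ X) (hfX.trans Finset.subset_union_right)
      (Finset.union_subset (subset_of_mem_nodes hZ) hXe)
    have h6 := hw Z hZ
    omega
  · exact h

lemma replace {w : ℕ} {e t e' : BT α} (h : Sub e t) (ht : t.Part) (h1 : e'.fs = e.fs)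
    (h2 : e'.Part) (h3 : pot lam e' < pot lam e) (h4 : ∀ Y ∈ e'.nodes, lam Y ≤ w)
    (hw : ∀ Y ∈ t.nodes, lam Y ≤ w) :
    ∃ t' : BT α, t'.fs = t.fs ∧ t'.Part ∧ pot lam t' < pot lam t ∧ ∀ Y ∈ t'.nodes, lam Y ≤ w := by
  induction h with
  | refl => exact ⟨e', h1, h2, h3, h4⟩
  | @left l r h ih =>
    obtain ⟨l', p1, p2, p3, p4⟩ := ih ht.2.1 (fun Y hY => hw Y (by
      simp only [nodes, Finset.mem_insert, Finset.mem_union]; exact Or.inr (Or.inl hY)))
    refine ⟨node l' r, by rw [fs_node, fs_node, p1], ⟨by rw [p1]; exact ht.1, p2, ht.2.2⟩, ?_, ?_⟩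
    · simp only [pot]
      rw [p1]
      omega
    · intro Y hY
      simp only [nodes, Finset.mem_insert, Finset.mem_union] at hY
      rcases hY with rfl | hY | hY
      · rw [p1]; exact hw _ (by simp [nodes])
      · exact p4 Y hY
      · exact hw Y (by
          simp only [nodes, Finset.mem_insert, Finset.mem_union]; exact Or.inr (Or.inr hY))
  | @right r l h ih =>
    obtain ⟨r', p1, p2, p3, p4⟩ := ih ht.2.2 (fun Y hY => hw Y (by
      simp only [nodes, Finset.mem_insert, Finset.mem_union]; exact Or.inr (Or.inr hY)))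
    refine ⟨node l r', by rw [fs_node, fs_node, p1], ⟨by rw [p1]; exact ht.1, ht.2.1, p2⟩, ?_, ?_⟩
    · simp only [pot]
      rw [p1]
      omega
    · intro Y hY
      simp only [nodes, Finset.mem_insert, Finset.mem_union] at hY
      rcases hY with rfl | hY | hY
      · rw [p1]; exact hw _ (by simp [nodes])
      · exact hw Y (by
          simp only [nodes, Finset.mem_insert, Finset.mem_union]; exact Or.inr (Or.inl hY))
      · exact p4 Y hY

/-- **Existence of linked branch decompositions.** -/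
theorem exists_linked (hl : IsConn lam) {w : ℕ} (t₀ : BT α) (ht₀ : t₀.Part)
    (hw : ∀ Y ∈ t₀.nodes, lam Y ≤ w) :
    ∃ t : BT α, t.fs = t₀.fs ∧ t.Part ∧ (∀ Y ∈ t.nodes, lam Y ≤ w) ∧
      ∀ e, Sub e t → ∀ f, Sub f e → ∀ X, f.fs ⊆ X → X ⊆ e.fs →
        ∃ g, Sub g e ∧ Sub f g ∧ lam g.fs ≤ lam X := by
  classical
  have hex : ∃ n, ∃ t : BT α, t.fs = t₀.fs ∧ t.Part ∧ (∀ Y ∈ t.nodes, lam Y ≤ w) ∧
      pot lam t = n := ⟨_, t₀, rfl, ht₀, hw, rfl⟩
  obtain ⟨t, h1, h2, h3, h4⟩ := Nat.find_spec hex
  refine ⟨t, h1, h2, h3, ?_⟩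
  intro e he f hf X hfX hXe
  by_contra hcon
  push Not at hcon
  obtain ⟨e', p1, p2, p3, p4⟩ := improve hl (he.part h2) hf
    (fun Y hY => h3 Y (he.nodes_subset hY)) X hfX hXe (fun g h5 h6 => hcon g h5 h6)
  obtain ⟨t', q1, q2, q3, q4⟩ := replace he h2 p1 p2 p3 p4 h3
  exact Nat.find_min hex (by rw [← h4]; exact q3) ⟨t', q1.trans h1, q2, q4, rfl⟩

end Pool.Agent.H229
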