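import Pool.Agent.H229.Link
import Pool.Agent.H229.Linked

/-!
Excluded minors for branch-width: every matroid of branch-width larger than `w` has a minor of
bounded size of branch-width larger than `w`.
-/

namespace Pool.Agent.H229

open BT

variable {α : Type*} [DecidableEq α]

/-- the connectivity function of the minor with ground set `E` and rank function `f` (up to a
constant) -/
def cn (f : Finset α → ℕ) (E X : Finset α) : ℕ := f X + f (E \ X) - (f E + f ∅)

/-- contraction -/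
def ct (f : Finset α → ℕ) (C : Finset α) : Finset α → ℕ := fun A => f (A ∪ C)

lemma ct_apply (f : Finset α → ℕ) (C A : Finset α) : ct f C A = f (A ∪ C) := rfl

lemma ct_isRk {f : Finset α → ℕ} (hf : IsRk f) (C : Finset α) : IsRk (ct f C) where
  mono A B h := hf.mono _ _ (Finset.union_subset_union_left h)
  unit e A := by
    unfold ct
    rw [Finset.insert_union]
    exact hf.unit _ _
  submod A B := by
    unfold ct
    have h := hf.submod (A ∪ C) (B ∪ C)
    have e1 : A ∪ C ∪ (B ∪ C) = A ∪ B ∪ C := by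
      ext x; simp only [Finset.mem_union]; tauto
    have e2 : (A ∪ C) ∩ (B ∪ C) = A ∩ B ∪ C := by
      ext x; simp only [Finset.mem_union, Finset.mem_inter]; tauto
    rwa [e1, e2] at h

lemma cn_add {f : Finset α → ℕ} (hf : IsRk f) {E X : Finset α} (hX : X ⊆ E) :
    cn f E X + (f E + f ∅) = f X + f (E \ X) := by
  have h := hf.submod X (E \ X)
  rw [Finset.union_sdiff_of_subset hX, Finset.inter_sdiff_self] at h
  unfold cn
  omega

lemma cn_symm {f : Finset α → ℕ} {E X : Finset α} (hX : X ⊆ E) :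
    cn f E (E \ X) = cn f E X := by
  unfold cn
  rw [Finset.sdiff_sdiff_eq_self hX, add_comm (f (E \ X))]

lemma cn_submod {f : Finset α → ℕ} (hf : IsRk f) {E X Y : Finset α} (hX : X ⊆ E) (hY : Y ⊆ E) :
    cn f E (X ∪ Y) + cn f E (X ∩ Y) ≤ cn f E X + cn f E Y := by
  have h1 := cn_add hf hX
  have h2 := cn_add hf hY
  have h3 := cn_add hf (Finset.union_subset hX hY)
  have h4 := cn_add hf (Finset.inter_subset_left.trans hX : X ∩ Y ⊆ E)
  have h5 := hf.submod X Y
  have h6 := hf.submod (E \ X) (E \ Y)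
  have e1 : (E \ X) ∪ (E \ Y) = E \ (X ∩ Y) := by
    ext x; simp only [Finset.mem_union, Finset.mem_inter, Finset.mem_sdiff]; tauto
  have e2 : (E \ X) ∩ (E \ Y) = E \ (X ∪ Y) := by
    ext x; simp only [Finset.mem_union, Finset.mem_inter, Finset.mem_sdiff]; tauto
  rw [e1, e2] at h6
  omega

lemma cn_posimod {f : Finset α → ℕ} (hf : IsRk f) {E X Y : Finset α} (hX : X ⊆ E) (hY : Y ⊆ E) :
    cn f E (X \ Y) + cn f E (Y \ X) ≤ cn f E X + cn f E Y := by
  have h := cn_submod hf hX (Finset.sdiff_subset : E \ Y ⊆ E)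
  have e1 : X ∪ (E \ Y) = E \ (Y \ X) := by
    ext x
    simp only [Finset.mem_union, Finset.mem_sdiff]
    constructor
    · rintro (h | h)
      · exact ⟨hX h, fun h' => h'.2 h⟩
      · exact ⟨h.1, fun h' => h.2 h'.1⟩
    · rintro ⟨h1, h2⟩
      by_cases h3 : x ∈ X
      · exact Or.inl h3
      · exact Or.inr ⟨h1, fun h4 => h2 ⟨h4, h3⟩⟩
  have e2 : X ∩ (E \ Y) = X \ Y := by
    ext x
    simp only [Finset.mem_inter, Finset.mem_sdiff]
    constructor
    · rintro ⟨h1, h2⟩; exact ⟨h1, h2.2⟩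
    · rintro ⟨h1, h2⟩; exact ⟨h1, hX h1, h2⟩
  rw [e1, e2, cn_symm (Finset.sdiff_subset.trans hY), cn_symm hY] at h
  omega

lemma cn_empty {f : Finset α → ℕ} {E : Finset α} : cn f E ∅ = 0 := by
  unfold cn
  rw [Finset.sdiff_empty]
  omega

/-- minors do not increase connectivity -/
lemma cn_minor {f : Finset α → ℕ} (hf : IsRk f) {E E' C A : Finset α} (hE' : E' ⊆ E)
    (hC : C ⊆ E) (hdis : Disjoint C E') (hA : A ⊆ E) :
    cn (ct f C) E' (A ∩ E') ≤ cn f E A := by
  have h1 := cn_add hf hA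
  have h2 := cn_add (ct_isRk hf C) (Finset.inter_subset_right : A ∩ E' ⊆ E')
  simp only [ct_apply] at h2
  set F := E' ∪ C with hF
  have hFE : F ⊆ E := Finset.union_subset hE' hC
  -- deletion
  have s1 := hf.submod A F
  have s2 := hf.submod (A ∪ F) (E \ A)
  have e1 : A ∪ F ∪ (E \ A) = E := by
    ext x
    simp only [Finset.mem_union, Finset.mem_sdiff]
    constructor
    · rintro ((h | h) | h)
      · exact hA h
      · exact hFE h
      · exact h.1
    · intro h
      by_cases h3 : x ∈ A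
      · exact Or.inl (Or.inl h3)
      · exact Or.inr ⟨h, h3⟩
  have e2 : (A ∪ F) ∩ (E \ A) = F \ A := by
    ext x
    simp only [Finset.mem_union, Finset.mem_inter, Finset.mem_sdiff]
    constructor
    · rintro ⟨h | h, h2, h3⟩
      · exact absurd h h3
      · exact ⟨h, h3⟩
    · rintro ⟨h1, h2⟩; exact ⟨Or.inr h1, hFE h1, h2⟩
  rw [e1, e2] at s2
  -- contraction
  have s3 := hf.submod (A ∩ F) C
  have s4 := hf.submod (F \ A) C
  have s5 := hf.submod (A ∩ C) (C \ A)
  have hdis' := Finset.disjoint_left.1 hdis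
  have e3 : A ∩ F ∪ C = A ∩ E' ∪ C := by
    ext x; simp only [hF, Finset.mem_union, Finset.mem_inter]; tauto
  have e4 : A ∩ F ∩ C = A ∩ C := by
    ext x; simp only [hF, Finset.mem_union, Finset.mem_inter]; tauto
  have e5 : F \ A ∪ C = E' \ (A ∩ E') ∪ C := by
    ext x; simp only [hF, Finset.mem_union, Finset.mem_inter, Finset.mem_sdiff]; tauto
  have e6 : F \ A ∩ C = C \ A := by
    ext x; simp only [hF, Finset.mem_union, Finset.mem_inter, Finset.mem_sdiff]; tauto
  have e7 : A ∩ C ∪ C \ A = C := by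
    ext x; simp only [Finset.mem_union, Finset.mem_inter, Finset.mem_sdiff]; tauto
  have e8 : A ∩ C ∩ (C \ A) = ∅ := by
    ext x; simp only [Finset.mem_inter, Finset.mem_sdiff, Finset.notMem_empty, iff_false]; tauto
  rw [e3, e4] at s3
  rw [e5, e6] at s4
  rw [e7, e8] at s5
  rw [Finset.empty_union] at h2
  omega

/-- the inequality of Bixby and Coullard -/
lemma cn_bc {f : Finset α → ℕ} (hf : IsRk f) {E X Y : Finset α} {e : α} (he : e ∈ E)
    (hX : X ⊆ E.erase e) (hY : Y ⊆ E.erase e) :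
    cn f E (X ∩ Y) + cn f E (insert e (X ∪ Y)) ≤
      cn f (E.erase e) X + cn (ct f {e}) (E.erase e) Y + 1 := by
  have hXE : X ⊆ E := hX.trans (Finset.erase_subset _ _)
  have hYE : Y ⊆ E := hY.trans (Finset.erase_subset _ _)
  have heX : e ∉ X := fun h => (Finset.mem_erase.1 (hX h)).1 rfl
  have heY : e ∉ Y := fun h => (Finset.mem_erase.1 (hY h)).1 rfl
  have h1 := cn_add hf (Finset.inter_subset_left.trans hXE : X ∩ Y ⊆ E)
  have h2 := cn_add hf (Finset.insert_subset he (Finset.union_subset hXE hYE))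
  have h3 := cn_add hf hX
  have h4 := cn_add (ct_isRk hf {e}) hY
  simp only [ct_apply] at h4
  have s1 := hf.submod X (Y ∪ {e})
  have s2 := hf.submod (E.erase e \ X) (E.erase e \ Y ∪ {e})
  have s3 := hf.mono _ _ (Finset.erase_subset e E)
  have s4 := hf.unit e ∅
  have e1 : X ∪ (Y ∪ {e}) = insert e (X ∪ Y) := by
    ext x; simp only [Finset.mem_union, Finset.mem_insert, Finset.mem_singleton]; tauto
  have e2 : X ∩ (Y ∪ {e}) = X ∩ Y := by
    ext x
    simp only [Finset.mem_union, Finset.mem_inter, Finset.mem_singleton]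
    constructor
    · rintro ⟨h1, h2 | rfl⟩
      · exact ⟨h1, h2⟩
      · exact absurd h1 heX
    · rintro ⟨h1, h2⟩; exact ⟨h1, Or.inl h2⟩
  have e3 : (E.erase e \ X) ∪ (E.erase e \ Y ∪ {e}) = E \ (X ∩ Y) := by
    ext x
    simp only [Finset.mem_union, Finset.mem_inter, Finset.mem_singleton, Finset.mem_sdiff,
      Finset.mem_erase]
    by_cases hx : x = e
    · subst hx; simp [he, heX]
    · simp only [hx, ne_eq, not_false_eq_true, true_and, or_false]; tauto
  have e4 : (E.erase e \ X) ∩ (E.erase e \ Y ∪ {e}) = E \ insert e (X ∪ Y) := by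
    ext x
    simp only [Finset.mem_union, Finset.mem_inter, Finset.mem_singleton, Finset.mem_sdiff,
      Finset.mem_erase, Finset.mem_insert]
    by_cases hx : x = e
    · subst hx; simp
    · simp only [hx, ne_eq, not_false_eq_true, true_and, or_false, false_or]; tauto
  have e5 : E.erase e ∪ {e} = E := by
    ext x
    simp only [Finset.mem_union, Finset.mem_singleton, Finset.mem_erase]
    by_cases hx : x = e
    · subst hx; simp [he]
    · simp [hx]
  rw [e1, e2] at s1
  rw [e3, e4] at s2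
  rw [insert_empty_eq] at s4
  rw [e5, Finset.empty_union] at h4
  omega

/-- `g`-connectivity for orders less than `m` -/
def Cnd (g : ℕ → ℕ) (m : ℕ) (f : Finset α → ℕ) (E : Finset α) : Prop :=
  ∀ X ⊆ E, cn f E X < m → X.card ≤ g (cn f E X) ∨ (E \ X).card ≤ g (cn f E X)

lemma Cnd.half {g : ℕ → ℕ} (hg : Monotone g) {m : ℕ} {f : Finset α → ℕ} (hf : IsRk f)
    {E : Finset α} (h : Cnd g m f E) {e : α} (he : e ∈ E) :
    Cnd (fun l => 2 * g l) m f (E.erase e) ∨
      Cnd (fun l => 2 * g l) m (ct f {e}) (E.erase e) := by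
  by_contra hcon
  rw [not_or] at hcon
  obtain ⟨h1, h2⟩ := hcon
  unfold Cnd at h1 h2
  push Not at h1 h2
  obtain ⟨X, hX, hXm, hX1, hX2⟩ := h1
  obtain ⟨Y, hY, hYm, hY1, hY2⟩ := h2
  set F := E.erase e with hF
  have hFE : F ⊆ E := Finset.erase_subset _ _
  set a := cn f F X with ha
  set b := cn (ct f {e}) F Y with hb
  -- complements within `F`
  have hbc : ∀ X' Y' : Finset α, X' ⊆ F → Y' ⊆ F → cn f F X' = a → cn (ct f {e}) F Y' = b →
      cn f E (X' ∩ Y') + cn f E ((F \ X') ∩ (F \ Y')) ≤ a + b + 1 := by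
    intro X' Y' hX' hY' hXa hYb
    have h3 := cn_bc hf he hX' hY'
    rw [← hF, hXa, hYb] at h3
    have e1 : (F \ X') ∩ (F \ Y') = E \ insert e (X' ∪ Y') := by
      ext x
      simp only [hF, Finset.mem_union, Finset.mem_inter, Finset.mem_sdiff,
        Finset.mem_erase, Finset.mem_insert]
      tauto
    rw [e1, cn_symm (Finset.insert_subset he
      (Finset.union_subset (hX'.trans hFE) (hY'.trans hFE)))]
    exact h3
  have hXs : cn f F (F \ X) = a := cn_symm hX
  have hYs : cn (ct f {e}) F (F \ Y) = b := cn_symm hY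
  -- a set of small order with large complement is small
  have key : ∀ Z Z' : Finset α, Z ⊆ F → Z' ⊆ F → Disjoint Z Z' → ∀ l < m, cn f E Z ≤ l →
      g l < Z.card → g l < Z'.card → False := by
    intro Z Z' hZ hZ' hd l hl hcl h3 h4
    have h5 := h Z (hZ.trans hFE) (by omega)
    have h6 : Z' ⊆ E \ Z := by
      intro x hx
      rw [Finset.mem_sdiff]
      exact ⟨hFE (hZ' hx), fun hx' => Finset.disjoint_left.1 hd hx' hx⟩
    have h7 := Finset.card_le_card h6
    have h8 := hg hcl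
    rcases h5 with h5 | h5 <;> omega
  -- quadrants
  have hcard : ∀ P Q : Finset α, P ⊆ F → (P ∩ Q).card + (P ∩ (F \ Q)).card = P.card := by
    intro P Q hP
    have e1 : P ∩ (F \ Q) = P \ Q := by
      ext x
      simp only [Finset.mem_inter, Finset.mem_sdiff]
      constructor
      · rintro ⟨h1, h2⟩; exact ⟨h1, h2.2⟩
      · rintro ⟨h1, h2⟩; exact ⟨h1, hP h1, h2⟩
    rw [e1, Finset.card_inter_add_card_sdiff]
  have hsub : ∀ P Q : Finset α, P ⊆ F → P ∩ Q ⊆ F := fun P Q hP =>
    Finset.inter_subset_left.trans hP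
  have hXc : F \ X ⊆ F := Finset.sdiff_subset
  have hYc : F \ Y ⊆ F := Finset.sdiff_subset
  -- opposite quadrants cannot both be large
  have opp : ∀ X' Y' : Finset α, X' ⊆ F → Y' ⊆ F → cn f F X' = a → cn (ct f {e}) F Y' = b →
      ∀ la lb, g la < (X' ∩ Y').card → g lb < ((F \ X') ∩ (F \ Y')).card →
        g la < ((F \ X') ∩ (F \ Y')).card ∨ (g la < (X' ∩ (F \ Y')).card ∨
          g la < ((F \ X') ∩ Y').card) → g lb < (X' ∩ Y').card ∨ (g lb < (X' ∩ (F \ Y')).card ∨
          g lb < ((F \ X') ∩ Y').card) → la < m → lb < m → a + b ≤ la + lb → False := by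
    intro X' Y' hX' hY' hXa hYb la lb h3 h4 h5 h6 hla hlb hab
    have h7 := hbc X' Y' hX' hY' hXa hYb
    have hX'c : F \ X' ⊆ F := Finset.sdiff_subset
    have hd : ∀ P Q R S : Finset α, (Disjoint P R ∨ Disjoint Q S) → Disjoint (P ∩ Q) (R ∩ S) := by
      intro P Q R S h
      rw [Finset.disjoint_left]
      intro x hx hx'
      rw [Finset.mem_inter] at hx hx'
      rcases h with h | h
      · exact Finset.disjoint_left.1 h hx.1 hx'.1
      · exact Finset.disjoint_left.1 h hx.2 hx'.2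
    have d1 : Disjoint X' (F \ X') := Finset.disjoint_sdiff
    have d2 : Disjoint Y' (F \ Y') := Finset.disjoint_sdiff
    by_cases h8 : cn f E (X' ∩ Y') ≤ la
    · rcases h5 with h5 | h5 | h5
      · exact key _ _ (hsub _ _ hX') (hsub _ _ hX'c) (hd _ _ _ _ (Or.inl d1)) la hla h8 h3 h5
      · exact key _ _ (hsub _ _ hX') (hsub _ _ hX') (hd _ _ _ _ (Or.inr d2)) la hla h8 h3 h5
      · exact key _ _ (hsub _ _ hX') (hsub _ _ hX'c) (hd _ _ _ _ (Or.inl d1)) la hla h8 h3 h5
    · have h9 : cn f E ((F \ X') ∩ (F \ Y')) ≤ lb := by omega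
      rcases h6 with h6 | h6 | h6
      · exact key _ _ (hsub _ _ hX'c) (hsub _ _ hX') (hd _ _ _ _ (Or.inl d1.symm)) lb hlb h9 h4 h6
      · exact key _ _ (hsub _ _ hX'c) (hsub _ _ hX') (hd _ _ _ _ (Or.inl d1.symm)) lb hlb h9 h4 h6
      · exact key _ _ (hsub _ _ hX'c) (hsub _ _ hX'c) (hd _ _ _ _ (Or.inr d2.symm)) lb hlb h9 h4 h6
  have cX := hcard X Y hX
  have cXc := hcard (F \ X) Y hXc
  have cY := hcard Y X hY
  have cYc := hcard (F \ Y) X hYc
  rw [Finset.inter_comm Y X, Finset.inter_comm Y (F \ X)] at cY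
  rw [Finset.inter_comm (F \ Y) X, Finset.inter_comm (F \ Y) (F \ X)] at cYc
  have eX : F \ (F \ X) = X := Finset.sdiff_sdiff_eq_self hX
  have eY : F \ (F \ Y) = Y := Finset.sdiff_sdiff_eq_self hY
  have o1 := opp X Y hX hY rfl rfl
  have o2 := opp X (F \ Y) hX hYc rfl hYs
  have o3 := opp (F \ X) Y hXc hY hXs rfl
  have o4 := opp (F \ X) (F \ Y) hXc hYc hXs hYs
  rw [eY] at o2
  rw [eX] at o3
  rw [eX, eY] at o4
  set q11 := (X ∩ Y).card
  set q12 := (X ∩ (F \ Y)).card
  set q21 := ((F \ X) ∩ Y).card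
  set q22 := ((F \ X) ∩ (F \ Y)).card
  clear hbc key hcard hsub opp
  rcases le_total a b with hab | hab
  · have hgab : g a ≤ g b := hg hab
    -- with the bound `g b`
    have p1 : ¬ (g b < q11 ∧ g b < q22) := fun hh =>
      o1 b b hh.1 hh.2 (Or.inl hh.2) (Or.inl hh.1) hYm hYm (by omega)
    have p2 : ¬ (g b < q12 ∧ g b < q21) := fun hh =>
      o2 b b hh.1 hh.2 (Or.inl hh.2) (Or.inl hh.1) hYm hYm (by omega)
    by_cases c1 : g b < q11
    · have c2 : ¬ g b < q22 := fun h => p1 ⟨c1, h⟩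
      have c3 : g b < q12 := by omega
      have c4 : ¬ g b < q21 := fun h => p2 ⟨c3, h⟩
      rcases (by omega : g a < q21 ∨ g a < q22) with h3 | h3
      · exact o2 b a c3 h3 (Or.inr (Or.inl c1)) (Or.inl (by omega)) hYm hXm (by omega)
      · exact o1 b a c1 h3 (Or.inr (Or.inl c3)) (Or.inl (by omega)) hYm hXm (by omega)
    · have c2 : g b < q21 := by omega
      have c3 : ¬ g b < q12 := fun h => p2 ⟨h, c2⟩
      have c4 : g b < q22 := by omega
      rcases (by omega : g a < q11 ∨ g a < q12) with h3 | h3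
      · exact o1 a b h3 c4 (Or.inl (by omega)) (Or.inr (Or.inr c2)) hXm hYm (by omega)
      · exact o2 a b h3 c2 (Or.inl (by omega)) (Or.inr (Or.inr c4)) hXm hYm (by omega)
  · have hgab : g b ≤ g a := hg hab
    have p1 : ¬ (g a < q11 ∧ g a < q22) := fun hh =>
      o1 a a hh.1 hh.2 (Or.inl hh.2) (Or.inl hh.1) hXm hXm (by omega)
    have p2 : ¬ (g a < q12 ∧ g a < q21) := fun hh =>
      o2 a a hh.1 hh.2 (Or.inl hh.2) (Or.inl hh.1) hXm hXm (by omega)
    by_cases c1 : g a < q11
    · have c2 : ¬ g a < q22 := fun h => p1 ⟨c1, h⟩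
      have c3 : g a < q21 := by omega
      have c4 : ¬ g a < q12 := fun h => p2 ⟨h, c3⟩
      rcases (by omega : g b < q12 ∨ g b < q22) with h3 | h3
      · exact o2 b a h3 c3 (Or.inl (by omega)) (Or.inr (Or.inl c1)) hYm hXm (by omega)
      · exact o1 a b c1 h3 (Or.inr (Or.inr c3)) (Or.inl (by omega)) hXm hYm (by omega)
    · have c2 : g a < q12 := by omega
      have c3 : ¬ g a < q21 := fun h => p2 ⟨c2, h⟩
      have c4 : g a < q22 := by omega
      rcases (by omega : g b < q11 ∨ g b < q21) with h3 | h3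
      · exact o1 b a h3 c4 (Or.inl (by omega)) (Or.inr (Or.inl c2)) hYm hXm (by omega)
      · exact o2 a b c2 h3 (Or.inr (Or.inr c4)) (Or.inl (by omega)) hXm hYm (by omega)

end Pool.Agent.H229
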