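import Mathlib

/-!
Products of vectors in the exterior algebra, volume functionals, and the rank of the pairing
between the exterior algebras of two subspaces.
-/

namespace Pool.Agent.H229

open Module

variable {K : Type*} [Field K] {V : Type*} [AddCommGroup V] [Module K V]

/-- the product of a list of vectors in the exterior algebra -/
noncomputable def prodL (K : Type*) [Field K] {V : Type*} [AddCommGroup V] [Module K V]
    (L : List V) : ExteriorAlgebra K V := (L.map (ExteriorAlgebra.ι K)).prod

@[simp] lemma prodL_nil : prodL K ([] : List V) = 1 := rfl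

@[simp] lemma prodL_cons (v : V) (L : List V) :
    prodL K (v :: L) = ExteriorAlgebra.ι K v * prodL K L := by
  simp [prodL]

lemma prodL_append (L L' : List V) : prodL K (L ++ L') = prodL K L * prodL K L' := by
  simp [prodL]

/-- selection of a sublist by bits -/
def sel {α : Type*} : List α → (ℕ → Bool) → List α
  | [], _ => []
  | v :: L, b => if b 0 then v :: sel L (fun n => b (n + 1)) else sel L (fun n => b (n + 1))

lemma sel_cons {α : Type*} (v : α) (L : List α) (b : ℕ → Bool) : sel (v :: L) b =
    if b 0 then v :: sel L (fun n => b (n + 1)) else sel L (fun n => b (n + 1)) := rfl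

lemma sel_sublist {α : Type*} (L : List α) (b : ℕ → Bool) : (sel L b).Sublist L := by
  induction L generalizing b with
  | nil => simp [sel]
  | cons v L ih =>
    rw [sel_cons]
    split_ifs
    · exact (ih _).cons_cons v
    · exact (ih _).cons v

lemma sel_congr {α : Type*} (L : List α) {b b' : ℕ → Bool} (h : ∀ n < L.length, b n = b' n) :
    sel L b = sel L b' := by
  induction L generalizing b b' with
  | nil => rfl
  | cons v L ih =>
    rw [sel_cons, sel_cons, h 0 (by simp), ih (b := fun n => b (n + 1)) (b' := fun n => b' (n + 1))]
    intro n hn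
    exact h _ (by simpa using hn)

lemma sel_append {α : Type*} (L L' : List α) (b : ℕ → Bool) :
    sel (L ++ L') b = sel L b ++ sel L' (fun n => b (n + L.length)) := by
  induction L generalizing b with
  | nil => simp [sel]
  | cons v L ih =>
    simp only [List.cons_append, sel_cons, ih, List.length_cons]
    split_ifs <;> simp [add_assoc]

lemma sel_true {α : Type*} (L : List α) : sel L (fun _ => true) = L := by
  induction L with
  | nil => rfl
  | cons v L ih => simp [sel_cons, ih]

lemma sel_false {α : Type*} (L : List α) : sel L (fun _ => false) = [] := by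
  induction L with
  | nil => rfl
  | cons v L ih => simp [sel_cons, ih]

lemma sel_tri {α : Type*} (L : List α) (d c : ℕ → Bool) :
    (∃ x, x ∈ sel L d ∧ x ∈ sel L c) ∨ ((sel L d).length + (sel L c).length < L.length) ∨
      (∀ i < L.length, c i = !d i) := by
  induction L generalizing d c with
  | nil => right; right; intro i hi; simp at hi
  | cons v L ih =>
    rw [sel_cons, sel_cons]
    rcases ih (fun n => d (n + 1)) (fun n => c (n + 1)) with ⟨x, h1, h2⟩ | h | h
    · left
      refine ⟨x, ?_, ?_⟩ <;> split_ifs <;> simp [h1, h2]
    · cases hd : d 0 <;> cases hc : c 0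
      · right; left; simp; omega
      · right; left; simp; omega
      · right; left; simp; omega
      · left; exact ⟨v, by simp, by simp⟩
    · have hlen : ∀ (L : List α) (d c : ℕ → Bool), (∀ i < L.length, c i = !d i) →
          (sel L d).length + (sel L c).length = L.length := by
        intro L
        induction L with
        | nil => intro d c _; rfl
        | cons v L ih =>
          intro d c h
          have := ih (fun n => d (n + 1)) (fun n => c (n + 1))
            (fun i hi => h (i + 1) (by simpa using hi))
          have h0 := h 0 (by simp)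
          rw [sel_cons, sel_cons, h0]
          cases d 0 <;> simp <;> omega
      cases hd : d 0 <;> cases hc : c 0
      · right; left
        have := hlen L _ _ h
        simp only [Bool.false_eq_true, if_false, List.length_cons]
        omega
      · right; right
        intro i hi
        cases i with
        | zero => simp [hd, hc]
        | succ i => exact h i (by simpa using hi)
      · right; right
        intro i hi
        cases i with
        | zero => simp [hd, hc]
        | succ i => exact h i (by simpa using hi)
      · left; exact ⟨v, by simp, by simp⟩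

lemma sel_disj_len {α : Type*} (L : List α) (d c : ℕ → Bool)
    (h : ¬ ∃ x, x ∈ sel L d ∧ x ∈ sel L c) :
    (sel L d).length + (sel L c).length ≤ L.length := by
  induction L generalizing d c with
  | nil => rfl
  | cons v L ih =>
    rw [sel_cons, sel_cons] at h
    have h1 : ¬ ∃ x, x ∈ sel L (fun n => d (n + 1)) ∧ x ∈ sel L (fun n => c (n + 1)) := by
      rintro ⟨x, h2, h3⟩
      apply h
      refine ⟨x, ?_, ?_⟩ <;> split_ifs <;> simp [h2, h3]
    have h2 := ih _ _ h1
    rw [sel_cons, sel_cons]
    cases hd : d 0 <;> cases hc : c 0
    · simp; omega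
    · simp; omega
    · simp; omega
    · exfalso; apply h; exact ⟨v, by simp [hd], by simp [hc]⟩

lemma sel_perm {α : Type*} (L : List α) (d c : ℕ → Bool) (h : ∀ i < L.length, c i = !d i) :
    (sel L d ++ sel L c).Perm L := by
  induction L generalizing d c with
  | nil => exact List.Perm.refl _
  | cons v L ih =>
    have h1 := ih (fun n => d (n + 1)) (fun n => c (n + 1))
      (fun i hi => h (i + 1) (by simpa using hi))
    have h0 := h 0 (by simp)
    rw [sel_cons, sel_cons, h0]
    cases d 0
    · simp only [Bool.false_eq_true, if_false, Bool.not_false, if_true]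
      exact (List.perm_middle).trans (h1.cons v)
    · simp only [Bool.not_true, Bool.false_eq_true, if_false, if_true, List.cons_append]
      exact h1.cons v

lemma ι_anticomm (x y : V) : ExteriorAlgebra.ι K x * ExteriorAlgebra.ι K y =
    - (ExteriorAlgebra.ι K y * ExteriorAlgebra.ι K x) :=
  eq_neg_of_add_eq_zero_left (ExteriorAlgebra.ι_add_mul_swap x y)

lemma prodL_mul_ι (L : List V) (v : V) : prodL K L * ExteriorAlgebra.ι K v =
    (-1) ^ L.length * (ExteriorAlgebra.ι K v * prodL K L) := by
  induction L with
  | nil => simp
  | cons w L ih =>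
    rw [prodL_cons, mul_assoc, ih, List.length_cons, pow_succ]
    have h1 : ∀ x : ExteriorAlgebra K V, (-1) ^ L.length * x = x * (-1) ^ L.length := by
      intro x
      exact ((Commute.neg_one_left x).pow_left _).eq
    rw [← mul_assoc, ← h1, mul_assoc, ← mul_assoc (ExteriorAlgebra.ι K w), ι_anticomm w v]
    noncomm_ring

lemma prodL_mul_comm (L L' : List V) : prodL K L * prodL K L' =
    (-1) ^ (L.length * L'.length) * (prodL K L' * prodL K L) := by
  induction L' with
  | nil => simp
  | cons v L' ih =>
    rw [prodL_cons, ← mul_assoc, prodL_mul_ι, mul_assoc, mul_assoc, ih, List.length_cons]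
    have h1 : ∀ (n : ℕ) (x : ExteriorAlgebra K V), (-1) ^ n * x = x * (-1) ^ n := by
      intro n x
      exact ((Commute.neg_one_left x).pow_left _).eq
    rw [← mul_assoc (ExteriorAlgebra.ι K v), ← h1, mul_add, mul_one, pow_add]
    simp only [mul_assoc]
    rw [← mul_assoc ((-1) ^ L.length), h1 L.length ((-1) ^ (L.length * L'.length))]
    simp only [mul_assoc]

lemma prodL_perm {L L' : List V} (h : L.Perm L') :
    ∃ ε : K, (ε = 1 ∨ ε = -1) ∧ prodL K L = ε • prodL K L' := by
  induction h with
  | nil => exact ⟨1, Or.inl rfl, by simp⟩
  | cons x _ ih =>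
    obtain ⟨ε, h1, h2⟩ := ih
    exact ⟨ε, h1, by rw [prodL_cons, prodL_cons, h2, mul_smul_comm]⟩
  | swap x y l =>
    refine ⟨-1, Or.inr rfl, ?_⟩
    simp only [prodL_cons, ← mul_assoc]
    rw [ι_anticomm y x]
    simp
  | trans _ _ ih1 ih2 =>
    obtain ⟨ε, h1, h2⟩ := ih1
    obtain ⟨ε', h3, h4⟩ := ih2
    refine ⟨ε * ε', ?_, by rw [h2, h4, smul_smul]⟩
    rcases h1 with rfl | rfl <;> rcases h3 with rfl | rfl <;> simp

/-- the exterior algebra of a subspace, inside the exterior algebra -/
noncomputable def Lam (S : Submodule K V) : Submodule K (ExteriorAlgebra K V) :=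
  Subalgebra.toSubmodule (Algebra.adjoin K (ExteriorAlgebra.ι K '' (S : Set V)))

lemma Lam_mono {S S' : Submodule K V} (h : S ≤ S') : Lam S ≤ Lam S' := by
  intro x hx
  exact Algebra.adjoin_mono (Set.image_mono h) hx

lemma prodL_mem_Lam {S : Submodule K V} (L : List V) (h : ∀ x ∈ L, x ∈ S) :
    prodL K L ∈ Lam S := by
  induction L with
  | nil => exact Subalgebra.one_mem _
  | cons v L ih =>
    rw [prodL_cons]
    exact Subalgebra.mul_mem _ (Algebra.subset_adjoin ⟨v, h v (by simp), rfl⟩)
      (ih fun x hx => h x (by simp [hx]))

/-- the span of a list -/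
abbrev spanL (K : Type*) [Field K] {V : Type*} [AddCommGroup V] [Module K V] (L : List V) :
    Submodule K V := Submodule.span K {x | x ∈ L}

lemma spanL_append (L L' : List V) : spanL K (L ++ L') = spanL K L ⊔ spanL K L' := by
  rw [spanL, spanL, spanL, ← Submodule.span_union]
  congr 1
  ext x
  simp

lemma spanL_cons (v : V) (L : List V) : spanL K (v :: L) = Submodule.span K {v} ⊔ spanL K L := by
  rw [spanL, spanL, ← Submodule.span_union]
  congr 1
  ext x
  simp

lemma mul_ι_mem_span (L : List V) (w : V) (hw : w ∈ spanL K L) (b : ℕ → Bool) :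
    prodL K (sel L b) * ExteriorAlgebra.ι K w ∈
      Submodule.span K (Set.range fun b => prodL K (sel L b)) := by
  induction L generalizing w b with
  | nil =>
    have : w = 0 := by
      have e : {x : V | x ∈ ([] : List V)} = ∅ := by ext x; simp
      rw [spanL, e, Submodule.span_empty] at hw
      simpa using hw
    subst this
    simp
  | cons v L ih =>
    have hsub : ∀ x ∈ Submodule.span K (Set.range fun b => prodL K (sel L b)),
        x ∈ Submodule.span K (Set.range fun b => prodL K (sel (v :: L) b)) := by
      intro x hx
      refine Submodule.span_mono ?_ hx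
      rintro _ ⟨b, rfl⟩
      refine ⟨fun n => if n = 0 then false else b (n - 1), ?_⟩
      simp [sel_cons]
    have hsub' : ∀ x ∈ Submodule.span K (Set.range fun b => prodL K (sel L b)),
        ExteriorAlgebra.ι K v * x ∈
          Submodule.span K (Set.range fun b => prodL K (sel (v :: L) b)) := by
      intro x hx
      induction hx using Submodule.span_induction with
      | mem x hx =>
        obtain ⟨b, rfl⟩ := hx
        refine Submodule.subset_span ⟨fun n => if n = 0 then true else b (n - 1), ?_⟩
        simp [sel_cons]
      | zero => simp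
      | add x y _ _ hx hy => rw [mul_add]; exact Submodule.add_mem _ hx hy
      | smul a x _ hx => rw [mul_smul_comm]; exact Submodule.smul_mem _ _ hx
    have hmem : ∀ (b : ℕ → Bool), prodL K (sel L b) ∈
        Submodule.span K (Set.range fun b => prodL K (sel L b)) := fun b =>
      Submodule.subset_span ⟨b, rfl⟩
    rw [spanL_cons, Submodule.mem_sup] at hw
    obtain ⟨w1, hw1, w2, hw2, rfl⟩ := hw
    rw [Submodule.mem_span_singleton] at hw1
    obtain ⟨a, rfl⟩ := hw1
    rw [map_add, mul_add, map_smul, mul_smul_comm]
    refine Submodule.add_mem _ (Submodule.smul_mem _ _ ?_) ?_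
    · -- multiplication by `v`
      rw [sel_cons]
      split_ifs with h0
      · rw [prodL_cons, mul_assoc, prodL_mul_ι]
        have h1 : ∀ (n : ℕ) (x : ExteriorAlgebra K V), (-1) ^ n * x = x * (-1) ^ n := by
          intro n x
          exact ((Commute.neg_one_left x).pow_left _).eq
        rw [← mul_assoc, ← h1, mul_assoc, ← mul_assoc (ExteriorAlgebra.ι K v),
          ExteriorAlgebra.ι_sq_zero, zero_mul, mul_zero]
        exact Submodule.zero_mem _
      · rw [prodL_mul_ι]
        have h2 := hsub' _ (hmem (fun n => b (n + 1)))
        rcases Nat.even_or_odd (sel L fun n => b (n + 1)).length with h | h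
        · rw [h.neg_one_pow, one_mul]; exact h2
        · rw [h.neg_one_pow, neg_one_mul]; exact Submodule.neg_mem _ h2
    · rw [sel_cons]
      split_ifs with h0
      · rw [prodL_cons, mul_assoc]
        exact hsub' _ (ih w2 hw2 _)
      · exact hsub _ (ih w2 hw2 _)

lemma span_sel (L : List V) :
    Submodule.span K (Set.range fun b => prodL K (sel L b)) = Lam (spanL K L) := by
  apply le_antisymm
  · rw [Submodule.span_le]
    rintro _ ⟨b, rfl⟩
    exact prodL_mem_Lam _ fun x hx => Submodule.subset_span ((sel_sublist L b).subset hx)
  · intro x hx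
    have hx' : x ∈ Algebra.adjoin K (ExteriorAlgebra.ι K '' (spanL K L : Set V)) := hx
    rw [← Subalgebra.mem_toSubmodule, Algebra.adjoin_eq_span] at hx'
    refine Submodule.span_le.2 ?_ hx'
    intro y hy
    induction hy using Submonoid.closure_induction_right with
    | one =>
      refine Submodule.subset_span ⟨fun _ => false, ?_⟩
      simp [sel_false]
    | mul_right x hx y hy ih =>
      obtain ⟨w, hw, rfl⟩ := hy
      rw [SetLike.mem_coe] at ih ⊢
      clear hx
      induction ih using Submodule.span_induction with
      | mem x hx =>
        obtain ⟨b, rfl⟩ := hx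
        exact mul_ι_mem_span L w hw b
      | zero => simp
      | add x y _ _ hx hy => rw [add_mul]; exact Submodule.add_mem _ hx hy
      | smul a x _ hx => rw [smul_mul_assoc]; exact Submodule.smul_mem _ _ hx

/-- A volume functional: a linear form on the exterior algebra which is nonzero exactly on the
products of bases. -/
def IsVol (φ : ExteriorAlgebra K V →ₗ[K] K) : Prop :=
  ∀ L : List V, φ (prodL K L) ≠ 0 ↔ L.length = finrank K V ∧ spanL K L = ⊤

lemma IsVol.nodup [FiniteDimensional K V] {φ : ExteriorAlgebra K V →ₗ[K] K} (hφ : IsVol φ)
    {L : List V} (h : φ (prodL K L) ≠ 0) : L.Nodup := by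
  classical
  obtain ⟨h1, h2⟩ := (hφ L).1 h
  have h3 : finrank K (spanL K L) ≤ L.toFinset.card := by
    have := finrank_span_finset_le_card (R := K) L.toFinset
    have e : (L.toFinset : Set V) = {x | x ∈ L} := by ext x; simp
    rwa [e] at this
  rw [h2, finrank_top] at h3
  rw [List.card_toFinset] at h3
  have h4 : L.dedup = L := by
    apply (List.dedup_sublist L).eq_of_length_le
    omega
  exact List.dedup_eq_self.1 h4

end Pool.Agent.H229
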