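import Pool.Agent.H229.Core
import Pool.Agent.H229.ExBound

/-!
The locus of branch-width at most `w` is cut out by finitely many equations up to symmetry.
-/

namespace Pool.Agent.H229

open MvPolynomial Module BT

universe u

section Rank

variable {α : Type*} [DecidableEq α]

lemma IsRk.union_le {f : Finset α → ℕ} (hf : IsRk f) (A B : Finset α) :
    f (A ∪ B) ≤ f A + B.card := by
  induction B using Finset.induction_on with
  | empty => simp
  | insert e B he ih =>
    rw [Finset.union_insert, Finset.card_insert_of_notMem he]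
    have := hf.unit e (A ∪ B)
    omega

lemma IsRk.exists_basis {f : Finset α → ℕ} (hf : IsRk f) (A : Finset α) :
    ∃ B ⊆ A, f B = f ∅ + B.card ∧ f B = f A := by
  induction A using Finset.induction_on with
  | empty => exact ⟨∅, subset_rfl, by simp, rfl⟩
  | insert e A he ih =>
    obtain ⟨B, h1, h2, h3⟩ := ih
    by_cases h : f (insert e B) = f B
    · refine ⟨B, h1.trans (Finset.subset_insert _ _), h2, ?_⟩
      have s := hf.submod (insert e B) A
      have e1 : insert e B ∪ A = insert e A := by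
        rw [Finset.insert_union, Finset.union_eq_right.2 h1]
      have m1 : f B ≤ f (insert e B ∩ A) := hf.mono _ _ (by
        intro x hx
        simp only [Finset.mem_inter, Finset.mem_insert]
        exact ⟨Or.inr hx, h1 hx⟩)
      have m2 := hf.mono _ _ (Finset.subset_insert e A)
      rw [e1] at s
      omega
    · have heB : e ∉ B := fun h' => h (by rw [Finset.insert_eq_of_mem h'])
      have u1 := hf.unit e B
      have m1 := hf.mono _ _ (Finset.subset_insert e B)
      refine ⟨insert e B, Finset.insert_subset_insert _ h1, ?_, ?_⟩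
      · rw [Finset.card_insert_of_notMem heB]; omega
      · have u2 := hf.unit e A
        have m2 := hf.mono _ _ (Finset.insert_subset_insert e h1)
        omega

/-- a contraction set can be replaced by an independent set that spans with the rest -/
lemma IsRk.conv {f : Finset α → ℕ} (hf : IsRk f) (h0 : f ∅ = 0) {E E₁ C : Finset α}
    (hE₁ : E₁ ⊆ E) (hC : C ⊆ E) (hd : Disjoint C E₁) :
    ∃ C' ⊆ E, Disjoint C' E₁ ∧ f C' = C'.card ∧ f (E₁ ∪ C') = f E ∧
      ∀ X ⊆ E₁, f (X ∪ C') + f C = f (X ∪ C) + f C' := by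
  obtain ⟨C₀, a1, a2, a3⟩ := hf.exists_basis C
  rw [h0, zero_add] at a2
  have hCC : ∀ X, f (X ∪ C₀) = f (X ∪ C) := by
    intro X
    have s := hf.submod (X ∪ C₀) C
    have e1 : X ∪ C₀ ∪ C = X ∪ C := by rw [Finset.union_assoc, Finset.union_eq_right.2 a1]
    have m1 : f C₀ ≤ f ((X ∪ C₀) ∩ C) := hf.mono _ _ (by
      intro x hx
      simp only [Finset.mem_inter, Finset.mem_union]
      exact ⟨Or.inr hx, a1 hx⟩)
    have m2 := hf.mono _ _ (Finset.union_subset_union_right (s := X) a1)
    rw [e1] at s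
    omega
  obtain ⟨B, b1, b2, b3⟩ := (ct_isRk hf (E₁ ∪ C₀)).exists_basis (E \ (E₁ ∪ C₀))
  simp only [ct_apply] at b2 b3
  rw [Finset.empty_union] at b2
  have e2 : E \ (E₁ ∪ C₀) ∪ (E₁ ∪ C₀) = E :=
    Finset.sdiff_union_of_subset (Finset.union_subset hE₁ (a1.trans hC))
  rw [e2] at b3
  have hBC : Disjoint C₀ B := by
    rw [Finset.disjoint_left]
    intro x hx hx'
    have := Finset.mem_sdiff.1 (b1 hx')
    exact this.2 (Finset.mem_union_right _ hx)
  have e3 : B ∪ (E₁ ∪ C₀) = E₁ ∪ (C₀ ∪ B) := by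
    ext x; simp only [Finset.mem_union]; tauto
  rw [e3] at b2 b3
  -- adding `B` increases all ranks by `|B|`
  have hadd : ∀ X ⊆ E₁, f (X ∪ (C₀ ∪ B)) = f (X ∪ C₀) + B.card := by
    intro X hX
    have s := hf.submod (E₁ ∪ C₀) (X ∪ (C₀ ∪ B))
    have e4 : E₁ ∪ C₀ ∪ (X ∪ (C₀ ∪ B)) = E₁ ∪ (C₀ ∪ B) := by
      ext x
      have := @hX x
      simp only [Finset.mem_union]; tauto
    have m1 : f (X ∪ C₀) ≤ f ((E₁ ∪ C₀) ∩ (X ∪ (C₀ ∪ B))) := hf.mono _ _ (by
      intro x hx
      simp only [Finset.mem_inter, Finset.mem_union] at hx ⊢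
      rcases hx with h | h
      · exact ⟨Or.inl (hX h), Or.inl h⟩
      · exact ⟨Or.inr h, Or.inr (Or.inl h)⟩)
    have u1 := hf.union_le (X ∪ C₀) B
    rw [Finset.union_assoc] at u1
    rw [e4] at s
    omega
  refine ⟨C₀ ∪ B, Finset.union_subset (a1.trans hC) (b1.trans Finset.sdiff_subset), ?_, ?_,
    b3, ?_⟩
  · rw [Finset.disjoint_union_left]
    refine ⟨hd.mono_left a1, ?_⟩
    rw [Finset.disjoint_left]
    intro x hx hx'
    have := Finset.mem_sdiff.1 (b1 hx)
    exact this.2 (Finset.mem_union_left _ hx')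
  · have h1 := hadd ∅ (Finset.empty_subset _)
    rw [Finset.empty_union, Finset.empty_union] at h1
    rw [h1, Finset.card_union_of_disjoint hBC]
    omega
  · intro X hX
    have h1 := hadd ∅ (Finset.empty_subset _)
    rw [Finset.empty_union, Finset.empty_union] at h1
    rw [hadd X hX, h1, hCC, a3]
    omega

lemma cn_congr {f : Finset α → ℕ} (hf : IsRk f) {E₁ C C' : Finset α}
    (h : ∀ X ⊆ E₁, f (X ∪ C') + f C = f (X ∪ C) + f C') {X : Finset α} (hX : X ⊆ E₁) :
    cn (ct f C') E₁ X = cn (ct f C) E₁ X := by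
  have h1 := cn_add (ct_isRk hf C) hX
  have h2 := cn_add (ct_isRk hf C') hX
  simp only [ct_apply, Finset.empty_union] at h1 h2
  have h3 := h X hX
  have h4 := h (E₁ \ X) Finset.sdiff_subset
  have h5 := h E₁ subset_rfl
  omega

end Rank

lemma AtLevel.mono' {n p n' p' : ℕ} (hn : n ≤ n') (hp : p ≤ p') {s : Idx}
    (hs : AtLevel n p s) : AtLevel n' p' s := by
  refine ⟨fun j hj => hs.1 j (by omega), fun j hj => ?_⟩
  by_cases hj' : j < p
  · have := hs.2 j hj'
    rw [mem_lab] at this ⊢
    omega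
  · rw [hs.1 j (by omega), mem_lab]
    omega

lemma AtLevel.toL_tail {n p m : ℕ} (h : p ≤ m) {s : Idx} (hs : AtLevel n p s) :
    toL m s = toL p s ++ gap p m := by
  apply List.ext_getElem
  · simp [gap_length]; omega
  · intro j h1 h2
    rw [toL_length] at h1
    rw [toL_get _ _ j h1, List.getElem_append]
    split_ifs with h3
    · rw [toL_length] at h3
      rw [toL_get _ _ j h3]
    · rw [toL_length] at h3
      simp only [gap, List.getElem_map, List.getElem_range, toL_length]
      rw [hs.1 j (by omega)]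
      omega

lemma lab_card (n p : ℕ) : (lab n p).card = n + p := by
  rw [lab, Finset.card_erase_of_mem, Int.card_Icc]
  · omega
  · rw [Finset.mem_Icc]; omega

lemma exists_tree (S : Finset ℤ) (hS : S.Nonempty) : ∃ t : BT ℤ, t.Part ∧ t.fs = S := by
  induction S using Finset.induction_on with
  | empty => simp at hS
  | insert a S ha ih =>
    by_cases h : S.Nonempty
    · obtain ⟨t, h1, h2⟩ := ih h
      refine ⟨.node (.leaf a) t, ⟨?_, trivial, h1⟩, ?_⟩
      · rw [h2, fs_leaf, Finset.disjoint_singleton_left]; exact ha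
      · rw [fs_node, fs_leaf, h2]; rfl
    · rw [Finset.not_nonempty_iff_eq_empty] at h
      subst h
      exact ⟨.leaf a, trivial, by simp⟩

lemma map_tree (τ : ℤ → ℤ) (hτ : Function.Injective τ) (t : BT ℤ) :
    ∃ t' : BT ℤ, t'.fs = t.fs.image τ ∧ (t.Part → t'.Part) ∧
      ∀ Y ∈ t'.nodes, ∃ A ∈ t.nodes, Y = A.image τ := by
  induction t with
  | leaf a =>
    refine ⟨.leaf (τ a), by simp, fun _ => trivial, ?_⟩
    intro Y hY
    simp only [nodes, Finset.mem_singleton] at hY
    subst hY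
    exact ⟨{a}, by simp [nodes], by simp⟩
  | node l r ihl ihr =>
    obtain ⟨l', l1, l2, l3⟩ := ihl
    obtain ⟨r', r1, r2, r3⟩ := ihr
    have e : l'.fs ∪ r'.fs = (l.fs ∪ r.fs).image τ := by
      rw [Finset.image_union, l1, r1]
    refine ⟨.node l' r', e, fun hp => ⟨?_, l2 hp.2.1, r2 hp.2.2⟩, ?_⟩
    · rw [l1, r1, Finset.disjoint_image hτ]
      exact hp.1
    · intro Y hY
      simp only [nodes, Finset.mem_insert, Finset.mem_union] at hY
      rcases hY with rfl | hY | hY
      · exact ⟨_, by simp [nodes], e⟩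
      · obtain ⟨A, h1, h2⟩ := l3 Y hY
        exact ⟨A, by simp only [nodes, Finset.mem_insert, Finset.mem_union]; tauto, h2⟩
      · obtain ⟨A, h1, h2⟩ := r3 Y hY
        exact ⟨A, by simp only [nodes, Finset.mem_insert, Finset.mem_union]; tauto, h2⟩

section Lin

variable {K : Type u} [Field K] {V : Type u} [AddCommGroup V] [Module K V]
  [FiniteDimensional K V]

lemma rkx_of_indep (x : ℤ → V) {B : Finset ℤ} (hB : LinearIndepOn K x (B : Set ℤ)) :
    rkx K x B = B.card := by
  have e : x '' (B : Set ℤ) = Set.range fun i : (B : Set ℤ) => x i := by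
    rw [Set.image_eq_range]
  rw [rkx, e, finrank_span_eq_card hB]
  simp

lemma indep_of_rkx (x : ℤ → V) {B : Finset ℤ} (hB : rkx K x B = B.card) :
    LinearIndepOn K x (B : Set ℤ) := by
  have e : x '' (B : Set ℤ) = Set.range fun i : (B : Set ℤ) => x i := by
    rw [Set.image_eq_range]
  rw [rkx, e] at hB
  rw [LinearIndepOn, linearIndependent_iff_card_eq_finrank_span, Set.finrank, hB]
  simp

/-- bases through a given independent set, adapted to a given set -/
lemma exists_through (x : ℤ → V) {C F Y : Finset ℤ} (hC : rkx K x C = C.card) (hY : Y ⊆ F)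
    (hF : rkx K x (F ∪ C) = finrank K V) :
    ∃ S : Finset ℤ, C ⊆ S ∧ S ⊆ F ∪ C ∧ S.card = finrank K V ∧
      Submodule.span K (x '' (S : Set ℤ)) = ⊤ ∧ rkx K x (Y ∪ C) ≤ (S ∩ (Y ∪ C)).card := by
  classical
  obtain ⟨b₁, h1, h1', h2, h3⟩ := exists_linearIndepOn_extension
    (indep_of_rkx x hC) (by
      intro a ha; simp only [Finset.coe_union, Set.mem_union]; exact Or.inr ha :
      (C : Set ℤ) ⊆ ((Y ∪ C : Finset ℤ) : Set ℤ))
  obtain ⟨b₂, h4, h5, h6, h7⟩ := exists_linearIndepOn_extension h3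
    (h1.trans (by exact_mod_cast Finset.union_subset_union_left hY) :
      b₁ ⊆ ((F ∪ C : Finset ℤ) : Set ℤ))
  obtain ⟨B₁, rfl⟩ : ∃ B : Finset ℤ, (B : Set ℤ) = b₁ :=
    ⟨_, (Set.Finite.subset (Finset.finite_toSet _) h1).coe_toFinset⟩
  obtain ⟨B₂, rfl⟩ : ∃ B : Finset ℤ, (B : Set ℤ) = b₂ :=
    ⟨_, (Set.Finite.subset (Finset.finite_toSet _) h4).coe_toFinset⟩
  have hs1 : rkx K x (Y ∪ C) = rkx K x B₁ := by
    unfold rkx
    rw [le_antisymm (Submodule.span_le.2 h2) (Submodule.span_mono (Set.image_mono h1))]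
  have hs2 : Submodule.span K (x '' ((F ∪ C : Finset ℤ) : Set ℤ)) =
      Submodule.span K (x '' (B₂ : Set ℤ)) :=
    le_antisymm (Submodule.span_le.2 h6) (Submodule.span_mono (Set.image_mono h4))
  have htop : Submodule.span K (x '' (B₂ : Set ℤ)) = ⊤ := by
    apply Submodule.eq_top_of_finrank_eq
    rw [← hs2]
    exact hF
  refine ⟨B₂, by exact_mod_cast h1'.trans h5, by exact_mod_cast h4, ?_, htop, ?_⟩
  · rw [← rkx_of_indep x h7, rkx, htop, finrank_top]
  · rw [hs1, rkx_of_indep x h3]
    apply Finset.card_le_card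
    intro a ha
    rw [Finset.mem_inter]
    exact ⟨by exact_mod_cast h5 ha, by exact_mod_cast h1 ha⟩

lemma rkx_le_finrank (x : ℤ → V) (A : Finset ℤ) : rkx K x A ≤ finrank K V :=
  Submodule.finrank_le _

end Lin

end Pool.Agent.H229
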