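import Pool.Agent.H229.Rank

/-!
Contraction of volume functionals, and the rank of the flattenings of slices of a Plücker vector.
-/

namespace Pool.Agent.H229

open Module

variable {K : Type*} [Field K] {V : Type*} [AddCommGroup V] [Module K V]

lemma prodL_mul_ι_eq_zero (C : List V) {w : V} (hw : w ∈ spanL K C) :
    prodL K C * ExteriorAlgebra.ι K w = 0 := by
  have key : ∀ w ∈ C, prodL K C * ExteriorAlgebra.ι K w = 0 := by
    clear hw w
    induction C with
    | nil => intro w hw; simp at hw
    | cons v C ih =>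
      intro w hw
      rw [prodL_cons, mul_assoc]
      rcases List.mem_cons.1 hw with rfl | hw
      · rw [prodL_mul_ι]
        have h1 : ∀ (n : ℕ) (x : ExteriorAlgebra K V), (-1) ^ n * x = x * (-1) ^ n := by
          intro n x
          exact ((Commute.neg_one_left x).pow_left _).eq
        rw [← mul_assoc, ← h1, mul_assoc, ← mul_assoc (ExteriorAlgebra.ι K w),
          ExteriorAlgebra.ι_sq_zero, zero_mul, mul_zero]
      · rw [ih w hw, mul_zero]
  induction hw using Submodule.span_induction with
  | mem x hx => exact key x hx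
  | zero => simp
  | add x y _ _ hx hy => rw [map_add, mul_add, hx, hy, add_zero]
  | smul a x _ hx => rw [map_smul, mul_smul_comm, hx, smul_zero]

lemma prodL_mul_congr (C : List V) (f : V → V) (hf : ∀ x, x - f x ∈ spanL K C) (L : List V) :
    prodL K C * prodL K (L.map f) = prodL K C * prodL K L := by
  induction L with
  | nil => rfl
  | cons v L ih =>
    have h1 : prodL K C * ExteriorAlgebra.ι K (f v) = prodL K C * ExteriorAlgebra.ι K v := by
      have h2 := prodL_mul_ι_eq_zero C (hf v)
      rw [map_sub, mul_sub, sub_eq_zero] at h2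
      exact h2.symm
    rw [List.map_cons, prodL_cons, prodL_cons, ← mul_assoc, ← mul_assoc, h1, prodL_mul_ι,
      mul_assoc, mul_assoc, mul_assoc, mul_assoc, ih]

lemma Lam_top [FiniteDimensional K V] : Lam (⊤ : Submodule K V) = ⊤ := by
  rw [Lam, Algebra.toSubmodule_eq_top, Submodule.top_coe, Set.image_univ]
  exact CliffordAlgebra.adjoin_range_ι

lemma exists_prodL_span [FiniteDimensional K V] :
    Submodule.span K (Set.range fun L : List V => prodL K L) = ⊤ := by
  obtain ⟨L, h1, -⟩ := exists_basis_list (K := K) (⊤ : Submodule K V)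
  rw [eq_top_iff, ← Lam_top, ← h1, ← span_sel]
  refine Submodule.span_mono ?_
  rintro _ ⟨b, rfl⟩
  exact ⟨_, rfl⟩

lemma map_prodL {W : Type*} [AddCommGroup W] [Module K W] (f : V →ₗ[K] W) (L : List V) :
    ExteriorAlgebra.map f (prodL K L) = prodL K (L.map f) := by
  induction L with
  | nil => simp
  | cons v L ih => simp [ih]

/-- the contraction of a volume functional -/
lemma exists_contract [FiniteDimensional K V] {φ : ExteriorAlgebra K V →ₗ[K] K} (hφ : IsVol φ)
    (C : List V) (hC : finrank K (spanL K C) = C.length) :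
    ∃ ψ : ExteriorAlgebra K (V ⧸ spanL K C) →ₗ[K] K, IsVol ψ ∧
      ∀ ω, ψ (ExteriorAlgebra.map (spanL K C).mkQ ω) = φ (prodL K C * ω) := by
  obtain ⟨s, hs⟩ := (spanL K C).mkQ.exists_rightInverse_of_surjective (Submodule.range_mkQ _)
  have hs' : ∀ x, (spanL K C).mkQ (s x) = x := fun x => LinearMap.congr_fun hs x
  set ψ : ExteriorAlgebra K (V ⧸ spanL K C) →ₗ[K] K :=
    (φ ∘ₗ LinearMap.mulLeft K (prodL K C)) ∘ₗ (ExteriorAlgebra.map s).toLinearMap with hψ
  have hψ' : ∀ ω, ψ ω = φ (prodL K C * ExteriorAlgebra.map s ω) := fun ω => rfl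
  refine ⟨ψ, ?_, ?_⟩
  · intro L
    rw [hψ', map_prodL, ← prodL_append, hφ]
    have h1 := Submodule.finrank_quotient_add_finrank (spanL K C)
    simp only [List.length_append, List.length_map]
    rw [hC] at h1
    have h2 : (C.length + L.length = finrank K V) ↔ (L.length = finrank K (V ⧸ spanL K C)) := by
      omega
    rw [h2]
    refine and_congr Iff.rfl ?_
    have h3 : spanL K (C ++ L.map s) = Submodule.comap (spanL K C).mkQ (spanL K L) := by
      rw [spanL_append, ← Submodule.comap_map_mkQ]
      congr 1
      rw [Submodule.map_span]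
      congr 1
      ext x
      simp only [Set.mem_image, Set.mem_ofPred_eq, List.mem_map]
      constructor
      · rintro ⟨_, ⟨y, hy, rfl⟩, rfl⟩
        rw [hs']; exact hy
      · intro hx
        exact ⟨s x, ⟨x, hx, rfl⟩, hs' x⟩
    rw [h3]
    constructor
    · intro h
      rw [eq_top_iff]
      intro x _
      obtain ⟨y, rfl⟩ := Submodule.mkQ_surjective _ x
      have : y ∈ Submodule.comap (spanL K C).mkQ (spanL K L) := by rw [h]; trivial
      exact this
    · intro h; rw [h, Submodule.comap_top]
  · intro ω
    have hω : ω ∈ Submodule.span K (Set.range fun L : List V => prodL K L) := by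
      rw [exists_prodL_span]; trivial
    induction hω using Submodule.span_induction with
    | mem x hx =>
      obtain ⟨L, rfl⟩ := hx
      simp only
      rw [hψ', map_prodL, map_prodL, List.map_map]
      congr 1
      refine prodL_mul_congr C _ (fun x => ?_) L
      have hk : x - (s ∘ (spanL K C).mkQ) x ∈ LinearMap.ker (spanL K C).mkQ := by
        rw [LinearMap.mem_ker, map_sub]
        simp only [Function.comp_apply]
        rw [hs', sub_self]
      exact (SetLike.ext_iff.1 (Submodule.ker_mkQ (spanL K C)) _).1 hk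
    | zero => simp
    | add x y _ _ hx hy => rw [map_add, map_add, hx, hy, mul_add, map_add]
    | smul a x _ hx => rw [map_smul, map_smul, hx, mul_smul_comm, map_smul]

lemma finrank_map_mkQ [FiniteDimensional K V] (C X : Submodule K V) :
    finrank K (X.map C.mkQ) + finrank K C = finrank K (X ⊔ C : Submodule K V) := by
  have h1 : X.map C.mkQ = (X ⊔ C).map C.mkQ := by
    rw [Submodule.map_sup]
    rw [Submodule.mkQ_map_self, sup_bot_eq]
  have h2 := LinearMap.finrank_range_add_finrank_ker (C.mkQ.domRestrict (X ⊔ C))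
  rw [LinearMap.range_domRestrict, LinearMap.ker_domRestrict, Submodule.ker_mkQ] at h2
  have h3 : finrank K (C.comap (X ⊔ C).subtype) = finrank K C := by
    rw [← Submodule.finrank_map_subtype_eq (X ⊔ C), Submodule.map_comap_subtype,
      inf_eq_right.2 le_sup_right]
  rw [h1, ← h2]
  congr 1
  exact h3.symm

omit [AddCommGroup V] in
lemma sel_map {W : Type*} (f : V → W) (L : List V) (b : ℕ → Bool) :
    sel (L.map f) b = (sel L b).map f := by
  induction L generalizing b with
  | nil => rfl
  | cons v L ih =>
    simp only [List.map_cons, sel_cons, ih]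
    split_ifs <;> rfl

/-- **The rank of the flattenings of a slice of a Plücker vector.** -/
theorem rank_flat [FiniteDimensional K V] {φ : ExteriorAlgebra K V →ₗ[K] K} (hφ : IsVol φ)
    (L₁ M₁ A M₂ L₂ : List V)
    (hC : finrank K (spanL K (M₁ ++ M₂)) = (M₁ ++ M₂).length)
    (htop : spanL K A ⊔ spanL K (L₁ ++ L₂) ⊔ spanL K (M₁ ++ M₂) = ⊤) :
    ∃ s : ℕ, s + (M₁ ++ M₂).length + finrank K V =
        finrank K (spanL K A ⊔ spanL K (M₁ ++ M₂) : Submodule K V) +
        finrank K (spanL K (L₁ ++ L₂) ⊔ spanL K (M₁ ++ M₂) : Submodule K V) ∧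
      finrank K (Submodule.span K (Set.range fun c : (ℕ → Bool) × (ℕ → Bool) =>
        (fun b : ℕ → Bool => φ (prodL K (sel L₁ c.1) * prodL K M₁ * prodL K (sel A b) *
          prodL K M₂ * prodL K (sel L₂ c.2))))) = 2 ^ s := by
  classical
  set C := M₁ ++ M₂ with hCdef
  obtain ⟨ψ, hψ1, hψ2⟩ := exists_contract hφ C hC
  set π := (spanL K C).mkQ with hπ
  have hlen0 : ∀ L : List V, L.length ≠ finrank K V → φ (prodL K L) = 0 := by
    intro L hL
    by_contra h
    exact hL ((hφ L).1 h).1
  -- rearranging the product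
  have hsign : ∀ c : (ℕ → Bool) × (ℕ → Bool), ∃ ε : K, ε ≠ 0 ∧ ∀ b : ℕ → Bool,
      φ (prodL K (sel L₁ c.1) * prodL K M₁ * prodL K (sel A b) *
          prodL K M₂ * prodL K (sel L₂ c.2)) =
      ε * φ (prodL K C * (prodL K (sel A b) * (prodL K (sel L₁ c.1) * prodL K (sel L₂ c.2)))) := by
    intro c
    set X₁ := sel L₁ c.1
    set X₂ := sel L₂ c.2
    set k := finrank K V - (X₁.length + M₁.length + M₂.length + X₂.length)
    refine ⟨(-1) ^ (X₁.length * (M₁.length + k + M₂.length) + k * M₂.length),
      pow_ne_zero _ (by simp), fun b => ?_⟩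
    set B := sel A b
    have e1 : prodL K X₁ * prodL K M₁ * prodL K B * prodL K M₂ * prodL K X₂ =
        prodL K (X₁ ++ M₁ ++ B ++ M₂ ++ X₂) := by
      simp only [prodL_append]
    have e2 : prodL K C * (prodL K B * (prodL K X₁ * prodL K X₂)) =
        prodL K (C ++ (B ++ (X₁ ++ X₂))) := by
      simp only [prodL_append]
    by_cases hl : (X₁ ++ M₁ ++ B ++ M₂ ++ X₂).length = finrank K V
    · simp only [List.length_append] at hl
      have hk : B.length = k := by omega
      have hneg : ∀ (n : ℕ) (x : ExteriorAlgebra K V), (-1) ^ n * x = x * (-1) ^ n := by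
        intro n x
        exact ((Commute.neg_one_left x).pow_left _).eq
      have e3 : prodL K X₁ * prodL K M₁ * prodL K B * prodL K M₂ * prodL K X₂ =
          (-1) ^ (X₁.length * (M₁.length + k + M₂.length) + k * M₂.length) *
          (prodL K C * (prodL K B * (prodL K X₁ * prodL K X₂))) := by
        have f1 := prodL_mul_comm (K := K) X₁ (M₁ ++ B ++ M₂)
        have f2 := prodL_mul_comm (K := K) B M₂
        simp only [List.length_append, hk] at f1
        rw [hk] at f2
        calc prodL K X₁ * prodL K M₁ * prodL K B * prodL K M₂ * prodL K X₂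
            = prodL K X₁ * prodL K (M₁ ++ B ++ M₂) * prodL K X₂ := by
              simp only [prodL_append, mul_assoc]
          _ = (-1) ^ (X₁.length * (M₁.length + k + M₂.length)) *
              (prodL K (M₁ ++ B ++ M₂) * prodL K X₁) * prodL K X₂ := by rw [f1]
          _ = (-1) ^ (X₁.length * (M₁.length + k + M₂.length)) *
              (prodL K M₁ * (prodL K B * prodL K M₂) * prodL K X₁ * prodL K X₂) := by
              simp only [prodL_append, mul_assoc]
          _ = (-1) ^ (X₁.length * (M₁.length + k + M₂.length)) *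
              (prodL K M₁ * ((-1) ^ (k * M₂.length) * (prodL K M₂ * prodL K B)) *
                prodL K X₁ * prodL K X₂) := by rw [f2]
          _ = _ := by
              rw [← mul_assoc (prodL K M₁), ← hneg, pow_add, hCdef, prodL_append]
              simp only [mul_assoc]
      rw [e3]
      have e4 : ∀ (n : ℕ) (x : ExteriorAlgebra K V), (-1) ^ n * x = ((-1 : K) ^ n) • x := by
        intro n x
        rw [Algebra.smul_def, map_pow, map_neg, map_one]
      rw [e4, map_smul, smul_eq_mul]
    · rw [e1, e2, hlen0 _ hl, hlen0, mul_zero]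
      simp only [List.length_append, hCdef] at hl ⊢
      omega
  choose ε hε1 hε2 using hsign
  have hspan1 : Submodule.span K (Set.range fun c : (ℕ → Bool) × (ℕ → Bool) =>
        (fun b : ℕ → Bool => φ (prodL K (sel L₁ c.1) * prodL K M₁ * prodL K (sel A b) *
          prodL K M₂ * prodL K (sel L₂ c.2)))) =
      Submodule.span K (Set.range fun c : (ℕ → Bool) × (ℕ → Bool) =>
        Gm ψ (A.map π) (ExteriorAlgebra.map π (prodL K (sel L₁ c.1) * prodL K (sel L₂ c.2)))) := by
    have hfun : ∀ c : (ℕ → Bool) × (ℕ → Bool),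
        (fun b : ℕ → Bool => φ (prodL K (sel L₁ c.1) * prodL K M₁ * prodL K (sel A b) *
          prodL K M₂ * prodL K (sel L₂ c.2))) =
        ε c • Gm ψ (A.map π)
          (ExteriorAlgebra.map π (prodL K (sel L₁ c.1) * prodL K (sel L₂ c.2))) := by
      intro c
      funext b
      rw [hε2, Pi.smul_apply, Gm_apply, sel_map, ← map_prodL, ← map_mul, hψ2, smul_eq_mul]
    apply le_antisymm
    · rw [Submodule.span_le]
      rintro _ ⟨c, rfl⟩
      simp only [SetLike.mem_coe]
      rw [hfun]
      exact Submodule.smul_mem _ _ (Submodule.subset_span ⟨c, rfl⟩)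
    · rw [Submodule.span_le]
      rintro _ ⟨c, rfl⟩
      simp only [SetLike.mem_coe]
      have : Gm ψ (A.map π)
          (ExteriorAlgebra.map π (prodL K (sel L₁ c.1) * prodL K (sel L₂ c.2))) =
          (ε c)⁻¹ • (fun b : ℕ → Bool => φ (prodL K (sel L₁ c.1) * prodL K M₁ *
            prodL K (sel A b) * prodL K M₂ * prodL K (sel L₂ c.2))) := by
        rw [hfun, smul_smul, inv_mul_cancel₀ (hε1 c), one_smul]
      rw [this]
      exact Submodule.smul_mem _ _ (Submodule.subset_span ⟨c, rfl⟩)
  have hmapspan : ∀ L : List V, spanL K (L.map π) = (spanL K L).map π := by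
    intro L
    have e : {x | x ∈ L.map π} = π '' {x | x ∈ L} := by
      ext x
      simp only [Set.mem_image, Set.mem_ofPred_eq, List.mem_map]
    rw [Submodule.map_span, ← e]
  have hspan2 : Submodule.span K (Set.range fun c : (ℕ → Bool) × (ℕ → Bool) =>
        Gm ψ (A.map π) (ExteriorAlgebra.map π (prodL K (sel L₁ c.1) * prodL K (sel L₂ c.2)))) =
      (Lam ((spanL K (L₁ ++ L₂)).map π)).map (Gm ψ (A.map π)) := by
    rw [← hmapspan, ← span_sel, Submodule.map_span, ← Set.range_comp]
    congr 1
    ext x
    constructor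
    · rintro ⟨c, rfl⟩
      refine ⟨fun n => if n < L₁.length then c.1 n else c.2 (n - L₁.length), ?_⟩
      simp only [Function.comp_apply]
      congr 1
      rw [← prodL_append, map_prodL, List.map_append, List.map_append, sel_append,
        sel_map, sel_map, List.length_map]
      congr 2
      · congr 1
        exact sel_congr _ fun n hn => by simp [hn]
      · congr 1
        refine sel_congr _ fun n hn => ?_
        rw [if_neg (by omega), Nat.add_sub_cancel]
    · rintro ⟨b, rfl⟩
      refine ⟨(b, fun n => b (n + L₁.length)), ?_⟩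
      simp only [Function.comp_apply]
      congr 1
      rw [← prodL_append, map_prodL, List.map_append, List.map_append, sel_append,
        sel_map, sel_map, List.length_map]
  have htop' : spanL K (A.map π) ⊔ (spanL K (L₁ ++ L₂)).map π = ⊤ := by
    rw [hmapspan, ← Submodule.map_sup]
    have h1 : (spanL K A ⊔ spanL K (L₁ ++ L₂)).map π =
        (spanL K A ⊔ spanL K (L₁ ++ L₂) ⊔ spanL K C).map π := by
      rw [Submodule.map_sup _ (spanL K C)]
      rw [hπ, Submodule.mkQ_map_self, sup_bot_eq]
    rw [h1, htop, Submodule.map_top, hπ, Submodule.range_mkQ]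
  have hr := rank_pair hψ1 (A.map π) ((spanL K (L₁ ++ L₂)).map π) htop'
  rw [hmapspan] at hr htop'
  have hd1 := Submodule.finrank_sup_add_finrank_inf_eq ((spanL K A).map π)
    ((spanL K (L₁ ++ L₂)).map π)
  rw [htop', finrank_top] at hd1
  have hd2 := Submodule.finrank_quotient_add_finrank (spanL K C)
  have hd3 := finrank_map_mkQ (spanL K C) (spanL K A)
  have hd4 := finrank_map_mkQ (spanL K C) (spanL K (L₁ ++ L₂))
  rw [← hπ] at hd3 hd4
  refine ⟨finrank K ((spanL K A).map π ⊓ (spanL K (L₁ ++ L₂)).map π : Submodule K _), ?_, ?_⟩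
  · omega
  · rw [hspan1, hspan2, hr]

end Pool.Agent.H229
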