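import Pool.Agent.H229.Core

/-!
The affine infinite Grassmannian is closed in the spectrum of the polynomial ring.
-/

namespace Pool.Agent.H229

open MvPolynomial

universe u

variable {k : Type u} [Field k]

open Classical in
/-- the coordinate of an arbitrary tuple -/
noncomputable def cv (k : Type u) [Field k] (n p : ℕ) (v : Fin p → ℤ) : MvPolynomial Idx k :=
  if h : ∃ s, AtLevel n p s ∧ ∀ j, s.seq j.1 = v j then X h.choose else 0

lemma AtLevel.ext2 {n p : ℕ} {s s' : Idx} (h : AtLevel n p s) (h' : AtLevel n p s')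
    (he : ∀ j : Fin p, s.seq j = s'.seq j) : s = s' := by
  apply Idx.ext'
  intro j
  by_cases hj : j < p
  · exact he ⟨j, hj⟩
  · rw [h.1 j (by omega), h'.1 j (by omega)]

lemma cv_idx {n p : ℕ} {s : Idx} (hs : AtLevel n p s) : cv k n p (fun j => s.seq j) = X s := by
  have h : ∃ s', AtLevel n p s' ∧ ∀ j : Fin p, s'.seq j.1 = s.seq j := ⟨s, hs, fun _ => rfl⟩
  rw [cv, dif_pos h]
  congr 1
  exact h.choose_spec.1.ext2 hs h.choose_spec.2

lemma cv_eval {K : Type u} [Field K] [Algebra k K] {n p : ℕ} (c : Idx → K)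
    (φ : Fin p → ℤ → K) (hφ : ∀ s : Idx, AtLevel n p s → c s = Matrix.det fun a b : Fin p =>
      φ a (s.seq b)) (v : Fin p → ℤ) (hv : ∀ j, v j ∈ lab n p) :
    aeval c (cv k n p v) = Matrix.det fun a b : Fin p => φ a (v b) := by
  by_cases h : ∃ s, AtLevel n p s ∧ ∀ j : Fin p, s.seq j.1 = v j
  · rw [cv, dif_pos h, aeval_X, hφ _ h.choose_spec.1]
    congr 1
    funext a b
    rw [h.choose_spec.2 b]
  · rw [cv, dif_neg h, map_zero]
    have h1 : ¬ Function.Injective v := by
      intro hi
      apply h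
      obtain ⟨s, hs, hL⟩ := exists_idx (n := n) (p := p) (List.ofFn v)
        (List.nodup_ofFn.2 hi) (by simp) (by
          intro a ha
          rw [List.mem_ofFn] at ha
          obtain ⟨j, rfl⟩ := ha
          exact hv j)
      refine ⟨s, hs, fun j => ?_⟩
      rw [toL] at hL
      exact congrFun (List.ofFn_injective hL) j
    rw [Function.Injective] at h1
    push Not at h1
    obtain ⟨i, j, h2, h3⟩ := h1
    symm
    apply Matrix.det_zero_of_column_eq h3
    intro a
    rw [h2]

/-- the relations -/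
noncomputable def rel (k : Type u) [Field k] (n p : ℕ) (I J : Idx) : MvPolynomial Idx k :=
  Matrix.det (fun a b : Fin p => cv k n p (Function.update (fun j : Fin p => I.seq j) a (J.seq b)))
    - X I ^ (p - 1) * X J

lemma aeval_det {K : Type u} [Field K] [Algebra k K] {p : ℕ} (c : Idx → K)
    (M : Matrix (Fin p) (Fin p) (MvPolynomial Idx k)) :
    aeval c M.det = Matrix.det fun a b : Fin p => aeval c (M a b) := by
  have := (aeval (R := k) c).toRingHom.map_det M
  exact this

lemma rel_of_dec {K : Type u} [Field K] [Algebra k K] {n p : ℕ} (c : Idx → K)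
    (φ : Fin p → ℤ → K) (hφ : ∀ s : Idx, AtLevel n p s → c s = Matrix.det fun a b : Fin p =>
      φ a (s.seq b)) {I J : Idx} (hI : AtLevel n p I) (hJ : AtLevel n p J) :
    aeval c (rel k n p I J) = 0 := by
  rw [rel, map_sub, aeval_det, map_mul, map_pow, aeval_X, aeval_X, hφ I hI, hφ J hJ]
  set M : Matrix (Fin p) (Fin p) K := fun a b => φ a (I.seq b) with hM
  set N : Matrix (Fin p) (Fin p) K := fun a b => φ a (J.seq b) with hN
  have h1 : (fun a b : Fin p => aeval c (cv k n p
      (Function.update (fun j : Fin p => I.seq j) a (J.seq b)))) = M.adjugate * N := by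
    funext a b
    rw [cv_eval c φ hφ]
    · have h2 : (M.adjugate * N) a b = M.adjugate.mulVec (fun i => N i b) a := rfl
      rw [h2, ← Matrix.cramer_eq_adjugate_mulVec, Matrix.cramer_apply]
      congr 1
      funext i j
      by_cases hja : j = a
      · subst hja
        simp [hN]
      · simp [hja, hM]
    · intro j
      by_cases hja : j = a
      · subst hja
        rw [Function.update_self]
        exact hJ.2 b b.2
      · rw [Function.update_of_ne hja]
        exact hI.2 j j.2
  have h3 : Matrix.det (fun a b : Fin p => aeval c (cv k n p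
      (Function.update (fun j : Fin p => I.seq j) a (J.seq b)))) = (M.adjugate * N).det := by
    rw [← h1]
  rw [h3, Matrix.det_mul, Matrix.det_adjugate, Fintype.card_fin]
  simp

lemma dec_of_rel {K : Type u} [Field K] [Algebra k K] {n p : ℕ} (hp : 1 ≤ p) (c : Idx → K)
    (h : ∀ I J : Idx, AtLevel n p I → AtLevel n p J → aeval c (rel k n p I J) = 0) :
    ∃ φ : Fin p → ℤ → K, ∀ s : Idx, AtLevel n p s → c s = Matrix.det fun a b : Fin p =>
      φ a (s.seq b) := by
  by_cases h0 : ∀ s, AtLevel n p s → c s = 0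
  · refine ⟨fun _ _ => 0, fun s hs => ?_⟩
    rw [h0 s hs]
    symm
    have : Nonempty (Fin p) := ⟨⟨0, hp⟩⟩
    exact Matrix.det_zero
  · push Not at h0
    obtain ⟨I, hI, hcI⟩ := h0
    set α : Fin p → K := fun a => if a = ⟨0, hp⟩ then 1 else (c I)⁻¹ with hα
    refine ⟨fun a x => α a * aeval c (cv k n p (Function.update (fun j : Fin p => I.seq j) a x)),
      fun J hJ => ?_⟩
    have h1 := Matrix.det_mul_column α (fun a b : Fin p =>
      aeval c (cv k n p (Function.update (fun j : Fin p => I.seq j) a (J.seq b))))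
    have h2 : (Matrix.det fun a b : Fin p => α a * aeval c (cv k n p
        (Function.update (fun j : Fin p => I.seq j) a (J.seq b)))) = (∏ i, α i) *
        Matrix.det fun a b : Fin p => aeval c (cv k n p
          (Function.update (fun j : Fin p => I.seq j) a (J.seq b))) := h1
    rw [h2]
    have h3 := h I J hI hJ
    rw [rel, map_sub, aeval_det, map_mul, map_pow, aeval_X, aeval_X, sub_eq_zero] at h3
    rw [h3]
    have h4 : ∏ i, α i = ((c I)⁻¹) ^ (p - 1) := by
      rw [hα, Finset.prod_ite, Finset.prod_const_one, one_mul, Finset.prod_const]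
      congr 1
      rw [Finset.filter_ne' Finset.univ (⟨0, hp⟩ : Fin p), Finset.card_erase_of_mem (Finset.mem_univ _)]
      simp
    rw [h4, ← mul_assoc, ← mul_pow, inv_mul_cancel₀ hcI, one_pow, one_mul]

lemma Gr_eq : Gr k = PrimeSpectrum.zeroLocus {f | ∃ n p : ℕ, 1 ≤ n ∧ 1 ≤ p ∧ ∃ I J : Idx,
    AtLevel n p I ∧ AtLevel n p J ∧ f = rel k n p I J} := by
  ext P
  rw [PrimeSpectrum.mem_zeroLocus]
  constructor
  · rintro hP f ⟨n, p, hn, hp, I, J, hI, hJ, rfl⟩
    obtain ⟨φ, hφ⟩ := hP n p hn hp
    have h1 := rel_of_dec (k := k) (coord P) φ hφ hI hJ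
    rw [SetLike.mem_coe, mem_iff_aeval]
    exact h1
  · intro h n p hn hp
    apply dec_of_rel (k := k) hp
    intro I J hI hJ
    rw [← mem_iff_aeval]
    exact h ⟨n, p, hn, hp, I, J, hI, hJ, rfl⟩

theorem Gr_closed : IsClosed (Gr k) := by
  rw [Gr_eq]
  exact PrimeSpectrum.isClosed_zeroLocus _

end Pool.Agent.H229
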