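import Pool.Agent.H229.Finite

/-!
A point of branch-width larger than `w` has a bounded window of branch-width larger than `w`, up
to a product of elements `n_{a,b}`.
-/

namespace Pool.Agent.H229

open MvPolynomial Module BT

universe u

section

variable {K : Type u} [Field K]

lemma vol_ne_iff {N : ℕ} (x : ℤ → Fin N → K) (L : List ℤ) :
    vol K N (prodL K (L.map x)) ≠ 0 ↔
      L.length = N ∧ Submodule.span K (x '' (L.toFinset : Set ℤ)) = ⊤ := by
  rw [vol_isVol, spanL_map, List.length_map, finrank_fin_fun]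

lemma indep_toL {N : ℕ} (x : ℤ → Fin N → K) {s : Idx}
    (h : vol K N (prodL K ((toL N s).map x)) ≠ 0) :
    LinearIndepOn K x ((toL N s).toFinset : Set ℤ) := by
  rw [vol_ne_iff] at h
  apply indep_of_rkx
  rw [rkx, h.2, finrank_top, List.toFinset_card_of_nodup (toL_nodup N s), toL_length]
  simp

lemma cnt_le_rkx {N : ℕ} (x : ℤ → Fin N → K) {s : Idx}
    (h : vol K N (prodL K ((toL N s).map x)) ≠ 0) (Y : Finset ℤ) :
    cnt N Y s ≤ rkx K x Y := by
  rw [cnt_eq, ← rkx_of_indep x ((indep_toL x h).mono (by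
    intro a ha
    exact_mod_cast (Finset.mem_filter.1 (by exact_mod_cast ha : a ∈
      (toL N s).toFinset.filter fun a => a ∈ Y)).1))]
  refine (rkx_isRk x).mono _ _ ?_
  intro a ha
  exact (Finset.mem_filter.1 ha).2

end

variable {k : Type u} [Field k]

lemma cnt_split {p N : ℕ} (hpN : p ≤ N) {s : Idx} (hs : ∀ j, p ≤ j → s.seq j = j + 1)
    {A : Finset ℤ} :
    cnt N (A ∪ (gap p N).toFinset) s = cnt p A s + (N - p) := by
  have h1 : (Finset.range N).filter (fun j => s.seq j ∈ A ∪ (gap p N).toFinset) =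
      (Finset.range p).filter (fun j => s.seq j ∈ A ∪ (gap p N).toFinset) ∪
        (Finset.Ico p N) := by
    ext j
    simp only [Finset.mem_filter, Finset.mem_union, Finset.mem_range, Finset.mem_Ico,
      List.mem_toFinset, mem_gap]
    constructor
    · rintro ⟨h1, h2⟩
      by_cases h : j < p
      · exact Or.inl ⟨h, h2⟩
      · exact Or.inr ⟨by omega, h1⟩
    · rintro (⟨h1, h2⟩ | ⟨h1, h2⟩)
      · exact ⟨by omega, h2⟩
      · refine ⟨h2, Or.inr ?_⟩
        rw [hs j h1]
        omega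
  have h2 : (Finset.range p).filter (fun j => s.seq j ∈ A ∪ (gap p N).toFinset) =
      (Finset.range p).filter (fun j => s.seq j ∈ A) := by
    apply Finset.filter_congr
    intro j hj
    rw [Finset.mem_range] at hj
    rw [Finset.mem_union, List.mem_toFinset, mem_gap]
    constructor
    · rintro (h | h)
      · exact h
      · exfalso
        -- the value is attained at a later place
        have h3 : s.seq ((s.seq j - 1).toNat) = s.seq j := by
          rw [hs _ (by omega)]
          omega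
        have h4 := s.inj h3
        omega
    · intro h; exact Or.inl h
  rw [cnt, h1, h2, Finset.card_union_of_disjoint, Nat.card_Ico]
  · rfl
  · rw [Finset.disjoint_left]
    intro j h3 h4
    rw [Finset.mem_filter, Finset.mem_range] at h3
    rw [Finset.mem_Ico] at h4
    omega

lemma cnt_compl {n p : ℕ} {s : Idx} (hs : AtLevel n p s) {Y : Finset ℤ} :
    cnt p Y s + cnt p (lab n p \ Y) s = p := by
  have h1 : (Finset.range p).filter (fun j => s.seq j ∈ lab n p \ Y) =
      (Finset.range p).filter (fun j => ¬ s.seq j ∈ Y) := by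
    apply Finset.filter_congr
    intro j hj
    rw [Finset.mem_sdiff]
    exact ⟨fun h => h.2, fun h => ⟨hs.2 j (Finset.mem_range.1 hj), h⟩⟩
  rw [cnt, cnt, h1, Finset.card_filter_add_card_filter_not, Finset.card_range]

/-- The window. -/
lemma exists_window {w G : ℕ} (hG : G = 6 * gg w + 2) {P : PrimeSpectrum (MvPolynomial Idx k)}
    (hP : P ∈ Gr k) (hP' : P ∉ GrW k w) :
    ∃ (N : ℕ) (x : ℤ → Fin N → P.asIdeal.ResidueField) (C E : Finset ℤ), G ≤ N ∧
      (∀ s, AtLevel N N s → coord P s = vol _ N (prodL _ ((toL N s).map x))) ∧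
      C ⊆ lab N N ∧ E ⊆ lab N N ∧ Disjoint C E ∧ C.card = N - G ∧ E.card = 2 * G ∧
      rkx P.asIdeal.ResidueField x C = C.card ∧ rkx P.asIdeal.ResidueField x (E ∪ C) = N ∧
      ¬ Val (cn (ct (rkx P.asIdeal.ResidueField x) C) E) w E := by
  have h1 : ∃ n p : ℕ, 1 ≤ n ∧ 1 ≤ p ∧ ∀ t : BT ℤ, t.Part → t.fs = lab n p →
      ∃ A ∈ t.nodes, ∃ s s' : Idx, AtLevel n p s ∧ AtLevel n p s' ∧
      X s ∉ P.asIdeal ∧ X s' ∉ P.asIdeal ∧ cnt p A s' + w < cnt p A s := by
    by_contra hcon
    push Not at hcon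
    apply hP'
    refine ⟨hP, fun n p hn hp => ?_⟩
    obtain ⟨t, h1, h2, h3⟩ := hcon n p hn hp
    exact ⟨t, h1, h2, h3⟩
  obtain ⟨n, p, hn, hp, hbad⟩ := h1
  set N := n + p + G with hN
  obtain ⟨x, hx⟩ := exists_vectors hP (show 1 ≤ N by omega)
  set r := rkx P.asIdeal.ResidueField x with hr
  have hrk : IsRk r := rkx_isRk x
  have hr0 : r ∅ = 0 := rkx_empty x
  have hvol : ∀ s, AtLevel n p s → X s ∉ P.asIdeal →
      vol _ N (prodL _ ((toL N s).map x)) ≠ 0 := by
    intro s hs h
    rw [← hx s (hs.mono' (by omega) (by omega))]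
    exact coord_ne_zero.2 h
  -- the ambient matroid
  have hlabne : (lab n p).Nonempty := ⟨1, by rw [mem_lab]; omega⟩
  set C₀ := (gap p N).toFinset with hC₀
  have hC₀c : C₀.card = N - p := by
    rw [hC₀, List.toFinset_card_of_nodup (gap_nodup _ _), gap_length]
  obtain ⟨t₀, ht₀, ht₀'⟩ := exists_tree (lab n p) hlabne
  obtain ⟨A₀, -, s₀, -, hs₀, -, hXs₀, -, -⟩ := hbad t₀ ht₀ ht₀'
  have hv₀ := hvol s₀ hs₀ hXs₀
  have hlb : ∀ (s : Idx) (A : Finset ℤ), AtLevel n p s → X s ∉ P.asIdeal → A ⊆ lab n p →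
      cnt p A s + (N - p) ≤ r (A ∪ C₀) := by
    intro s A hs h hA
    rw [← cnt_split (by omega) hs.1]
    exact cnt_le_rkx x (hvol s hs h) _
  have hub : ∀ A, r A ≤ N := fun A => by
    have h := rkx_le_finrank (K := P.asIdeal.ResidueField) x A
    rw [finrank_fin_fun] at h
    exact h
  have hE₀ : r (lab n p ∪ C₀) = N := by
    have h2 := hlb s₀ (lab n p) hs₀ hXs₀ subset_rfl
    have h3 := cnt_compl hs₀ (Y := ∅)
    have h4 : cnt p ∅ s₀ = 0 := by simp [cnt]
    rw [Finset.sdiff_empty, h4] at h3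
    have h5 := hub (lab n p ∪ C₀)
    omega
  have hrC₀ : r C₀ = N - p := by
    have h2 := hlb s₀ ∅ hs₀ hXs₀ (by simp)
    have h3 := hrk.union_le ∅ C₀
    rw [Finset.empty_union] at h2 h3
    have h4 : cnt p ∅ s₀ = 0 := by simp [cnt]
    omega
  have hC₀N : C₀ ⊆ lab N N := by
    intro a ha
    rw [hC₀, List.mem_toFinset, mem_gap] at ha
    rw [mem_lab]; omega
  have hlabN : lab n p ⊆ lab N N := by
    intro a ha
    rw [mem_lab] at ha ⊢
    omega
  have hdis₀ : Disjoint C₀ (lab n p) := by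
    rw [Finset.disjoint_left]
    intro a ha ha'
    rw [hC₀, List.mem_toFinset, mem_gap] at ha
    rw [mem_lab] at ha'
    omega
  have hnV : ¬ Val (cn (ct r C₀) (lab n p)) w (lab n p) := by
    rintro (h | ⟨t, t1, t2, t3⟩)
    · rw [h] at hlabne; simp at hlabne
    · obtain ⟨A, hA, s, s', a1, a2, a3, a4, a5⟩ := hbad t t1 t2
      have hAl : A ⊆ lab n p := t2 ▸ subset_of_mem_nodes hA
      have h2 := t3 A hA
      have h3 := cn_add (ct_isRk hrk C₀) hAl
      simp only [ct_apply, Finset.empty_union] at h3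
      have h4 := hlb s A a1 a3 hAl
      have h5 := hlb s' (lab n p \ A) a2 a4 Finset.sdiff_subset
      have h6 := cnt_compl a2 (Y := A)
      omega
  obtain ⟨C₁, E₁, c1, c2, c3, c4, c5⟩ := exmin w _ (ct r C₀) (ct_isRk hrk C₀) (lab n p) rfl hnV
  have hct : ct (ct r C₀) C₁ = ct r (C₁ ∪ C₀) := by
    funext X
    rw [ct_apply, ct_apply, ct_apply, Finset.union_assoc]
  rw [hct] at c5
  obtain ⟨C', d1, d2, d3, d4, d5⟩ := hrk.conv hr0 (E := lab N N) (E₁ := E₁) (C := C₁ ∪ C₀)
    (c2.trans hlabN) (Finset.union_subset (c1.trans hlabN) hC₀N) (by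
      rw [Finset.disjoint_union_left]
      exact ⟨c3, hdis₀.mono_right c2⟩)
  have hrN : r (lab N N) = N := by
    have h2 := hrk.mono _ _ (Finset.union_subset hlabN hC₀N)
    have h3 := hub (lab N N)
    omega
  rw [hrN] at d4
  have hC'1 : N ≤ E₁.card + C'.card := by
    have h2 := hrk.union_le ∅ E₁
    have h3 := hrk.union_le E₁ C'
    rw [Finset.empty_union] at h2
    omega
  have hC'2 : C'.card ≤ N := by rw [← d3]; exact hub _
  obtain ⟨C₂, e1, e2⟩ := Finset.exists_subset_card_eq (s := C') (n := N - G) (by omega)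
  have hC₂N : C₂ ⊆ lab N N := e1.trans d1
  have h7 : E₁ ∪ (C' \ C₂) ⊆ lab N N \ C₂ := by
    intro a ha
    rw [Finset.mem_union, Finset.mem_sdiff] at ha
    rw [Finset.mem_sdiff]
    rcases ha with ha | ha
    · exact ⟨hlabN (c2 ha), fun h => Finset.disjoint_left.1 d2 (e1 h) ha⟩
    · exact ⟨d1 ha.1, ha.2⟩
  obtain ⟨E₂, f1, f2, f3⟩ := Finset.exists_subsuperset_card_eq (n := 2 * G) h7 (by
      refine (Finset.card_union_le _ _).trans ?_
      rw [Finset.card_sdiff_of_subset e1]
      omega) (by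
      rw [Finset.card_sdiff_of_subset hC₂N, lab_card]
      omega)
  have hd2 : Disjoint C₂ E₂ := by
    rw [Finset.disjoint_left]
    intro a ha ha'
    exact (Finset.mem_sdiff.1 (f2 ha')).2 ha
  have hind : LinearIndepOn P.asIdeal.ResidueField x (C' : Set ℤ) := indep_of_rkx x d3
  refine ⟨N, x, C₂, E₂, by omega, hx, hC₂N, f2.trans Finset.sdiff_subset, hd2, e2, f3, ?_, ?_, ?_⟩
  · exact rkx_of_indep x (hind.mono (by exact_mod_cast e1))
  · have h8 : E₁ ∪ C' ⊆ E₂ ∪ C₂ := by
      intro a ha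
      rw [Finset.mem_union] at ha ⊢
      by_cases h : a ∈ C₂
      · exact Or.inr h
      · left
        apply f1
        rw [Finset.mem_union, Finset.mem_sdiff]
        rcases ha with ha | ha
        · exact Or.inl ha
        · exact Or.inr ⟨ha, h⟩
    have h9 := hrk.mono _ _ h8
    have h10 := hub (E₂ ∪ C₂)
    change r (E₂ ∪ C₂) = N
    omega
  · rintro (h | ⟨t, t1, t2, t3⟩)
    · rw [h] at f3
      simp only [Finset.card_empty] at f3
      omega
    · apply c5
      have hE12 : E₁ ⊆ E₂ := Finset.subset_union_left.trans f1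
      have hCC : C' \ C₂ ⊆ E₂ := Finset.subset_union_right.trans f1
      have hfe : t.fs ∩ E₁ = E₁ := by rw [t2]; exact Finset.inter_eq_right.2 hE12
      have h8 := Val.restr (lam := cn (ct r (C₁ ∪ C₀)) E₁) (w := w) t1 (B := E₁) (by
        intro W hW
        have hWE : W ⊆ E₂ := t2 ▸ subset_of_mem_nodes hW
        rw [← cn_congr hrk d5 (Finset.inter_subset_right : W ∩ E₁ ⊆ E₁)]
        have h9 := cn_minor (ct_isRk hrk C₂) (E := E₂) (E' := E₁) (C := C' \ C₂) (A := W) hE12
          hCC (by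
            rw [Finset.disjoint_left]
            intro a ha ha'
            exact Finset.disjoint_left.1 d2 (Finset.mem_sdiff.1 ha).1 ha') hWE
        have h10 : ct (ct r C₂) (C' \ C₂) = ct r C' := by
          funext X
          rw [ct_apply, ct_apply, ct_apply, Finset.union_assoc, Finset.sdiff_union_of_subset e1]
        rw [h10] at h9
        exact h9.trans (t3 W hW))
      rwa [hfe] at h8

/-- bases of the window -/
lemma window_basis {K : Type u} [Field K] {N G : ℕ} (hGN : G ≤ N) (x : ℤ → Fin N → K)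
    {C E : Finset ℤ} (hd : Disjoint C E) (hCc : C.card = N - G) (hrC : rkx K x C = C.card)
    (hrE : rkx K x (E ∪ C) = N) {τ : ℤ → ℤ} (hτ : Function.Injective τ)
    (himE : (lab G G).image τ = E) (himC : ((gap G N).map τ).toFinset = C) {Z : Finset ℤ}
    (hZ : Z ⊆ E) :
    ∃ s, AtLevel G G s ∧ vol K N (prodL K (((toL N s).map τ).map x)) ≠ 0 ∧
      ∀ B : Finset ℤ, B ⊆ lab G G → B.image τ = Z → rkx K x (Z ∪ C) ≤ cnt G B s + (N - G) := by
  classical
  obtain ⟨S, s1, s2, s3, s4, s5⟩ := exists_through x hrC hZ (by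
    rw [finrank_fin_fun]; exact hrE)
  rw [finrank_fin_fun] at s3
  set L := (lab G G).toList.filter fun a => decide (τ a ∈ S) with hL
  have hLnd : L.Nodup := (Finset.nodup_toList _).filter _
  have hLmem : ∀ a, a ∈ L ↔ a ∈ lab G G ∧ τ a ∈ S := by
    intro a
    rw [hL, List.mem_filter, Finset.mem_toList, decide_eq_true_iff]
  have hLf : (L.map τ).toFinset = S ∩ E := by
    ext a
    rw [List.mem_toFinset, List.mem_map, Finset.mem_inter, ← himE, Finset.mem_image]
    constructor
    · rintro ⟨b, hb, rfl⟩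
      rw [hLmem] at hb
      exact ⟨hb.2, b, hb.1, rfl⟩
    · rintro ⟨h1, b, h2, rfl⟩
      exact ⟨b, (hLmem b).2 ⟨h2, h1⟩, rfl⟩
  have hSE : S ∩ E ∪ C = S := by
    ext a
    have h1 := @s1 a
    have h2 := @s2 a
    simp only [Finset.mem_union, Finset.mem_inter] at h2 ⊢
    tauto
  have hSEc : (S ∩ E).card + C.card = N := by
    rw [← s3, ← Finset.card_union_of_disjoint, hSE]
    rw [Finset.disjoint_left]
    intro a ha ha'
    exact Finset.disjoint_left.1 hd ha' (Finset.mem_inter.1 ha).2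
  have hLlen : L.length = G := by
    have h1 : (L.map τ).toFinset.card = L.length := by
      rw [List.toFinset_card_of_nodup (hLnd.map hτ), List.length_map]
    rw [hLf] at h1
    omega
  obtain ⟨s, hs, hsL⟩ := exists_idx (n := G) (p := G) L hLnd hLlen (fun a ha =>
    ((hLmem a).1 ha).1)
  have htl : toL N s = L ++ gap G N := by rw [hs.toL_mono hGN, hsL]
  refine ⟨s, hs, ?_, ?_⟩
  · rw [vol_ne_iff, htl]
    constructor
    · rw [List.length_map, List.length_append, hLlen, gap_length]; omega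
    · rw [List.map_append, List.toFinset_append, hLf, himC, hSE, s4]
  · intro B hB hBZ
    have h1 : cnt G B s = (S ∩ Z).card := by
      rw [cnt_eq, hsL, ← Finset.card_image_of_injective _ hτ]
      congr 1
      ext a
      simp only [Finset.mem_image, Finset.mem_filter, List.mem_toFinset, Finset.mem_inter,
        ← hBZ]
      constructor
      · rintro ⟨b, ⟨hb, hb'⟩, rfl⟩
        exact ⟨((hLmem b).1 hb).2, b, hb', rfl⟩
      · rintro ⟨h1, b, h2, rfl⟩
        exact ⟨b, ⟨(hLmem b).2 ⟨hB h2, h1⟩, h2⟩, rfl⟩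
    have h2 : S ∩ (Z ∪ C) = S ∩ Z ∪ C := by
      ext a
      have h1 := @s1 a
      simp only [Finset.mem_union, Finset.mem_inter]
      tauto
    rw [h2] at s5
    have h3 := Finset.card_union_le (S ∩ Z) C
    rw [h1]
    omega

/-- **Bounded windows of large branch-width.** -/
theorem outside {w G : ℕ} (hG : G = 6 * gg w + 2) {P : PrimeSpectrum (MvPolynomial Idx k)}
    (hP : P ∈ Gr k) (hP' : P ∉ GrW k w) :
    ∃ Γ : MvPolynomial Idx k →ₐ[k] MvPolynomial Idx k, Gen k Γ ∧
      ∀ t : BT ℤ, t.Part → t.fs = lab G G → ∃ A ∈ t.nodes, ∃ s s' : Idx,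
        AtLevel G G s ∧ AtLevel G G s' ∧ Γ (X s) ∉ P.asIdeal ∧ Γ (X s') ∉ P.asIdeal ∧
        cnt G A s' + w < cnt G A s := by
  classical
  obtain ⟨N, x, C, E, hGN, hx, hC, hE, hd, hCc, hEc, hrC, hrE, hnV⟩ := exists_window hG hP hP'
  set r := rkx P.asIdeal.ResidueField x with hr
  have hrk : IsRk r := rkx_isRk x
  obtain ⟨τ, Γ, hΓ, hrep, hmap⟩ := Rep.all (k := k) (N := N) ((lab G G).toList ++ gap G N)
    (E.toList ++ C.toList)
    (by
      rw [List.nodup_append']
      refine ⟨Finset.nodup_toList _, gap_nodup _ _, ?_⟩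
      intro a ha ha'
      rw [Finset.mem_toList, mem_lab] at ha
      rw [mem_gap] at ha'
      omega)
    (by
      rw [List.nodup_append']
      refine ⟨Finset.nodup_toList _, Finset.nodup_toList _, ?_⟩
      intro a ha ha'
      rw [Finset.mem_toList] at ha ha'
      exact Finset.disjoint_left.1 hd ha' ha)
    (by
      simp only [List.length_append, Finset.length_toList, gap_length, lab_card, hEc, hCc]
      omega)
    (by
      intro a ha
      rw [List.mem_append, Finset.mem_toList, mem_lab, mem_gap] at ha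
      rw [mem_lab]
      omega)
    (by
      intro a ha
      rw [List.mem_append, Finset.mem_toList, Finset.mem_toList] at ha
      rcases ha with ha | ha
      · exact hE ha
      · exact hC ha) (fun _ => 1)
  rw [List.map_append] at hmap
  obtain ⟨hmap1, hmap2⟩ := List.append_inj hmap (by
    rw [List.length_map, Finset.length_toList, Finset.length_toList, lab_card, hEc]; omega)
  have hτ : Function.Injective τ := hrep.inj
  have himE : (lab G G).image τ = E := by
    ext a
    rw [← Finset.mem_toList (s := E), ← hmap1, Finset.mem_image, List.mem_map]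
    simp only [Finset.mem_toList]
  have himC : ((gap G N).map τ).toFinset = C := by
    rw [hmap2, Finset.toList_toFinset]
  refine ⟨Γ, hΓ, ?_⟩
  by_contra hcon
  push Not at hcon
  obtain ⟨t, t1, t2, t3⟩ := hcon
  apply hnV
  obtain ⟨t', u1, u2, u3⟩ := map_tree τ hτ t
  refine Or.inr ⟨t', u2 t1, by rw [u1, t2, himE], ?_⟩
  intro Y hY
  obtain ⟨A, hA, rfl⟩ := u3 Y hY
  have hAl : A ⊆ lab G G := t2 ▸ subset_of_mem_nodes hA
  have key : ∀ Z ⊆ E, ∃ s, AtLevel G G s ∧ Γ (X s) ∉ P.asIdeal ∧
      (∀ B : Finset ℤ, B ⊆ lab G G → B.image τ = Z → r (Z ∪ C) ≤ cnt G B s + (N - G)) := by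
    intro Z hZ
    obtain ⟨s, hs, h1, h2⟩ := window_basis hGN x hd hCc hrC hrE hτ himE himC hZ
    refine ⟨s, hs, ?_, h2⟩
    have hsN : AtLevel N N s := hs.mono hGN
    obtain ⟨s', hs', he⟩ := Rep.exists_mid hrep.maps hτ hsN
    rw [← he, ← hx s' hs'] at h1
    rw [hrep.act s s' hsN hs' he]
    have h2 : ((toL N s).map fun _ => (1 : ℤˣ)).prod = 1 := by simp
    rw [h2, one_smul]
    exact coord_ne_zero.1 h1
  have himA : A.image τ ⊆ E := by rw [← himE]; exact Finset.image_subset_image hAl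
  obtain ⟨s, a1, a2, a3⟩ := key _ himA
  obtain ⟨s', b1, b2, b3⟩ := key (E \ A.image τ) Finset.sdiff_subset
  have h1 := t3 A hA s s' a1 b1 a2 b2
  have h2 := a3 A hAl rfl
  have h3 := b3 (lab G G \ A) Finset.sdiff_subset (by
    rw [Finset.image_sdiff _ _ hτ, himE])
  have h4 := cn_add (ct_isRk hrk C) himA
  simp only [ct_apply, Finset.empty_union] at h4
  have h5 := cnt_add b1 (Y := A)
  have h6 : r (E ∪ C) = N := hrE
  have h7 : r C = C.card := hrC
  omega

end Pool.Agent.H229
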