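import Mathlib

/-!
Tutte's linking theorem for rank functions on finite sets.
-/

namespace Pool.Agent.H229

variable {α : Type*} [DecidableEq α]

/-- monotone submodular functions with unit increase -/
structure IsRk (f : Finset α → ℕ) : Prop where
  mono : ∀ A B, A ⊆ B → f A ≤ f B
  unit : ∀ e A, f (insert e A) ≤ f A + 1
  submod : ∀ A B, f (A ∪ B) + f (A ∩ B) ≤ f A + f B

lemma IsRk.contract {f : Finset α → ℕ} (hf : IsRk f) (e : α) :
    IsRk (fun A => f (insert e A)) where
  mono A B h := hf.mono _ _ (Finset.insert_subset_insert _ h)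
  unit e' A := by
    rw [Finset.insert_comm]
    exact hf.unit _ _
  submod A B := by
    have h := hf.submod (insert e A) (insert e B)
    have e1 : insert e A ∪ insert e B = insert e (A ∪ B) := by
      ext x; simp only [Finset.mem_union, Finset.mem_insert]; tauto
    have e2 : insert e A ∩ insert e B = insert e (A ∩ B) := by
      ext x; simp only [Finset.mem_inter, Finset.mem_insert]; tauto
    rwa [e1, e2] at h

theorem linking (D : Finset α) : ∀ (f : Finset α → ℕ), IsRk f → ∀ (A T : Finset α) (k : ℕ),
    (∀ X ⊆ D, k + f (A ∪ D ∪ T) + f ∅ ≤ f (A ∪ X) + f (T ∪ (D \ X))) →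
    ∃ C ⊆ D, f C = f ∅ + C.card ∧ f (A ∪ T ∪ C) = f (A ∪ D ∪ T) ∧
      k + C.card + f (A ∪ D ∪ T) + f ∅ ≤ f (A ∪ C) + f (T ∪ C) := by
  induction D using Finset.induction_on with
  | empty =>
    intro f hf A T k h
    refine ⟨∅, by simp, by simp, by simp, ?_⟩
    have := h ∅ (by simp)
    simpa using this
  | insert e D he ih =>
    intro f hf A T k h
    have hset : A ∪ insert e D ∪ T = insert e (A ∪ D ∪ T) := by
      ext x; simp only [Finset.mem_union, Finset.mem_insert]; tauto
    -- contraction
    have hcon : f {e} = f ∅ + 1 → (∀ X ⊆ D, k + f (insert e (A ∪ D ∪ T)) + (f ∅ + 1) ≤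
        f (insert e (A ∪ X)) + f (insert e (T ∪ (D \ X)))) →
        ∃ C ⊆ insert e D, f C = f ∅ + C.card ∧ f (A ∪ T ∪ C) = f (A ∪ insert e D ∪ T) ∧
      k + C.card + f (A ∪ insert e D ∪ T) + f ∅ ≤ f (A ∪ C) + f (T ∪ C) := by
      intro h1 h2
      obtain ⟨C, hC, h3, h4, h5⟩ := ih (fun A => f (insert e A)) (hf.contract e) A T k (by
        intro X hX
        have := h2 X hX
        simp only [insert_empty_eq, h1]
        exact this)
      simp only [insert_empty_eq, h1] at h3 h4 h5
      have heC : e ∉ C := fun h => he (hC h)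
      have e1 : ∀ Y : Finset α, Y ∪ insert e C = insert e (Y ∪ C) := by
        intro Y; ext x; simp only [Finset.mem_union, Finset.mem_insert]; tauto
      refine ⟨insert e C, Finset.insert_subset_insert _ hC, ?_, ?_, ?_⟩
      · rw [h3, Finset.card_insert_of_notMem heC]; omega
      · rw [e1, h4, hset]
      · rw [e1, e1, hset, Finset.card_insert_of_notMem heC]; omega
    -- deletion
    have hdel : f (insert e (A ∪ D ∪ T)) = f (A ∪ D ∪ T) → (∀ X ⊆ D,
        k + f (A ∪ D ∪ T) + f ∅ ≤ f (A ∪ X) + f (T ∪ (D \ X))) →
        ∃ C ⊆ insert e D, f C = f ∅ + C.card ∧ f (A ∪ T ∪ C) = f (A ∪ insert e D ∪ T) ∧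
      k + C.card + f (A ∪ insert e D ∪ T) + f ∅ ≤ f (A ∪ C) + f (T ∪ C) := by
      intro h1 h2
      obtain ⟨C, hC, h3, h4, h5⟩ := ih f hf A T k h2
      refine ⟨C, hC.trans (Finset.subset_insert _ _), h3, ?_, ?_⟩
      · rw [h4, hset, h1]
      · rw [hset, h1]; exact h5
    -- the hypothesis, for sets with or without `e`
    have hX0 : ∀ X ⊆ D, k + f (insert e (A ∪ D ∪ T)) + f ∅ ≤
        f (A ∪ X) + f (insert e (T ∪ (D \ X))) := by
      intro X hX
      have h1 := h X (hX.trans (Finset.subset_insert _ _))
      have heX : e ∉ X := fun h => he (hX h)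
      have e2 : T ∪ (insert e D \ X) = insert e (T ∪ (D \ X)) := by
        ext x; simp only [Finset.mem_union, Finset.mem_insert, Finset.mem_sdiff]
        constructor
        · tauto
        · rintro (rfl | h | h)
          · exact Or.inr ⟨Or.inl rfl, heX⟩
          · exact Or.inl h
          · exact Or.inr ⟨Or.inr h.1, h.2⟩
      rwa [hset, e2] at h1
    have hX1 : ∀ X ⊆ D, k + f (insert e (A ∪ D ∪ T)) + f ∅ ≤
        f (insert e (A ∪ X)) + f (T ∪ (D \ X)) := by
      intro X hX
      have h1 := h (insert e X) (Finset.insert_subset_insert _ hX)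
      have e2 : T ∪ (insert e D \ insert e X) = T ∪ (D \ X) := by
        ext x; simp only [Finset.mem_union, Finset.mem_insert, Finset.mem_sdiff]
        constructor
        · tauto
        · rintro (hh | hh)
          · exact Or.inl hh
          · refine Or.inr ⟨Or.inr hh.1, ?_⟩
            intro h'
            rcases h' with h' | h'
            · rw [h'] at hh; exact he hh.1
            · exact hh.2 h'
      have e3 : A ∪ insert e X = insert e (A ∪ X) := by
        ext x; simp only [Finset.mem_union, Finset.mem_insert]; tauto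
      rwa [hset, e2, e3] at h1
    by_cases hco : f (insert e (A ∪ D ∪ T)) = f (A ∪ D ∪ T)
    swap
    · -- coloop
      have hlt : f (A ∪ D ∪ T) < f (insert e (A ∪ D ∪ T)) :=
        lt_of_le_of_ne (hf.mono _ _ (Finset.subset_insert _ _)) (Ne.symm hco)
      have hall : ∀ Y ⊆ A ∪ D ∪ T, f (insert e Y) = f Y + 1 := by
        intro Y hY
        have h1 := hf.submod (A ∪ D ∪ T) (insert e Y)
        have e1 : A ∪ D ∪ T ∪ insert e Y = insert e (A ∪ D ∪ T) := by
          ext x; simp only [Finset.mem_union, Finset.mem_insert]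
          constructor
          · rintro (h | rfl | h)
            · exact Or.inr h
            · exact Or.inl rfl
            · have := hY h
              simp only [Finset.mem_union] at this
              exact Or.inr this
          · tauto
        have h2 : f Y ≤ f ((A ∪ D ∪ T) ∩ insert e Y) := by
          apply hf.mono
          intro x hx
          simp only [Finset.mem_inter, Finset.mem_insert]
          exact ⟨hY hx, Or.inr hx⟩
        have h3 := hf.unit e Y
        rw [e1] at h1
        omega
      apply hcon
      · have := hall ∅ (by simp)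
        simpa using this
      · intro X hX
        have h1 := hX1 X hX
        have h2 := hall (T ∪ (D \ X)) (by
          intro x hx
          simp only [Finset.mem_union, Finset.mem_sdiff] at hx ⊢
          tauto)
        omega
    by_cases hlo : f {e} = f ∅ + 1
    swap
    · -- loop
      have hall : ∀ Y, f (insert e Y) = f Y := by
        intro Y
        have h1 := hf.submod Y {e}
        have e1 : Y ∪ {e} = insert e Y := by
          ext x; simp only [Finset.mem_union, Finset.mem_insert, Finset.mem_singleton]; tauto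
        have h2 : f ∅ ≤ f (Y ∩ {e}) := hf.mono _ _ (by simp)
        have h3 := hf.unit e ∅
        have h4 := hf.mono _ _ (Finset.subset_insert e Y)
        rw [insert_empty_eq] at h3
        rw [e1] at h1
        omega
      apply hdel hco
      intro X hX
      have h1 := hX0 X hX
      rw [hall, hall] at h1
      exact h1
    by_cases hd : ∀ X ⊆ D, k + f (A ∪ D ∪ T) + f ∅ ≤ f (A ∪ X) + f (T ∪ (D \ X))
    · exact hdel hco hd
    apply hcon hlo
    intro Y hY
    by_contra hcontra
    push Not at hd
    obtain ⟨X, hX, hX2⟩ := hd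
    have heX : e ∉ X := fun h => he (hX h)
    have s1 := hf.submod (A ∪ X) (insert e (A ∪ Y))
    have s2 := hf.submod (T ∪ (D \ X)) (insert e (T ∪ (D \ Y)))
    have e1 : A ∪ X ∪ insert e (A ∪ Y) = insert e (A ∪ (X ∪ Y)) := by
      ext x; simp only [Finset.mem_union, Finset.mem_insert]; tauto
    have e2 : (T ∪ (D \ X)) ∪ insert e (T ∪ (D \ Y)) = insert e (T ∪ (D \ (X ∩ Y))) := by
      ext x; simp only [Finset.mem_union, Finset.mem_insert, Finset.mem_sdiff, Finset.mem_inter]
      tauto
    have m1 : f (A ∪ (X ∩ Y)) ≤ f ((A ∪ X) ∩ insert e (A ∪ Y)) := by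
      apply hf.mono
      intro x hx
      simp only [Finset.mem_union, Finset.mem_insert, Finset.mem_inter] at hx ⊢
      tauto
    have m2 : f (T ∪ (D \ (X ∪ Y))) ≤ f ((T ∪ (D \ X)) ∩ insert e (T ∪ (D \ Y))) := by
      apply hf.mono
      intro x hx
      simp only [Finset.mem_union, Finset.mem_insert, Finset.mem_sdiff, Finset.mem_inter] at hx ⊢
      tauto
    have t1 := hX0 (X ∩ Y) (fun x hx => hX (Finset.mem_inter.1 hx).1)
    have t2 := hX1 (X ∪ Y) (Finset.union_subset hX hY)
    rw [e1] at s1
    rw [e2] at s2
    omega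

end Pool.Agent.H229
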