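import Mathlib

/-!
The affine infinite Grassmannian, its points of bounded branch-width, and the action of the
elements `n_{a,b}` of the normalizer of the torus.

The inverse limit of the spaces of alternating `p`-forms on `V_{n,p}` has the coordinates
`ω ↦ ω_{n,p}(x_{s 0}, …, x_{s (p-1)})`, one for every injective sequence `s` of nonzero integers
with `s j = j + 1` for all large `j` (namely for `p ≤ j`; by compatibility with interior
multiplication by `x_{p+1}` the value does not depend on the choice of `(n, p)`). We use the
spectrum of the polynomial ring in all these coordinates; the affine infinite Grassmannian is the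
closed subset `Gr` of those primes for which the form over the residue field given by the
coordinates is decomposable at all levels `(n, p)`.
-/

namespace Pool.Agent.H229

open MvPolynomial

universe u

/-- Semi-infinite index sequences: injective sequences of nonzero integers that end with
`p + 1, p + 2, …`. They index the coordinates of the inverse limit. -/
structure Idx : Type where
  /-- the sequence -/
  seq : ℕ → ℤ
  inj : Function.Injective seq
  ne_zero : ∀ j, seq j ≠ 0
  tail : ∃ p : ℕ, ∀ j, p ≤ j → seq j = j + 1

/-- The labels `-n, …, -1, 1, …, p` of the basis of `V_{n,p}`. -/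
noncomputable def lab (n p : ℕ) : Finset ℤ := (Finset.Icc (-(n : ℤ)) p).erase 0

/-- The index sequences of the coordinates of level `(n, p)`: those of the form
`s 0, …, s (p-1), p + 1, p + 2, …` with `s 0, …, s (p-1)` in `{-n, …, -1, 1, …, p}`. -/
def AtLevel (n p : ℕ) (s : Idx) : Prop :=
  (∀ j, p ≤ j → s.seq j = j + 1) ∧ ∀ j, j < p → s.seq j ∈ lab n p

/-- Exchanging the labels `a` and `b` in an index sequence. -/
def Idx.swap (a b : ℤ) (ha : a ≠ 0) (hb : b ≠ 0) (s : Idx) : Idx where
  seq j := Equiv.swap a b (s.seq j)
  inj := (Equiv.swap a b).injective.comp s.inj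
  ne_zero j := by
    rw [Equiv.swap_apply_def]
    split_ifs
    · exact hb
    · exact ha
    · exact s.ne_zero j
  tail := by
    obtain ⟨p, hp⟩ := s.tail
    refine ⟨p + a.natAbs + b.natAbs, fun j hj => ?_⟩
    rw [hp j (by omega), Equiv.swap_apply_of_ne_of_ne]
    · omega
    · omega

open Classical in
/-- The action on coordinates of the element `n_{a,b}` of determinant one of the normalizer of
the torus, `x_a ↦ x_b`, `x_b ↦ -x_a`, `x_c ↦ x_c` for all other `c`. -/
noncomputable def act (k : Type u) [Field k] (a b : ℤ) (ha : a ≠ 0) (hb : b ≠ 0) :
    MvPolynomial Idx k →ₐ[k] MvPolynomial Idx k :=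
  aeval fun s => (if ∃ j, s.seq j = b then -1 else 1) * X (s.swap a b ha hb)

/-- The value of a coordinate at a point, in the residue field. -/
noncomputable def coord {k : Type u} [Field k] (P : PrimeSpectrum (MvPolynomial Idx k))
    (s : Idx) : P.asIdeal.ResidueField :=
  algebraMap (MvPolynomial Idx k) P.asIdeal.ResidueField (X s)

/-- The affine infinite Grassmannian: all points whose form of level `(n, p)` over the residue
field is a wedge product `φ 0 ∧ … ∧ φ (p-1)`, for all `n, p ≥ 1`. -/
def Gr (k : Type u) [Field k] : Set (PrimeSpectrum (MvPolynomial Idx k)) :=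
  {P | ∀ n p : ℕ, 1 ≤ n → 1 ≤ p → ∃ φ : Fin p → ℤ → P.asIdeal.ResidueField,
    ∀ s : Idx, AtLevel n p s → coord P s = Matrix.det fun a b : Fin p => φ a (s.seq b)}

/-- Rooted binary trees with labelled leaves. -/
inductive BT (α : Type*) : Type _
  | leaf (a : α) : BT α
  | node (l r : BT α) : BT α

namespace BT

variable {α : Type*} [DecidableEq α]

/-- the set of labels of the leaves -/
def fs : BT α → Finset α
  | leaf a => {a}
  | node l r => l.fs ∪ r.fs

/-- the sets of labels of the leaves of all subtrees -/
def nodes : BT α → Finset (Finset α)
  | leaf a => {{a}}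
  | node l r => insert (l.fs ∪ r.fs) (l.nodes ∪ r.nodes)

/-- distinct leaves have distinct labels -/
def Part : BT α → Prop
  | leaf _ => True
  | node l r => Disjoint l.fs r.fs ∧ l.Part ∧ r.Part

end BT

/-- the number of labels from `A` among the first `p` entries of an index sequence -/
def cnt (p : ℕ) (A : Finset ℤ) (s : Idx) : ℕ := ((Finset.range p).filter fun j => s.seq j ∈ A).card

/-- The points of the affine infinite Grassmannian of branch-width at most `w`: for every level
`(n, p)` there is a rooted binary tree with leaves labelled bijectively by `-n, …, -1, 1, …, p`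
such that for the label set `A` of every subtree, any two nonvanishing coordinates (bases of the
matroid of the point) of level `(n, p)` have numbers of labels in `A` that differ by at most `w`;
the largest such difference is the connectivity `r(A) + r(Aᶜ) - r` of `A` in that matroid. -/
def GrW (k : Type u) [Field k] (w : ℕ) : Set (PrimeSpectrum (MvPolynomial Idx k)) :=
  {P | P ∈ Gr k ∧ ∀ n p : ℕ, 1 ≤ n → 1 ≤ p → ∃ t : BT ℤ, t.Part ∧ t.fs = lab n p ∧
    ∀ A ∈ t.nodes, ∀ s s' : Idx, AtLevel n p s → AtLevel n p s' →
      X s ∉ P.asIdeal → X s' ∉ P.asIdeal → cnt p A s ≤ cnt p A s' + w}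

end Pool.Agent.H229
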