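import Pool.Agent.H229.Model

/-!
Products of the elements `n_{a,b}`: all signed permutations of finitely many labels are
available, up to signs of labels that do not matter.
-/

namespace Pool.Agent.H229

open MvPolynomial

universe u

/-- the first entries of an index sequence -/
def toL (N : ℕ) (s : Idx) : List ℤ := List.ofFn fun j : Fin N => s.seq j

@[simp] lemma toL_length (N : ℕ) (s : Idx) : (toL N s).length = N := by simp [toL]

lemma mem_toL {N : ℕ} {s : Idx} {a : ℤ} : a ∈ toL N s ↔ ∃ j, j < N ∧ s.seq j = a := by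
  rw [toL, List.mem_ofFn]
  constructor
  · rintro ⟨j, rfl⟩; exact ⟨j, j.2, rfl⟩
  · rintro ⟨j, hj, rfl⟩; exact ⟨⟨j, hj⟩, rfl⟩

lemma toL_nodup (N : ℕ) (s : Idx) : (toL N s).Nodup := by
  rw [toL, List.nodup_ofFn]
  intro i j h
  exact Fin.ext (s.inj h)

lemma toL_get (N : ℕ) (s : Idx) (j : ℕ) (hj : j < N) :
    (toL N s)[j]'(by simpa using hj) = s.seq j := by simp [toL]

lemma mem_lab {n p : ℕ} {a : ℤ} : a ∈ lab n p ↔ a ≠ 0 ∧ -(n : ℤ) ≤ a ∧ a ≤ p := by
  rw [lab, Finset.mem_erase, Finset.mem_Icc]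

lemma AtLevel.mem {n p : ℕ} {s : Idx} (h : AtLevel n p s) {a : ℤ} (ha : a ∈ toL p s) :
    a ∈ lab n p := by
  obtain ⟨j, hj, rfl⟩ := mem_toL.1 ha
  exact h.2 j hj

lemma Idx.ext' {s s' : Idx} (h : ∀ j, s.seq j = s'.seq j) : s = s' := by
  cases s; cases s'
  congr
  funext j
  exact h j

lemma AtLevel.ext {n p : ℕ} {s s' : Idx} (h : AtLevel n p s) (h' : AtLevel n p s')
    (he : toL p s = toL p s') : s = s' := by
  apply Idx.ext'
  intro j
  by_cases hj : j < p
  · rw [← toL_get p s j hj, ← toL_get p s' j hj]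
    congr 1
  · rw [h.1 j (by omega), h'.1 j (by omega)]

lemma exists_idx {n p : ℕ} (L : List ℤ) (hL : L.Nodup) (hlen : L.length = p)
    (hmem : ∀ a ∈ L, a ∈ lab n p) : ∃ s, AtLevel n p s ∧ toL p s = L := by
  have hget : ∀ j (hj : j < L.length), L.getD j (j + 1) = L[j] := fun j hj =>
    List.getD_eq_getElem _ _ hj
  have hget' : ∀ j, L.length ≤ j → L.getD j (j + 1) = j + 1 := fun j hj =>
    List.getD_eq_default _ _ hj
  refine ⟨⟨fun j => L.getD j (j + 1), ?_, ?_, ⟨p, fun j hj => hget' j (by omega)⟩⟩,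
    ⟨fun j hj => hget' j (by omega), fun j hj => ?_⟩, ?_⟩
  · intro i j hij
    simp only at hij
    by_cases hi : i < L.length
    · by_cases hj : j < L.length
      · rw [hget i hi, hget j hj] at hij
        exact (hL.getElem_inj_iff).1 hij
      · rw [hget i hi, hget' j (by omega)] at hij
        have := mem_lab.1 (hmem _ (List.getElem_mem hi))
        omega
    · by_cases hj : j < L.length
      · rw [hget' i (by omega), hget j hj] at hij
        have := mem_lab.1 (hmem _ (List.getElem_mem hj))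
        omega
      · rw [hget' i (by omega), hget' j (by omega)] at hij
        omega
  · intro j
    by_cases hj : j < L.length
    · rw [hget j hj]
      exact (mem_lab.1 (hmem _ (List.getElem_mem hj))).1
    · rw [hget' j (by omega)]
      omega
  · simp only
    rw [hget j (by omega)]
    exact hmem _ (List.getElem_mem _)
  · apply List.ext_getElem
    · simp [hlen]
    · intro j h1 h2
      rw [toL_length] at h1
      rw [toL_get _ _ j h1]
      exact hget j h2

/-- the list `n+1, …, m` -/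
def gap (n m : ℕ) : List ℤ := (List.range (m - n)).map fun j => ((n + j : ℕ) : ℤ) + 1

lemma gap_length (n m : ℕ) : (gap n m).length = m - n := by simp [gap]

lemma gap_nodup (n m : ℕ) : (gap n m).Nodup := by
  rw [gap]
  refine List.Nodup.map ?_ List.nodup_range
  intro i j h
  simp only at h
  omega

lemma mem_gap {n m : ℕ} {a : ℤ} : a ∈ gap n m ↔ (n : ℤ) < a ∧ a ≤ m := by
  rw [gap, List.mem_map]
  constructor
  · rintro ⟨j, hj, rfl⟩
    rw [List.mem_range] at hj
    omega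
  · rintro ⟨h1, h2⟩
    refine ⟨(a - n - 1).toNat, ?_, ?_⟩
    · rw [List.mem_range]; omega
    · omega

lemma lab_mono {n m : ℕ} (h : n ≤ m) : lab n n ⊆ lab m m := by
  intro a ha
  rw [mem_lab] at ha ⊢
  omega

lemma AtLevel.mono {n m : ℕ} (h : n ≤ m) {s : Idx} (hs : AtLevel n n s) : AtLevel m m s := by
  refine ⟨fun j hj => hs.1 j (by omega), fun j hj => ?_⟩
  by_cases hj' : j < n
  · exact lab_mono h (hs.2 j hj')
  · rw [hs.1 j (by omega), mem_lab]
    omega

lemma AtLevel.toL_mono {n m : ℕ} (h : n ≤ m) {s : Idx} (hs : AtLevel n n s) :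
    toL m s = toL n s ++ gap n m := by
  apply List.ext_getElem
  · simp [gap_length]; omega
  · intro j h1 h2
    rw [toL_length] at h1
    rw [toL_get _ _ j h1, List.getElem_append]
    split_ifs with h3
    · rw [toL_length] at h3
      rw [toL_get _ _ j h3]
    · rw [toL_length] at h3
      simp only [gap, List.getElem_map, List.getElem_range, toL_length]
      rw [hs.1 j (by omega)]
      omega

lemma exists_level (s : Idx) : ∃ N, AtLevel N N s := by
  obtain ⟨p, hp⟩ := s.tail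
  set N := p + ∑ j ∈ Finset.range p, (s.seq j).natAbs with hN
  refine ⟨N, fun j hj => hp j (by omega), fun j hj => ?_⟩
  rw [mem_lab]
  refine ⟨s.ne_zero j, ?_⟩
  by_cases hj' : j < p
  · have : (s.seq j).natAbs ≤ ∑ j ∈ Finset.range p, (s.seq j).natAbs :=
      Finset.single_le_sum (f := fun j => (s.seq j).natAbs) (fun _ _ => Nat.zero_le _)
        (Finset.mem_range.2 hj')
    omega
  · rw [hp j (by omega)]
    omega

/-- products of the elements `n_{a,b}` -/
inductive Gen (k : Type u) [Field k] : (MvPolynomial Idx k →ₐ[k] MvPolynomial Idx k) → Prop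
  | id : Gen k (AlgHom.id k _)
  | comp (Γ : MvPolynomial Idx k →ₐ[k] MvPolynomial Idx k) (hΓ : Gen k Γ) (a b : ℤ) (ha : a ≠ 0)
      (hb : b ≠ 0) (hab : a ≠ b) : Gen k (Γ.comp (act k a b ha hb))

variable {k : Type u} [Field k]

lemma Gen.mul {Γ₁ Γ₂ : MvPolynomial Idx k →ₐ[k] MvPolynomial Idx k} (h₁ : Gen k Γ₁)
    (h₂ : Gen k Γ₂) : Gen k (Γ₁.comp Γ₂) := by
  induction h₂ with
  | id => rwa [AlgHom.comp_id]
  | comp Γ _ a b ha hb hab ih =>
    rw [← AlgHom.comp_assoc]
    exact .comp _ ih a b ha hb hab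

lemma Gen.act {a b : ℤ} (ha : a ≠ 0) (hb : b ≠ 0) (hab : a ≠ b) : Gen k (act k a b ha hb) := by
  have := Gen.comp (AlgHom.id k (MvPolynomial Idx k)) .id a b ha hb hab
  rwa [AlgHom.id_comp] at this

lemma Gen.mem {C : Set (PrimeSpectrum (MvPolynomial Idx k))}
    (hst : ∀ a b : ℤ, ∀ (ha : a ≠ 0) (hb : b ≠ 0), a ≠ b → ∀ P ∈ C,
      PrimeSpectrum.comap (Pool.Agent.H229.act k a b ha hb).toRingHom P ∈ C)
    {Γ : MvPolynomial Idx k →ₐ[k] MvPolynomial Idx k} (h : Gen k Γ) :
    ∀ P ∈ C, PrimeSpectrum.comap Γ.toRingHom P ∈ C := by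
  induction h with
  | id =>
    intro P hP
    exact hP
  | comp Γ _ a b ha hb hab ih =>
    intro P hP
    exact hst a b ha hb hab _ (ih P hP)

/-- representation of an endomorphism by a signed injection of the labels of level `N` -/
structure Rep (N : ℕ) (τ : ℤ → ℤ) (δ : ℤ → ℤˣ)
    (Γ : MvPolynomial Idx k →ₐ[k] MvPolynomial Idx k) : Prop where
  maps : ∀ a ∈ lab N N, τ a ∈ lab N N
  inj : Function.Injective τ
  act : ∀ s s' : Idx, AtLevel N N s → AtLevel N N s' → toL N s' = (toL N s).map τ →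
    Γ (X s) = ((toL N s).map δ).prod • X s'

lemma Rep.exists_mid {N : ℕ} {τ : ℤ → ℤ} (hm : ∀ a ∈ lab N N, τ a ∈ lab N N)
    (hi : Function.Injective τ) {s : Idx} (hs : AtLevel N N s) :
    ∃ s', AtLevel N N s' ∧ toL N s' = (toL N s).map τ := by
  refine exists_idx _ ((toL_nodup N s).map hi) (by simp) ?_
  intro a ha
  obtain ⟨b, hb, rfl⟩ := List.mem_map.1 ha
  exact hm _ (hs.mem hb)

lemma Rep.mul {N : ℕ} {τ₁ τ₂ : ℤ → ℤ} {δ₁ δ₂ : ℤ → ℤˣ}
    {Γ₁ Γ₂ : MvPolynomial Idx k →ₐ[k] MvPolynomial Idx k} (h₁ : Rep N τ₁ δ₁ Γ₁)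
    (h₂ : Rep N τ₂ δ₂ Γ₂) :
    Rep N (τ₁ ∘ τ₂) (fun a => δ₂ a * δ₁ (τ₂ a)) (Γ₁.comp Γ₂) := by
  refine ⟨fun a ha => h₁.maps _ (h₂.maps _ ha), h₁.inj.comp h₂.inj, ?_⟩
  intro s s'' hs hs'' he
  obtain ⟨s', hs', he'⟩ := Rep.exists_mid h₂.maps h₂.inj hs
  rw [AlgHom.comp_apply, h₂.act s s' hs hs' he', Units.smul_def, map_zsmul,
    h₁.act s' s'' hs' hs'' (by rw [he, he', List.map_map]), Units.smul_def, Units.smul_def,
    smul_smul, ← Units.val_mul]
  congr 2
  rw [he', List.map_map, ← List.prod_map_mul]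
  rfl

lemma Rep.congr {N : ℕ} {τ : ℤ → ℤ} {δ δ' : ℤ → ℤˣ}
    {Γ : MvPolynomial Idx k →ₐ[k] MvPolynomial Idx k} (h : Rep N τ δ Γ)
    (hδ : ∀ a ∈ lab N N, δ a = δ' a) : Rep N τ δ' Γ := by
  refine ⟨h.maps, h.inj, fun s s' hs hs' he => ?_⟩
  rw [h.act s s' hs hs' he]
  congr 2
  exact List.map_congr_left fun a ha => hδ a (hs.mem ha)

lemma prod_ite_mem (L : List ℤ) (hL : L.Nodup) (b : ℤ) :
    (L.map fun c => if c = b then (-1 : ℤˣ) else 1).prod = if b ∈ L then -1 else 1 := by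
  induction L with
  | nil => simp
  | cons a L ih =>
    rw [List.nodup_cons] at hL
    rw [List.map_cons, List.prod_cons, ih hL.2]
    by_cases h : a = b
    · subst h
      simp [hL.1]
    · have : ¬ b = a := fun h' => h h'.symm
      simp [h, this]

lemma AtLevel.exists_iff {N : ℕ} {s : Idx} (hs : AtLevel N N s) {b : ℤ} (hb : b ∈ lab N N) :
    (∃ j, s.seq j = b) ↔ b ∈ toL N s := by
  rw [mem_toL]
  constructor
  · rintro ⟨j, hj⟩
    refine ⟨j, ?_, hj⟩
    by_contra h
    rw [hs.1 j (by omega)] at hj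
    rw [mem_lab] at hb
    omega
  · rintro ⟨j, _, hj⟩
    exact ⟨j, hj⟩

lemma Rep.swap {N : ℕ} {a b : ℤ} (ha : a ∈ lab N N) (hb : b ∈ lab N N) (ha' : a ≠ 0)
    (hb' : b ≠ 0) :
    Rep N (Equiv.swap a b) (fun c => if c = b then -1 else 1)
      (Pool.Agent.H229.act k a b ha' hb') := by
  refine ⟨?_, (Equiv.swap a b).injective, ?_⟩
  · intro c hc
    rw [Equiv.swap_apply_def]
    split_ifs
    · exact hb
    · exact ha
    · exact hc
  · intro s s' hs hs' he
    have e : s.swap a b ha' hb' = s' := by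
      apply Idx.ext'
      intro j
      change Equiv.swap a b (s.seq j) = s'.seq j
      by_cases hj : j < N
      · rw [← toL_get N s' j hj, ← toL_get N s j hj]
        simp only [he, List.getElem_map]
      · rw [hs.1 j (by omega), hs'.1 j (by omega), Equiv.swap_apply_of_ne_of_ne]
        · rw [mem_lab] at ha; omega
        · rw [mem_lab] at hb; omega
    rw [Pool.Agent.H229.act, aeval_X, e, prod_ite_mem _ (toL_nodup N s)]
    by_cases h : ∃ j, s.seq j = b
    · rw [if_pos h, if_pos ((hs.exists_iff hb).1 h)]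
      simp
    · rw [if_neg h, if_neg (fun h' => h ((hs.exists_iff hb).2 h'))]
      simp

lemma Rep.flip {N : ℕ} {a : ℤ} (ha : a ∈ lab N N) :
    ∃ Γ : MvPolynomial Idx k →ₐ[k] MvPolynomial Idx k, Gen k Γ ∧
      Rep N id (fun c => if c = a then -1 else 1) Γ := by
  have ha' := mem_lab.1 ha
  set c₀ : ℤ := -(N : ℤ) - 1 with hc₀
  have hc : c₀ ≠ 0 := by omega
  have hac : a ≠ c₀ := by omega
  refine ⟨(Pool.Agent.H229.act k a c₀ ha'.1 hc).comp (Pool.Agent.H229.act k a c₀ ha'.1 hc),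
    (Gen.act _ _ hac).mul (Gen.act _ _ hac), fun c hc => hc, Function.injective_id, ?_⟩
  intro s s' hs hs' he
  rw [List.map_id] at he
  have e : s' = s := hs'.ext hs he
  subst e
  have h1 : ¬ ∃ j, s'.seq j = c₀ := by
    rintro ⟨j, hj⟩
    by_cases h : j < N
    · have := mem_lab.1 (hs.2 j h)
      omega
    · rw [hs.1 j (by omega)] at hj
      omega
  rw [AlgHom.comp_apply]
  simp only [Pool.Agent.H229.act, aeval_X]
  rw [if_neg h1, one_mul, aeval_X, prod_ite_mem _ (toL_nodup N s')]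
  have h2 : (∃ j, (s'.swap a c₀ ha'.1 hc).seq j = c₀) ↔ a ∈ toL N s' := by
    rw [← hs.exists_iff ha]
    constructor
    · rintro ⟨j, hj⟩
      refine ⟨j, ?_⟩
      change Equiv.swap a c₀ (s'.seq j) = c₀ at hj
      have := congrArg (Equiv.swap a c₀) hj
      rwa [Equiv.swap_apply_self, Equiv.swap_apply_right] at this
    · rintro ⟨j, hj⟩
      refine ⟨j, ?_⟩
      change Equiv.swap a c₀ (s'.seq j) = c₀
      rw [hj, Equiv.swap_apply_left]
  have h3 : (s'.swap a c₀ ha'.1 hc).swap a c₀ ha'.1 hc = s' := by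
    apply Idx.ext'
    intro j
    exact Equiv.swap_apply_self _ _ _
  rw [h3]
  by_cases h : a ∈ toL N s'
  · rw [if_pos (h2.2 h), if_pos h]; simp
  · rw [if_neg (fun h' => h (h2.1 h')), if_neg h]; simp

lemma Rep.flips {N : ℕ} (F : Finset ℤ) (hF : F ⊆ lab N N) :
    ∃ Γ : MvPolynomial Idx k →ₐ[k] MvPolynomial Idx k, Gen k Γ ∧
      Rep N id (fun c => if c ∈ F then -1 else 1) Γ := by
  induction F using Finset.induction_on with
  | empty =>
    refine ⟨AlgHom.id k _, .id, fun a ha => ha, Function.injective_id, ?_⟩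
    intro s s' hs hs' he
    rw [List.map_id] at he
    have e : s' = s := hs'.ext hs he
    subst e
    simp
  | insert a F haF ih =>
    obtain ⟨Γ₁, g1, r1⟩ := ih ((Finset.subset_insert _ _).trans hF)
    obtain ⟨Γ₂, g2, r2⟩ := Rep.flip (k := k) (hF (Finset.mem_insert_self a F))
    refine ⟨_, g1.mul g2, (r1.mul r2).congr ?_⟩
    intro c _
    simp only [id, Finset.mem_insert]
    by_cases h : c = a
    · subst h
      simp [haF]
    · simp [h]

lemma Rep.signs {N : ℕ} (δ : ℤ → ℤˣ) :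
    ∃ Γ : MvPolynomial Idx k →ₐ[k] MvPolynomial Idx k, Gen k Γ ∧ Rep N id δ Γ := by
  obtain ⟨Γ, g, r⟩ := Rep.flips (k := k) (N := N) ((lab N N).filter fun c => δ c = -1)
    (Finset.filter_subset _ _)
  refine ⟨Γ, g, r.congr ?_⟩
  intro a ha
  simp only [Finset.mem_filter]
  rcases Int.units_eq_one_or (δ a) with h | h
  · simp [h]
  · simp [h, ha]

lemma Rep.perm {N : ℕ} : ∀ (A B : List ℤ), A.Nodup → B.Nodup → A.length = B.length →
    (∀ a ∈ A, a ∈ lab N N) → (∀ b ∈ B, b ∈ lab N N) →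
    ∃ (τ : ℤ → ℤ) (δ : ℤ → ℤˣ) (Γ : MvPolynomial Idx k →ₐ[k] MvPolynomial Idx k),
      Gen k Γ ∧ Rep N τ δ Γ ∧ A.map τ = B := by
  intro A
  induction A with
  | nil =>
    intro B _ _ hlen _ _
    have : B = [] := List.length_eq_zero_iff.1 hlen.symm
    subst this
    obtain ⟨Γ, g, r⟩ := Rep.signs (k := k) (N := N) (fun _ => 1)
    exact ⟨_, _, Γ, g, r, rfl⟩
  | cons a A ih =>
    intro B hA hB hlen hAl hBl
    cases B with
    | nil => simp at hlen
    | cons b B =>
      rw [List.nodup_cons] at hA hB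
      obtain ⟨τ, δ, Γ, g, r, hm⟩ := ih B hA.2 hB.2 (by simpa using hlen)
        (fun c hc => hAl c (by simp [hc])) (fun c hc => hBl c (by simp [hc]))
      have hc := r.maps a (hAl a (by simp))
      have hcB : τ a ∉ B := by
        rw [← hm, List.mem_map]
        rintro ⟨a', ha', he⟩
        exact hA.1 (r.inj he ▸ ha')
      have hb := hBl b (by simp)
      by_cases h : τ a = b
      · exact ⟨τ, δ, Γ, g, r, by rw [List.map_cons, hm, h]⟩
      · refine ⟨_, _, _, (Gen.act (mem_lab.1 hc).1 (mem_lab.1 hb).1 h).mul g,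
          (Rep.swap (k := k) hc hb (mem_lab.1 hc).1 (mem_lab.1 hb).1).mul r, ?_⟩
        rw [List.map_cons, Function.comp_apply, Equiv.swap_apply_left, ← List.map_map, hm]
        congr 1
        conv_rhs => rw [← List.map_id B]
        refine List.map_congr_left fun c hcB' => ?_
        rw [id, Equiv.swap_apply_of_ne_of_ne]
        · rintro rfl; exact hcB hcB'
        · rintro rfl; exact hB.1 hcB'

/-- Every signed injection is available. -/
theorem Rep.all {N : ℕ} (A B : List ℤ) (hA : A.Nodup) (hB : B.Nodup) (hlen : A.length = B.length)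
    (hAl : ∀ a ∈ A, a ∈ lab N N) (hBl : ∀ b ∈ B, b ∈ lab N N) (δ : ℤ → ℤˣ) :
    ∃ (τ : ℤ → ℤ) (Γ : MvPolynomial Idx k →ₐ[k] MvPolynomial Idx k),
      Gen k Γ ∧ Rep N τ δ Γ ∧ A.map τ = B := by
  obtain ⟨τ, δ₁, Γ₁, g1, r1, hm⟩ := Rep.perm (k := k) A B hA hB hlen hAl hBl
  obtain ⟨Γ₂, g2, r2⟩ := Rep.signs (k := k) (N := N) (fun a => δ a * δ₁ a)
  refine ⟨τ, _, g1.mul g2, (r1.mul r2).congr ?_, hm⟩
  intro a _
  simp only [id]
  rw [mul_assoc, Int.units_mul_self, mul_one]

end Pool.Agent.H229
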