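import Pool.Agent.H229.Limit

/-!
Descending chains of closed stable subsets of the affine infinite Grassmannian whose intersection
has points of finite branch-width only stabilize, over every field.
-/

namespace Pool.Agent.H229.NFiniteBranchWidth

open Pool.Agent.H229 MvPolynomial

universe u

/-- For every field `k`, every descending chain of closed subsets of the affine infinite
Grassmannian `Gr k`, stable under the elements `n_{a,b}` of the normalizer of the torus, such that
every point of the intersection has finite branch-width, stabilizes. -/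
theorem result (k : Type u) [Field k]
    (C : ℕ → Set (PrimeSpectrum (MvPolynomial Idx k)))
    (hclosed : ∀ i, ∃ D : Set (PrimeSpectrum (MvPolynomial Idx k)), IsClosed D ∧ C i = D ∩ Gr k)
    (hdesc : ∀ i, C (i + 1) ⊆ C i)
    (hstable : ∀ i, ∀ a b : ℤ, ∀ (ha : a ≠ 0) (hb : b ≠ 0), a ≠ b → ∀ P ∈ C i,
      PrimeSpectrum.comap (act k a b ha hb).toRingHom P ∈ C i)
    (hfin : ∀ P, (∀ i, P ∈ C i) → ∃ w, P ∈ GrW k w) :
    ∃ i, ∀ j, i ≤ j → C j = C i :=
  limit_chain C hclosed (antitone_nat_of_succ_le hdesc) hstable hfin

end Pool.Agent.H229.NFiniteBranchWidth
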