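import Pool.Agent.H229.Relab

/-!
Noetherianity of polynomials on labelled trees, up to gap embeddings.
-/

namespace Pool.Agent.H229

open Tr MvPolynomial MonomialOrder

/-- the variables: coordinates of the labels of the nodes, nodes being numbered in preorder -/
abbrev Vr (c : ℕ) : Type := (ℕ ×ₗ Fin c)ᵒᵈ

/-- position of a variable -/
def Vr.pos {c : ℕ} (v : Vr c) : ℕ := (ofLex (OrderDual.ofDual v)).1

/-- coordinate of a variable -/
def Vr.crd {c : ℕ} (v : Vr c) : Fin c := (ofLex (OrderDual.ofDual v)).2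

/-- the variable with given position and coordinate -/
def Vr.mk {c : ℕ} (n : ℕ) (q : Fin c) : Vr c := OrderDual.toDual (toLex (n, q))

@[simp] lemma Vr.pos_mk {c : ℕ} (n : ℕ) (q : Fin c) : (Vr.mk n q).pos = n := rfl
@[simp] lemma Vr.crd_mk {c : ℕ} (n : ℕ) (q : Fin c) : (Vr.mk n q).crd = q := rfl
@[simp] lemma Vr.mk_pos_crd {c : ℕ} (v : Vr c) : Vr.mk v.pos v.crd = v := rfl

/-- moving the positions of the variables -/
def Vr.move {c : ℕ} (σ : ℕ → ℕ) (v : Vr c) : Vr c := Vr.mk (σ v.pos) v.crd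

lemma Vr.lt_iff {c : ℕ} (v w : Vr c) :
    v < w ↔ w.pos < v.pos ∨ w.pos = v.pos ∧ w.crd < v.crd := by
  rw [← OrderDual.ofDual_lt_ofDual]
  exact Prod.Lex.lt_iff

lemma Vr.move_strictMono {c : ℕ} {σ : ℕ → ℕ} (hσ : StrictMono σ) :
    StrictMono (Vr.move (c := c) σ) := by
  intro v w h
  rw [Vr.lt_iff] at h ⊢
  rcases h with h | ⟨h1, h2⟩
  · exact Or.inl (hσ h)
  · exact Or.inr ⟨by simp [Vr.move, h1], h2⟩

section lexmap

variable {σ : Type*} [LinearOrder σ] [WellFoundedGT σ] {k : Type*} [Field k]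

lemma lex_mapDomain_lt {φ : σ → σ} (hφ : StrictMono φ) {a b : σ →₀ ℕ}
    (h : toLex a < toLex b) : toLex (a.mapDomain φ) < toLex (b.mapDomain φ) := by
  rw [Finsupp.Lex.lt_iff] at h ⊢
  obtain ⟨i, h1, h2⟩ := h
  refine ⟨φ i, fun j hj => ?_, ?_⟩
  · by_cases hr : j ∈ Set.range φ
    · obtain ⟨j, rfl⟩ := hr
      have := h1 j (hφ.lt_iff_lt.1 hj)
      simpa [Finsupp.mapDomain_apply hφ.injective] using this
    · simp [Finsupp.mapDomain_of_notMem_range _ _ hr]
  · simpa [Finsupp.mapDomain_apply hφ.injective] using h2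

lemma lex_mapDomain_le {φ : σ → σ} (hφ : StrictMono φ) {a b : σ →₀ ℕ}
    (h : toLex a ≤ toLex b) : toLex (a.mapDomain φ) ≤ toLex (b.mapDomain φ) := by
  rcases h.lt_or_eq with h | h
  · exact (lex_mapDomain_lt hφ h).le
  · have : a = b := toLex.injective h
    rw [this]

lemma degree_rename {φ : σ → σ} (hφ : StrictMono φ) {F : MvPolynomial σ k} (hF : F ≠ 0) :
    (lex (σ := σ)).degree (rename φ F) = ((lex (σ := σ)).degree F).mapDomain φ := by
  have hF' : rename φ F ≠ 0 := by
    intro h
    apply hF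
    apply rename_injective φ hφ.injective
    rw [h, map_zero]
  apply (lex (σ := σ)).toSyn.injective
  apply le_antisymm
  · have h1 := (lex (σ := σ)).degree_mem_support hF'
    rw [support_rename_of_injective hφ.injective, Finset.mem_image] at h1
    obtain ⟨d, hd, he⟩ := h1
    rw [← he]
    exact lex_mapDomain_le hφ ((lex (σ := σ)).le_degree hd)
  · apply (lex (σ := σ)).le_degree
    rw [support_rename_of_injective hφ.injective, Finset.mem_image]
    exact ⟨_, (lex (σ := σ)).degree_mem_support hF, rfl⟩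

end lexmap

/-- **Noetherianity.** -/
theorem noeth {k : Type*} [Field k] (c N : ℕ) (K : ℕ → Type*) [∀ i, Field (K i)]
    [∀ i, Algebra k (K i)] (S : ℕ → Tr Unit) (hS : ∀ i, (S i).Bdd N)
    (ω : ∀ i, ℕ → Fin c → K i) (F : ℕ → MvPolynomial (Vr c) k)
    (hF : ∀ i, F i ∈ MvPolynomial.supported k {v : Vr c | v.pos < (S i).size})
    (h0 : ∀ i, aeval (fun v : Vr c => ω i v.pos v.crd) (F i) ≠ 0) :
    ∃ i j, i < j ∧ ∃ σ, Cut σ (S i) (S j) ∧
      aeval (fun v : Vr c => ω j (σ v.pos) v.crd) (F i) ≠ 0 := by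
  classical
  by_contra hcon
  push Not at hcon
  set m : MonomialOrder (Vr c) := MonomialOrder.lex with hm
  -- the sets of admissible polynomials
  set P : ℕ → Set (MvPolynomial (Vr c) k) := fun j => {F |
    F ∈ MvPolynomial.supported k {v : Vr c | v.pos < (S j).size} ∧
    aeval (fun v : Vr c => ω j v.pos v.crd) F ≠ 0 ∧
    ∀ l, j < l → ∀ σ, Cut σ (S j) (S l) →
      aeval (fun v : Vr c => ω l (σ v.pos) v.crd) F = 0} with hP
  have hPne : ∀ j, (P j).Nonempty := fun j => ⟨F j, hF j, h0 j, fun l hl σ hσ => hcon j l hl σ hσ⟩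
  have hmin : ∀ j, ∃ G ∈ P j, ∀ G' ∈ P j, ¬ (m.toSyn (m.degree G') < m.toSyn (m.degree G)) := by
    intro j
    obtain ⟨s, ⟨G, hG, rfl⟩, h⟩ := WellFounded.has_min (wellFounded_lt (α := m.syn))
      ((fun G => m.toSyn (m.degree G)) '' P j) ((hPne j).image _)
    exact ⟨G, hG, fun G' hG' => h _ ⟨G', hG', rfl⟩⟩
  choose G hG hGmin using hmin
  have hGne : ∀ j, G j ≠ 0 := by
    intro j h
    apply (hG j).2.1
    rw [h, map_zero]
  -- the trees of exponents
  set T : ℕ → Tr (Fin c → ℕ) := fun j =>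
    reLab (S j) (fun n q => (m.degree (G j)) (Vr.mk n q)) with hT
  have hpwo := pwo_trees (L := Fin c → ℕ) (· ≤ ·) wellQuasiOrdered_le N
  obtain ⟨i, j, hij, hE⟩ := hpwo.exists_lt (f := T) (fun j => by
    simpa [hT, reLab_bdd] using hS j)
  obtain ⟨σ, hcut, hle⟩ := hE.exists_cut _ _ _ _ rfl rfl
  have hφ : StrictMono (Vr.move (c := c) σ) := Vr.move_strictMono hcut.1
  set b := rename (Vr.move (c := c) σ) (G i) with hb
  have hbne : b ≠ 0 := by
    intro h
    apply hGne i
    apply rename_injective _ hφ.injective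
    rw [← hb, h, map_zero]
  have hbdeg : m.degree b = (m.degree (G i)).mapDomain (Vr.move σ) :=
    degree_rename hφ (hGne i)
  have hble : m.degree b ≤ m.degree (G j) := by
    rw [hbdeg]
    intro v
    by_cases hv : v ∈ Set.range (Vr.move (c := c) σ)
    · obtain ⟨v, rfl⟩ := hv
      rw [Finsupp.mapDomain_apply hφ.injective]
      by_cases hpos : v.pos < (S i).size
      · exact hle v.pos hpos v.crd
      · have : (m.degree (G i)) v = 0 := by
          by_contra h
          have h1 : v ∈ (G i).vars := by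
            rw [mem_vars_iff_mem_support]
            exact ⟨_, m.degree_mem_support (hGne i), by simpa using h⟩
          have h2 := (mem_supported.1 (hG i).1) h1
          exact hpos h2
        rw [this]; exact Nat.zero_le _
    · rw [Finsupp.mapDomain_of_notMem_range _ _ hv]; exact Nat.zero_le _
  have hb1 : aeval (fun v : Vr c => ω j v.pos v.crd) b = 0 := by
    rw [hb, aeval_rename]
    exact (hG i).2.2 j hij σ hcut
  have hb2 : ∀ l, j < l → ∀ τ, Cut τ (S j) (S l) →
      aeval (fun v : Vr c => ω l (τ v.pos) v.crd) b = 0 := by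
    intro l hl τ hτ
    rw [hb, aeval_rename]
    exact (hG i).2.2 l (hij.trans hl) _ (hcut.trans hτ)
  have hunit : IsUnit (m.leadingCoeff b) :=
    (m.leadingCoeff_ne_zero_iff.2 hbne).isUnit
  have hjne : m.degree (G j) ≠ 0 := by
    intro h
    have h1 : m.degree (G i) = 0 := by
      have h2 : (m.degree (G i)).mapDomain (Vr.move (c := c) σ) = 0 := by
        rw [← hbdeg]
        exact le_antisymm (h ▸ hble) (by intro v; exact Nat.zero_le _)
      apply Finsupp.mapDomain_injective hφ.injective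
      rw [h2, Finsupp.mapDomain_zero]
    have h3 := m.eq_C_of_degree_eq_zero h1
    have h4 := (hG i).2.2 j hij σ hcut
    rw [h3, aeval_C] at h4
    have h5 : m.leadingCoeff (G i) ≠ 0 := m.leadingCoeff_ne_zero_iff.2 (hGne i)
    exact h5 ((map_eq_zero _).1 h4)
  have hlt := degree_reduce_lt hunit hble hjne
  refine hGmin j (m.reduce hunit (G j)) ⟨?_, ?_, ?_⟩ hlt
  · rw [reduce]
    refine Subalgebra.sub_mem _ (hG j).1 (Subalgebra.mul_mem _ ?_ ?_)
    · rw [mem_supported]
      intro v hv
      rw [Finset.mem_coe, mem_vars_iff_mem_support] at hv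
      obtain ⟨d, hd, hvd⟩ := hv
      have h1 := support_monomial_subset hd
      rw [Finset.mem_singleton] at h1
      subst h1
      have h2 : (m.degree (G j)) v ≠ 0 := by
        intro h
        rw [Finsupp.mem_support_iff] at hvd
        apply hvd
        rw [Finsupp.tsub_apply, h, Nat.zero_sub]
      refine (mem_supported.1 (hG j).1) ?_
      rw [Finset.mem_coe, mem_vars_iff_mem_support]
      exact ⟨_, m.degree_mem_support (hGne j), by simpa using h2⟩
    · rw [mem_supported]
      intro v hv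
      have h1 := vars_rename _ _ hv
      rw [Finset.mem_image] at h1
      obtain ⟨w, hw, rfl⟩ := h1
      have h2 := (mem_supported.1 (hG i).1) hw
      exact hcut.2.1 _ h2
  · rw [reduce, map_sub, map_mul, hb1, mul_zero, sub_zero]
    exact (hG j).2.1
  · intro l hl τ hτ
    rw [reduce, map_sub, map_mul, hb2 l hl τ hτ, mul_zero, sub_zero]
    exact (hG j).2.2 l hl τ hτ

end Pool.Agent.H229
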