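import Pool.Agent.H229.Plu

/-!
Normalised trees of tensors for Plücker vectors of bounded branch-width: the main construction.
-/

namespace Pool.Agent.H229

open Module BT

variable {α : Type*} [DecidableEq α]

/-- the list of labels of the leaves -/
def BT.toList : BT α → List α
  | .leaf a => [a]
  | .node l r => l.toList ++ r.toList

/-- the shape of a tree, with heights given by a function of sets -/
def shp (lam : Finset α → ℕ) : BT α → Tr Unit
  | .leaf a => Tr.leaf (lam {a}) ()
  | .node l r => Tr.node (lam (l.fs ∪ r.fs)) () (shp lam l) (shp lam r)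

lemma toList_toFinset (t : BT α) : t.toList.toFinset = t.fs := by
  induction t with
  | leaf a => rfl
  | node l r ihl ihr => simp only [BT.toList, List.toFinset_append, ihl, ihr, fs_node]

lemma mem_toList (t : BT α) (a : α) : a ∈ t.toList ↔ a ∈ t.fs := by
  rw [← toList_toFinset, List.mem_toFinset]

lemma toList_nodup {t : BT α} (h : t.Part) : t.toList.Nodup := by
  induction t with
  | leaf a => simp [BT.toList]
  | node l r ihl ihr =>
    simp only [BT.toList, List.nodup_append]
    refine ⟨ihl h.2.1, ihr h.2.2, ?_⟩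
    intro a ha b hb hab
    subst hab
    rw [mem_toList] at ha hb
    exact Finset.disjoint_left.1 h.1 ha hb

lemma shp_leaves (lam : Finset α → ℕ) (t : BT α) : (shp lam t).leaves = t.toList.length := by
  induction t with
  | leaf a => rfl
  | node l r ihl ihr => simp only [shp, Tr.leaves, BT.toList, List.length_append, ihl, ihr]

lemma shp_ht (lam : Finset α → ℕ) (t : BT α) : (shp lam t).ht = lam t.fs := by
  cases t <;> rfl

lemma shp_bdd (lam : Finset α → ℕ) (w : ℕ) (t : BT α) (h : ∀ Y ∈ t.nodes, lam Y ≤ w) :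
    (shp lam t).Bdd (w + 1) := by
  induction t with
  | leaf a => exact Nat.lt_succ_of_le (h _ (by simp [nodes]))
  | node l r ihl ihr =>
    refine ⟨Nat.lt_succ_of_le (h _ (by simp [nodes])), ihl fun Y hY => h Y ?_,
      ihr fun Y hY => h Y ?_⟩
    · simp only [nodes, Finset.mem_insert, Finset.mem_union]; exact Or.inr (Or.inl hY)
    · simp only [nodes, Finset.mem_insert, Finset.mem_union]; exact Or.inr (Or.inr hY)

lemma subAt_shp (lam : Finset α → ℕ) (t : BT α) : ∀ {f : Tr Unit} {o : ℕ},
    SubAt (shp lam t) f o → ∃ s, Sub s t ∧ f = shp lam s ∧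
      ∃ P Q, t.toList = P ++ s.toList ++ Q ∧ P.length = o := by
  induction t with
  | leaf a =>
    intro f o h
    cases h with
    | refl => exact ⟨_, .refl _, rfl, [], [], by simp, rfl⟩
  | node l r ihl ihr =>
    intro f o h
    simp only [shp] at h
    cases h with
    | refl => exact ⟨_, .refl _, rfl, [], [], by simp, rfl⟩
    | left h =>
      obtain ⟨s, h1, h2, P, Q, h3, h4⟩ := ihl h
      exact ⟨s, .left r h1, h2, P, Q ++ r.toList, by simp [BT.toList, h3], h4⟩
    | right h =>
      obtain ⟨s, h1, h2, P, Q, h3, h4⟩ := ihr h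
      exact ⟨s, .right l h1, h2, l.toList ++ P, Q, by simp [BT.toList, h3], by
        simp [h4, shp_leaves]⟩

lemma descAt_shp (lam : Finset α → ℕ) (σ : ℕ) (t : BT α) (ht : t.Part) :
    ∀ {f : Tr Unit} {o : ℕ}, DescAt σ (shp lam t) f o → ∃ s, Sub s t ∧ f = shp lam s ∧
      (∃ P Q, t.toList = P ++ s.toList ++ Q ∧ P.length = o) ∧
      ∀ g, Sub s g → Sub g t → σ ≤ lam g.fs := by
  have href : ∀ t : BT α, t.Part → σ ≤ (shp lam t).ht → ∀ g, Sub t g → Sub g t →
      σ ≤ lam g.fs := by
    intro t ht h g h1 h2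
    have : g.fs = t.fs := subset_antisymm h2.fs_subset h1.fs_subset
    rw [this, ← shp_ht lam]
    exact h
  induction t with
  | leaf a =>
    intro f o h
    cases h with
    | refl _ h => exact ⟨_, .refl _, rfl, ⟨[], [], by simp, rfl⟩, href _ ht h⟩
  | node l r ihl ihr =>
    intro f o h
    have hroot : σ ≤ lam (l.fs ∪ r.fs) → σ ≤ lam (BT.node l r).fs := fun h => h
    simp only [shp] at h
    cases h with
    | refl _ h => exact ⟨_, .refl _, rfl, ⟨[], [], by simp, rfl⟩, href _ ht h⟩
    | left hσ h =>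
      obtain ⟨s, h1, h2, ⟨P, Q, h3, h4⟩, h5⟩ := ihl ht.2.1 h
      refine ⟨s, .left r h1, h2, ⟨P, Q ++ r.toList, by simp [BT.toList, h3], h4⟩, ?_⟩
      intro g hg1 hg2
      cases hg2 with
      | refl => exact hσ
      | left _ hg2 => exact h5 g hg1 hg2
      | right _ hg2 =>
        obtain ⟨a, ha⟩ := s.fs_nonempty
        exact absurd (hg2.fs_subset (hg1.fs_subset ha))
          (Finset.disjoint_left.1 ht.1 (h1.fs_subset ha))
    | right hσ h =>
      obtain ⟨s, h1, h2, ⟨P, Q, h3, h4⟩, h5⟩ := ihr ht.2.2 h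
      refine ⟨s, .right l h1, h2, ⟨l.toList ++ P, Q, by simp [BT.toList, h3], by
        simp [h4, shp_leaves]⟩, ?_⟩
      intro g hg1 hg2
      cases hg2 with
      | refl => exact hσ
      | right _ hg2 => exact h5 g hg1 hg2
      | left _ hg2 =>
        obtain ⟨a, ha⟩ := s.fs_nonempty
        exact absurd (h1.fs_subset ha)
          (Finset.disjoint_left.1 ht.1 (hg2.fs_subset (hg1.fs_subset ha)))

lemma bdd_map {L L' : Type*} (f : L → L') (N : ℕ) (t : Tr L) : (t.map f).Bdd N ↔ t.Bdd N := by
  induction t with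
  | leaf h a => rfl
  | node h a l r ihl ihr => simp only [Tr.map, Tr.Bdd, ihl, ihr]

variable [Fintype α] {K : Type*} [Field K] {V : Type*} [AddCommGroup V] [Module K V]

lemma finrank_Usp_conn [FiniteDimensional K V] {φ : ExteriorAlgebra K V →ₗ[K] K} (hφ : IsVol φ)
    (x : α → V) (hx : Submodule.span K (Set.range x) = ⊤) (P F Q : List α)
    (hnd : (P ++ F ++ Q).Nodup) (huniv : ∀ a, a ∈ P ++ F ++ Q) :
    finrank K (Usp φ (P.map x) (F.map x) (Q.map x)) = 2 ^ conn (rkx K x) F.toFinset := by
  have hFc : (P ++ Q).toFinset = F.toFinsetᶜ := by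
    ext a
    have h1 := huniv a
    simp only [List.nodup_append, List.mem_append] at hnd h1
    simp only [List.mem_toFinset, List.mem_append, Finset.mem_compl]
    constructor
    · intro h h2
      rcases h with h | h
      · exact hnd.1.2.2 a h a h2 rfl
      · exact hnd.2.2 a (Or.inr h2) a h rfl
    · intro h; tauto
  obtain ⟨s, t1, t2⟩ := finrank_Usp hφ (P.map x) (F.map x) (Q.map x) (by
    rw [← List.map_append, spanL_map, spanL_map, hFc, ← Submodule.span_union, ← Set.image_union,
      ← Finset.coe_union, Finset.union_compl, Finset.coe_univ, Set.image_univ, hx])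
  rw [← List.map_append, spanL_map, spanL_map, hFc] at t1
  rw [t2]
  congr 1
  have h1 : rkx K x Finset.univ = finrank K V := by
    rw [rkx, Finset.coe_univ, Set.image_univ, hx, finrank_top]
  have t1' : s + rkx K x Finset.univ = rkx K x F.toFinset + rkx K x F.toFinsetᶜ := by
    rw [h1]; exact t1
  have h2 : conn (rkx K x) F.toFinset = rkx K x F.toFinset + rkx K x F.toFinsetᶜ -
    rkx K x Finset.univ := rfl
  omega

/-- **Normalised trees for vectors of bounded branch-width.** -/
theorem exists_normal [FiniteDimensional K V] {φ : ExteriorAlgebra K V →ₗ[K] K} (hφ : IsVol φ)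
    (x : α → V) (hx : Submodule.span K (Set.range x) = ⊤) (w : ℕ) (a₀ : Fin (2 ^ w))
    (t₀ : BT α) (ht₀ : t₀.Part) (hf₀ : t₀.fs = Finset.univ)
    (hw₀ : ∀ Y ∈ t₀.nodes, conn (rkx K x) Y ≤ w) :
    ∃ ℓ : List α, ℓ.Nodup ∧ (∀ a, a ∈ ℓ) ∧ ∃ T : Tr (Fin (cR (2 ^ w)) → K),
      T.leaves = ℓ.length ∧ T.Bdd (w + 1) ∧ Normal T ∧
      ∀ b, evalT T b a₀ = φ (prodL K (sel (ℓ.map x) b)) := by
  classical
  set lam := conn (rkx K x) with hlam
  have hconn : IsConn lam := (rkx_isRk x).isConn (rkx_empty x)
  obtain ⟨t, h1, h2, h3, h4⟩ := exists_linked hconn t₀ ht₀ hw₀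
  rw [hf₀] at h1
  have hall : ∀ a, a ∈ t.toList := fun a => by rw [mem_toList, h1]; simp
  have hnd := toList_nodup h2
  refine ⟨t.toList, hnd, hall, ?_⟩
  set L : List V := t.toList.map x with hL
  set U : ℕ → ℕ → Submodule K (Fn K) := fun o l =>
    Usp φ (L.take o) ((L.drop o).take l) (L.drop (o + l)) with hU
  have hUdec : ∀ P F Q : List α, t.toList = P ++ F ++ Q → ∀ o l, P.length = o → F.length = l →
      U o l = Usp φ (P.map x) (F.map x) (Q.map x) := by
    intro P F Q h o l ho hl
    subst ho hl
    have e1 : L = P.map x ++ (F.map x ++ Q.map x) := by rw [hL, h]; simp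
    have e2 : L.take P.length = P.map x := by
      rw [e1, List.take_left' (by simp)]
    have e3 : L.drop P.length = F.map x ++ Q.map x := by
      rw [e1, List.drop_left' (by simp)]
    have e4 : L.drop (P.length + F.length) = Q.map x := by
      rw [← List.drop_drop, e3, List.drop_left' (by simp)]
    have e5 : (L.drop P.length).take F.length = F.map x := by
      rw [e3, List.take_left' (by simp)]
    simp only [hU]
    rw [e2, e4, e5]
  -- the spanning family at the root
  set u₀ : Fn K := fun b => φ (prodL K (sel L b)) with hu₀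
  set v : Fin (2 ^ w) → Fn K := fun a => if a = a₀ then u₀ else 0 with hv
  have hroot : Submodule.span K (Set.range v) = U 0 (shp lam t).leaves := by
    rw [hUdec [] t.toList [] (by simp) 0 _ rfl (shp_leaves _ _).symm]
    apply le_antisymm
    · rw [Submodule.span_le]
      rintro _ ⟨a, rfl⟩
      simp only [hv]
      split_ifs
      · refine Submodule.subset_span ⟨(fun _ => false, fun _ => false), ?_⟩
        funext b
        simp only [List.map_nil, sel, prodL_nil, hu₀]
        rw [one_mul, mul_one]
      · exact Submodule.zero_mem _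
    · rw [Usp, Submodule.span_le]
      rintro _ ⟨c, rfl⟩
      refine Submodule.subset_span ⟨a₀, ?_⟩
      simp only [hv, if_true]
      funext b
      simp only [List.map_nil, sel, prodL_nil, hu₀]
      rw [one_mul, mul_one]
  obtain ⟨T, p1, p2, p3, -⟩ := build (R := 2 ^ w) U (fun o l => Usp_fd _ _ _ _) (by
      intro o l u hu b b' hb
      refine Usp_dep _ _ _ _ hu fun n hn => hb n ?_
      rw [List.length_take] at hn
      omega) (by
      intro o l₁ l₂ u hu b
      have e1 : (L.drop o).take (l₁ + l₂) = (L.drop o).take l₁ ++ (L.drop (o + l₁)).take l₂ := by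
        rw [List.take_add, List.drop_drop]
      have e2 : (L.drop (o + l₁)).take l₂ ++ L.drop (o + (l₁ + l₂)) = L.drop (o + l₁) := by
        have e4 : L.drop (o + (l₁ + l₂)) = (L.drop (o + l₁)).drop l₂ := by
          rw [List.drop_drop, add_assoc]
        rw [e4, List.take_append_drop]
      have e3 : L.take o ++ (L.drop o).take l₁ = L.take (o + l₁) := by
        rw [List.take_add]
      simp only [hU] at hu ⊢
      rw [e1] at hu
      have h5 := Usp_split φ _ _ _ _ l₁ (by rw [List.length_take]; omega) (by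
        by_cases h6 : o + l₁ ≤ L.length
        · left; rw [List.length_take, List.length_drop]; omega
        · right
          rw [List.drop_of_length_le (by omega), List.take_nil]) hu b
      rw [e2, e3] at h5
      rw [add_assoc]
      exact h5)
    (shp lam t) 0 (by
      intro f o' hs
      obtain ⟨s, q1, q2, P, Q, q3, q4⟩ := subAt_shp lam t hs
      rw [zero_add, hUdec P s.toList Q q3 o' f.leaves q4 (by rw [q2, shp_leaves]),
        finrank_Usp_conn hφ x hx P s.toList Q (q3 ▸ hnd) (q3 ▸ hall), toList_toFinset]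
      exact Nat.pow_le_pow_right (by norm_num) (h3 _ (q1.nodes_subset s.fs_mem_nodes)))
    (by
      intro g o₁ hs f o₂ hd hht
      obtain ⟨e, q1, q2, P₀, Q₀, q3, q4⟩ := subAt_shp lam t hs
      subst q2
      obtain ⟨s, r1, r2, ⟨P, Q, r3, r4⟩, r5⟩ := descAt_shp lam _ e (q1.part h2) hd
      subst r2
      have hdec : t.toList = P₀ ++ (P ++ s.toList ++ Q) ++ Q₀ := by rw [q3, r3]
      obtain ⟨π, s1, s2, s3⟩ := link_slice hφ x hx P₀ P s.toList Q Q₀ (hdec ▸ hnd) (by
        rw [← hdec, toList_toFinset, h1]) (by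
        intro X hX1 hX2
        rw [toList_toFinset] at hX1
        rw [← r3, toList_toFinset] at hX2
        obtain ⟨g, g1, g2, g3⟩ := h4 e q1 s r1 X hX1 hX2
        have g4 := r5 g g2 g1
        rw [shp_ht, shp_ht] at hht
        rw [shp_ht] at g4
        rw [toList_toFinset]
        rw [← hlam]
        omega)
      refine ⟨π, by rw [s1, shp_leaves, r3], by rw [s2, shp_leaves], ?_⟩
      rw [zero_add, hUdec P₀ e.toList Q₀ q3 o₁ _ q4 (shp_leaves _ _).symm,
        hUdec (P₀ ++ P) s.toList (Q ++ Q₀) (by rw [hdec]; simp) (o₁ + o₂) _ (by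
          rw [List.length_append, q4, r4]) (shp_leaves _ _).symm, r3]
      exact s3) v (by rw [hroot]) (fun _ _ _ => True) (by
      intro f o' he
      obtain ⟨s, q1, q2, P, Q, q3, q4⟩ := subAt_shp lam t he.subAt
      have : FiniteDimensional K (U (0 + o') f.leaves) := Usp_fd _ _ _ _
      obtain ⟨w', hw'⟩ := exists_span (R := 2 ^ w) (U (0 + o') f.leaves) (by
        rw [zero_add, hUdec P s.toList Q q3 o' f.leaves q4 (by rw [q2, shp_leaves]),
          finrank_Usp_conn hφ x hx P s.toList Q (q3 ▸ hnd) (q3 ▸ hall), toList_toFinset]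
        exact Nat.pow_le_pow_right (by norm_num) (h3 _ (q1.nodes_subset s.fs_mem_nodes)))
      exact ⟨w', hw', trivial⟩)
  refine ⟨T, ?_, ?_, p3, fun b => ?_⟩
  · rw [← shp_leaves lam, ← p1]
    exact (leaves_map _ _).symm
  · have := shp_bdd lam w t h3
    rw [← p1] at this
    exact (bdd_map _ _ _).1 this
  · rw [p2]
    simp [hv, hu₀]

end Pool.Agent.H229
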