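import Pool.Agent.H229.Flat
import Pool.Agent.H229.Build
import Pool.Agent.H229.Link
import Pool.Agent.H229.Linked

/-!
Normalised trees of tensors for Plücker vectors of bounded branch-width.
-/

namespace Pool.Agent.H229

open Module

section Spaces

variable {K : Type*} [Field K] {V : Type*} [AddCommGroup V] [Module K V]

/-- the space of flattenings -/
noncomputable def Usp (φ : ExteriorAlgebra K V →ₗ[K] K) (L₁ A L₂ : List V) : Submodule K (Fn K) :=
  Submodule.span K (Set.range fun c : (ℕ → Bool) × (ℕ → Bool) =>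
    (fun b : ℕ → Bool => φ (prodL K (sel L₁ c.1) * prodL K (sel A b) * prodL K (sel L₂ c.2))))

lemma finite_range_sel {α : Type*} (L : List α) :
    (Set.range fun c : ℕ → Bool => sel L c).Finite := by
  refine (List.finite_toSet L.sublists).subset ?_
  rintro _ ⟨c, rfl⟩
  simp only [Set.mem_ofPred_eq, List.mem_sublists]
  exact sel_sublist _ _

lemma Usp_fd (φ : ExteriorAlgebra K V →ₗ[K] K) (L₁ A L₂ : List V) :
    FiniteDimensional K (Usp φ L₁ A L₂) := by
  refine FiniteDimensional.span_of_finite K ?_
  have h1 := ((finite_range_sel L₁).prod (finite_range_sel L₂)).image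
    (fun p : List V × List V => (fun b : ℕ → Bool =>
      φ (prodL K p.1 * prodL K (sel A b) * prodL K p.2)))
  refine h1.subset ?_
  rintro _ ⟨c, rfl⟩
  exact ⟨(sel L₁ c.1, sel L₂ c.2), ⟨⟨c.1, rfl⟩, ⟨c.2, rfl⟩⟩, rfl⟩

lemma Usp_dep (φ : ExteriorAlgebra K V →ₗ[K] K) (L₁ A L₂ : List V) {u : Fn K}
    (hu : u ∈ Usp φ L₁ A L₂) {b b' : ℕ → Bool} (h : ∀ n < A.length, b n = b' n) : u b = u b' := by
  induction hu using Submodule.span_induction with
  | mem x hx =>
    obtain ⟨c, rfl⟩ := hx
    simp only
    rw [sel_congr A h]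
  | zero => rfl
  | add x y _ _ hx hy => rw [Pi.add_apply, Pi.add_apply, hx, hy]
  | smul a x _ hx => rw [Pi.smul_apply, Pi.smul_apply, hx]

lemma exists_sel_append {α : Type*} (L L' : List α) (b c : ℕ → Bool) :
    ∃ d, sel (L ++ L') d = sel L b ++ sel L' c := by
  refine ⟨fun n => if n < L.length then b n else c (n - L.length), ?_⟩
  rw [sel_append]
  congr 1
  · exact sel_congr _ fun n hn => by simp [hn]
  · refine sel_congr _ fun n hn => ?_
    rw [if_neg (by omega), Nat.add_sub_cancel]

omit [AddCommGroup V] in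
lemma sel_join (A A' : List V) (l : ℕ) (h1 : A.length ≤ l) (h2 : A.length = l ∨ A' = [])
    (b₁ b : ℕ → Bool) : sel (A ++ A') (join l b₁ b) = sel A b₁ ++ sel A' b := by
  rw [sel_append]
  congr 1
  · refine sel_congr _ fun n hn => ?_
    unfold join
    rw [if_pos (by omega)]
  · rcases h2 with h2 | rfl
    · refine sel_congr _ fun n hn => ?_
      unfold join
      rw [if_neg (by omega), h2, Nat.add_sub_cancel]
    · rfl

lemma Usp_split (φ : ExteriorAlgebra K V →ₗ[K] K) (L₁ A A' L₂ : List V) (l : ℕ)
    (h1 : A.length ≤ l) (h2 : A.length = l ∨ A' = []) {u : Fn K}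
    (hu : u ∈ Usp φ L₁ (A ++ A') L₂) (b : ℕ → Bool) :
    (fun b₁ => u (join l b₁ b)) ∈ Usp φ L₁ A (A' ++ L₂) ∧
      (fun b₂ => u (join l b b₂)) ∈ Usp φ (L₁ ++ A) A' L₂ := by
  induction hu using Submodule.span_induction with
  | mem x hx =>
    obtain ⟨c, rfl⟩ := hx
    simp only [sel_join A A' l h1 h2]
    constructor
    · obtain ⟨d, hd⟩ := exists_sel_append A' L₂ b c.2
      refine Submodule.subset_span ⟨(c.1, d), ?_⟩
      funext b₁
      simp only
      rw [hd, prodL_append, prodL_append]
      simp only [mul_assoc]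
    · obtain ⟨d, hd⟩ := exists_sel_append L₁ A c.1 b
      refine Submodule.subset_span ⟨(d, c.2), ?_⟩
      funext b₁
      simp only
      rw [hd, prodL_append, prodL_append]
      simp only [mul_assoc]
  | zero => exact ⟨Submodule.zero_mem _, Submodule.zero_mem _⟩
  | add x y _ _ hx hy => exact ⟨Submodule.add_mem _ hx.1 hy.1, Submodule.add_mem _ hx.2 hy.2⟩
  | smul a x _ hx => exact ⟨Submodule.smul_mem _ _ hx.1, Submodule.smul_mem _ _ hx.2⟩

lemma finrank_Usp [FiniteDimensional K V] {φ : ExteriorAlgebra K V →ₗ[K] K} (hφ : IsVol φ)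
    (L₁ A L₂ : List V) (h : spanL K A ⊔ spanL K (L₁ ++ L₂) = ⊤) :
    ∃ s, s + finrank K V = finrank K (spanL K A) + finrank K (spanL K (L₁ ++ L₂)) ∧
      finrank K (Usp φ L₁ A L₂) = 2 ^ s := by
  have e : spanL K ([] ++ [] : List V) = ⊥ := by simp [spanL]
  obtain ⟨s, h1, h2⟩ := rank_flat hφ L₁ [] A [] L₂ (by rw [e]; simp) (by rw [e]; simpa using h)
  rw [e, sup_bot_eq, sup_bot_eq] at h1
  simp only [List.append_nil, List.length_nil, add_zero] at h1
  refine ⟨s, h1, ?_⟩
  rw [← h2, Usp]
  have e2 : (fun (c : (ℕ → Bool) × (ℕ → Bool)) (b : ℕ → Bool) =>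
      φ (prodL K (sel L₁ c.1) * prodL K [] * prodL K (sel A b) * prodL K [] *
        prodL K (sel L₂ c.2))) = fun c b =>
      φ (prodL K (sel L₁ c.1) * prodL K (sel A b) * prodL K (sel L₂ c.2)) := by
    funext c b
    rw [prodL_nil, mul_one, mul_one]
  rw [e2]

lemma Usp_slice (φ : ExteriorAlgebra K V →ₗ[K] K) (L₁ P F Q L₂ : List V)
    (π : List (Option Bool)) (M₁ M₂ : List V)
    (hπ : ∀ b, sel (P ++ F ++ Q) (fill π b) = M₁ ++ sel F b ++ M₂) :
    (Usp φ L₁ (P ++ F ++ Q) L₂).map (slice K π) =
      Submodule.span K (Set.range fun c : (ℕ → Bool) × (ℕ → Bool) =>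
        (fun b : ℕ → Bool => φ (prodL K (sel L₁ c.1) * prodL K M₁ * prodL K (sel F b) *
          prodL K M₂ * prodL K (sel L₂ c.2)))) := by
  rw [Usp, Submodule.map_span, ← Set.range_comp]
  congr 2
  funext c b
  simp only [Function.comp_apply, slice_apply]
  rw [hπ, prodL_append, prodL_append]
  simp only [mul_assoc]

lemma Usp_slice_le (φ : ExteriorAlgebra K V →ₗ[K] K) (L₁ P F Q L₂ : List V) (m₁ m₂ : ℕ → Bool) :
    Submodule.span K (Set.range fun c : (ℕ → Bool) × (ℕ → Bool) =>
        (fun b : ℕ → Bool => φ (prodL K (sel L₁ c.1) * prodL K (sel P m₁) * prodL K (sel F b) *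
          prodL K (sel Q m₂) * prodL K (sel L₂ c.2)))) ≤ Usp φ (L₁ ++ P) F (Q ++ L₂) := by
  rw [Submodule.span_le]
  rintro _ ⟨c, rfl⟩
  obtain ⟨d, hd⟩ := exists_sel_append L₁ P c.1 m₁
  obtain ⟨d', hd'⟩ := exists_sel_append Q L₂ m₂ c.2
  refine Submodule.subset_span ⟨(d, d'), ?_⟩
  funext b
  simp only
  rw [hd, hd', prodL_append, prodL_append]
  simp only [mul_assoc]

end Spaces

section Ranks

variable {α : Type*} [Fintype α] [DecidableEq α]

/-- the connectivity function of a rank function -/
def conn (r : Finset α → ℕ) (A : Finset α) : ℕ := r A + r Aᶜ - r Finset.univ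

lemma IsRk.le_add {r : Finset α → ℕ} (hr : IsRk r) (h0 : r ∅ = 0) (A : Finset α) :
    r Finset.univ ≤ r A + r Aᶜ := by
  have := hr.submod A Aᶜ
  rw [Finset.union_compl, Finset.inter_compl, h0] at this
  omega

lemma IsRk.isConn {r : Finset α → ℕ} (hr : IsRk r) (h0 : r ∅ = 0) : IsConn (conn r) where
  symm X := by unfold conn; rw [compl_compl, add_comm]
  submod X Y := by
    unfold conn
    have h1 := hr.submod X Y
    have h2 := hr.submod Xᶜ Yᶜ
    have h3 := hr.le_add h0 X
    have h4 := hr.le_add h0 Y
    have h5 := hr.le_add h0 (X ∪ Y)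
    have h6 := hr.le_add h0 (X ∩ Y)
    rw [← Finset.compl_union, ← Finset.compl_inter] at h2
    omega

variable {K : Type*} [Field K] {V : Type*} [AddCommGroup V] [Module K V]

/-- the rank function of a family of vectors -/
noncomputable def rkx (K : Type*) [Field K] {V : Type*} [AddCommGroup V] [Module K V]
    (x : α → V) (A : Finset α) : ℕ := finrank K (Submodule.span K (x '' (A : Set α)))

omit [Fintype α] [DecidableEq α] in
lemma rkx_empty (x : α → V) : rkx K x ∅ = 0 := by
  rw [rkx, Finset.coe_empty, Set.image_empty, Submodule.span_empty, finrank_bot]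

omit [Fintype α] in
lemma spanL_map (x : α → V) (ℓ : List α) :
    spanL K (ℓ.map x) = Submodule.span K (x '' (ℓ.toFinset : Set α)) := by
  have h : {v | v ∈ ℓ.map x} = x '' (ℓ.toFinset : Set α) := by
    ext v
    simp
  change Submodule.span K {v | v ∈ ℓ.map x} = _
  rw [h]

omit [Fintype α] in
lemma rkx_union (x : α → V) (A B : Finset α) : rkx K x (A ∪ B) =
    finrank K (Submodule.span K (x '' (A : Set α)) ⊔ Submodule.span K (x '' (B : Set α)) :
      Submodule K V) := by
  rw [rkx, Finset.coe_union, Set.image_union, Submodule.span_union]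

omit [Fintype α] in
lemma rkx_isRk [FiniteDimensional K V] (x : α → V) : IsRk (rkx K x) where
  mono A B h := Submodule.finrank_mono (Submodule.span_mono (Set.image_mono (by exact_mod_cast h)))
  unit e A := by
    have h1 : insert e A = {e} ∪ A := by ext; simp
    rw [h1, rkx_union]
    have h2 := Submodule.finrank_add_le_finrank_add_finrank
      (Submodule.span K (x '' (({e} : Finset α) : Set α))) (Submodule.span K (x '' (A : Set α)))
    have h3 : finrank K (Submodule.span K (x '' (({e} : Finset α) : Set α))) ≤ 1 := by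
      rw [Finset.coe_singleton, Set.image_singleton]
      have := finrank_span_le_card (R := K) ({x e} : Set V)
      simpa using this
    unfold rkx
    omega
  submod A B := by
    rw [rkx_union]
    have h1 := Submodule.finrank_sup_add_finrank_inf_eq
      (Submodule.span K (x '' (A : Set α))) (Submodule.span K (x '' (B : Set α)))
    have h2 : rkx K x (A ∩ B) ≤ finrank K (Submodule.span K (x '' (A : Set α)) ⊓
        Submodule.span K (x '' (B : Set α)) : Submodule K V) := by
      apply Submodule.finrank_mono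
      apply le_inf
      · exact Submodule.span_mono (Set.image_mono (by simp))
      · exact Submodule.span_mono (Set.image_mono (by simp))
    unfold rkx at h2 ⊢
    omega

end Ranks

section Main

variable {α : Type*} [Fintype α] [DecidableEq α]
  {K : Type*} [Field K] {V : Type*} [AddCommGroup V] [Module K V]

omit [Fintype α] in
lemma free_map_some (P : List α) (C : Finset α) :
    free (P.map fun a => some (decide (a ∈ C))) = 0 := by
  induction P with
  | nil => rfl
  | cons a P ih => simpa [free] using ih

lemma free_none (n : ℕ) : free (List.replicate n none) = n := by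
  induction n with
  | zero => rfl
  | succ n ih => simp [List.replicate_succ, free, ih]

lemma sel_fill_none {β : Type*} (F : List β) (b : ℕ → Bool) :
    sel F (fill (List.replicate F.length none) b) = sel F b := by
  refine sel_congr _ fun n hn => ?_
  have : ∀ (m n : ℕ) (b : ℕ → Bool), n < m → fill (List.replicate m none) b n = b n := by
    intro m
    induction m with
    | zero => intro n b h; omega
    | succ m ih =>
      intro n b h
      rw [List.replicate_succ]
      cases n with
      | zero => rfl
      | succ n => simp only [fill]; exact ih n _ (by omega)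
  exact this _ _ _ hn

omit [Fintype α] in
lemma sel_fill_some {β : Type*} (x : α → β) (P : List α) (C : Finset α) (b : ℕ → Bool) :
    sel (P.map x) (fill (P.map fun a => some (decide (a ∈ C))) b) =
      (P.filter fun a => decide (a ∈ C)).map x := by
  induction P with
  | nil => rfl
  | cons a P ih =>
    simp only [List.map_cons, sel_cons, fill]
    rw [List.filter_cons]
    by_cases h : a ∈ C
    · simp only [h, decide_true, if_true, List.map_cons]
      rw [ih]
    · simp only [h, decide_false, Bool.false_eq_true, if_false]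
      rw [ih]

omit [Fintype α] [AddCommGroup V] in
lemma exists_bits (x : α → V) (P : List α) (C : Finset α) :
    ∃ m, (P.filter fun a => decide (a ∈ C)).map x = sel (P.map x) m :=
  ⟨_, (sel_fill_some x P C (fun _ => false)).symm⟩

/-- slices of a Plücker vector along a link -/
theorem link_slice [FiniteDimensional K V] {φ : ExteriorAlgebra K V →ₗ[K] K} (hφ : IsVol φ)
    (x : α → V) (hx : Submodule.span K (Set.range x) = ⊤) (L₁ P F Q L₂ : List α)
    (hnd : (L₁ ++ (P ++ F ++ Q) ++ L₂).Nodup)
    (huniv : (L₁ ++ (P ++ F ++ Q) ++ L₂).toFinset = Finset.univ)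
    (hs : ∀ X : Finset α, F.toFinset ⊆ X → X ⊆ (P ++ F ++ Q).toFinset →
      conn (rkx K x) F.toFinset ≤ conn (rkx K x) X) :
    ∃ π : List (Option Bool), π.length = (P ++ F ++ Q).length ∧ free π = F.length ∧
      (Usp φ (L₁.map x) ((P ++ F ++ Q).map x) (L₂.map x)).map (slice K π) =
        Usp φ ((L₁ ++ P).map x) (F.map x) ((Q ++ L₂).map x) := by
  classical
  set r := rkx K x with hr
  have hrk : IsRk r := rkx_isRk x
  have h0 : r ∅ = 0 := rkx_empty x
  have huniv' : ∀ a : α, a ∈ L₁ ∨ a ∈ P ∨ a ∈ F ∨ a ∈ Q ∨ a ∈ L₂ := by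
    intro a
    have : a ∈ (L₁ ++ (P ++ F ++ Q) ++ L₂).toFinset := by rw [huniv]; simp
    simp only [List.mem_toFinset, List.mem_append] at this
    tauto
  have hruniv : r Finset.univ = finrank K V := by
    rw [hr, rkx, Finset.coe_univ, Set.image_univ, hx, finrank_top]
  -- pairwise disjointness
  have hnd' := hnd
  simp only [List.nodup_append, List.mem_append] at hnd'
  set D : Finset α := (P ++ Q).toFinset with hD
  set T : Finset α := (L₁ ++ L₂).toFinset with hT
  have hFdis : ∀ a ∈ F, a ∉ P ∧ a ∉ Q ∧ a ∉ L₁ ∧ a ∉ L₂ := by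
    intro a ha
    refine ⟨?_, ?_, ?_, ?_⟩
    · intro h; exact hnd'.1.2.1.1.2.2 a h a ha rfl
    · intro h; exact hnd'.1.2.1.2.2 a (Or.inr ha) a h rfl
    · intro h; exact hnd'.1.2.2 a h a (Or.inl (Or.inr ha)) rfl
    · intro h; exact hnd'.2.2 a (Or.inr (Or.inl (Or.inr ha))) a h rfl
  have hDdis : ∀ a ∈ D, a ∉ L₁ ∧ a ∉ L₂ := by
    intro a ha
    rw [hD, List.mem_toFinset, List.mem_append] at ha
    refine ⟨?_, ?_⟩
    · intro h
      rcases ha with ha | ha
      · exact hnd'.1.2.2 a h a (Or.inl (Or.inl ha)) rfl
      · exact hnd'.1.2.2 a h a (Or.inr ha) rfl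
    · intro h
      rcases ha with ha | ha
      · exact hnd'.2.2 a (Or.inr (Or.inl (Or.inl ha))) a h rfl
      · exact hnd'.2.2 a (Or.inr (Or.inr ha)) a h rfl
  have hcompl : ∀ Y ⊆ D, (F.toFinset ∪ Y)ᶜ = T ∪ (D \ Y) := by
    intro Y hY
    ext a
    have h1 := huniv' a
    simp only [Finset.mem_compl, Finset.mem_union, List.mem_toFinset, hT, List.mem_append,
      Finset.mem_sdiff, not_or]
    constructor
    · rintro ⟨h2, h3⟩
      have : a ∈ D ↔ a ∈ P ∨ a ∈ Q := by rw [hD, List.mem_toFinset, List.mem_append]
      tauto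
    · rintro (h | h)
      · refine ⟨fun h2 => ?_, fun h2 => ?_⟩
        · have := hFdis a h2; tauto
        · have := hDdis a (hY h2); tauto
      · refine ⟨fun h2 => ?_, h.2⟩
        have h3 := hFdis a h2
        have h4 := h.1
        rw [hD, List.mem_toFinset, List.mem_append] at h4
        tauto
  have hADT : F.toFinset ∪ D ∪ T = Finset.univ := by
    ext a
    have h1 := huniv' a
    simp only [Finset.mem_union, List.mem_toFinset, hT, hD, List.mem_append, Finset.mem_univ,
      iff_true]
    tauto
  obtain ⟨C, hCD, c1, c2, c3⟩ := linking D r hrk F.toFinset T (conn r F.toFinset) (by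
    intro Y hY
    have h1 := hs (F.toFinset ∪ Y) Finset.subset_union_left (by
      intro a ha
      simp only [Finset.mem_union, List.mem_toFinset, List.mem_append] at ha ⊢
      rcases ha with ha | ha
      · exact Or.inl (Or.inr ha)
      · have := hY ha
        rw [hD, List.mem_toFinset, List.mem_append] at this
        tauto)
    have h2 := hrk.le_add h0 (F.toFinset ∪ Y)
    rw [hADT, h0, ← hcompl Y hY]
    have h3 : conn r (F.toFinset ∪ Y) = r (F.toFinset ∪ Y) + r (F.toFinset ∪ Y)ᶜ -
      r Finset.univ := rfl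
    omega)
  rw [h0, zero_add] at c1
  rw [hADT] at c2 c3
  rw [h0, add_zero] at c3
  set M₁ : List V := (P.filter fun a => decide (a ∈ C)).map x with hM₁
  set M₂ : List V := (Q.filter fun a => decide (a ∈ C)).map x with hM₂
  obtain ⟨m₁, hm₁⟩ := exists_bits x P C
  obtain ⟨m₂, hm₂⟩ := exists_bits x Q C
  set π : List (Option Bool) := (P.map fun a => some (decide (a ∈ C))) ++
    List.replicate F.length none ++ (Q.map fun a => some (decide (a ∈ C))) with hπ
  have hlen : π.length = (P ++ F ++ Q).length := by simp [hπ]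
  have hfree : free π = F.length := by
    rw [hπ, free_append, free_append, free_map_some, free_none, free_map_some]; omega
  have hsel : ∀ b, sel ((P ++ F ++ Q).map x) (fill π b) = M₁ ++ sel (F.map x) b ++ M₂ := by
    intro b
    rw [List.map_append, List.map_append, sel_append, sel_append]
    congr 1
    · congr 1
      · rw [hM₁, ← sel_fill_some x P C b]
        refine sel_congr _ fun n hn => ?_
        rw [List.length_map] at hn
        rw [hπ, List.append_assoc, fill_append_left _ _ _ (by simpa using hn)]
      · rw [← sel_fill_none (F.map x) b]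
        refine sel_congr _ fun n hn => ?_
        rw [List.length_map] at hn ⊢
        have e1 : P.length = (P.map fun a => some (decide (a ∈ C))).length := by simp
        rw [hπ, List.append_assoc, e1, fill_append_right, free_map_some,
          fill_append_left _ _ _ (by simpa using hn), List.length_map]
        rfl
    · rw [hM₂, ← sel_fill_some x Q C (fun n => b (n + F.length))]
      refine sel_congr _ fun n hn => ?_
      have e1 : (List.map x P ++ List.map x F).length =
        ((P.map fun a => some (decide (a ∈ C))) ++ List.replicate F.length none).length := by simp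
      rw [hπ, e1, fill_append_right, free_append, free_map_some, free_none, zero_add]
  refine ⟨π, hlen, hfree, ?_⟩
  have hUsl := Usp_slice φ (L₁.map x) (P.map x) (F.map x) (Q.map x) (L₂.map x) π M₁ M₂ (by
    simpa only [List.map_append] using hsel)
  have hle := Usp_slice_le φ (L₁.map x) (P.map x) (F.map x) (Q.map x) (L₂.map x) m₁ m₂
  rw [← hm₁, ← hm₂, ← hM₁, ← hM₂, ← hUsl] at hle
  simp only [List.map_append] at *
  -- ranks
  have hspan : ∀ ℓ : List α, spanL K (ℓ.map x) = Submodule.span K (x '' (ℓ.toFinset : Set α)) :=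
    spanL_map x
  have hCl : ((P.filter fun a => decide (a ∈ C)) ++ (Q.filter fun a => decide (a ∈ C))).toFinset =
      C := by
    ext a
    simp only [List.mem_toFinset, List.mem_append, List.mem_filter, decide_eq_true_eq]
    constructor
    · rintro (h | h)
      · exact h.2
      · exact h.2
    · intro h
      have := hCD h
      rw [hD, List.mem_toFinset, List.mem_append] at this
      tauto
  have hCnd : ((P.filter fun a => decide (a ∈ C)) ++ (Q.filter fun a => decide (a ∈ C))).Nodup := by
    have h1 : (P ++ Q).Nodup := by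
      rw [List.nodup_append]
      refine ⟨hnd'.1.2.1.1.1, hnd'.1.2.1.2.1, ?_⟩
      intro a ha b hb
      exact hnd'.1.2.1.2.2 a (Or.inl ha) b hb
    rw [← List.filter_append]
    exact h1.filter _
  have hM : spanL K (M₁ ++ M₂) = Submodule.span K (x '' (C : Set α)) := by
    rw [hM₁, hM₂, ← List.map_append, hspan, hCl]
  have hMl : (M₁ ++ M₂).length = C.card := by
    have h := List.toFinset_card_of_nodup hCnd
    rw [hCl] at h
    rw [hM₁, hM₂, ← List.map_append, List.length_map, h]
  have hTl : spanL K (L₁.map x ++ L₂.map x) = Submodule.span K (x '' (T : Set α)) := by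
    rw [← List.map_append, hspan]
  obtain ⟨s', s1, s2⟩ := rank_flat hφ (L₁.map x) M₁ (F.map x) M₂ (L₂.map x) (by
      rw [hM, hMl, ← c1]; rfl) (by
      rw [hM, hTl, hspan, ← Submodule.span_union, ← Submodule.span_union, ← Set.image_union,
        ← Set.image_union, ← Finset.coe_union, ← Finset.coe_union]
      apply Submodule.eq_top_of_finrank_eq
      rw [← hruniv, ← c2]
      rfl)
  rw [hM, hTl, hspan, hMl, ← rkx_union, ← rkx_union, ← hr] at s1
  obtain ⟨s'', t1, t2⟩ := finrank_Usp hφ (L₁.map x ++ P.map x) (F.map x) (Q.map x ++ L₂.map x) (by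
    have e1 : L₁.map x ++ P.map x ++ (Q.map x ++ L₂.map x) = (L₁ ++ P ++ (Q ++ L₂)).map x := by
      simp
    rw [e1, hspan, hspan, ← Submodule.span_union, ← Set.image_union, ← Finset.coe_union]
    have e2 : F.toFinset ∪ (L₁ ++ P ++ (Q ++ L₂)).toFinset = Finset.univ := by
      ext a
      have h1 := huniv' a
      simp only [Finset.mem_union, List.mem_toFinset, List.mem_append, Finset.mem_univ,
        iff_true]
      tauto
    rw [e2, Finset.coe_univ, Set.image_univ, hx])
  have hFc : (L₁ ++ P ++ (Q ++ L₂)).toFinset = F.toFinsetᶜ := by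
    ext a
    have h1 := huniv' a
    simp only [List.mem_toFinset, List.mem_append, Finset.mem_compl]
    constructor
    · intro h h2
      have := hFdis a h2
      tauto
    · intro h; tauto
  have e1 : L₁.map x ++ P.map x ++ (Q.map x ++ L₂.map x) = (L₁ ++ P ++ (Q ++ L₂)).map x := by
    simp
  rw [e1, hspan, hspan, hFc] at t1
  have t1' : s'' + r Finset.univ = r F.toFinset + r F.toFinsetᶜ := by
    rw [hruniv]; exact t1
  have hs'' : s'' = conn r F.toFinset := by
    have h3 : conn r F.toFinset = r F.toFinset + r F.toFinsetᶜ - r Finset.univ := rfl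
    omega
  have hfd := Usp_fd φ (L₁.map x ++ P.map x) (F.map x) (Q.map x ++ L₂.map x)
  refine Submodule.eq_of_le_of_finrank_le hle ?_
  rw [t2, hUsl, s2]
  apply Nat.pow_le_pow_right (by norm_num)
  rw [← hruniv] at s1
  omega

end Main

end Pool.Agent.H229
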