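import Pool.Agent.H229.Transfer

/-!
The tree of tensors of a point of bounded branch-width.
-/

namespace Pool.Agent.H229

open MvPolynomial Module BT

universe u

lemma lift_tree (S : Finset ℤ) (t : BT ℤ) (h : ∀ a ∈ t.fs, a ∈ S) :
    ∃ t' : BT {z // z ∈ S}, t'.fs.map (Function.Embedding.subtype _) = t.fs ∧
      (t.Part → t'.Part) ∧ ∀ Y ∈ t'.nodes, Y.map (Function.Embedding.subtype _) ∈ t.nodes := by
  induction t with
  | leaf a =>
    refine ⟨.leaf ⟨a, h a (by simp)⟩, by simp, fun _ => trivial, ?_⟩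
    intro Y hY
    simp only [nodes, Finset.mem_singleton] at hY
    subst hY
    simp [nodes]
  | node l r ihl ihr =>
    obtain ⟨l', l1, l2, l3⟩ := ihl fun a ha => h a (by simp [ha])
    obtain ⟨r', r1, r2, r3⟩ := ihr fun a ha => h a (by simp [ha])
    have e : (l'.fs ∪ r'.fs).map (Function.Embedding.subtype _) = l.fs ∪ r.fs := by
      rw [Finset.map_union, l1, r1]
    refine ⟨.node l' r', e, fun hp => ⟨?_, l2 hp.2.1, r2 hp.2.2⟩, ?_⟩
    · have h1 := hp.1
      rw [← l1, ← r1, Finset.disjoint_map] at h1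
      exact h1
    · intro Y hY
      simp only [nodes, Finset.mem_insert, Finset.mem_union] at hY ⊢
      rcases hY with rfl | hY | hY
      · exact Or.inl e
      · exact Or.inr (Or.inl (l3 Y hY))
      · exact Or.inr (Or.inr (r3 Y hY))

lemma cnt_eq (N : ℕ) (Y : Finset ℤ) (s : Idx) :
    cnt N Y s = ((toL N s).toFinset.filter fun a => a ∈ Y).card := by
  rw [cnt, ← Finset.card_image_of_injective _ s.inj]
  congr 1
  ext a
  simp only [Finset.mem_image, Finset.mem_filter, Finset.mem_range, List.mem_toFinset, mem_toL]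
  constructor
  · rintro ⟨j, ⟨h1, h2⟩, rfl⟩
    exact ⟨⟨j, h1, rfl⟩, h2⟩
  · rintro ⟨⟨j, h1, rfl⟩, h2⟩
    exact ⟨j, ⟨h1, h2⟩, rfl⟩

variable {k : Type u} [Field k]

lemma coord_ne_zero {P : PrimeSpectrum (MvPolynomial Idx k)} {s : Idx} :
    coord P s ≠ 0 ↔ X s ∉ P.asIdeal := by
  rw [coord, ne_eq, Ideal.algebraMap_residueField_eq_zero]

/-- coordinates as values of the volume functional -/
lemma exists_vectors {P : PrimeSpectrum (MvPolynomial Idx k)} (hP : P ∈ Gr k) {N : ℕ}
    (hN : 1 ≤ N) : ∃ x : ℤ → Fin N → P.asIdeal.ResidueField, ∀ s, AtLevel N N s →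
      coord P s = vol _ N (prodL _ ((toL N s).map x)) := by
  obtain ⟨φ, hφ⟩ := hP N N hN hN
  refine ⟨fun a i => φ i a, fun s hs => ?_⟩
  rw [hφ s hs, toL, List.map_ofFn, vol_ofFn, ← Matrix.det_transpose]
  rfl

variable {K : Type u} [Field K]

/-- bases adapted to a set of labels -/
lemma exists_adapted {N : ℕ} (x : ℤ → Fin N → K)
    (htop : Submodule.span K (x '' (lab N N : Set ℤ)) = ⊤) (Y : Finset ℤ) (hY : Y ⊆ lab N N) :
    ∃ s, AtLevel N N s ∧ vol K N (prodL K ((toL N s).map x)) ≠ 0 ∧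
      finrank K (Submodule.span K (x '' (Y : Set ℤ))) ≤ cnt N Y s := by
  classical
  obtain ⟨b₁, h1, -, h2, h3⟩ := exists_linearIndepOn_extension
    (linearIndepOn_empty K x) (Set.empty_subset (Y : Set ℤ))
  obtain ⟨b₂, h4, h5, h6, h7⟩ := exists_linearIndepOn_extension h3
    (h1.trans (by exact_mod_cast hY) : b₁ ⊆ (lab N N : Set ℤ))
  obtain ⟨B₁, rfl⟩ : ∃ B : Finset ℤ, (B : Set ℤ) = b₁ :=
    ⟨_, (Set.Finite.subset (Finset.finite_toSet Y) h1).coe_toFinset⟩
  obtain ⟨B₂, rfl⟩ : ∃ B : Finset ℤ, (B : Set ℤ) = b₂ :=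
    ⟨_, (Set.Finite.subset (Finset.finite_toSet _) h4).coe_toFinset⟩
  have hcard : ∀ B : Finset ℤ, LinearIndepOn K x (B : Set ℤ) →
      finrank K (Submodule.span K (x '' (B : Set ℤ))) = B.card := by
    intro B hB
    have e : x '' (B : Set ℤ) = Set.range fun i : (B : Set ℤ) => x i := by
      rw [Set.image_eq_range]
    rw [e, finrank_span_eq_card hB]
    simp
  have hs2 : Submodule.span K (x '' (B₂ : Set ℤ)) = ⊤ := by
    rw [eq_top_iff, ← htop]
    exact Submodule.span_le.2 h6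
  have hs1 : Submodule.span K (x '' (Y : Set ℤ)) = Submodule.span K (x '' (B₁ : Set ℤ)) :=
    le_antisymm (Submodule.span_le.2 h2) (Submodule.span_mono (Set.image_mono h1))
  have hc2 : B₂.card = N := by
    rw [← hcard B₂ h7, hs2, finrank_top]; simp
  obtain ⟨s, h8, h9⟩ := exists_idx (n := N) (p := N) B₂.toList B₂.nodup_toList (by simp [hc2])
    (fun a ha => by
      have := h4 (Finset.mem_toList.1 ha)
      exact_mod_cast this)
  refine ⟨s, h8, ?_, ?_⟩
  · rw [h9, vol_isVol, spanL_map]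
    refine ⟨by simp [hc2], ?_⟩
    rw [Finset.toList_toFinset]
    exact hs2
  · rw [hs1, hcard B₁ h3, cnt_eq, h9, Finset.toList_toFinset]
    apply Finset.card_le_card
    intro a ha
    rw [Finset.mem_filter]
    exact ⟨by exact_mod_cast h5 ha, by exact_mod_cast h1 ha⟩

lemma cnt_add {N : ℕ} {s : Idx} (hs : AtLevel N N s) {Y : Finset ℤ} :
    cnt N Y s + cnt N (lab N N \ Y) s = N := by
  have h1 : (Finset.range N).filter (fun j => s.seq j ∈ lab N N \ Y) =
      (Finset.range N).filter (fun j => ¬ s.seq j ∈ Y) := by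
    apply Finset.filter_congr
    intro j hj
    rw [Finset.mem_sdiff]
    exact ⟨fun h => h.2, fun h => ⟨hs.2 j (Finset.mem_range.1 hj), h⟩⟩
  rw [cnt, cnt, h1, Finset.card_filter_add_card_filter_not, Finset.card_range]

/-- The tree of tensors of a point of bounded branch-width. -/
theorem point_tree {w : ℕ} (a₀ : Fin (2 ^ w)) {P : PrimeSpectrum (MvPolynomial Idx k)}
    (hP : P ∈ GrW k w) {N : ℕ} (hN : 1 ≤ N) {s₀ : Idx} (hs₀ : AtLevel N N s₀)
    (hne : X s₀ ∉ P.asIdeal) :
    ∃ (x : ℤ → Fin N → P.asIdeal.ResidueField) (ℓ : List ℤ), ℓ.Nodup ∧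
      (∀ a, a ∈ ℓ ↔ a ∈ lab N N) ∧
      (∀ s, AtLevel N N s → coord P s = vol _ N (prodL _ ((toL N s).map x))) ∧
      ∃ T : Tr (Fin (cR (2 ^ w)) → P.asIdeal.ResidueField), T.leaves = ℓ.length ∧
        T.Bdd (w + 1) ∧ Normal T ∧
        ∀ b, evalT T b a₀ = vol _ N (prodL _ ((sel ℓ b).map x)) := by
  classical
  obtain ⟨x, hx⟩ := exists_vectors hP.1 hN
  obtain ⟨t, t1, t2, t3⟩ := hP.2 N N hN hN
  have htop : Submodule.span P.asIdeal.ResidueField (x '' (lab N N : Set ℤ)) = ⊤ := by
    have h1 := coord_ne_zero.2 hne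
    rw [hx s₀ hs₀, vol_isVol, spanL_map] at h1
    rw [eq_top_iff, ← h1.2]
    refine Submodule.span_mono (Set.image_mono ?_)
    intro a ha
    have : a ∈ toL N s₀ := by simpa using ha
    exact_mod_cast hs₀.mem this
  obtain ⟨t', l1, l2, l3⟩ := lift_tree (lab N N) t (fun a ha => t2 ▸ ha)
  set y : {z // z ∈ lab N N} → Fin N → P.asIdeal.ResidueField := fun z => x z.1 with hy
  have himg : ∀ Y : Finset {z // z ∈ lab N N}, y '' (Y : Set {z // z ∈ lab N N}) =
      x '' ((Y.map (Function.Embedding.subtype _) : Finset ℤ) : Set ℤ) := by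
    intro Y
    rw [Finset.coe_map, ← Set.image_comp]
    rfl
  have hrk : ∀ Y : Finset {z // z ∈ lab N N}, rkx P.asIdeal.ResidueField y Y =
      finrank P.asIdeal.ResidueField (Submodule.span P.asIdeal.ResidueField
        (x '' ((Y.map (Function.Embedding.subtype _) : Finset ℤ) : Set ℤ))) := by
    intro Y
    rw [rkx, himg]
  have huniv : (Finset.univ : Finset {z // z ∈ lab N N}).map (Function.Embedding.subtype _) = lab N N := by
    ext a; simp
  have htop' : Submodule.span P.asIdeal.ResidueField (Set.range y) = ⊤ := by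
    rw [← Set.image_univ, ← Finset.coe_univ, himg, huniv, htop]
  have hfs : t'.fs = Finset.univ := by
    apply Finset.map_injective (Function.Embedding.subtype _)
    rw [l1, t2, huniv]
  obtain ⟨ℓ, m1, m2, T, m3, m4, m5, m6⟩ := exists_normal (vol_isVol (p := N)) y htop' w a₀ t'
    (l2 t1) hfs (by
      intro Y hY
      set Z : Finset ℤ := Y.map (Function.Embedding.subtype _) with hZ
      have hZl : Z ⊆ lab N N := by
        intro a ha
        rw [hZ, Finset.mem_map] at ha
        obtain ⟨z, -, rfl⟩ := ha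
        exact z.2
      have hZc : Yᶜ.map (Function.Embedding.subtype _) = lab N N \ Z := by
        ext a
        simp only [Finset.mem_map, Finset.mem_compl, Finset.mem_sdiff, hZ]
        constructor
        · rintro ⟨z, hz, rfl⟩
          refine ⟨z.2, ?_⟩
          rintro ⟨z', hz', he⟩
          exact hz (Subtype.ext he ▸ hz')
        · rintro ⟨ha, hz⟩
          exact ⟨⟨a, ha⟩, fun h => hz ⟨_, h, rfl⟩, rfl⟩
      obtain ⟨s₁, a1, a2, a3⟩ := exists_adapted x htop Z hZl
      obtain ⟨s₂, b1, b2, b3⟩ := exists_adapted x htop (lab N N \ Z) Finset.sdiff_subset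
      have h1 := t3 Z (l3 Y hY) s₁ s₂ a1 b1
        (coord_ne_zero.1 (by rw [hx _ a1]; exact a2)) (coord_ne_zero.1 (by rw [hx _ b1]; exact b2))
      have h2 := cnt_add b1 (Y := Z)
      have h3 : rkx P.asIdeal.ResidueField y Finset.univ = N := by
        rw [hrk, huniv, htop, finrank_top]; simp
      have h4 : conn (rkx P.asIdeal.ResidueField y) Y = rkx P.asIdeal.ResidueField y Y +
        rkx P.asIdeal.ResidueField y Yᶜ - rkx P.asIdeal.ResidueField y Finset.univ := rfl
      rw [h4, h3, hrk Y, hrk Yᶜ, hZc, ← hZ]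
      omega)
  refine ⟨x, ℓ.map Subtype.val, m1.map Subtype.val_injective, ?_, hx, T, by simp [m3], m4, m5, ?_⟩
  · intro a
    simp only [List.mem_map]
    constructor
    · rintro ⟨z, -, rfl⟩; exact z.2
    · intro ha; exact ⟨⟨a, ha⟩, m2 _, rfl⟩
  · intro b
    rw [m6, sel_map', sel_map', List.map_map]
    rfl

end Pool.Agent.H229
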