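import Pool.Agent.H229.Ext

/-!
The rank of the pairing between the exterior algebras of two subspaces.
-/

namespace Pool.Agent.H229

open Module

variable {K : Type*} [Field K] {V : Type*} [AddCommGroup V] [Module K V]

lemma exists_basis_list [FiniteDimensional K V] (S : Submodule K V) :
    ∃ L : List V, spanL K L = S ∧ L.length = finrank K S := by
  refine ⟨List.ofFn fun i => (finBasis K S i : V), ?_, by simp⟩
  have e : {x | x ∈ List.ofFn fun i => (finBasis K S i : V)} =
      Set.range fun i => (finBasis K S i : V) := by
    ext x; simp [List.mem_ofFn]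
  rw [spanL, e]
  have h2 : (Set.range fun i => (finBasis K S i : V)) =
      S.subtype '' Set.range (finBasis K S) := by
    rw [← Set.range_comp]; rfl
  rw [h2, Submodule.span_image, (finBasis K S).span_eq, Submodule.map_top, Submodule.range_subtype]

lemma exists_extend_list [FiniteDimensional K V] {U S : Submodule K V} (h : U ≤ S) :
    ∃ L : List V, spanL K L ⊔ U = S ∧ L.length + finrank K U = finrank K S := by
  obtain ⟨C, hC⟩ := exists_isCompl U
  obtain ⟨L, h1, h2⟩ := exists_basis_list (K := K) (C ⊓ S)
  have h3 : U ⊔ C ⊓ S = S := by
    rw [← sup_inf_assoc_of_le _ h, hC.sup_eq_top, top_inf_eq]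
  have h4 : U ⊓ (C ⊓ S) = ⊥ := by
    rw [← inf_assoc, hC.inf_eq_bot, bot_inf_eq]
  have h5 := Submodule.finrank_sup_add_finrank_inf_eq U (C ⊓ S)
  rw [h3, h4, finrank_bot] at h5
  exact ⟨L, by rw [h1, sup_comm, h3], by omega⟩

/-- the function of bits given by a list of vectors and an element of the exterior algebra -/
noncomputable def Gm (φ : ExteriorAlgebra K V →ₗ[K] K) (A : List V) :
    ExteriorAlgebra K V →ₗ[K] ((ℕ → Bool) → K) :=
  LinearMap.pi fun b => φ ∘ₗ LinearMap.mulLeft K (prodL K (sel A b))

@[simp] lemma Gm_apply (φ : ExteriorAlgebra K V →ₗ[K] K) (A : List V)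
    (ω : ExteriorAlgebra K V) (b : ℕ → Bool) : Gm φ A ω b = φ (prodL K (sel A b) * ω) := rfl

theorem rank_pair [FiniteDimensional K V] {φ : ExteriorAlgebra K V →ₗ[K] K} (hφ : IsVol φ)
    (A : List V) (S' : Submodule K V) (htop : spanL K A ⊔ S' = ⊤) :
    finrank K ((Lam S').map (Gm φ A)) = 2 ^ finrank K (spanL K A ⊓ S' : Submodule K V) := by
  classical
  set S : Submodule K V := spanL K A with hS
  obtain ⟨u, hu1, hu2⟩ := exists_basis_list (K := K) (S ⊓ S')
  obtain ⟨p, hp1, hp2⟩ := exists_extend_list (K := K) (U := S ⊓ S') (S := S) inf_le_left
  obtain ⟨q, hq1, hq2⟩ := exists_extend_list (K := K) (U := S ⊓ S') (S := S') inf_le_right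
  have hdim := Submodule.finrank_sup_add_finrank_inf_eq S S'
  rw [htop, finrank_top] at hdim
  have hpu : spanL K (p ++ u) = S := by rw [spanL_append, hu1, hp1]
  have huq : spanL K (u ++ q) = S' := by rw [spanL_append, hu1, sup_comm, hq1]
  -- values of `φ`
  have hval : ∀ (p' q' : List V) (d c : ℕ → Bool), p'.Sublist p → q'.Sublist q →
      φ (prodL K p' * prodL K (sel u d) * (prodL K (sel u c) * prodL K q')) ≠ 0 →
      p'.length = p.length ∧ q'.length = q.length ∧ (∀ i < u.length, c i = !d i) := by
    intro p' q' d c hp' hq' hne
    have e : prodL K p' * prodL K (sel u d) * (prodL K (sel u c) * prodL K q') =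
        prodL K (p' ++ sel u d ++ (sel u c ++ q')) := by
      rw [prodL_append, prodL_append, prodL_append]
    rw [e] at hne
    have hnd := hφ.nodup hne
    obtain ⟨hlen, -⟩ := (hφ _).1 hne
    simp only [List.length_append] at hlen
    have h1 := hp'.length_le
    have h2 := hq'.length_le
    have hdisj : ¬ ∃ x, x ∈ sel u d ∧ x ∈ sel u c := by
      rintro ⟨x, hx1, hx2⟩
      rw [List.nodup_append] at hnd
      exact hnd.2.2 x (by simp [hx1]) x (by simp [hx2]) rfl
    have h3 := sel_disj_len u d c hdisj
    rcases sel_tri u d c with h | h | h
    · exact absurd h hdisj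
    · omega
    · exact ⟨by omega, by omega, h⟩
  have hval0 : ∀ (d c : ℕ → Bool), (∀ i < u.length, c i = !d i) →
      φ (prodL K p * prodL K (sel u d) * (prodL K (sel u c) * prodL K q)) ≠ 0 := by
    intro d c h
    have e : prodL K p * prodL K (sel u d) * (prodL K (sel u c) * prodL K q) =
        prodL K (p ++ (sel u d ++ sel u c) ++ q) := by
      rw [prodL_append, prodL_append, prodL_append]
      simp only [mul_assoc]
    rw [e, hφ]
    have hperm : (p ++ (sel u d ++ sel u c) ++ q).Perm (p ++ u ++ q) :=
      ((sel_perm u d c h).append_left p).append_right q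
    refine ⟨?_, ?_⟩
    · rw [hperm.length_eq]
      simp only [List.length_append]
      omega
    · have e2 : {x | x ∈ p ++ (sel u d ++ sel u c) ++ q} = {x | x ∈ p ++ u ++ q} := by
        ext x; exact hperm.mem_iff
      rw [spanL, e2, ← spanL, spanL_append, hpu, ← htop, ← huq, spanL_append, ← hpu,
        spanL_append]
      apply le_antisymm
      · exact sup_le (le_sup_left) (le_sup_right.trans le_sup_right)
      · exact sup_le le_sup_left (sup_le (le_sup_right.trans le_sup_left) le_sup_right)
  -- bits from functions on `Fin`
  set bt : (Fin u.length → Bool) → ℕ → Bool := fun f n =>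
    if h : n < u.length then f ⟨n, h⟩ else false with hbt
  set F : (Fin u.length → Bool) → ((ℕ → Bool) → K) := fun f =>
    Gm φ A (prodL K (sel u (bt f)) * prodL K q) with hF
  have hcomp : ∀ f g : Fin u.length → Bool,
      (∀ i < u.length, bt f i = !(bt fun j => !g j) i) → f = g := by
    intro f g h
    funext i
    have := h i.1 i.2
    simpa [hbt, i.2] using this
  -- linear independence
  have hli : LinearIndependent K F := by
    rw [Fintype.linearIndependent_iff]
    intro a ha f₀
    have hlin : ∀ β ∈ Lam S, (∑ f, a f • φ (β * (prodL K (sel u (bt f)) * prodL K q))) = 0 := by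
      intro β hβ
      rw [hS, ← span_sel] at hβ
      induction hβ using Submodule.span_induction with
      | mem x hx =>
        obtain ⟨b, rfl⟩ := hx
        have := congrFun ha b
        simpa [hF, Finset.sum_apply] using this
      | zero => simp
      | add x y _ _ hx hy =>
        simp only [add_mul, map_add, smul_add, Finset.sum_add_distrib, hx, hy, add_zero]
      | smul c x _ hx =>
        simp only [smul_mul_assoc, map_smul]
        have : ∀ f, a f • (c • φ (x * (prodL K (sel u (bt f)) * prodL K q))) =
            c • (a f • φ (x * (prodL K (sel u (bt f)) * prodL K q))) := fun f => smul_comm _ _ _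
        simp only [this, ← Finset.smul_sum, hx, smul_zero]
    have h1 := hlin (prodL K p * prodL K (sel u (bt fun j => !f₀ j))) (by
      rw [← prodL_append]
      refine prodL_mem_Lam _ fun x hx => ?_
      rw [← hpu]
      refine Submodule.subset_span ?_
      simp only [List.mem_append, Set.mem_setOf_eq] at hx ⊢
      exact hx.imp id fun h => (sel_sublist _ _).subset h)
    rw [Finset.sum_eq_single f₀] at h1
    · rcases smul_eq_zero.1 h1 with h | h
      · exact h
      · exact absurd h (hval0 _ _ fun i hi => by simp [hbt, hi])
    · intro f _ hf
      by_contra hne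
      rw [smul_eq_zero, not_or] at hne
      have := (hval p q _ _ (List.Sublist.refl _) (List.Sublist.refl _) hne.2).2.2
      exact hf (hcomp f f₀ this)
    · intro h; exact absurd (Finset.mem_univ _) h
  -- span
  have hspan : (Lam S').map (Gm φ A) = Submodule.span K (Set.range F) := by
    rw [← huq, ← span_sel, Submodule.map_span, ← Set.range_comp]
    apply le_antisymm
    · rw [Submodule.span_le]
      rintro _ ⟨b, rfl⟩
      simp only [Function.comp_apply, SetLike.mem_coe]
      rw [sel_append, prodL_append]
      by_cases hq' : (sel q fun n => b (n + u.length)).length = q.length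
      · have e1 : (sel q fun n => b (n + u.length)) = q :=
          (sel_sublist _ _).eq_of_length hq'
        rw [e1]
        refine Submodule.subset_span ⟨fun i => b i.1, ?_⟩
        simp only [hF]
        congr 3
        refine sel_congr _ fun n hn => ?_
        simp [hbt, hn]
      · have e1 : Gm φ A (prodL K (sel u b) * prodL K (sel q fun n => b (n + u.length))) = 0 := by
          funext b'
          rw [Gm_apply]
          have hz : ∀ β ∈ Lam S, φ (β * (prodL K (sel u b) *
              prodL K (sel q fun n => b (n + u.length)))) = 0 := by
            intro β hβ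
            rw [← hpu, ← span_sel] at hβ
            induction hβ using Submodule.span_induction with
            | mem x hx =>
              obtain ⟨c, rfl⟩ := hx
              simp only
              by_contra hne
              rw [sel_append, prodL_append] at hne
              exact hq' (hval _ _ _ _ (sel_sublist _ _) (sel_sublist _ _) hne).2.1
            | zero => simp
            | add x y _ _ hx hy => rw [add_mul, map_add, hx, hy, add_zero]
            | smul c x _ hx => rw [smul_mul_assoc, map_smul, hx, smul_zero]
          exact hz _ (prodL_mem_Lam _ fun x hx =>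
            Submodule.subset_span ((sel_sublist _ _).subset hx))
        rw [e1]
        exact Submodule.zero_mem _
    · rw [Submodule.span_le]
      rintro _ ⟨f, rfl⟩
      refine Submodule.subset_span ⟨fun n => if n < u.length then bt f n else true, ?_⟩
      simp only [Function.comp_apply, hF]
      rw [sel_append, prodL_append]
      congr 3
      · refine sel_congr _ fun n hn => by simp [hn]
      · have : (fun n => if n + u.length < u.length then bt f (n + u.length) else true) =
            fun _ => true := by
          funext n
          rw [if_neg (by omega)]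
        rw [this, sel_true]
  rw [hspan, finrank_span_eq_card hli, Fintype.card_fun, Fintype.card_bool, Fintype.card_fin, hu2]

end Pool.Agent.H229
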