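import Pool.Agent.H229.Tree

/-!
Trees with labels read off from a sequence in preorder, and the position maps of gap embeddings.
-/

namespace Pool.Agent.H229

open Tr

variable {L L' L'' : Type*}

/-- the shape of a tree -/
def Tr.shape (t : Tr L) : Tr Unit := t.map fun _ => ()

/-- the tree with the shape of `t` whose labels, in preorder, are `ω 0, ω 1, …` -/
def reLab : Tr L → (ℕ → L') → Tr L'
  | .leaf h _, ω => .leaf h (ω 0)
  | .node h _ l r, ω =>
    .node h (ω 0) (reLab l fun n => ω (n + 1)) (reLab r fun n => ω (n + 1 + l.size))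

@[simp] lemma reLab_ht (t : Tr L) (ω : ℕ → L') : (reLab t ω).ht = t.ht := by
  cases t <;> rfl

@[simp] lemma reLab_size (t : Tr L) (ω : ℕ → L') : (reLab t ω).size = t.size := by
  induction t generalizing ω with
  | leaf h a => rfl
  | node h a l r ihl ihr => simp [reLab, ihl, ihr]

@[simp] lemma reLab_leaves (t : Tr L) (ω : ℕ → L') : (reLab t ω).leaves = t.leaves := by
  induction t generalizing ω with
  | leaf h a => rfl
  | node h a l r ihl ihr => simp [reLab, Tr.leaves, ihl, ihr]

lemma reLab_bdd (N : ℕ) (t : Tr L) (ω : ℕ → L') : (reLab t ω).Bdd N ↔ t.Bdd N := by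
  induction t generalizing ω with
  | leaf h a => rfl
  | node h a l r ihl ihr => simp [reLab, Tr.Bdd, ihl, ihr]

lemma reLab_map (t : Tr L) (ω : ℕ → L') (f : L' → L'') :
    (reLab t ω).map f = reLab t (fun n => f (ω n)) := by
  induction t generalizing ω with
  | leaf h a => rfl
  | node h a l r ihl ihr => simp [reLab, Tr.map, ihl, ihr]

lemma reLab_congr (t : Tr L) {ω ω' : ℕ → L'} (h : ∀ n < t.size, ω n = ω' n) :
    reLab t ω = reLab t ω' := by
  induction t generalizing ω ω' with
  | leaf k a => simp [reLab, h 0 (by simp)]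
  | node k a l r ihl ihr =>
    simp only [size_node] at h
    simp only [reLab]
    rw [h 0 (by omega), ihl (ω := fun n => ω (n + 1)) (ω' := fun n => ω' (n + 1)),
      ihr (ω := fun n => ω (n + 1 + l.size)) (ω' := fun n => ω' (n + 1 + l.size))]
    · intro n hn; exact h _ (by omega)
    · intro n hn; exact h _ (by omega)

lemma Emb.map {M M' : Type*} {r : L → L' → Prop} {r' : M → M' → Prop} {f : L → M} {g : L' → M'}
    (hr : ∀ a b, r a b → r' (f a) (g b)) {s : Tr L} {t : Tr L'} (h : Emb r s t) :
    Emb r' (s.map f) (t.map g) := by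
  have hdesc : ∀ {k : ℕ} {e t : Tr L'}, Desc k e t → Desc k (e.map g) (t.map g) := by
    intro k e t h
    induction h with
    | refl h => refine .refl _ ?_; cases e <;> exact h
    | left hs _ ih => exact .left hs ih
    | right hs _ ih => exact .right hs ih
  have hht : ∀ e : Tr L', (e.map g).ht = e.ht := by
    intro e; cases e <;> rfl
  induction h with
  | leaf h => exact .leaf (hr _ _ h)
  | node h _ _ ih1 ih2 => exact .node (hr _ _ h) ih1 ih2
  | @cut s f t hd hh _ ih =>
    exact .cut (f := f.map g) (by rw [hht]; exact hdesc hd) (by rw [hht, hht]; exact hh) ih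

/-- `Cut σ s t`: cutting out parts of `t` along a gap embedding leaves a tree of shape `s`, and
`σ` gives the positions in `t`, in preorder, of the nodes which are left. -/
def Cut (σ : ℕ → ℕ) (s t : Tr Unit) : Prop :=
  StrictMono σ ∧ (∀ n < s.size, σ n < t.size) ∧ Emb Eq (reLab s σ) (reLab t id)

lemma Cut.emb {σ : ℕ → ℕ} {s t : Tr Unit} (h : Cut σ s t) (ω : ℕ → L) :
    Emb Eq (reLab s fun n => ω (σ n)) (reLab t ω) := by
  have := Emb.map (r' := Eq) (f := ω) (g := ω) (by rintro a b rfl; rfl) h.2.2
  rwa [reLab_map, reLab_map] at this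

lemma Cut.trans {σ τ : ℕ → ℕ} {s t u : Tr Unit} (h1 : Cut σ s t) (h2 : Cut τ t u) :
    Cut (fun n => τ (σ n)) s u := by
  refine ⟨h2.1.comp h1.1, fun n hn => h2.2.1 _ (h1.2.1 n hn), ?_⟩
  exact Emb.trans (fun a b c h1 h2 => h1.trans h2) _ _ le_rfl _ h2.2.2 _ (h1.emb τ)

lemma Desc.reLab_inv {s : ℕ} {x y : Tr L'} (h : Desc s x y) :
    ∀ (t : Tr L) (m : ℕ → L'), y = reLab t m →
      ∃ (f : Tr L) (c : ℕ), x = reLab f (fun n => m (n + c)) ∧ c + f.size ≤ t.size ∧
        (∀ ω : ℕ → ℕ, Desc s (reLab f fun n => ω (n + c)) (reLab t ω)) := by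
  induction h with
  | refl h =>
    intro t m e
    subst e
    exact ⟨t, 0, rfl, by omega, fun ω => .refl _ (by simpa using h)⟩
  | @left k a l r hs hd ih =>
    intro t m e
    cases t with
    | leaf _ _ => simp [reLab] at e
    | node k' a' l' r' =>
      simp only [reLab, Tr.node.injEq] at e
      obtain ⟨rfl, rfl, rfl, rfl⟩ := e
      obtain ⟨f, c, rfl, hc, h⟩ := ih _ _ rfl
      refine ⟨f, c + 1, by simp only [add_assoc], by simp; omega, fun ω => ?_⟩
      exact .left hs (h fun n => ω (n + 1))
  | @right k a l r hs hd ih =>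
    intro t m e
    cases t with
    | leaf _ _ => simp [reLab] at e
    | node k' a' l' r' =>
      simp only [reLab, Tr.node.injEq] at e
      obtain ⟨rfl, rfl, rfl, rfl⟩ := e
      obtain ⟨f, c, rfl, hc, h⟩ := ih _ _ rfl
      refine ⟨f, c + 1 + l'.size, by simp only [add_assoc], by simp; omega, fun ω => ?_⟩
      have := h fun n => ω (n + 1 + l'.size)
      simp only [add_assoc] at this ⊢
      exact .right hs (by simpa only [add_assoc] using this)

theorem Emb.exists_cut {r : L → L' → Prop} {x : Tr L} {y : Tr L'} (h : Emb r x y) :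
    ∀ (s t : Tr Unit) (m : ℕ → L) (m' : ℕ → L'), x = reLab s m → y = reLab t m' →
      ∃ σ, Cut σ s t ∧ ∀ n < s.size, r (m n) (m' (σ n)) := by
  induction h with
  | @leaf k a b hr =>
    intro s t m m' e1 e2
    cases s with
    | node _ _ _ _ => simp [reLab] at e1
    | leaf _ _ =>
    cases t with
    | node _ _ _ _ => simp [reLab] at e2
    | leaf _ _ =>
    simp only [reLab, Tr.leaf.injEq] at e1 e2
    obtain ⟨rfl, rfl⟩ := e1
    obtain ⟨rfl, rfl⟩ := e2
    refine ⟨id, ⟨strictMono_id, by simp, .leaf rfl⟩, ?_⟩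
    intro n hn
    simp only [size_leaf, Nat.lt_one_iff] at hn
    subst hn; exact hr
  | @node k a b l₁ r₁ l₂ r₂ hr hl hr' ihl ihr =>
    intro s t m m' e1 e2
    cases s with
    | leaf _ _ => simp [reLab] at e1
    | node _ _ sl sr =>
    cases t with
    | leaf _ _ => simp [reLab] at e2
    | node _ _ tl tr =>
    simp only [reLab, Tr.node.injEq] at e1 e2
    obtain ⟨rfl, rfl, rfl, rfl⟩ := e1
    obtain ⟨rfl, rfl, rfl, rfl⟩ := e2
    obtain ⟨σ₁, ⟨hσ1, hσ2, hσ3⟩, hσ4⟩ := ihl _ _ _ _ rfl rfl
    obtain ⟨τ, ⟨hτ1, hτ2, hτ3⟩, hτ4⟩ := ihr _ _ _ _ rfl rfl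
    set σ : ℕ → ℕ := fun n => if n = 0 then 0 else if n < 1 + sl.size then σ₁ (n - 1) + 1
      else τ (n - (1 + sl.size)) + 1 + tl.size with hσ
    have e0 : σ 0 = 0 := by simp [hσ]
    have e1 : ∀ n < sl.size, σ (n + 1) = σ₁ n + 1 := by
      intro n hn
      simp only [hσ, Nat.add_eq_zero_iff, one_ne_zero, and_false, if_false,
        Nat.add_sub_cancel]
      rw [if_pos (by omega)]
    have e2 : ∀ n, σ (n + 1 + sl.size) = τ n + 1 + tl.size := by
      intro n
      have h5 : n + 1 + sl.size - (1 + sl.size) = n := by omega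
      simp only [hσ]
      rw [if_neg (show ¬ (n + 1 + sl.size = 0) by omega),
        if_neg (show ¬ (n + 1 + sl.size < 1 + sl.size) by omega), h5]
    refine ⟨σ, ⟨?_, ?_, ?_⟩, ?_⟩
    · refine strictMono_nat_of_lt_succ fun n => ?_
      rcases Nat.eq_zero_or_pos n with h0 | h0
      · subst h0
        rw [e0, e1 0 sl.size_pos]
        omega
      · rcases lt_trichotomy n sl.size with h1 | h1 | h1
        · obtain ⟨n, rfl⟩ := Nat.exists_eq_add_of_le' h0
          rw [e1 n (by omega), e1 (n + 1) (by omega)]
          have := hσ1 (Nat.lt_succ_self n)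
          simp only [Nat.succ_eq_add_one] at this
          omega
        · obtain ⟨n, rfl⟩ := Nat.exists_eq_add_of_le' h0
          rw [e1 n (by omega)]
          have h2 := e2 0
          have h3 : n + 1 + 1 = 0 + 1 + sl.size := by omega
          rw [h3, h2]
          have := hσ2 n (by omega)
          omega
        · obtain ⟨m, rfl⟩ : ∃ m, n = m + 1 + sl.size := ⟨n - 1 - sl.size, by omega⟩
          have h3 : m + 1 + sl.size + 1 = (m + 1) + 1 + sl.size := by omega
          rw [h3, e2, e2]
          have := hτ1 (Nat.lt_succ_self m)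
          simp only [Nat.succ_eq_add_one] at this
          omega
    · intro n hn
      simp only [size_node] at hn ⊢
      rcases Nat.eq_zero_or_pos n with h0 | h0
      · subst h0; rw [e0]; omega
      · rcases lt_or_ge n (1 + sl.size) with h1 | h1
        · obtain ⟨n, rfl⟩ := Nat.exists_eq_add_of_le' h0
          rw [e1 n (by omega)]
          have := hσ2 n (by omega)
          omega
        · obtain ⟨m, rfl⟩ : ∃ m, n = m + 1 + sl.size := ⟨n - 1 - sl.size, by omega⟩
          rw [e2]
          have := hτ2 m (by omega)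
          omega
    · simp only [reLab]
      refine .node ?_ ?_ ?_
      · rw [e0]; rfl
      · have h1 : reLab sl (fun n => σ (n + 1)) = reLab sl (fun n => σ₁ n + 1) :=
          reLab_congr _ fun n hn => e1 n hn
        rw [h1]
        have := Emb.map (r' := Eq) (f := fun n => n + 1) (g := fun n => n + 1)
          (by rintro a b rfl; rfl) hσ3
        rw [reLab_map, reLab_map] at this
        exact this
      · have h1 : reLab sr (fun n => σ (n + 1 + sl.size)) =
            reLab sr (fun n => τ n + 1 + tl.size) :=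
          reLab_congr _ fun n hn => e2 n
        rw [h1]
        have := Emb.map (r' := Eq) (f := fun n => n + 1 + tl.size)
          (g := fun n => n + 1 + tl.size) (by rintro a b rfl; rfl) hτ3
        rw [reLab_map, reLab_map] at this
        exact this
    · intro n hn
      simp only [size_node] at hn
      rcases Nat.eq_zero_or_pos n with h0 | h0
      · subst h0; rw [e0]; exact hr
      · rcases lt_or_ge n (1 + sl.size) with h1 | h1
        · obtain ⟨n, rfl⟩ := Nat.exists_eq_add_of_le' h0
          rw [e1 n (by omega)]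
          exact hσ4 n (by omega)
        · obtain ⟨m, rfl⟩ : ∃ m, n = m + 1 + sl.size := ⟨n - 1 - sl.size, by omega⟩
          rw [e2]
          exact hτ4 m (by omega)
  | @cut x f y hd hh he ih =>
    intro s t m m' e1 e2
    subst e1 e2
    obtain ⟨f', c, rfl, hc, hdes⟩ := hd.reLab_inv _ _ rfl
    obtain ⟨σ, ⟨h1, h2, h3⟩, h4⟩ := ih s f' m _ rfl rfl
    refine ⟨fun n => σ n + c, ⟨fun a b hab => ?_, ?_, ?_⟩, ?_⟩
    · have := h1 hab; simp only; omega
    · intro n hn; have := h2 n hn; show σ n + c < t.size; omega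
    · refine .cut (f := reLab f' fun n => n + c) ?_ ?_ ?_
      · have := hdes id
        simpa using this
      · simpa using hh
      · have := Emb.map (r' := Eq) (f := fun n => n + c) (g := fun n => n + c)
          (by rintro a b rfl; rfl) h3
        rw [reLab_map, reLab_map] at this
        exact this
    · intro n hn
      exact h4 n hn

end Pool.Agent.H229
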