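import Pool.Agent.H229.Ext

/-!
The determinant as a volume functional, and universal signs of rearrangements.
-/

namespace Pool.Agent.H229

open Module

/-- the volume functional on the exterior algebra of `K^p` -/
noncomputable def vol (K : Type*) [Field K] (p : ℕ) : ExteriorAlgebra K (Fin p → K) →ₗ[K] K :=
  ExteriorAlgebra.liftAlternating fun i =>
    if h : i = p then
      (Matrix.detRowAlternating (R := K) (n := Fin p)).domDomCongr (finCongr h.symm) else 0

variable {K : Type*} [Field K] {p : ℕ}

lemma prodL_ofFn {V : Type*} [AddCommGroup V] [Module K V] {n : ℕ} (v : Fin n → V) :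
    prodL K (List.ofFn v) = ExteriorAlgebra.ιMulti K n v := by
  rw [ExteriorAlgebra.ιMulti_apply, prodL, List.map_ofFn]
  rfl

lemma vol_ofFn (v : Fin p → Fin p → K) : vol K p (prodL K (List.ofFn v)) = Matrix.det v := by
  rw [prodL_ofFn, vol, ExteriorAlgebra.liftAlternating_apply_ιMulti]
  simp
  rfl

lemma vol_ne (L : List (Fin p → K)) (h : L.length ≠ p) : vol K p (prodL K L) = 0 := by
  have : L = List.ofFn L.get := (List.ofFn_get L).symm
  rw [this, prodL_ofFn, vol, ExteriorAlgebra.liftAlternating_apply_ιMulti, dif_neg h]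
  rfl

lemma exists_ofFn {β : Type*} (L : List β) {p : ℕ} (h : L.length = p) :
    ∃ v : Fin p → β, L = List.ofFn v := by
  subst h
  exact ⟨L.get, (List.ofFn_get L).symm⟩

lemma vol_isVol : IsVol (vol K p) := by
  intro L
  by_cases h : L.length = p
  swap
  · simp only [vol_ne L h, ne_eq, not_true_eq_false, finrank_fin_fun, false_iff]
    intro h'; exact h h'.1
  obtain ⟨v, rfl⟩ := exists_ofFn L h
  rw [vol_ofFn]
  have hs : spanL K (List.ofFn v) = Submodule.span K (Set.range v) := by
    have : {x | x ∈ List.ofFn v} = Set.range v := by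
      ext x; simp [List.mem_ofFn]
    change Submodule.span K {x | x ∈ List.ofFn v} = _
    rw [this]
  rw [hs]
  constructor
  · intro hd
    refine ⟨by simp, ?_⟩
    have h1 : IsUnit (Matrix.of v) := by
      rw [Matrix.isUnit_iff_isUnit_det]; exact isUnit_iff_ne_zero.2 hd
    have h2 : LinearIndependent K v := Matrix.linearIndependent_rows_iff_isUnit.2 h1
    exact h2.span_eq_top_of_card_eq_finrank' (by simp)
  · rintro ⟨-, ht⟩
    have h2 : LinearIndependent K v :=
      linearIndependent_of_top_le_span_of_card_eq_finrank ht.ge (by simp)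
    have h1 : IsUnit (Matrix.of v) := Matrix.linearIndependent_rows_iff_isUnit.1 h2
    rw [Matrix.isUnit_iff_isUnit_det] at h1
    exact h1.ne_zero

lemma prodL_perm' {α : Type*} {L L' : List α} (h : L.Perm L') :
    ∃ ε : ℤˣ, ∀ (K : Type*) [Field K] (V : Type*) [AddCommGroup V] [Module K V] (y : α → V),
      prodL K (L.map y) = ε • prodL K (L'.map y) := by
  induction h with
  | nil => exact ⟨1, fun K _ V _ _ y => by simp⟩
  | cons x _ ih =>
    obtain ⟨ε, h⟩ := ih
    exact ⟨ε, fun K _ V _ _ y => by
      rw [List.map_cons, List.map_cons, prodL_cons, prodL_cons, h, mul_smul_comm]⟩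
  | swap x y l =>
    refine ⟨-1, fun K _ V _ _ z => ?_⟩
    simp only [List.map_cons, prodL_cons, ← mul_assoc]
    rw [ι_anticomm (z y) (z x)]
    simp
  | trans _ _ ih1 ih2 =>
    obtain ⟨ε, h1⟩ := ih1
    obtain ⟨ε', h2⟩ := ih2
    exact ⟨ε * ε', fun K _ V _ _ y => by rw [h1, h2, smul_smul]⟩

end Pool.Agent.H229
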