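import Pool.Agent.H229.Moves
import Pool.Agent.H229.Vol
import Pool.Agent.H229.Norm

/-!
Rewriting polynomials in the coordinates as polynomials in functions of bits, and sorting
contracted labels to the end.
-/

namespace Pool.Agent.H229

open MvPolynomial Module

universe u

/-- the free labels of a pattern -/
def frL {α : Type*} : List α → List (Option Bool) → List α
  | [], _ => []
  | _ :: _, [] => []
  | a :: ℓ, none :: π => a :: frL ℓ π
  | _ :: ℓ, some _ :: π => frL ℓ π

/-- the contracted labels of a pattern -/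
def cnL {α : Type*} : List α → List (Option Bool) → List α
  | [], _ => []
  | _ :: _, [] => []
  | _ :: ℓ, none :: π => cnL ℓ π
  | a :: ℓ, some c :: π => if c then a :: cnL ℓ π else cnL ℓ π

lemma frL_length {α : Type*} (ℓ : List α) (π : List (Option Bool)) (h : π.length = ℓ.length) :
    (frL ℓ π).length = free π := by
  induction ℓ generalizing π with
  | nil =>
    have : π = [] := List.length_eq_zero_iff.1 (by simpa using h)
    subst this; rfl
  | cons a ℓ ih =>
    cases π with
    | nil => simp at h
    | cons x π =>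
      cases x with
      | none => simp only [frL, free, List.length_cons, ih π (by simpa using h)]
      | some c => simp only [frL, free, ih π (by simpa using h)]

lemma frL_sublist {α : Type*} (ℓ : List α) (π : List (Option Bool)) :
    (frL ℓ π).Sublist ℓ := by
  induction ℓ generalizing π with
  | nil => exact List.Sublist.refl _
  | cons a ℓ ih =>
    cases π with
    | nil => exact List.nil_sublist _
    | cons x π =>
      cases x with
      | none => exact (ih π).cons_cons a
      | some c => exact (ih π).cons a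

lemma cnL_sublist {α : Type*} (ℓ : List α) (π : List (Option Bool)) :
    (cnL ℓ π).Sublist ℓ := by
  induction ℓ generalizing π with
  | nil => exact List.Sublist.refl _
  | cons a ℓ ih =>
    cases π with
    | nil => exact List.nil_sublist _
    | cons x π =>
      cases x with
      | none => exact (ih π).cons a
      | some c =>
        cases c with
        | true => exact (ih π).cons_cons a
        | false => exact (ih π).cons a

lemma fr_cn_nodup {α : Type*} (ℓ : List α) (π : List (Option Bool)) (h : ℓ.Nodup) :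
    (frL ℓ π ++ cnL ℓ π).Nodup := by
  induction ℓ generalizing π with
  | nil => exact List.nodup_nil
  | cons a ℓ ih =>
    rw [List.nodup_cons] at h
    cases π with
    | nil => exact List.nodup_nil
    | cons x π =>
      have h1 : a ∉ frL ℓ π := fun h' => h.1 ((frL_sublist ℓ π).subset h')
      have h2 : a ∉ cnL ℓ π := fun h' => h.1 ((cnL_sublist ℓ π).subset h')
      cases x with
      | none =>
        simp only [frL, cnL, List.cons_append, List.nodup_cons, List.mem_append, not_or]
        exact ⟨⟨h1, h2⟩, ih π h.2⟩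
      | some c =>
        cases c with
        | true =>
          simp only [frL, cnL, if_true]
          rw [List.nodup_middle, List.nodup_cons, List.mem_append, not_or]
          exact ⟨⟨h1, h2⟩, ih π h.2⟩
        | false =>
          simp only [frL, cnL, Bool.false_eq_true, if_false]
          exact ih π h.2

lemma mem_sel_iff {α : Type*} {ℓ : List α} {b : ℕ → Bool} {a : α} (h : a ∈ sel ℓ b) : a ∈ ℓ :=
  (sel_sublist ℓ b).subset h

/-- the sign attached to a selection -/
def sgnb (η : ℕ → ℤˣ) : ℕ → (ℕ → Bool) → ℤˣ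
  | 0, _ => 1
  | n + 1, b => (if b 0 then η 0 else 1) * sgnb (fun m => η (m + 1)) n (fun m => b (m + 1))

lemma sgnb_neg (η : ℕ → ℤˣ) {α : Type*} (ℓ : List α) (b : ℕ → Bool) :
    sgnb (fun m => - η m) ℓ.length b = (-1) ^ (sel ℓ b).length * sgnb η ℓ.length b := by
  induction ℓ generalizing η b with
  | nil => simp [sgnb, sel]
  | cons a ℓ ih =>
    simp only [List.length_cons, sgnb, sel_cons]
    rw [ih (fun m => η (m + 1))]
    cases b 0
    · simp
    · simp only [if_true, List.length_cons, pow_succ]
      rw [mul_comm ((-1 : ℤˣ) ^ _) (-1)]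
      simp only [neg_mul, one_mul]
      rw [mul_left_comm]

/-- moving the contracted labels to the end -/
lemma sort_cn {α : Type*} {K : Type*} [Field K] {V : Type*} [AddCommGroup V] [Module K V]
    (x : α → V) (ℓ : List α) (π : List (Option Bool)) (hπ : π.length = ℓ.length) :
    ∃ η : ℕ → ℤˣ, ∀ b : ℕ → Bool, prodL K ((sel ℓ (fill π b)).map x) =
      sgnb η (frL ℓ π).length b • prodL K ((sel (frL ℓ π) b ++ cnL ℓ π).map x) := by
  induction ℓ generalizing π with
  | nil => exact ⟨fun _ => 1, fun b => by simp [sel, frL, cnL, sgnb]⟩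
  | cons a ℓ ih =>
    cases π with
    | nil => simp at hπ
    | cons y π =>
      obtain ⟨η, hη⟩ := ih π (by simpa using hπ)
      cases y with
      | none =>
        refine ⟨fun n => if n = 0 then 1 else η (n - 1), fun b => ?_⟩
        simp only [frL, cnL, sel_cons, fill, List.length_cons, sgnb]
        have e1 : (fun m => if m + 1 = 0 then (1 : ℤˣ) else η (m + 1 - 1)) = η := by
          funext m; simp
        rw [e1]
        have e2 := hη (fun m => b (m + 1))
        cases hb : b 0
        · simp only [Bool.false_eq_true, if_false, one_mul]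
          exact e2
        · simp only [if_true, one_mul, List.map_cons, List.cons_append, prodL_cons]
          rw [e2, mul_smul_comm]
      | some c =>
        cases c with
        | false =>
          refine ⟨η, fun b => ?_⟩
          simp only [frL, cnL, sel_cons, fill, Bool.false_eq_true, if_false]
          exact hη b
        | true =>
          refine ⟨fun m => - η m, fun b => ?_⟩
          simp only [frL, cnL, sel_cons, fill, if_true, List.map_cons, prodL_cons]
          rw [hη b, sgnb_neg, mul_smul_comm, List.map_append, List.map_append, List.map_cons,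
            prodL_append, prodL_append, prodL_cons, ← mul_assoc, ← mul_assoc, prodL_mul_ι,
            List.length_map]
          rw [mul_smul, smul_comm]
          congr 1
          rcases Nat.even_or_odd (sel (frL ℓ π) b).length with h | h
          · rw [h.neg_one_pow, h.neg_one_pow, one_mul, one_smul]
          · rw [h.neg_one_pow, h.neg_one_pow]
            simp

lemma prod_sel_idxOf {α : Type*} [DecidableEq α] (ℓ : List α) (hℓ : ℓ.Nodup) (η : ℕ → ℤˣ)
    (b : ℕ → Bool) :
    ((sel ℓ b).map fun a => η (ℓ.idxOf a)).prod = sgnb η ℓ.length b := by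
  induction ℓ generalizing η b with
  | nil => rfl
  | cons a ℓ ih =>
    rw [List.nodup_cons] at hℓ
    have h1 : ((sel ℓ fun n => b (n + 1)).map fun c => η ((a :: ℓ).idxOf c)) =
        (sel ℓ fun n => b (n + 1)).map fun c => (fun m => η (m + 1)) (ℓ.idxOf c) := by
      refine List.map_congr_left fun c hc => ?_
      have hc' := mem_sel_iff hc
      have hne : a ≠ c := by rintro rfl; exact hℓ.1 hc'
      rw [List.idxOf_cons_ne _ hne]
    simp only [sel_cons, List.length_cons, sgnb]
    rw [← ih hℓ.2]
    cases hb : b 0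
    · simp only [Bool.false_eq_true, if_false, one_mul, h1]
    · simp only [if_true, List.map_cons, List.prod_cons, List.idxOf_cons_self, h1]

lemma sel_map' {α β : Type*} (f : α → β) (L : List α) (b : ℕ → Bool) :
    sel (L.map f) b = (sel L b).map f := by
  induction L generalizing b with
  | nil => rfl
  | cons v L ih =>
    simp only [List.map_cons, sel_cons, ih]
    split_ifs <;> rfl

/-- every duplicate free list of members is a rearrangement of a selection -/
lemma exists_sel_perm {α : Type*} [DecidableEq α] (ℓ L : List α) (hℓ : ℓ.Nodup) (hL : L.Nodup)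
    (h : ∀ a ∈ L, a ∈ ℓ) : ∃ b, L.Perm (sel ℓ b) := by
  have h1 : ∀ ℓ : List α, ∃ b, sel ℓ b = ℓ.filter fun a => decide (a ∈ L) := by
    intro ℓ
    induction ℓ with
    | nil => exact ⟨fun _ => false, rfl⟩
    | cons a ℓ ih =>
      obtain ⟨b, hb⟩ := ih
      refine ⟨fun n => if n = 0 then decide (a ∈ L) else b (n - 1), ?_⟩
      rw [sel_cons, List.filter_cons]
      simp only [if_true]
      have e : (fun n => if n + 1 = 0 then decide (a ∈ L) else b (n + 1 - 1)) = b := by
        funext n; simp
      rw [e, hb]
  obtain ⟨b, hb⟩ := h1 ℓ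
  refine ⟨b, ?_⟩
  rw [hb, List.perm_ext_iff_of_nodup hL (hℓ.filter _)]
  intro a
  simp only [List.mem_filter, decide_eq_true_eq]
  exact ⟨fun ha => ⟨h a ha, ha⟩, fun ha => ha.2⟩

variable {k : Type u} [Field k]

/-- the rewriting for one coordinate -/
lemma transfer_one {N : ℕ} (ℓ : List ℤ) (hℓ : ℓ.Nodup) (hmem : ∀ a ∈ lab N N, a ∈ ℓ) {s : Idx}
    (hs : AtLevel N N s) :
    ∃ (b₀ : ℕ → Bool) (ε : ℤˣ), (sel ℓ b₀).length = N ∧
      ∀ (K : Type u) [Field K] (V : Type u) [AddCommGroup V] [Module K V] (y : ℤ → V)
      (φ : ExteriorAlgebra K V →ₗ[K] K) (δ : ℤ → ℤˣ),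
      ((toL N s).map δ).prod • φ (prodL K ((toL N s).map y)) =
        ε • (((sel ℓ b₀).map δ).prod • φ (prodL K ((sel ℓ b₀).map y))) := by
  obtain ⟨b₀, hb⟩ := exists_sel_perm ℓ (toL N s) hℓ (toL_nodup N s)
    (fun a ha => hmem a (hs.mem ha))
  obtain ⟨ε, hε⟩ := prodL_perm' hb
  refine ⟨b₀, ε, by rw [← hb.length_eq, toL_length], ?_⟩
  intro K _ V _ _ y φ δ
  rw [hε K V y, (hb.map δ).prod_eq, Units.smul_def ε, map_zsmul, ← Units.smul_def, smul_comm]

/-- the rewriting of polynomials -/
theorem transfer {N : ℕ} (ℓ : List ℤ) (hℓ : ℓ.Nodup) (hmem : ∀ a ∈ lab N N, a ∈ ℓ)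
    (f : MvPolynomial Idx k) (hf : ∀ s ∈ f.vars, AtLevel N N s) :
    ∃ g : MvPolynomial (ℕ → Bool) k,
      ∀ (K : Type u) [Field K] [Algebra k K] (V : Type u) [AddCommGroup V] [Module K V]
      (y : ℤ → V) (φ : ExteriorAlgebra K V →ₗ[K] K) (δ : ℤ → ℤˣ) (ω : Idx → K)
      (_ : ∀ s, AtLevel N N s →
        ω s = ((toL N s).map δ).prod • φ (prodL K ((toL N s).map y)))
      (F : (ℕ → Bool) → K) (_ : ∀ b, (sel ℓ b).length = N →
        F b = ((sel ℓ b).map δ).prod • φ (prodL K ((sel ℓ b).map y))),
      aeval F g = aeval ω f := by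
  classical
  have h1 : ∀ s : Idx, ∃ (b₀ : ℕ → Bool) (ε : ℤˣ), AtLevel N N s → (sel ℓ b₀).length = N ∧
      ∀ (K : Type u) [Field K] (V : Type u) [AddCommGroup V] [Module K V] (y : ℤ → V)
      (φ : ExteriorAlgebra K V →ₗ[K] K) (δ : ℤ → ℤˣ),
      ((toL N s).map δ).prod • φ (prodL K ((toL N s).map y)) =
        ε • (((sel ℓ b₀).map δ).prod • φ (prodL K ((sel ℓ b₀).map y))) := by
    intro s
    by_cases hs : AtLevel N N s
    · obtain ⟨b₀, ε, h⟩ := transfer_one ℓ hℓ hmem hs
      exact ⟨b₀, ε, fun _ => h⟩
    · exact ⟨fun _ => false, 1, fun h => absurd h hs⟩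
  choose β ε h1 using h1
  refine ⟨aeval (fun s => (ε s) • (X (β s) : MvPolynomial (ℕ → Bool) k)) f, ?_⟩
  intro K _ _ V _ _ y φ δ ω hω F hF
  rw [comp_aeval_apply]
  simp only [aeval_def]
  change eval₂Hom _ _ f = eval₂Hom _ _ f
  refine eval₂Hom_congr' rfl ?_ rfl
  intro s hs _
  obtain ⟨h2, h3⟩ := h1 s (hf s hs)
  rw [hω s (hf s hs), h3 K V y φ δ, ← hF _ h2]
  simp only [Units.smul_def]
  rw [← coe_eval₂Hom, map_zsmul, coe_eval₂Hom, eval₂_X]

end Pool.Agent.H229
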