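import Pool.Agent.H229.ExMin

/-!
Titanic sets, and the bound on excluded minors for branch-width.
-/

namespace Pool.Agent.H229

open BT

variable {α : Type*} [DecidableEq α]

/-- the set `S` is empty or has a rooted tree of width at most `w` -/
def Val (lam : Finset α → ℕ) (w : ℕ) (S : Finset α) : Prop :=
  S = ∅ ∨ ∃ t : BT α, t.Part ∧ t.fs = S ∧ ∀ Y ∈ t.nodes, lam Y ≤ w

lemma Val.join {lam : Finset α → ℕ} {w : ℕ} {S₁ S₂ : Finset α} (h₁ : Val lam w S₁)
    (h₂ : Val lam w S₂) (hd : Disjoint S₁ S₂) (hw : lam (S₁ ∪ S₂) ≤ w) :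
    Val lam w (S₁ ∪ S₂) := by
  rcases h₁ with rfl | ⟨t₁, a1, a2, a3⟩
  · rw [Finset.empty_union]; exact h₂
  · rcases h₂ with rfl | ⟨t₂, b1, b2, b3⟩
    · rw [Finset.union_empty]; exact Or.inr ⟨t₁, a1, a2, a3⟩
    · refine Or.inr ⟨.node t₁ t₂, ⟨by rw [a2, b2]; exact hd, a1, b1⟩, by rw [fs_node, a2, b2], ?_⟩
      intro Y hY
      simp only [nodes, Finset.mem_insert, Finset.mem_union] at hY
      rcases hY with rfl | hY | hY
      · rw [a2, b2]; exact hw
      · exact a3 Y hY
      · exact b3 Y hY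

lemma Val.restr {lam : Finset α → ℕ} {w : ℕ} {t : BT α} (ht : t.Part) {B : Finset α}
    (h : ∀ W ∈ t.nodes, lam (W ∩ B) ≤ w) : Val lam w (t.fs ∩ B) := by
  cases hr : BT.restr t B with
  | none => exact Or.inl (restr_none.1 hr)
  | some s =>
    obtain ⟨h1, h2, h3⟩ := restr_some hr
    refine Or.inr ⟨s, h2 ht, h1, fun Y hY => ?_⟩
    obtain ⟨W, hW, rfl⟩ := h3 Y hY
    exact h W hW

lemma exists_sub {t : BT α} {Y : Finset α} (h : Y ∈ t.nodes) : ∃ Z, Sub Z t ∧ Z.fs = Y := by
  induction t with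
  | leaf a =>
    simp only [nodes, Finset.mem_singleton] at h
    exact ⟨_, .refl _, h.symm⟩
  | node l r ihl ihr =>
    simp only [nodes, Finset.mem_insert, Finset.mem_union] at h
    rcases h with h | h | h
    · exact ⟨_, .refl _, h.symm⟩
    · obtain ⟨Z, h1, h2⟩ := ihl h
      exact ⟨Z, .left r h1, h2⟩
    · obtain ⟨Z, h1, h2⟩ := ihr h
      exact ⟨Z, .right l h1, h2⟩

/-- The complement of a titanic set has a tree. -/
theorem titanic {f : Finset α → ℕ} (hf : IsRk f) {E : Finset α} {w : ℕ} {t : BT α} (ht : t.Part)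
    (hE : t.fs = E) (hw : ∀ Y ∈ t.nodes, cn f E Y ≤ w) {A : Finset α} (hA : A ⊆ E)
    (hAw : cn f E A ≤ w)
    (htit : ∀ A₁ A₂ A₃, A₁ ∪ A₂ ∪ A₃ = A → Disjoint A₁ A₂ → Disjoint A₁ A₃ → Disjoint A₂ A₃ →
      cn f E A ≤ cn f E A₁ ∨ cn f E A ≤ cn f E A₂ ∨ cn f E A ≤ cn f E A₃) :
    Val (cn f E) w (E \ A) := by
  classical
  set lam := cn f E with hlam
  have hnE : ∀ Y ∈ t.nodes, Y ⊆ E := fun Y hY => hE ▸ subset_of_mem_nodes hY
  have hlam0 : lam ∅ = 0 := cn_empty
  -- nodes with large rest
  have hgood : ∀ W ∈ t.nodes, lam A ≤ lam (A \ W) → lam (W ∩ (E \ A)) ≤ w := by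
    intro W hW h
    have e : W ∩ (E \ A) = W \ A := by
      ext x
      simp only [Finset.mem_inter, Finset.mem_sdiff]
      constructor
      · rintro ⟨h1, h2⟩; exact ⟨h1, h2.2⟩
      · rintro ⟨h1, h2⟩; exact ⟨h1, hnE W hW h1, h2⟩
    have h1 := cn_posimod hf (hnE W hW) hA
    rw [e]
    have h2 := hw W hW
    rw [← hlam] at h1
    omega
  have hdich : ∀ Y : Finset α, lam A ≤ lam (A ∩ Y) ∨ lam A ≤ lam (A \ Y) := by
    intro Y
    rcases htit (A ∩ Y) (A \ Y) ∅ (by
        ext x; simp only [Finset.mem_inter, Finset.mem_sdiff, Finset.mem_union,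
          Finset.notMem_empty]; tauto) (Finset.disjoint_sdiff_inter A Y).symm (by simp) (by simp)
      with h | h | h
    · exact Or.inl h
    · exact Or.inr h
    · rw [hlam0] at h
      left; omega
  by_cases hall : ∀ Y ∈ t.nodes, lam A ≤ lam (A \ Y)
  · have h1 := Val.restr (lam := lam) (w := w) ht (B := E \ A) (fun W hW => hgood W hW (hall W hW))
    have e : t.fs ∩ (E \ A) = E \ A := by
      rw [hE]; exact Finset.inter_eq_right.2 Finset.sdiff_subset
    rwa [e] at h1
  push Not at hall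
  obtain ⟨Y₀, hY₀, hY₀'⟩ := hall
  obtain ⟨Z₀, hZ₀, hZ₀'⟩ := exists_sub hY₀
  have hex : ∃ n, ∃ Z, Sub Z t ∧ lam (A \ Z.fs) < lam A ∧ Z.fs.card = n :=
    ⟨_, Z₀, hZ₀, by rw [hZ₀']; exact hY₀', rfl⟩
  obtain ⟨Z, hZt, hZ, hZc⟩ := Nat.find_spec hex
  have hmin : ∀ W, Sub W t → lam (A \ W.fs) < lam A → Z.fs.card ≤ W.fs.card := by
    intro W h1 h2
    rw [hZc]
    exact Nat.find_min' hex ⟨W, h1, h2, rfl⟩
  have hbigZ : lam A ≤ lam (A ∩ Z.fs) := by
    rcases hdich Z.fs with h | h
    · exact h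
    · omega
  have hAY : ∀ Y : Finset α, A \ Y ⊆ E := fun Y => Finset.sdiff_subset.trans hA
  have hAY' : ∀ Y : Finset α, A ∩ Y ⊆ E := fun Y => Finset.inter_subset_left.trans hA
  -- (a)
  have ha : ∀ W : Finset α, Disjoint W Z.fs → lam A ≤ lam (A \ W) := by
    intro W hd
    by_contra hcon
    push Not at hcon
    have h1 := cn_posimod hf (hAY W) (hAY Z.fs)
    rw [Finset.disjoint_left] at hd
    have e1 : (A \ W) \ (A \ Z.fs) = A ∩ Z.fs := by
      ext x; simp only [Finset.mem_sdiff, Finset.mem_inter]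
      constructor
      · rintro ⟨h2, h3⟩
        refine ⟨h2.1, ?_⟩
        by_contra h4
        exact h3 ⟨h2.1, h4⟩
      · rintro ⟨h2, h3⟩
        exact ⟨⟨h2, fun h4 => hd h4 h3⟩, fun h4 => h4.2 h3⟩
    have e2 : (A \ Z.fs) \ (A \ W) = A ∩ W := by
      ext x; simp only [Finset.mem_sdiff, Finset.mem_inter]
      constructor
      · rintro ⟨h2, h3⟩
        refine ⟨h2.1, ?_⟩
        by_contra h4
        exact h3 ⟨h2.1, h4⟩
      · rintro ⟨h2, h3⟩
        exact ⟨⟨h2, fun h4 => hd h3 h4⟩, fun h4 => h4.2 h3⟩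
    rw [e1, e2, ← hlam] at h1
    have h2 : lam A ≤ lam (A ∩ W) := by
      rcases hdich W with h | h
      · exact h
      · omega
    omega
  -- (b)
  have hb : ∀ G : Finset α, Z.fs ⊆ G → lam A ≤ lam (A ∩ G) := by
    intro G hG
    by_contra hcon
    push Not at hcon
    have h1 := cn_posimod hf (hAY' G) (hAY Z.fs)
    have e1 : (A ∩ G) \ (A \ Z.fs) = A ∩ Z.fs := by
      ext x; simp only [Finset.mem_sdiff, Finset.mem_inter]
      constructor
      · rintro ⟨h2, h3⟩
        refine ⟨h2.1, ?_⟩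
        by_contra h4
        exact h3 ⟨h2.1, h4⟩
      · rintro ⟨h2, h3⟩
        exact ⟨⟨h2, hG h3⟩, fun h4 => h4.2 h3⟩
    have e2 : (A \ Z.fs) \ (A ∩ G) = A \ G := by
      ext x; simp only [Finset.mem_sdiff, Finset.mem_inter]
      constructor
      · rintro ⟨h2, h3⟩
        exact ⟨h2.1, fun h4 => h3 ⟨h2.1, h4⟩⟩
      · rintro ⟨h2, h3⟩
        exact ⟨⟨h2, fun h4 => h3 (hG h4)⟩, fun h4 => h3 h4.2⟩
    rw [e1, e2, ← hlam] at h1
    have h2 : lam A ≤ lam (A \ G) := by
      rcases hdich G with h | h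
      · omega
      · exact h
    omega
  -- complements of ancestors
  have hanc : ∀ G : Finset α, G ∈ t.nodes → lam A ≤ lam (A ∩ G) → lam ((E \ A) \ G) ≤ w := by
    intro G hGt hG
    have hGE := hnE G hGt
    have e : (E \ A) \ G = E \ (A ∪ G) := by
      ext x; simp only [Finset.mem_sdiff, Finset.mem_union]; tauto
    have h1 := cn_submod hf hA hGE
    have h4 : lam (E \ (A ∪ G)) = lam (A ∪ G) := cn_symm (Finset.union_subset hA hGE)
    have h3 := hw G hGt
    rw [← hlam] at h1
    rw [e, h4]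
    omega
  -- the union of an outer part and a side part
  have hstep : ∀ l r : BT α, (∀ W ∈ r.nodes, W ∈ t.nodes) → (node l r).Part →
      (∀ W ∈ r.nodes, lam A ≤ lam (A \ W)) → lam ((E \ A) \ l.fs) ≤ w →
      r.fs ⊆ E →
      Val lam w ((E \ A) \ (l.fs ∪ r.fs)) → Val lam w ((E \ A) \ l.fs) := by
    intro l r hrt hp hr hl hrE hv
    have h1 := Val.restr (lam := lam) (w := w) hp.2.2 (B := E \ A)
      (fun W hW => hgood W (hrt W hW) (hr W hW))
    have e : ((E \ A) \ (l.fs ∪ r.fs)) ∪ (r.fs ∩ (E \ A)) = (E \ A) \ l.fs := by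
      ext x
      have hd : x ∈ l.fs → x ∉ r.fs := fun h => Finset.disjoint_left.1 hp.1 h
      have hx : x ∈ r.fs → x ∈ E := fun h => hrE h
      simp only [Finset.mem_sdiff, Finset.mem_union, Finset.mem_inter]
      tauto
    have h2 := Val.join hv h1 (by
      rw [Finset.disjoint_left]
      intro x hx hx'
      simp only [Finset.mem_sdiff, Finset.mem_union, Finset.mem_inter] at hx hx'
      tauto) (by rw [e]; exact hl)
    rwa [e] at h2
  have houter : ∀ g, Sub Z g → Sub g t → Val lam w ((E \ A) \ g.fs) →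
      Val lam w ((E \ A) \ Z.fs) := by
    intro g hg
    induction hg with
    | refl => intro _ h; exact h
    | @left l r h ih =>
      intro hgt hv
      have hlt : Sub l t := (Sub.left r (.refl l)).trans hgt
      have hrt : Sub r t := (Sub.right l (.refl r)).trans hgt
      have hp := hgt.part ht
      refine ih hlt (hstep l r (fun W hW => hrt.nodes_subset hW) hp ?_ ?_ ?_ hv)
      · intro W hW
        exact ha W ((hp.1.symm.mono_left (subset_of_mem_nodes hW)).mono_right h.fs_subset)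
      · exact hanc _ (hlt.nodes_subset l.fs_mem_nodes) (hb _ h.fs_subset)
      · exact hnE _ (hrt.nodes_subset r.fs_mem_nodes)
    | @right r l h ih =>
      intro hgt hv
      have hlt : Sub l t := (Sub.left r (.refl l)).trans hgt
      have hrt : Sub r t := (Sub.right l (.refl r)).trans hgt
      have hp := hgt.part ht
      have hp' : (node r l).Part := ⟨hp.1.symm, hp.2.2, hp.2.1⟩
      refine ih hrt (hstep r l (fun W hW => hlt.nodes_subset hW) hp' ?_ ?_ ?_ ?_)
      · intro W hW
        exact ha W ((hp.1.mono_left (subset_of_mem_nodes hW)).mono_right h.fs_subset)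
      · exact hanc _ (hrt.nodes_subset r.fs_mem_nodes) (hb _ h.fs_subset)
      · exact hnE _ (hlt.nodes_subset l.fs_mem_nodes)
      · rw [Finset.union_comm]; exact hv
  have hvZ : Val lam w ((E \ A) \ Z.fs) := by
    refine houter t hZt (.refl t) (Or.inl ?_)
    rw [hE]
    ext x; simp only [Finset.mem_sdiff, Finset.notMem_empty, iff_false]; tauto
  -- the final step
  have hfin : ∀ l r : BT α, Sub l t → Sub r t → (node l r).Part →
      Z.fs = l.fs ∪ r.fs → (∀ W ∈ l.nodes, lam A ≤ lam (A \ W)) →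
      (∀ W ∈ r.nodes, lam A ≤ lam (A \ W)) → lam A ≤ lam (A ∩ l.fs) →
      Val lam w (E \ A) := by
    intro l r hlt hrt hp hZlr hlW hrW hbig
    have hlE := hnE _ (hlt.nodes_subset l.fs_mem_nodes)
    have hrE := hnE _ (hrt.nodes_subset r.fs_mem_nodes)
    have h1 : Val lam w ((E \ A) \ l.fs) :=
      hstep l r (fun W hW => hrt.nodes_subset hW) hp hrW
        (hanc _ (hlt.nodes_subset l.fs_mem_nodes) hbig) hrE (hZlr ▸ hvZ)
    have h2 := Val.restr (lam := lam) (w := w) hp.2.1 (B := E \ A)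
      (fun W hW => hgood W (hlt.nodes_subset hW) (hlW W hW))
    have e : ((E \ A) \ l.fs) ∪ (l.fs ∩ (E \ A)) = E \ A := by
      ext x
      simp only [Finset.mem_sdiff, Finset.mem_union, Finset.mem_inter]
      tauto
    have h3 := Val.join h1 h2 (by
      rw [Finset.disjoint_left]
      intro x hx hx'
      simp only [Finset.mem_sdiff, Finset.mem_inter] at hx hx'
      tauto) (by
      rw [e, hlam, cn_symm hA]; exact hAw)
    rwa [e] at h3
  cases hZe : Z with
  | leaf a =>
    rw [hZe] at hbigZ hvZ hZ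
    have ha' : a ∈ A := by
      by_contra h
      have e : A ∩ (leaf a : BT α).fs = ∅ := by
        rw [fs_leaf]
        ext x
        simp only [Finset.mem_inter, Finset.mem_singleton, Finset.notMem_empty, iff_false]
        rintro ⟨h1, rfl⟩; exact h h1
      rw [e, hlam0] at hbigZ
      omega
    have e : (E \ A) \ (leaf a : BT α).fs = E \ A := by
      rw [fs_leaf]
      ext x
      simp only [Finset.mem_sdiff, Finset.mem_singleton]
      constructor
      · rintro ⟨h1, _⟩; exact h1
      · rintro h1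
        refine ⟨h1, ?_⟩
        rintro rfl; exact h1.2 ha'
    rwa [e] at hvZ
  | node l r =>
    have hlZ : Sub l Z := hZe ▸ Sub.left r (.refl l)
    have hrZ : Sub r Z := hZe ▸ Sub.right l (.refl r)
    have hlt : Sub l t := hlZ.trans hZt
    have hrt : Sub r t := hrZ.trans hZt
    have hp : (node l r).Part := hZe ▸ hZt.part ht
    have hZlr : Z.fs = l.fs ∪ r.fs := by rw [hZe, fs_node]
    have hlc : l.fs.card < Z.fs.card := by
      rw [hZlr, Finset.card_union_of_disjoint hp.1]
      have := Finset.card_pos.2 r.fs_nonempty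
      omega
    have hrc : r.fs.card < Z.fs.card := by
      rw [hZlr, Finset.card_union_of_disjoint hp.1]
      have := Finset.card_pos.2 l.fs_nonempty
      omega
    have hlW : ∀ W ∈ l.nodes, lam A ≤ lam (A \ W) := by
      intro W hW
      by_contra hcon
      push Not at hcon
      obtain ⟨W', h1, rfl⟩ := exists_sub hW
      have h2 := hmin W' (h1.trans hlt) hcon
      have h3 := Finset.card_le_card h1.fs_subset
      omega
    have hrW : ∀ W ∈ r.nodes, lam A ≤ lam (A \ W) := by
      intro W hW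
      by_contra hcon
      push Not at hcon
      obtain ⟨W', h1, rfl⟩ := exists_sub hW
      have h2 := hmin W' (h1.trans hrt) hcon
      have h3 := Finset.card_le_card h1.fs_subset
      omega
    rcases htit (A ∩ l.fs) (A ∩ r.fs) (A \ Z.fs) (by
        rw [hZlr]
        ext x; simp only [Finset.mem_inter, Finset.mem_sdiff, Finset.mem_union]; tauto)
        (by
          rw [Finset.disjoint_left]
          intro x hx hx'
          rw [Finset.mem_inter] at hx hx'
          exact Finset.disjoint_left.1 hp.1 hx.2 hx'.2)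
        (by
          rw [Finset.disjoint_left, hZlr]
          intro x hx hx'
          simp only [Finset.mem_inter, Finset.mem_sdiff, Finset.mem_union] at hx hx'
          tauto)
        (by
          rw [Finset.disjoint_left, hZlr]
          intro x hx hx'
          simp only [Finset.mem_inter, Finset.mem_sdiff, Finset.mem_union] at hx hx'
          tauto) with h | h | h
    · exact hfin l r hlt hrt hp hZlr hlW hrW h
    · exact hfin r l hrt hlt ⟨hp.1.symm, hp.2.2, hp.2.1⟩ (by rw [hZlr, Finset.union_comm]) hrW hlW h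
    · omega

end Pool.Agent.H229
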