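import Mathlib

/-!
Binary trees with heights, gap embeddings, and the lemma on trees: gap embeddings are a
well-quasi-order on trees with bounded heights and labels in a well-quasi-order.
-/

namespace Pool.Agent.H229

/-- Binary trees whose nodes carry a height and a label. -/
inductive Tr (L : Type*) : Type _
  | leaf (h : ℕ) (a : L) : Tr L
  | node (h : ℕ) (a : L) (l r : Tr L) : Tr L

namespace Tr

variable {L L' L'' : Type*}

/-- the height of the root -/
def ht : Tr L → ℕ
  | leaf h _ => h
  | node h _ _ _ => h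

/-- the number of nodes -/
def size : Tr L → ℕ
  | leaf _ _ => 1
  | node _ _ l r => 1 + l.size + r.size

/-- the number of leaves -/
def leaves : Tr L → ℕ
  | leaf _ _ => 1
  | node _ _ l r => l.leaves + r.leaves

/-- relabelling -/
def map (f : L → L') : Tr L → Tr L'
  | leaf h a => leaf h (f a)
  | node h a l r => node h (f a) (l.map f) (r.map f)

@[simp] lemma ht_leaf (h : ℕ) (a : L) : (leaf h a).ht = h := rfl
@[simp] lemma ht_node (h : ℕ) (a : L) (l r : Tr L) : (node h a l r).ht = h := rfl
@[simp] lemma size_leaf (h : ℕ) (a : L) : (leaf h a).size = 1 := rfl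
@[simp] lemma size_node (h : ℕ) (a : L) (l r : Tr L) :
    (node h a l r).size = 1 + l.size + r.size := rfl

lemma size_pos (t : Tr L) : 0 < t.size := by
  cases t <;> simp [size]

end Tr

open Tr

variable {L L' L'' : Type*}

/-- `Desc s f t`: the tree `f` is a subtree of `t`, and all subtrees on the way from `t` down to
`f`, both included, have height at least `s`. -/
inductive Desc (s : ℕ) : Tr L → Tr L → Prop
  | refl (t : Tr L) (h : s ≤ t.ht) : Desc s t t
  | left {f : Tr L} {h : ℕ} {a : L} {l r : Tr L} (hs : s ≤ h) (hd : Desc s f l) :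
      Desc s f (Tr.node h a l r)
  | right {f : Tr L} {h : ℕ} {a : L} {l r : Tr L} (hs : s ≤ h) (hd : Desc s f r) :
      Desc s f (Tr.node h a l r)

lemma Desc.le_ht_left {s : ℕ} {f t : Tr L} (h : Desc s f t) : s ≤ f.ht := by
  induction h with
  | refl h => exact h
  | left _ _ ih => exact ih
  | right _ _ ih => exact ih

lemma Desc.le_ht_right {s : ℕ} {f t : Tr L} (h : Desc s f t) : s ≤ t.ht := by
  cases h with
  | refl h => exact h
  | left hs _ => exact hs
  | right hs _ => exact hs

lemma Desc.size_le {s : ℕ} {f t : Tr L} (h : Desc s f t) : f.size ≤ t.size := by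
  induction h with
  | refl h => exact le_rfl
  | left _ _ ih => simp; omega
  | right _ _ ih => simp; omega

lemma Desc.mono {s s' : ℕ} (hs : s' ≤ s) {f t : Tr L} (h : Desc s f t) : Desc s' f t := by
  induction h with
  | refl h => exact .refl _ (hs.trans h)
  | left h1 _ ih => exact .left (hs.trans h1) ih
  | right h1 _ ih => exact .right (hs.trans h1) ih

lemma Desc.trans {s : ℕ} {e f t : Tr L} (h1 : Desc s e f) (h2 : Desc s f t) : Desc s e t := by
  induction h2 with
  | refl h => exact h1
  | left h _ ih => exact .left h ih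
  | right h _ ih => exact .right h ih

/-- Gap embeddings of trees. -/
inductive Emb (r : L → L' → Prop) : Tr L → Tr L' → Prop
  | leaf {h : ℕ} {a : L} {b : L'} (hr : r a b) : Emb r (Tr.leaf h a) (Tr.leaf h b)
  | node {h : ℕ} {a : L} {b : L'} {l₁ r₁ : Tr L} {l₂ r₂ : Tr L'} (hr : r a b)
      (hl : Emb r l₁ l₂) (hr' : Emb r r₁ r₂) : Emb r (Tr.node h a l₁ r₁) (Tr.node h b l₂ r₂)
  | cut {s : Tr L} {f t : Tr L'} (hd : Desc t.ht f t) (hh : f.ht = t.ht) (he : Emb r s f) :
      Emb r s t

lemma Emb.ht_eq {r : L → L' → Prop} {s : Tr L} {t : Tr L'} (h : Emb r s t) : s.ht = t.ht := by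
  induction h with
  | leaf _ => rfl
  | node _ _ _ => rfl
  | cut _ hh _ ih => rw [ih, hh]

lemma Emb.refl {r : L → L → Prop} (hr : ∀ a, r a a) (t : Tr L) : Emb r t t := by
  induction t with
  | leaf h a => exact .leaf (hr a)
  | node h a l r ihl ihr => exact .node (hr a) ihl ihr

lemma Emb.mono {r r' : L → L' → Prop} (hr : ∀ a b, r a b → r' a b) {s : Tr L} {t : Tr L'}
    (h : Emb r s t) : Emb r' s t := by
  induction h with
  | leaf h => exact .leaf (hr _ _ h)
  | node h _ _ ih1 ih2 => exact .node (hr _ _ h) ih1 ih2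
  | cut hd hh _ ih => exact .cut hd hh ih

lemma Desc.lift {r : L → L' → Prop} {t : Tr L} {u : Tr L'} (h : Emb r t u) :
    ∀ {s : ℕ} {f : Tr L}, Desc s f t → ∃ g, Desc s g u ∧ Emb r f g := by
  induction h with
  | leaf hr =>
    intro s f hd
    cases hd with
    | refl h => exact ⟨_, .refl _ h, .leaf hr⟩
  | node hr hl hr' ihl ihr =>
    intro s f hd
    cases hd with
    | refl h => exact ⟨_, .refl _ h, .node hr hl hr'⟩
    | left hs hd =>
      obtain ⟨g, hg, he⟩ := ihl hd
      exact ⟨g, .left hs hg, he⟩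
    | right hs hd =>
      obtain ⟨g, hg, he⟩ := ihr hd
      exact ⟨g, .right hs hg, he⟩
  | cut hd' hh he ih =>
    intro s f hd
    obtain ⟨g, hg, he'⟩ := ih hd
    refine ⟨g, hg.trans (hd'.mono ?_), he'⟩
    rw [← hh, ← he.ht_eq]
    exact hd.le_ht_right

lemma Emb.leaf_inv {r : L → L' → Prop} {s : Tr L} {t : Tr L'} (h : Emb r s t) :
    ∀ {k : ℕ} {b : L'}, t = Tr.leaf k b → ∃ a, s = Tr.leaf k a ∧ r a b := by
  induction h with
  | leaf hr =>
    intro k b e
    cases e
    exact ⟨_, rfl, hr⟩
  | node hr hl hr' => intro k b e; cases e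
  | cut hd hh he ih =>
    intro k b e
    subst e
    cases hd with
    | refl _ => exact ih rfl

lemma Emb.node_inv {r : L → L' → Prop} {s : Tr L} {t : Tr L'} (h : Emb r s t) :
    ∀ {k : ℕ} {b : L'} {l r' : Tr L'}, t = Tr.node k b l r' →
      (∃ a l₁ r₁, s = Tr.node k a l₁ r₁ ∧ r a b ∧ Emb r l₁ l ∧ Emb r r₁ r') ∨
      (∃ f, Desc k f l ∧ f.ht = k ∧ Emb r s f) ∨
      (∃ f, Desc k f r' ∧ f.ht = k ∧ Emb r s f) := by
  induction h with
  | leaf hr => intro k b l r' e; cases e
  | node hr hl hr' =>
    intro k b l r' e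
    cases e
    exact Or.inl ⟨_, _, _, rfl, hr, hl, hr'⟩
  | cut hd hh he ih =>
    intro k b l r' e
    subst e
    cases hd with
    | refl _ => exact ih rfl
    | left _ hd => exact Or.inr (Or.inl ⟨_, hd, hh, he⟩)
    | right _ hd => exact Or.inr (Or.inr ⟨_, hd, hh, he⟩)

theorem Emb.trans {r : L → L' → Prop} {r' : L' → L'' → Prop} {r'' : L → L'' → Prop}
    (hr : ∀ a b c, r a b → r' b c → r'' a c) :
    ∀ (n : ℕ) (t : Tr L'), t.size ≤ n → ∀ (u : Tr L''), Emb r' t u → ∀ (s : Tr L),
      Emb r s t → Emb r'' s u := by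
  intro n
  induction n with
  | zero => intro t ht; have := t.size_pos; omega
  | succ n ihn =>
    intro t ht u htu
    induction htu with
    | leaf h =>
      intro s hs
      obtain ⟨a, rfl, ha⟩ := hs.leaf_inv rfl
      exact .leaf (hr _ _ _ ha h)
    | @node h a b l₁ r₁ l₂ r₂ hrr hl hr' ihl ihr =>
      intro s hs
      simp only [size_node] at ht
      rcases hs.node_inv rfl with ⟨a', l₀, r₀, rfl, ha, hl0, hr0⟩ | ⟨f, hf, hfh, hsf⟩ |
        ⟨f, hf, hfh, hsf⟩
      · exact .node (hr _ _ _ ha hrr) (ihn l₁ (by omega) _ hl _ hl0)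
          (ihn r₁ (by omega) _ hr' _ hr0)
      · obtain ⟨g, hg, he⟩ := Desc.lift hl hf
        have h1 := hf.size_le
        refine .cut (f := g) (.left le_rfl hg) ?_ (ihn f (by omega) _ he _ hsf)
        rw [← he.ht_eq, hfh]; rfl
      · obtain ⟨g, hg, he⟩ := Desc.lift hr' hf
        have h1 := hf.size_le
        refine .cut (f := g) (.right le_rfl hg) ?_ (ihn f (by omega) _ he _ hsf)
        rw [← he.ht_eq, hfh]; rfl
    | cut hd hh he ih =>
      intro s hs
      exact .cut hd hh (ih ht s hs)

instance (r : L → L → Prop) [IsPreorder L r] : IsPreorder (Tr L) (Emb r) where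
  refl t := Emb.refl (fun a => refl_of r a) t
  trans s t u h1 h2 := Emb.trans (fun a b c h1 h2 => _root_.trans h1 h2) _ t le_rfl u h2 s h1

/-- The class of trees generated from `G` by nodes with height in `[s, N)`. -/
inductive Cl (G : Set (Tr L)) (N s : ℕ) : Tr L → Prop
  | base {t : Tr L} (h : t ∈ G) : Cl G N s t
  | node {h : ℕ} {a : L} {l r : Tr L} (h1 : s ≤ h) (h2 : h < N) (hl : Cl G N s l)
      (hr : Cl G N s r) : Cl G N s (Tr.node h a l r)

theorem pwo_Cl (r : L → L → Prop) [IsPreorder L r] (hr : WellQuasiOrdered r) (N : ℕ) :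
    ∀ (d s : ℕ), s + d = N → ∀ G : Set (Tr L), G.PartiallyWellOrderedOn (Emb r) →
      {t | Cl G N s t}.PartiallyWellOrderedOn (Emb r) := by
  intro d
  induction d with
  | zero =>
    intro s hs G hG
    refine hG.mono ?_
    intro t ht
    induction ht with
    | base h => exact h
    | node h1 h2 _ _ => omega
  | succ d ih =>
    intro s hs G hG
    -- the trees of height exactly `s`
    set X : Set (Tr L) := {t | ∃ a l r, t = Tr.node s a l r ∧ Cl G N s l ∧ Cl G N s r} with hX
    have key : X.PartiallyWellOrderedOn (Emb r) := by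
      rw [Set.PartiallyWellOrderedOn.iff_not_exists_isMinBadSeq Tr.size]
      rintro ⟨f, hf1, hf2⟩
      set X' : Set (Tr L) := {x | x ∈ X ∧ ∃ n, Desc s x (f n) ∧ x.size < (f n).size} with hX'
      have hXht : ∀ x ∈ X, x.ht = s := by
        rintro x ⟨a, l, r, rfl, _⟩; rfl
      have hX'pwo : X'.PartiallyWellOrderedOn (Emb r) := by
        rw [Set.PartiallyWellOrderedOn.iff_forall_not_isBadSeq]
        rintro y ⟨hy1, hy2⟩
        choose hyX n hn1 hn2 using hy1
        -- minimal index
        obtain ⟨m0, hm0⟩ : ∃ m0, ∀ m, n m0 ≤ n m := by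
          obtain ⟨_, ⟨m0, rfl⟩, h⟩ := WellFounded.has_min (wellFounded_lt (α := ℕ)) (Set.range n)
            ⟨_, 0, rfl⟩
          exact ⟨m0, fun m => not_lt.1 (h _ ⟨m, rfl⟩)⟩
        refine hf2 (n m0) (fun k => if k < n m0 then f k else y (m0 + (k - n m0)))
          (fun m hm => by simp [hm]) (by simpa using hn2 m0) ⟨?_, ?_⟩
        · intro k
          by_cases hk : k < n m0
          · simpa [hk] using hf1.1 k
          · simpa [hk] using hyX _
        · intro a b hab hE
          by_cases hb : b < n m0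
          · have ha : a < n m0 := by omega
            simp only [ha, hb, if_true] at hE
            exact hf1.2 a b hab hE
          · by_cases ha : a < n m0
            · simp only [ha, hb, if_true, if_false] at hE
              set m' := m0 + (b - n m0)
              have h1 : a < n m' := lt_of_lt_of_le ha (hm0 m')
              refine hf1.2 a (n m') h1 ?_
              have h2 := hXht _ (hf1.1 (n m'))
              have h3 := hXht _ (hyX m')
              refine Emb.cut (f := y m') ?_ ?_ hE
              · rw [h2]; exact hn1 m'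
              · rw [h2, h3]
            · simp only [ha, hb, if_false] at hE
              exact hy2 _ _ (by omega) hE
      have hY : {t | Cl (G ∪ X') N (s + 1) t}.PartiallyWellOrderedOn (Emb r) :=
        ih (s + 1) (by omega) _ (hG.union hX'pwo)
      have aux : ∀ t, Cl G N s t → (∀ x ∈ X, Desc s x t → x ∈ X') → Cl (G ∪ X') N (s + 1) t := by
        intro t ht
        induction ht with
        | base h => intro _; exact .base (Or.inl h)
        | @node h a l r' h1 h2 hl hr' ihl ihr =>
          intro hx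
          rcases eq_or_lt_of_le h1 with h3 | h3
          · subst h3
            exact .base (Or.inr (hx _ ⟨a, l, r', rfl, hl, hr'⟩ (.refl _ le_rfl)))
          · exact .node h3 h2 (ihl fun x hxX hd => hx x hxX (.left h1 hd))
              (ihr fun x hxX hd => hx x hxX (.right h1 hd))
      choose a l r' hfe hl hr' using hf1.1
      have hl' : ∀ n, l n ∈ {t | Cl (G ∪ X') N (s + 1) t} := by
        intro n
        refine aux _ (hl n) fun x hx hd => ⟨hx, n, ?_, ?_⟩
        · rw [hfe]; exact .left le_rfl hd
        · rw [hfe]; have := hd.size_le; simp; omega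
      have hr'' : ∀ n, r' n ∈ {t | Cl (G ∪ X') N (s + 1) t} := by
        intro n
        refine aux _ (hr' n) fun x hx hd => ⟨hx, n, ?_, ?_⟩
        · rw [hfe]; exact .right le_rfl hd
        · rw [hfe]; have := hd.size_le; simp; omega
      obtain ⟨g1, hg1⟩ := (WellQuasiOrdered.exists_monotone_subseq hr a)
      obtain ⟨g2, hg2⟩ := hY.exists_monotone_subseq (fun n => hl' (g1 n))
      obtain ⟨i, j, hij, hE⟩ := hY.exists_lt (fun n => hr'' (g1 (g2 n)))
      refine hf1.2 (g1 (g2 i)) (g1 (g2 j)) (g1.strictMono (g2.strictMono hij)) ?_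
      rw [hfe, hfe (g1 (g2 j))]
      exact Emb.node (hg1 _ _ (g2.strictMono hij).le) (hg2 _ _ hij.le) hE
    refine (ih (s + 1) (by omega) _ (hG.union key)).mono ?_
    intro t ht
    have ht' : Cl G N s t := ht
    clear ht
    show Cl (G ∪ X) N (s + 1) t
    induction ht' with
    | base h => exact .base (Or.inl h)
    | @node h a l r' h1 h2 hl hr' ihl ihr =>
      rcases eq_or_lt_of_le h1 with h3 | h3
      · subst h3
        exact .base (Or.inr ⟨a, l, r', rfl, hl, hr'⟩)
      · exact .node h3 h2 ihl ihr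

/-- all heights are less than `N` -/
def Tr.Bdd (N : ℕ) : Tr L → Prop
  | .leaf h _ => h < N
  | .node h _ l r => h < N ∧ l.Bdd N ∧ r.Bdd N

/-- **Lemma on trees.** -/
theorem pwo_trees (r : L → L → Prop) [IsPreorder L r] (hr : WellQuasiOrdered r) (N : ℕ) :
    {t : Tr L | t.Bdd N}.PartiallyWellOrderedOn (Emb r) := by
  have hG : {t : Tr L | ∃ h a, t = Tr.leaf h a ∧ h < N}.PartiallyWellOrderedOn (Emb r) := by
    rw [Set.partiallyWellOrderedOn_iff_exists_lt]
    intro f hf
    choose h a hfe hh using hf
    obtain ⟨g1, hg1⟩ := (WellQuasiOrdered.exists_monotone_subseq hr a)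
    -- pigeonhole on heights
    obtain ⟨i, j, hij, hE⟩ : ∃ i j, i < j ∧ h (g1 i) = h (g1 j) := by
      by_contra hcon
      push Not at hcon
      have hinj : Function.Injective (fun n => (⟨h (g1 n), hh _⟩ : Fin N)) := by
        intro i j hij
        simp only [Fin.mk.injEq] at hij
        rcases lt_trichotomy i j with h1 | h1 | h1
        · exact absurd hij (hcon i j h1)
        · exact h1
        · exact absurd hij.symm (hcon j i h1)
      exact not_injective_infinite_finite _ hinj
    refine ⟨g1 i, g1 j, g1.strictMono hij, ?_⟩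
    rw [hfe, hfe (g1 j), hE]
    exact .leaf (hg1 _ _ hij.le)
  refine (pwo_Cl r hr N N 0 (by omega) _ hG).mono ?_
  intro t ht
  show Cl _ N 0 t
  induction t with
  | leaf h a => exact .base ⟨h, a, rfl, ht⟩
  | node h a l r' ihl ihr =>
    obtain ⟨h1, h2, h3⟩ := ht
    exact .node (Nat.zero_le _) h1 (ihl h2) (ihr h3)

end Pool.Agent.H229
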